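import Pool.Agent.LibTC1.KM

/-!
The discriminant: definitions. `Dl X ε σ m₁ W x z`: `z` is the product of the inverse torsions `τ_m(x)`, `m₁ ≤ m < m₁ + W`, of the
cone of `D` in weight `m` at the point `x` (with coordinates in an extension field `L` of `k`).
-/

open scoped Classical
open MvPolynomial

set_option linter.unusedSectionVars false

namespace Pool.Agent.LibTC1

open Pool.Agent.LibBH2 Pool.Agent.LibQC8

variable {ι : Type} [Fintype ι] {r : ℕ} {k : Type} [Field k] {P : Tor ι r}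

/-- extension of the base field -/
noncomputable def bc (X : Hyp k P) (L : Type) [Field L] [Algebra k L] : Hyp L P where
  F := MvPolynomial.map (algebraMap k L) X.F
  ne := fun h => X.ne (MvPolynomial.map_injective _ (algebraMap k L).injective (by rw [h, map_zero]))
  mon := fun e he => X.mon e (MvPolynomial.support_map_subset _ _ he)

namespace KW

open Pool.Agent.LibPK60

/-- the matrix of a permutation -/
noncomputable def rm {I : Type} (R : Type) [Zero R] [One R] (σ : Equiv.Perm I) : Matrix I I R :=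
  fun s t => if s = σ t then 1 else 0

/-- an involution which exchanges the parities -/
def Sw {I : Type} (pr : I → Bool) (σ : Equiv.Perm I) : Prop := ∀ t, pr (σ t) ≠ pr t ∧ σ (σ t) = t

/-- `z` is the torsion of the exact complex with the matrix `D` -/
def TV {I L : Type} [Fintype I] [Field L] (pr : I → Bool) (σ : Equiv.Perm I) (D : Matrix I I L) (z : L) :
    Prop :=
  ∃ H, Tor.Hom pr D H ∧ z = Tor.de pr false (rm L σ * (D + H))

/-- the matrix of the cone of `D` in weight `m` at the point `x` -/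
noncomputable abbrev CM (X : Hyp k P) {a : ι → ℤ} {M : ℕ} (ε : Fin (M + 1) ≃ Un a) (m : ℕ)
    {L : Type} [Field L] [Algebra k L] (x : ι → L) :
    Matrix (IxW (wt ε) (ds M) m) (IxW (wt ε) (ds M) m) L :=
  CMW (wt ε) (ds M) m (gs X ε M x) (th ε x) (as M)

/-- the discriminant at `x` exists and has the value `z` -/
def Dl (X : Hyp k P) {a : ι → ℤ} {M : ℕ} (ε : Fin (M + 1) ≃ Un a)
    (σ : ∀ m, Equiv.Perm (IxW (wt ε) (ds M) m)) (m₁ W : ℕ) {L : Type} [Field L] [Algebra k L]
    (x : ι → L) (z : L) : Prop :=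
  aeval x X.F = 0 ∧ ∃ τ : ℕ → L, (∀ m ∈ Finset.Ico m₁ (m₁ + W), TV parW (σ m) (CM X ε m x) (τ m)) ∧
    z = ∏ m ∈ Finset.Ico m₁ (m₁ + W), (τ m)⁻¹

end KW

/-- The discriminant of the class `a`, with its properties (D1) - (D7). -/
structure Disc (X : Hyp k P) (a : ι → ℤ) where
  T : ι → ℕ
  D : (L : Type) → [Field L] → [Algebra k L] → (ι → L) → L → Prop
  uniq : ∀ (L : Type) [Field L] [Algebra k L] (x : ι → L) (z z' : L), D L x z → D L x z' → z = z'
  ne : ∀ (L : Type) [Field L] [Algebra k L] (x : ι → L) (z : L), D L x z → z ≠ 0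
  scale : ∀ (L : Type) [Field L] [Algebra k L] (x l : ι → L) (z : L), D L x z → IsT P l →
    D L (fun i => l i * x i) ((∏ i, l i ^ T i) * z)
  map : ∀ (L L' : Type) [Field L] [Algebra k L] [Field L'] [Algebra k L'] (φ : L →ₐ[k] L')
    (x : ι → L) (z : L), D L x z → D L' (fun i => φ (x i)) (φ z)
  place : ∀ (k' K : Type) [Field k'] [IsAlgClosed k'] [Algebra k k'] [Field K] [Algebra k K] [Algebra k' K]
    [IsScalarTower k k' K] (v : Place k' K) (u : ι → K) (p : ι → k'), aeval u X.F = 0 →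
    aeval p X.F = 0 → zs p ∈ P.C → (∀ i, v.Zer (u i - algebraMap k' K (p i))) →
    (¬ ∃ f, Sol (bc X k') a p f) →
    ∃ z z₀, D K u z ∧ D k' p z₀ ∧ v.Zer (z - algebraMap k' K z₀)
  ex : ∀ (L : Type) [Field L] [IsAlgClosed L] [Algebra k L] (x : ι → L), aeval x X.F = 0 →
    zs x ∈ P.C → (¬ ∃ f, Sol (bc X L) a x f) → ∃ z, D L x z
  nosol : ∀ (L : Type) [Field L] [Algebra k L] (x : ι → L) (z : L), D L x z → zs x ∈ P.C →
    ¬ ∃ f, Sol (bc X L) a x f
  pos : ∀ i, T i = 0 → a i = dk a - 1

end Pool.Agent.LibTC1
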