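import Pool.Agent.LibTC1.B0

/-!
[TC1 BA1] torsion values: uniqueness, nonvanishing, maps. Plan (see LibPK60/T1, T2: `Tor.de_mul`, `Tor.Hom.indep`, `Tor.Hom.inv`, `Tor.od_mul` ...):
`rm_od`, `rm_sq`: direct from `Sw` (`Matrix.mul_apply`, the sum has one nonzero term). `TV_uniq`: `Tor.Hom.indep`. `TV_ne`: with `S = rm σ`:
`S (D + H) * ((D + H) S) = 1` (`Hom.inv`), `S (D + H)` is even (`od_mul`), so `de_mul`, `de_one` give `de .. * de .. = 1`.
`TV_map`: map the homotopy; `Matrix.map_mul`, `Matrix.map_add`, `RingHom.map_det`, `de` is the determinant of a submatrix.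
-/

open scoped Classical
open MvPolynomial

set_option linter.unusedSectionVars false

namespace Pool.Agent.LibTC1.KW

open Pool.Agent.LibPK60 Pool.Agent.LibBH2 Pool.Agent.LibQC8

variable {I L : Type} [Fintype I] [Field L] {pr : I → Bool} {σ : Equiv.Perm I}

theorem rm_od {R : Type} [Field R] (h : Sw pr σ) : Tor.IsOd pr (rm R σ) := by
  intro s t hst
  unfold rm
  rw [if_neg]
  rintro rfl
  exact (h t).1 hst

theorem rm_sq {R : Type} [Field R] (h : Sw pr σ) : rm R σ * rm R σ = 1 := by
  ext s t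
  rw [Matrix.mul_apply, Finset.sum_eq_single (σ t)]
  · unfold rm
    rw [(h t).2, if_pos rfl, mul_one, Matrix.one_apply]
  · intro j _ hj
    unfold rm
    rw [if_neg hj, mul_zero]
  · intro hn
    exact absurd (Finset.mem_univ _) hn

theorem TV_uniq (h : Sw pr σ) {D : Matrix I I L} (hD : IsOdd pr D) (hDD : D * D = 0) {z z' : L}
    (hz : TV pr σ D z) (hz' : TV pr σ D z') : z = z' := by
  obtain ⟨H, hH, rfl⟩ := hz
  obtain ⟨H', hH', rfl⟩ := hz'
  exact Tor.Hom.indep hD hDD hH hH' (rm_od h)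

theorem TV_ne (h : Sw pr σ) {D : Matrix I I L} (hD : IsOdd pr D) (hDD : D * D = 0) {z : L}
    (hz : TV pr σ D z) : z ≠ 0 := by
  obtain ⟨H, hH, rfl⟩ := hz
  have h1 : (rm L σ * (D + H)) * ((D + H) * rm L σ) = 1 := by
    rw [Matrix.mul_assoc, ← Matrix.mul_assoc (D + H), Tor.Hom.inv hDD hH, Matrix.one_mul, rm_sq h]
  have h2 : Tor.IsEv pr (rm L σ * (D + H)) := Tor.od_mul (rm_od h) (Tor.od_add hD hH.od)
  have h3 := Tor.de_mul (pr := pr) false (B := (D + H) * rm L σ) h2
  rw [h1, Tor.de_one] at h3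
  intro h0
  rw [h0, zero_mul] at h3
  exact one_ne_zero h3

theorem TV_map {L' : Type} [Field L'] (φ : L →+* L') {D : Matrix I I L} {z : L}
    (hz : TV pr σ D z) : TV pr σ (D.map φ) (φ z) := by
  obtain ⟨H, hH, rfl⟩ := hz
  refine ⟨H.map φ, ⟨?_, ?_, ?_⟩, ?_⟩
  · intro s t hst
    rw [Matrix.map_apply, hH.od s t hst, map_zero]
  · rw [← Matrix.map_mul, hH.sq]
    ext s t
    simp
  · rw [← Matrix.map_mul, ← Matrix.map_mul]
    have h1 : (D * H).map φ + (H * D).map φ = (D * H + H * D).map φ := by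
      ext s t
      rw [Matrix.add_apply, Matrix.map_apply, Matrix.map_apply, Matrix.map_apply,
        Matrix.add_apply, map_add]
    rw [h1, hH.ht]
    ext s t
    by_cases hst : s = t
    · rw [hst]; simp
    · simp [Matrix.one_apply_ne hst]
  · have h2 : rm L' σ * (D.map φ + H.map φ) = (rm L σ * (D + H)).map φ := by
      rw [Matrix.map_mul]
      have h3 : (D + H).map φ = D.map φ + H.map φ := by
        ext s t
        simp
      have h4 : (rm L σ).map φ = rm L' σ := by
        ext s t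
        rw [Matrix.map_apply]
        unfold rm
        by_cases h5 : s = σ t
        · rw [if_pos h5, if_pos h5, map_one]
        · rw [if_neg h5, if_neg h5, map_zero]
      rw [h3, h4]
    rw [h2]
    unfold Tor.de
    rw [RingHom.map_det]
    congr 1

end Pool.Agent.LibTC1.KW
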