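import Pool.Agent.LibTC1.BA1

/-!
[TC1 BA3] torsion values and specialisation. Plan: as in `Tor.exists_hom` (LibPK60/T3.lean), but with the value of the homotopy: `h' = H.map`, `U = D h' + h' D` has the value `1` at `v`
(copy the proof), `V = U⁻¹` has the value `1` too (`V - 1 = (1 - U) V`, the entries of `1 - U` vanish at `v`, those of `V` are regular: `reg_inv`, `zer_sum`, `Place.Zer.mul_reg`), so
`F = (V h') D (V h')` (`Hom.mk'`) has the value `H C H`, which is the square-zero homotopy `Hom.mk'` of `C` (`C * C = 0` is `hCC`). So `z = de (rm (D + F))`, `z₀ = de (rm (C + H C H))`,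
and `val_det` (the entries of `rm` are `0` or `1`, `Place.val_const`).
-/

open scoped Classical
open MvPolynomial

set_option linter.unusedSectionVars false

namespace Pool.Agent.LibTC1.KW

open Pool.Agent.LibPK60 Pool.Agent.LibBH2 Pool.Agent.LibQC8

theorem val_mat_mul {k K : Type} [Field k] [Field K] [Algebra k K] {I : Type} [Fintype I]
    {v : Place k K} {A B : Matrix I I K} {A₀ B₀ : Matrix I I k}
    (hA : ∀ i j, v.Zer (A i j - algebraMap k K (A₀ i j)))
    (hB : ∀ i j, v.Zer (B i j - algebraMap k K (B₀ i j))) (i j : I) :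
    v.Zer ((A * B) i j - algebraMap k K ((A₀ * B₀) i j)) := by
  rw [Matrix.mul_apply, Matrix.mul_apply, map_sum, ← Finset.sum_sub_distrib]
  exact Tor.zer_sum _ _ fun l _ => Place.val_mul (hA i l) (hB l j)

theorem val_mat_add {k K : Type} [Field k] [Field K] [Algebra k K] {I : Type}
    {v : Place k K} {A B : Matrix I I K} {A₀ B₀ : Matrix I I k}
    (hA : ∀ i j, v.Zer (A i j - algebraMap k K (A₀ i j)))
    (hB : ∀ i j, v.Zer (B i j - algebraMap k K (B₀ i j))) (i j : I) :
    v.Zer ((A + B) i j - algebraMap k K ((A₀ + B₀) i j)) := by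
  rw [Matrix.add_apply, Matrix.add_apply]
  exact Place.val_add (hA i j) (hB i j)

theorem val_rm {k K : Type} [Field k] [Field K] [Algebra k K] {I : Type}
    {v : Place k K} (σ : Equiv.Perm I) (i j : I) :
    v.Zer (rm K σ i j - algebraMap k K (rm k σ i j)) := by
  unfold rm
  by_cases h : i = σ j
  · rw [if_pos h, if_pos h, map_one, sub_self]
    exact v.zer_zero
  · rw [if_neg h, if_neg h, map_zero, sub_self]
    exact v.zer_zero

theorem TV_place {k K : Type} [Field k] [Field K] [Algebra k K] {I : Type} [Fintype I] {pr : I → Bool}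
    {σ : Equiv.Perm I} {D : Matrix I I K} {C H : Matrix I I k} (hD : IsOdd pr D) (hDD : D * D = 0)
    (hC : IsOdd pr C) (hCC : C * C = 0) (hH : IsOdd pr H) (h : C * H + H * C = 1) (v : Place k K)
    (hv : ∀ i j, v.Zer (D i j - algebraMap k K (C i j))) :
    ∃ z z₀, TV pr σ D z ∧ TV pr σ C z₀ ∧ v.Zer (z - algebraMap k K z₀) := by
  have hD' : Tor.IsOd pr D := fun s t e => hD s t e
  have hC' : Tor.IsOd pr C := fun s t e => hC s t e
  have hH' : Tor.IsOd pr H := fun s t e => hH s t e
  set h' : Matrix I I K := H.map (algebraMap k K) with hh'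
  have h'od : Tor.IsOd pr h' := by
    intro s t e
    rw [hh', Matrix.map_apply, hH s t e, map_zero]
  have h'val : ∀ i j, v.Zer (h' i j - algebraMap k K (H i j)) := by
    intro i j
    rw [hh', Matrix.map_apply, sub_self]
    exact v.zer_zero
  set U : Matrix I I K := D * h' + h' * D with hU
  have hval : ∀ i j, v.Zer (U i j - algebraMap k K ((1 : Matrix I I k) i j)) := by
    intro i j
    rw [← h, hU]
    exact val_mat_add (val_mat_mul hv h'val) (val_mat_mul h'val hv) i j
  obtain ⟨V, h1, h2, h3⟩ := Tor.reg_inv hval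
  have hUev : Tor.IsEv pr U := Tor.ev_add (Tor.od_mul hD' h'od) (Tor.od_mul h'od hD')
  have hVev := Tor.ev_inv hUev h1 h2
  have hDU : D * U = U * D := by
    rw [hU, Matrix.mul_add, Matrix.add_mul, ← Matrix.mul_assoc, hDD, Matrix.zero_mul, zero_add,
      Matrix.mul_assoc h', hDD, Matrix.mul_zero, add_zero, Matrix.mul_assoc]
  have hDV : D * V = V * D := by
    calc D * V = (V * U) * D * V := by rw [h2, Matrix.one_mul]
      _ = V * (U * D) * V := by simp only [Matrix.mul_assoc]
      _ = V * (D * U) * V := by rw [hDU]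
      _ = V * D * (U * V) := by simp only [Matrix.mul_assoc]
      _ = V * D := by rw [h1, Matrix.mul_one]
  have h4 : D * (V * h') + V * h' * D = 1 := by
    rw [← Matrix.mul_assoc, hDV, Matrix.mul_assoc, Matrix.mul_assoc, ← Matrix.mul_add, ← hU, h2]
  have h5 : Tor.IsOd pr (V * h') := Tor.ev_mul_od hVev h'od
  -- the value of `V`
  have hVval : ∀ i j, v.Zer (V i j - algebraMap k K ((1 : Matrix I I k) i j)) := by
    intro i j
    have e1 : V i j - algebraMap k K ((1 : Matrix I I k) i j) =
        -∑ l, (U i l - algebraMap k K ((1 : Matrix I I k) i l)) * V l j := by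
      have e2 : ∑ l, U i l * V l j = (1 : Matrix I I K) i j := by
        rw [← Matrix.mul_apply, h1]
      have e3 : ∀ i l, algebraMap k K ((1 : Matrix I I k) i l) = (1 : Matrix I I K) i l := by
        intro i l
        by_cases h : i = l
        · rw [h, Matrix.one_apply_eq, Matrix.one_apply_eq, map_one]
        · rw [Matrix.one_apply_ne h, Matrix.one_apply_ne h, map_zero]
      have e4 : ∑ l, algebraMap k K ((1 : Matrix I I k) i l) * V l j = V i j := by
        have e5 : ∑ l, (1 : Matrix I I K) i l * V l j = V i j := by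
          rw [← Matrix.mul_apply, Matrix.one_mul]
        rw [← e5]
        exact Finset.sum_congr rfl fun l _ => by rw [e3]
      simp only [sub_mul]
      rw [Finset.sum_sub_distrib, e2, e4, e3]
      ring
    rw [e1]
    refine Place.Zer.neg ?_
    exact Tor.zer_sum _ _ fun l _ => Place.Zer.mul_reg (hval i l) (h3 l j)
  have h6 : ∀ i j, v.Zer ((V * h') i j - algebraMap k K (H i j)) := by
    intro i j
    have := val_mat_mul hVval h'val i j
    rwa [Matrix.one_mul] at this
  have hF := val_mat_mul (val_mat_mul h6 hv) h6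
  refine ⟨Tor.de pr false (rm K σ * (D + V * h' * D * (V * h'))),
    Tor.de pr false (rm k σ * (C + H * C * H)), ⟨_, Tor.Hom.mk' hD' hDD h5 h4, rfl⟩,
    ⟨_, Tor.Hom.mk' hC' hCC hH' h, rfl⟩, ?_⟩
  have hG := val_mat_mul (val_rm (v := v) σ) (val_mat_add hv hF)
  exact Tor.val_det fun i j => hG i.1 j.1

end Pool.Agent.LibTC1.KW
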