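import Pool.Agent.LibTC1.B0

/-!
[TC1 BB2] the matrix of the cone is compatible with maps of fields. Plan: `gen ε (φ ∘ x) i = (gen ε x i).map (MvPolynomial.map φ)`, so `cmp X (gen ε (φ ∘ x)) = (cmp X (gen ε x)).map ..`
(`cmp` is `aeval`, `MvPolynomial.map_aeval`/induction on `X.F`), `kap`, `gs`: coefficients; `th` directly. `CMW`: all entries are coefficients of `cdW`, built from `dv`, `kd`, `DW` (`pderiv_map`), which commute with
`MvPolynomial.map φ`; `basW` is mapped to `basW`; `coeff_map`.
-/

open scoped Classical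
open MvPolynomial

set_option linter.unusedSectionVars false

namespace Pool.Agent.LibTC1.KW

open Pool.Agent.LibPK60 Pool.Agent.LibBH2 Pool.Agent.LibQC8

variable {ι : Type} [Fintype ι] {r : ℕ} {k : Type} [Field k] {P : Tor ι r}

section BB2

variable {n M : ℕ} {L L' : Type} [Field L] [Field L'] (φ : L →+* L')

private theorem BB2_dv (θ : Fin n → MvPolynomial (Fin n) L) (f : MvPolynomial (Fin n) L) :
    dv (fun i => MvPolynomial.map φ (θ i)) (MvPolynomial.map φ f) = MvPolynomial.map φ (dv θ f) := by
  unfold dv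
  rw [map_sum]
  refine Finset.sum_congr rfl fun i _ => ?_
  rw [map_mul, pderiv_map]

private theorem BB2_DW (θ : Fin n → MvPolynomial (Fin n) L) (a : Fin M → ℕ) (f : Ch L n M)
    (J : Finset (Fin M)) :
    DW (fun i => MvPolynomial.map φ (θ i)) a (fun J => MvPolynomial.map φ (f J)) J =
      MvPolynomial.map φ (DW θ a f J) := by
  simp only [DW]
  rw [map_add, BB2_dv, map_sum]
  congr 1
  refine Finset.sum_congr rfl fun i _ => ?_
  rw [map_sum]
  refine Finset.sum_congr rfl fun j _ => ?_
  split_ifs with h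
  · rw [map_mul, map_natCast]
  · rw [map_zero]

private theorem BB2_kd (g : Fin M → MvPolynomial (Fin n) L) (f : Ch L n M) (J : Finset (Fin M)) :
    kd (fun j => MvPolynomial.map φ (g j)) (fun J => MvPolynomial.map φ (f J)) J =
      MvPolynomial.map φ (kd g f J) := by
  simp only [kd]
  rw [map_sum]
  refine Finset.sum_congr rfl fun j _ => ?_
  rw [map_zsmul, smul_eq_mul, smul_eq_mul, map_mul]

private theorem BB2_cd (g : Fin M → MvPolynomial (Fin n) L) (θ : Fin n → MvPolynomial (Fin n) L)
    (a : Fin M → ℕ) (F : Bool → Ch L n M) (b : Bool) (J : Finset (Fin M)) :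
    cdW (fun j => MvPolynomial.map φ (g j)) (fun i => MvPolynomial.map φ (θ i)) a
      (fun b J => MvPolynomial.map φ (F b J)) b J = MvPolynomial.map φ (cdW g θ a F b J) := by
  unfold cdW
  cases b
  · rw [if_neg Bool.false_ne_true, if_neg Bool.false_ne_true]
    exact BB2_kd φ g (F false) J
  · rw [if_pos rfl, if_pos rfl, Pi.sub_apply, Pi.sub_apply, map_sub]
    rw [BB2_kd φ g (F true) J, BB2_DW φ θ a (F false) J]

private theorem BB2_bas {w : Fin n → ℕ} {δ : Fin M → ℕ} {d : ℕ} (t : IxW w δ d) :
    basW L' t = fun b J => MvPolynomial.map φ (basW L t b J) := by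
  funext b J
  unfold basW
  split_ifs with h
  · rw [map_monomial, φ.map_one]
  · rw [map_zero]

private theorem BB2_gen {a : ι → ℤ} (ε : Fin n ≃ Un a) (x : ι → L) (i : ι) :
    gen ε (fun i => φ (x i)) i = (gen ε x i).map (MvPolynomial.map φ) := by
  unfold gen
  rw [Polynomial.map_add, Polynomial.map_C, map_C, Polynomial.map_sum]
  congr 1
  refine Finset.sum_congr rfl fun m _ => ?_
  rw [Polynomial.map_mul, Polynomial.map_C, map_X, Polynomial.map_pow, Polynomial.map_X]

private theorem BB2_th {a : ι → ℤ} (ε : Fin n ≃ Un a) (x : ι → L) (t : Fin n) :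
    th ε (fun i => φ (x i)) t = MvPolynomial.map φ (th ε x t) := by
  unfold th
  rw [map_mul, map_natCast]
  congr 1
  split_ifs with h
  · rw [map_C]
  · rw [map_X]

end BB2

private theorem BB2_cmp (X : Hyp k P) {n : ℕ} {L L' : Type} [Field L] [Algebra k L] [Field L'] [Algebra k L']
    (φ : L →ₐ[k] L') (f : ι → Polynomial (MvPolynomial (Fin n) L)) :
    cmp X (fun i => (f i).map (MvPolynomial.map (φ : L →+* L'))) =
      (cmp X f).map (MvPolynomial.map (φ : L →+* L')) := by
  have h1 : (Polynomial.mapRingHom (MvPolynomial.map (φ : L →+* L'))).comp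
      (algebraMap k (Polynomial (MvPolynomial (Fin n) L))) =
      algebraMap k (Polynomial (MvPolynomial (Fin n) L')) := by
    refine RingHom.ext fun c => ?_
    have e1 : algebraMap k (Polynomial (MvPolynomial (Fin n) L)) c =
        Polynomial.C (C (algebraMap k L c)) := rfl
    have e2 : algebraMap k (Polynomial (MvPolynomial (Fin n) L')) c =
        Polynomial.C (C (algebraMap k L' c)) := rfl
    rw [RingHom.comp_apply, e1, e2, Polynomial.coe_mapRingHom, Polynomial.map_C, map_C]
    have e3 : (φ : L →+* L') (algebraMap k L c) = algebraMap k L' c := φ.commutes c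
    rw [e3]
  have h2 := map_aeval f (Polynomial.mapRingHom (MvPolynomial.map (φ : L →+* L'))) X.F
  rw [h1] at h2
  have h3 : (cmp X f).map (MvPolynomial.map (φ : L →+* L')) =
      (Polynomial.mapRingHom (MvPolynomial.map (φ : L →+* L'))) (aeval f X.F) := by
    rw [Polynomial.coe_mapRingHom]
    rfl
  rw [h3, h2]
  unfold cmp
  rw [aeval_def, coe_eval₂Hom]
  rfl

theorem CM_map (X : Hyp k P) {a : ι → ℤ} {M : ℕ} (ε : Fin (M + 1) ≃ Un a) (m : ℕ) {L L' : Type}
    [Field L] [Algebra k L] [Field L'] [Algebra k L'] (φ : L →ₐ[k] L') (x : ι → L) :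
    CM X ε m (fun i => φ (x i)) = (CM X ε m x).map φ := by
  have hgs : gs X ε M (fun i => φ (x i)) =
      fun j => MvPolynomial.map (φ : L →+* L') (gs X ε M x j) := by
    funext j
    unfold gs kap
    have h1 : gen ε (fun i => φ (x i)) =
        fun i => (gen ε x i).map (MvPolynomial.map (φ : L →+* L')) := by
      funext i
      exact BB2_gen (φ : L →+* L') ε x i
    rw [h1, BB2_cmp X φ (gen ε x), Polynomial.coeff_map]
  have hth : th ε (fun i => φ (x i)) =
      fun t => MvPolynomial.map (φ : L →+* L') (th ε x t) := by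
    funext t
    exact BB2_th (φ : L →+* L') ε x t
  ext s t
  have h3 : (CM X ε m x).map φ s t = φ (CM X ε m x s t) := rfl
  rw [h3]
  unfold CM CMW
  rw [hgs, hth, BB2_bas (φ : L →+* L') t, BB2_cd, coeff_map]
  rfl

end Pool.Agent.LibTC1.KW
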