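import Pool.Agent.LibTC1.KO

/-!
[TC1 BB4] the total weight in a window. Plan (see KO.lean, copy the private lemmas needed): `Z = ∑_m q^m ∑_t (-1)^par = (1 - q) ∏_j (1 - q^(δ j)) / ∏_s (1 - q^(w s + 1))` is a polynomial by `h0`;
the number of factors in numerator and denominator is the same (`M + 1`), so `Z(1) = ∏ δ_j / ∏ (w_s + 1) > 0` (divide by `(1 - q)^(M + 1)`: `1 - q^n = (1 - q)(1 + ... + q^(n-1))`).
`T(q) = ∑_m q^m ∑_t (-1)^par (-(∑ α λ) - |J| L) = Z [L ∑_j q^(δ j) / (1 - q^(δ j)) - ∑_s λ_s q^(w s + 1) / (1 - q^(w s + 1))]` (`KO_gen`, `KO_subsets`, `KO_subsets_card`, `KO_one`, `KO_lin`).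
`1 - q^W = (1 - q^n) (1 + q^n + ... + q^(W - n))` for `n ∣ W`, so `U = (1 - q^W) T` is a polynomial, of degree `≤ deg Z + 2 W` independently of `λ, L`; its value at `1` is
`Z(1) W (L ∑ 1 / δ_j - ∑ λ_s / (w_s + 1))`. For `m₁ ≥ deg U` the sum of the coefficients of `T` over `m₁ ≤ m < m₁ + W` is `U(1)`: the partial sums `A_m = ∑_(m' ≤ m) T_m'` satisfy `A_m - A_(m - W) = ∑_(m' ≤ m) U_m'`.
`N = Z(1) W`.
-/

open scoped Classical
open MvPolynomial

set_option linter.unusedSectionVars false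

namespace Pool.Agent.LibTC1.KW

open Pool.Agent.LibPK60

/-! ### monomials of given weight -/

private noncomputable def BB4_mon {n : ℕ} (w : Fin n → ℕ) (m : ℕ) : Finset (Fin n →₀ ℕ) :=
  (Finset.Iic (Finsupp.equivFunOnFinite.symm fun _ : Fin n => m)).filter fun α => wm w α = m

private theorem BB4_mem {n : ℕ} {w : Fin n → ℕ} {m : ℕ} {α : Fin n →₀ ℕ} :
    α ∈ BB4_mon w m ↔ wm w α = m := by
  unfold BB4_mon
  rw [Finset.mem_filter, Finset.mem_Iic]
  constructor
  · exact fun h => h.2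
  · intro h
    refine ⟨fun i => ?_, h⟩
    have h1 := le_wm w α i
    rw [h] at h1
    exact h1

private theorem BB4_wm_single {n : ℕ} (w : Fin n → ℕ) (α : Fin n →₀ ℕ) (t : Fin n) :
    wm w (α + Finsupp.single t 1) = wm w α + (w t + 1) := by
  unfold wm
  have h1 : ∀ i, (w i + 1) * (α + Finsupp.single t 1 : Fin n →₀ ℕ) i =
      (w i + 1) * α i + (w i + 1) * (Finsupp.single t 1 : Fin n →₀ ℕ) i :=
    fun i => by rw [Finsupp.add_apply, mul_add]
  rw [Finset.sum_congr rfl fun i _ => h1 i, Finset.sum_add_distrib]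
  congr 1
  rw [Finset.sum_eq_single t]
  · rw [Finsupp.single_eq_same, mul_one]
  · intro b _ hb
    rw [Finsupp.single_eq_of_ne hb, mul_zero]
  · intro h
    exact absurd (Finset.mem_univ t) h

private theorem BB4_wm_ge {n : ℕ} (w : Fin n → ℕ) (α : Fin n →₀ ℕ) (t : Fin n) (h : α t ≠ 0) :
    w t + 1 ≤ wm w α := by
  have h1 : (w t + 1) * α t ≤ wm w α :=
    Finset.single_le_sum (f := fun i => (w i + 1) * α i) (fun _ _ => Nat.zero_le _)
      (Finset.mem_univ t)
  exact le_trans (Nat.le_mul_of_pos_right _ (Nat.pos_of_ne_zero h)) h1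

private noncomputable def BB4_S {n : ℕ} (w : Fin n → ℕ) (φ : (Fin n →₀ ℕ) → ℚ) : PowerSeries ℚ :=
  PowerSeries.mk fun m => ∑ α ∈ BB4_mon w m, φ α

private theorem BB4_coeff {n : ℕ} (w : Fin n → ℕ) (φ : (Fin n →₀ ℕ) → ℚ) (m : ℕ) :
    PowerSeries.coeff m (BB4_S w φ) = ∑ α ∈ BB4_mon w m, φ α := PowerSeries.coeff_mk _ _

private theorem BB4_cancel {n : ℕ} {α : Fin n →₀ ℕ} {t : Fin n} (h : α t ≠ 0) :
    α - Finsupp.single t 1 + Finsupp.single t 1 = α :=
  tsub_add_cancel_of_le (Finsupp.single_le_iff.2 (Nat.one_le_iff_ne_zero.2 h))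

private theorem BB4_shift {n : ℕ} (w : Fin n → ℕ) (t : Fin n) (φ : (Fin n →₀ ℕ) → ℚ) :
    PowerSeries.X ^ (w t + 1) * BB4_S w φ =
      BB4_S w fun α => if α t = 0 then 0 else φ (α - Finsupp.single t 1) := by
  ext m
  rw [PowerSeries.coeff_X_pow_mul', BB4_coeff, BB4_coeff]
  by_cases h : w t + 1 ≤ m
  · rw [if_pos h]
    have h1 : ∑ α ∈ BB4_mon w m, (if α t = 0 then 0 else φ (α - Finsupp.single t 1)) =
        ∑ α ∈ (BB4_mon w m).filter (fun α => ¬ α t = 0), φ (α - Finsupp.single t 1) := by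
      rw [Finset.sum_filter]
      refine Finset.sum_congr rfl fun α _ => ?_
      by_cases h2 : α t = 0
      · rw [if_pos h2, if_neg (not_not.2 h2)]
      · rw [if_neg h2, if_pos h2]
    rw [h1]
    refine Finset.sum_bij' (fun β _ => β + Finsupp.single t 1) (fun α _ => α - Finsupp.single t 1)
      ?_ ?_ ?_ ?_ ?_
    · intro β hβ
      rw [BB4_mem] at hβ
      rw [Finset.mem_filter, BB4_mem, BB4_wm_single, hβ]
      refine ⟨by omega, ?_⟩
      rw [Finsupp.add_apply, Finsupp.single_eq_same]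
      omega
    · intro α hα
      rw [Finset.mem_filter, BB4_mem] at hα
      rw [BB4_mem]
      have h2 := BB4_wm_single w (α - Finsupp.single t 1) t
      rw [BB4_cancel hα.2, hα.1] at h2
      omega
    · intro β _
      exact add_tsub_cancel_right _ _
    · intro α hα
      rw [Finset.mem_filter] at hα
      exact BB4_cancel hα.2
    · intro β _
      rw [add_tsub_cancel_right]
  · rw [if_neg h]
    symm
    refine Finset.sum_eq_zero fun α hα => ?_
    rw [BB4_mem] at hα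
    rw [if_pos]
    by_contra h2
    exact h (hα ▸ BB4_wm_ge w α t h2)

private theorem BB4_step {n : ℕ} (w : Fin n → ℕ) (t : Fin n) (φ : (Fin n →₀ ℕ) → ℚ) :
    BB4_S w φ * (1 - PowerSeries.X ^ (w t + 1)) =
      BB4_S w fun α => φ α - if α t = 0 then 0 else φ (α - Finsupp.single t 1) := by
  rw [mul_sub, mul_one, mul_comm, BB4_shift]
  ext m
  rw [map_sub, BB4_coeff, BB4_coeff, BB4_coeff, Finset.sum_sub_distrib]

private theorem BB4_prod {n : ℕ} (w : Fin n → ℕ) (Q : Finset (Fin n)) :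
    BB4_S w (fun _ => 1) * ∏ t ∈ Q, (1 - PowerSeries.X ^ (w t + 1)) =
      BB4_S w fun α => if ∀ s ∈ Q, α s = 0 then 1 else 0 := by
  induction Q using Finset.induction_on with
  | empty =>
    rw [Finset.prod_empty, mul_one]
    congr 1
    funext α
    rw [if_pos]
    intro s hs
    exact absurd hs (Finset.notMem_empty s)
  | insert t Q ht ih =>
    rw [Finset.prod_insert ht, mul_comm (1 - PowerSeries.X ^ (w t + 1) : PowerSeries ℚ),
      ← mul_assoc, ih, BB4_step]
    congr 1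
    funext α
    by_cases h1 : α t = 0
    · rw [if_pos h1, sub_zero]
      by_cases h2 : ∀ s ∈ Q, α s = 0
      · rw [if_pos h2, if_pos]
        intro s hs
        rcases Finset.mem_insert.1 hs with rfl | hs
        · exact h1
        · exact h2 s hs
      · rw [if_neg h2, if_neg]
        exact fun h3 => h2 fun s hs => h3 s (Finset.mem_insert_of_mem hs)
    · have h5 : ¬ ∀ s ∈ insert t Q, α s = 0 := fun h3 => h1 (h3 t (Finset.mem_insert_self t Q))
      rw [if_neg h1, if_neg h5]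
      have h4 : (∀ s ∈ Q, (α - Finsupp.single t 1 : Fin n →₀ ℕ) s = 0) ↔ ∀ s ∈ Q, α s = 0 := by
        refine forall₂_congr fun s hs => ?_
        have hst : s ≠ t := fun h => ht (h ▸ hs)
        rw [Finsupp.tsub_apply, Finsupp.single_eq_of_ne hst, Nat.sub_zero]
      rw [if_congr h4 rfl rfl, sub_self]

private theorem BB4_one {n : ℕ} (w : Fin n → ℕ) :
    BB4_S w (fun _ => 1) * ∏ t, (1 - PowerSeries.X ^ (w t + 1)) = 1 := by
  rw [BB4_prod]
  ext m
  rw [BB4_coeff, PowerSeries.coeff_one]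
  have h0 : ∀ α : Fin n →₀ ℕ, (∀ s ∈ Finset.univ, α s = 0) ↔ α = 0 := by
    intro α
    constructor
    · exact fun h => Finsupp.ext fun s => h s (Finset.mem_univ s)
    · rintro rfl s _
      rfl
  have hw0 : wm w (0 : Fin n →₀ ℕ) = 0 := by
    unfold wm
    exact Finset.sum_eq_zero fun i _ => by rw [Finsupp.coe_zero, Pi.zero_apply, mul_zero]
  simp only [h0]
  rw [Finset.sum_ite_eq']
  by_cases hm : m = 0
  · rw [if_pos hm, if_pos]
    rw [BB4_mem, hw0, hm]
  · rw [if_neg hm, if_neg]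
    rw [BB4_mem, hw0]
    exact fun h => hm h.symm

private theorem BB4_lin {n : ℕ} (w : Fin n → ℕ) (t : Fin n) :
    BB4_S w (fun α => (α t : ℚ)) * (1 - PowerSeries.X ^ (w t + 1)) =
      PowerSeries.X ^ (w t + 1) * BB4_S w (fun _ => 1) := by
  rw [BB4_step, BB4_shift]
  congr 1
  funext α
  by_cases h1 : α t = 0
  · rw [if_pos h1, if_pos h1, h1, Nat.cast_zero, sub_zero]
  · rw [if_neg h1, if_neg h1, Finsupp.tsub_apply, Finsupp.single_eq_same,
      Nat.cast_sub (Nat.one_le_iff_ne_zero.2 h1)]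
    push_cast
    ring

/-! ### the sum over the basis -/

private theorem BB4_sum_ix {n M : ℕ} (w : Fin n → ℕ) (δ : Fin M → ℕ) (m : ℕ)
    (F : Bool → Finset (Fin M) → (Fin n →₀ ℕ) → ℚ) :
    ∑ t : IxW w δ m, F t.1.1 t.1.2.1 t.1.2.2 =
      ∑ J : Finset (Fin M), ∑ b : Bool, PowerSeries.coeff m
        (PowerSeries.X ^ (∑ j ∈ J, δ j + (if b = true then 1 else 0)) * BB4_S w (F b J)) := by
  have h1 : ∀ (J : Finset (Fin M)) (b : Bool), PowerSeries.coeff m
      (PowerSeries.X ^ (∑ j ∈ J, δ j + (if b = true then 1 else 0)) * BB4_S w (F b J)) =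
      ∑ α ∈ (if ∑ j ∈ J, δ j + (if b = true then 1 else 0) ≤ m then
        BB4_mon w (m - (∑ j ∈ J, δ j + (if b = true then 1 else 0))) else ∅), F b J α := by
    intro J b
    rw [PowerSeries.coeff_X_pow_mul', BB4_coeff]
    by_cases h : ∑ j ∈ J, δ j + (if b = true then 1 else 0) ≤ m
    · rw [if_pos h, if_pos h]
    · rw [if_neg h, if_neg h, Finset.sum_empty]
  have hmem : ∀ (J : Finset (Fin M)) (b : Bool) (α : Fin n →₀ ℕ),
      α ∈ (if ∑ j ∈ J, δ j + (if b = true then 1 else 0) ≤ m then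
        BB4_mon w (m - (∑ j ∈ J, δ j + (if b = true then 1 else 0))) else ∅) ↔
      wm w α + ∑ j ∈ J, δ j + (if b = true then 1 else 0) = m := by
    intro J b α
    by_cases h : ∑ j ∈ J, δ j + (if b = true then 1 else 0) ≤ m
    · rw [if_pos h, BB4_mem]
      omega
    · rw [if_neg h]
      constructor
      · exact fun h2 => absurd h2 (Finset.notMem_empty α)
      · intro h2
        exfalso
        omega
  simp only [h1]
  rw [Finset.sum_sigma', Finset.sum_sigma']
  refine Finset.sum_bij (fun t _ => ⟨⟨t.1.2.1, t.1.1⟩, t.1.2.2⟩) ?_ ?_ ?_ ?_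
  · intro t _
    rw [Finset.mem_sigma]
    refine ⟨Finset.mem_sigma.2 ⟨Finset.mem_univ _, Finset.mem_univ _⟩, ?_⟩
    exact (hmem _ _ _).2 t.2
  · intro t _ t' _ h
    simp only [Sigma.mk.injEq, heq_eq_eq] at h
    exact Subtype.ext (Prod.ext h.1.2 (Prod.ext h.1.1 h.2))
  · intro x hx
    rw [Finset.mem_sigma] at hx
    exact ⟨⟨(x.1.2, x.1.1, x.2), (hmem _ _ _).1 hx.2⟩, Finset.mem_univ _, rfl⟩
  · intro t _
    rfl

private theorem BB4_sign {n M : ℕ} {w : Fin n → ℕ} {δ : Fin M → ℕ} {d : ℕ} (t : IxW w δ d) :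
    (if parW t = true then (-1 : ℤ) else 1) =
      (-1) ^ (t.1.2.1.card + (if t.1.1 = true then 1 else 0)) := by
  unfold parW
  by_cases h : (t.1.2.1.card + (if t.1.1 = true then 1 else 0)) % 2 = 1
  · rw [if_pos (by simpa using h), Odd.neg_one_pow (Nat.odd_iff.2 h)]
  · rw [if_neg (by simpa using h), Even.neg_one_pow (Nat.even_iff.2 (by omega))]

private theorem BB4_gen {n M : ℕ} (w : Fin n → ℕ) (δ : Fin M → ℕ) (lam : Fin n → ℤ) (L : ℤ) :
    (PowerSeries.mk fun m => ((∑ t : IxW w δ m, (if parW t = true then -1 else 1) *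
      (-(∑ i, (t.1.2.2 i : ℤ) * lam i) - ∑ _j ∈ t.1.2.1, L) : ℤ) : ℚ)) =
    (1 - PowerSeries.X) * ∑ J : Finset (Fin M),
      (PowerSeries.C ((-1 : ℚ) ^ J.card) * PowerSeries.X ^ (∑ j ∈ J, δ j)) *
        (-(∑ i, PowerSeries.C (lam i : ℚ) * BB4_S w (fun α => (α i : ℚ))) -
          PowerSeries.C ((J.card : ℚ) * (L : ℚ)) * BB4_S w (fun _ => 1)) := by
  ext m
  rw [PowerSeries.coeff_mk]
  let F : Bool → Finset (Fin M) → (Fin n →₀ ℕ) → ℚ := fun b J α =>
    (-1 : ℚ) ^ (J.card + (if b = true then 1 else 0)) *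
      (-(∑ i, (α i : ℚ) * (lam i : ℚ)) - (J.card : ℚ) * (L : ℚ))
  have h1 : ((∑ t : IxW w δ m, (if parW t = true then -1 else 1) *
      (-(∑ i, (t.1.2.2 i : ℤ) * lam i) - ∑ _j ∈ t.1.2.1, L) : ℤ) : ℚ) =
      ∑ t : IxW w δ m, F t.1.1 t.1.2.1 t.1.2.2 := by
    rw [Int.cast_sum]
    refine Finset.sum_congr rfl fun t _ => ?_
    rw [BB4_sign t, Finset.sum_const, nsmul_eq_mul]
    push_cast
    rfl
  rw [h1, BB4_sum_ix w δ m F, Finset.mul_sum, map_sum]
  refine Finset.sum_congr rfl fun J _ => ?_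
  rw [Fintype.sum_bool, ← map_add]
  congr 1
  have h2 : ∀ c : ℚ, BB4_S w (fun α => c *
      (-(∑ i, (α i : ℚ) * (lam i : ℚ)) - (J.card : ℚ) * (L : ℚ))) =
      PowerSeries.C c * (-(∑ i, PowerSeries.C (lam i : ℚ) * BB4_S w (fun α => (α i : ℚ))) -
          PowerSeries.C ((J.card : ℚ) * (L : ℚ)) * BB4_S w (fun _ => 1)) := by
    intro c
    ext l
    rw [BB4_coeff, PowerSeries.coeff_C_mul, map_sub, map_neg, map_sum, PowerSeries.coeff_C_mul,
      BB4_coeff, ← Finset.mul_sum, Finset.sum_sub_distrib, Finset.sum_neg_distrib, Finset.sum_comm]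
    congr 3
    · refine Finset.sum_congr rfl fun i _ => ?_
      rw [PowerSeries.coeff_C_mul, BB4_coeff, Finset.mul_sum]
      exact Finset.sum_congr rfl fun _ _ => mul_comm _ _
    · rw [Finset.mul_sum]
      exact Finset.sum_congr rfl fun _ _ => (mul_one _).symm
  have h3 : ∀ b : Bool, BB4_S w (F b J) = PowerSeries.C ((-1 : ℚ) ^ (J.card +
      (if b = true then 1 else 0))) *
      (-(∑ i, PowerSeries.C (lam i : ℚ) * BB4_S w (fun α => (α i : ℚ))) -
          PowerSeries.C ((J.card : ℚ) * (L : ℚ)) * BB4_S w (fun _ => 1)) := fun b => h2 _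
  rw [h3, h3]
  simp only [if_true, Bool.false_eq_true, if_false, add_zero]
  rw [pow_succ (-1 : ℚ), map_mul, map_neg, map_one, pow_succ (PowerSeries.X : PowerSeries ℚ)]
  ring

/-! ### sums over subsets -/

private theorem BB4_subsets {R ι : Type} [DecidableEq ι] [CommRing R] (s : Finset ι) (y : ι → R) :
    ∑ J ∈ s.powerset, (-1 : R) ^ J.card * ∏ j ∈ J, y j = ∏ j ∈ s, (1 - y j) := by
  induction s using Finset.induction_on with
  | empty => simp
  | insert a s ha ih =>
    rw [Finset.sum_powerset_insert ha, ih, Finset.prod_insert ha]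
    have h1 : ∑ J ∈ s.powerset, (-1 : R) ^ (insert a J).card * ∏ j ∈ insert a J, y j =
        -y a * ∑ J ∈ s.powerset, (-1 : R) ^ J.card * ∏ j ∈ J, y j := by
      rw [Finset.mul_sum]
      refine Finset.sum_congr rfl fun J hJ => ?_
      have haJ : a ∉ J := fun h => ha (Finset.mem_powerset.1 hJ h)
      rw [Finset.card_insert_of_notMem haJ, Finset.prod_insert haJ, pow_succ]
      ring
    rw [h1, ih]
    ring

private theorem BB4_subsets_card {R ι : Type} [DecidableEq ι] [CommRing R] (s : Finset ι) (y : ι → R) :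
    ∑ J ∈ s.powerset, (-1 : R) ^ J.card * (J.card : R) * ∏ j ∈ J, y j =
      -∑ j ∈ s, y j * ∏ i ∈ s.erase j, (1 - y i) := by
  induction s using Finset.induction_on with
  | empty => simp
  | insert a s ha ih =>
    rw [Finset.sum_powerset_insert ha, ih, Finset.sum_insert ha, Finset.erase_insert ha]
    have h1 : ∑ J ∈ s.powerset, (-1 : R) ^ (insert a J).card * ((insert a J).card : R) *
        ∏ j ∈ insert a J, y j =
        -y a * (∑ J ∈ s.powerset, (-1 : R) ^ J.card * (J.card : R) * ∏ j ∈ J, y j +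
          ∑ J ∈ s.powerset, (-1 : R) ^ J.card * ∏ j ∈ J, y j) := by
      rw [← Finset.sum_add_distrib, Finset.mul_sum]
      refine Finset.sum_congr rfl fun J hJ => ?_
      have haJ : a ∉ J := fun h => ha (Finset.mem_powerset.1 hJ h)
      rw [Finset.card_insert_of_notMem haJ, Finset.prod_insert haJ, pow_succ]
      push_cast
      ring
    have h2 : ∑ j ∈ s, y j * ∏ i ∈ (insert a s).erase j, (1 - y i) =
        (1 - y a) * ∑ j ∈ s, y j * ∏ i ∈ s.erase j, (1 - y i) := by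
      rw [Finset.mul_sum]
      refine Finset.sum_congr rfl fun j hj => ?_
      have hja : a ≠ j := fun h => ha (h ▸ hj)
      rw [Finset.erase_insert_of_ne hja,
        Finset.prod_insert (fun h => ha (Finset.mem_of_mem_erase h))]
      ring
    rw [h1, ih, BB4_subsets, h2]
    ring

/-! ### the identity in power series -/

private theorem BB4_series {n M : ℕ} (w : Fin n → ℕ) (δ : Fin M → ℕ) (lam : Fin n → ℤ) (L : ℤ) :
    (PowerSeries.mk fun m => ((∑ t : IxW w δ m, (if parW t = true then -1 else 1) *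
      (-(∑ i, (t.1.2.2 i : ℤ) * lam i) - ∑ _j ∈ t.1.2.1, L) : ℤ) : ℚ)) *
        (∏ t, (1 - PowerSeries.X ^ (w t + 1))) ^ 2 =
    (1 - PowerSeries.X) * (-((∏ j, (1 - PowerSeries.X ^ δ j)) *
      ∑ t, PowerSeries.C (lam t : ℚ) * (PowerSeries.X ^ (w t + 1) *
        ∏ s ∈ Finset.univ.erase t, (1 - PowerSeries.X ^ (w s + 1)))) +
      PowerSeries.C (L : ℚ) * (∑ j, PowerSeries.X ^ δ j *
        ∏ i ∈ Finset.univ.erase j, (1 - PowerSeries.X ^ δ i)) *
          ∏ t, (1 - PowerSeries.X ^ (w t + 1))) := by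
  rw [BB4_gen]
  have hP := BB4_one w
  set P : PowerSeries ℚ := ∏ t, (1 - PowerSeries.X ^ (w t + 1)) with hPdef
  set S1 : PowerSeries ℚ := BB4_S w (fun _ => 1) with hS1
  have hSt : ∀ t, BB4_S w (fun α => (α t : ℚ)) * P ^ 2 = PowerSeries.X ^ (w t + 1) *
        ∏ s ∈ Finset.univ.erase t, (1 - PowerSeries.X ^ (w s + 1)) := by
    intro t
    have h1 : P = (1 - PowerSeries.X ^ (w t + 1)) *
        ∏ s ∈ Finset.univ.erase t, (1 - PowerSeries.X ^ (w s + 1)) :=
      (Finset.mul_prod_erase Finset.univ (fun t => (1 - PowerSeries.X ^ (w t + 1) :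
        PowerSeries ℚ)) (Finset.mem_univ t)).symm
    have h2 := BB4_lin w t
    calc BB4_S w (fun α => (α t : ℚ)) * P ^ 2 = BB4_S w (fun α => (α t : ℚ)) * P * P := by ring
      _ = BB4_S w (fun α => (α t : ℚ)) * ((1 - PowerSeries.X ^ (w t + 1)) *
        ∏ s ∈ Finset.univ.erase t, (1 - PowerSeries.X ^ (w s + 1))) * P := by rw [← h1]
      _ = (BB4_S w (fun α => (α t : ℚ)) * (1 - PowerSeries.X ^ (w t + 1))) *
        (∏ s ∈ Finset.univ.erase t, (1 - PowerSeries.X ^ (w s + 1))) * P := by ring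
      _ = (PowerSeries.X ^ (w t + 1) * S1) *
        (∏ s ∈ Finset.univ.erase t, (1 - PowerSeries.X ^ (w s + 1))) * P := by rw [h2]
      _ = PowerSeries.X ^ (w t + 1) *
        (∏ s ∈ Finset.univ.erase t, (1 - PowerSeries.X ^ (w s + 1))) * (S1 * P) := by ring
      _ = _ := by rw [hP, mul_one]
  have hB : ∑ J : Finset (Fin M), (PowerSeries.C ((-1 : ℚ) ^ J.card) *
      PowerSeries.X ^ (∑ j ∈ J, δ j)) = ∏ j, (1 - PowerSeries.X ^ δ j : PowerSeries ℚ) := by
    have h1 := BB4_subsets (Finset.univ : Finset (Fin M)) (fun j => (PowerSeries.X ^ δ j : PowerSeries ℚ))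
    rw [Finset.powerset_univ] at h1
    rw [← h1]
    refine Finset.sum_congr rfl fun J _ => ?_
    rw [Finset.prod_pow_eq_pow_sum, map_pow, map_neg, map_one]
  have hR : ∑ J : Finset (Fin M), (PowerSeries.C ((-1 : ℚ) ^ J.card) *
      PowerSeries.X ^ (∑ j ∈ J, δ j)) * PowerSeries.C ((J.card : ℚ) * (L : ℚ)) =
      -(PowerSeries.C (L : ℚ) * ∑ j, PowerSeries.X ^ δ j *
        ∏ i ∈ Finset.univ.erase j, (1 - PowerSeries.X ^ δ i : PowerSeries ℚ)) := by
    have h1 := BB4_subsets_card (Finset.univ : Finset (Fin M))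
      (fun j => (PowerSeries.X ^ δ j : PowerSeries ℚ))
    rw [Finset.powerset_univ] at h1
    rw [← mul_neg, ← h1, Finset.mul_sum]
    refine Finset.sum_congr rfl fun J _ => ?_
    rw [Finset.prod_pow_eq_pow_sum, map_pow, map_neg, map_one, map_mul, map_natCast]
    ring
  have hsum : ∑ J : Finset (Fin M),
      (PowerSeries.C ((-1 : ℚ) ^ J.card) * PowerSeries.X ^ (∑ j ∈ J, δ j)) *
        (-(∑ i, PowerSeries.C (lam i : ℚ) * BB4_S w (fun α => (α i : ℚ))) -
          PowerSeries.C ((J.card : ℚ) * (L : ℚ)) * S1) =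
      -((∏ j, (1 - PowerSeries.X ^ δ j : PowerSeries ℚ)) *
        ∑ i, PowerSeries.C (lam i : ℚ) * BB4_S w (fun α => (α i : ℚ))) +
      (PowerSeries.C (L : ℚ) * ∑ j, PowerSeries.X ^ δ j *
        ∏ i ∈ Finset.univ.erase j, (1 - PowerSeries.X ^ δ i : PowerSeries ℚ)) * S1 := by
    have h5 : ∀ J : Finset (Fin M),
      (PowerSeries.C ((-1 : ℚ) ^ J.card) * PowerSeries.X ^ (∑ j ∈ J, δ j)) *
        (-(∑ i, PowerSeries.C (lam i : ℚ) * BB4_S w (fun α => (α i : ℚ))) -
          PowerSeries.C ((J.card : ℚ) * (L : ℚ)) * S1) =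
      (PowerSeries.C ((-1 : ℚ) ^ J.card) * PowerSeries.X ^ (∑ j ∈ J, δ j)) *
        (-(∑ i, PowerSeries.C (lam i : ℚ) * BB4_S w (fun α => (α i : ℚ)))) -
      (PowerSeries.C ((-1 : ℚ) ^ J.card) * PowerSeries.X ^ (∑ j ∈ J, δ j)) *
          PowerSeries.C ((J.card : ℚ) * (L : ℚ)) * S1 := fun J => by ring
    rw [Finset.sum_congr rfl fun J _ => h5 J, Finset.sum_sub_distrib, ← Finset.sum_mul,
      ← Finset.sum_mul, hB, hR]
    ring
  rw [hsum, mul_assoc]
  congr 1
  rw [add_mul, neg_mul, mul_assoc, Finset.sum_mul]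
  have h3 : ∑ i, PowerSeries.C (lam i : ℚ) * BB4_S w (fun α => (α i : ℚ)) * P ^ 2 =
      ∑ t, PowerSeries.C (lam t : ℚ) * (PowerSeries.X ^ (w t + 1) *
        ∏ s ∈ Finset.univ.erase t, (1 - PowerSeries.X ^ (w s + 1))) :=
    Finset.sum_congr rfl fun t _ => by rw [mul_assoc, hSt]
  rw [h3, show ∀ Y : PowerSeries ℚ, Y * S1 * P ^ 2 = Y * P * (S1 * P) from fun Y => by ring, hP,
    mul_one]

private theorem BB4_Z {n M : ℕ} (w : Fin n → ℕ) (δ : Fin M → ℕ) :
    (PowerSeries.mk fun m => ((∑ t : IxW w δ m, (if parW t = true then (-1 : ℤ) else 1) : ℤ) : ℚ)) =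
    (1 - PowerSeries.X) * ((∏ j, (1 - PowerSeries.X ^ δ j)) * BB4_S w (fun _ => 1)) := by
  have hB : ∑ J : Finset (Fin M), (PowerSeries.C ((-1 : ℚ) ^ J.card) *
      PowerSeries.X ^ (∑ j ∈ J, δ j)) = ∏ j, (1 - PowerSeries.X ^ δ j : PowerSeries ℚ) := by
    have h1 := BB4_subsets (Finset.univ : Finset (Fin M)) (fun j => (PowerSeries.X ^ δ j : PowerSeries ℚ))
    rw [Finset.powerset_univ] at h1
    rw [← h1]
    refine Finset.sum_congr rfl fun J _ => ?_
    rw [Finset.prod_pow_eq_pow_sum, map_pow, map_neg, map_one]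
  rw [← hB]
  ext m
  rw [PowerSeries.coeff_mk]
  let F : Bool → Finset (Fin M) → (Fin n →₀ ℕ) → ℚ := fun b J _ =>
    (-1 : ℚ) ^ (J.card + (if b = true then 1 else 0))
  have h1 : ((∑ t : IxW w δ m, (if parW t = true then (-1 : ℤ) else 1) : ℤ) : ℚ) =
      ∑ t : IxW w δ m, F t.1.1 t.1.2.1 t.1.2.2 := by
    rw [Int.cast_sum]
    refine Finset.sum_congr rfl fun t _ => ?_
    rw [BB4_sign t]
    push_cast
    rfl
  rw [h1, BB4_sum_ix w δ m F, Finset.sum_mul, Finset.mul_sum, map_sum]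
  refine Finset.sum_congr rfl fun J _ => ?_
  rw [Fintype.sum_bool, ← map_add]
  congr 1
  have h2 : ∀ c : ℚ, BB4_S w (fun _ => c) = PowerSeries.C c * BB4_S w (fun _ => 1) := by
    intro c
    ext l
    rw [BB4_coeff, PowerSeries.coeff_C_mul, BB4_coeff, Finset.mul_sum]
    exact Finset.sum_congr rfl fun _ _ => (mul_one _).symm
  have h3 : ∀ b : Bool, BB4_S w (F b J) = PowerSeries.C ((-1 : ℚ) ^ (J.card +
      (if b = true then 1 else 0))) * BB4_S w (fun _ => 1) := fun b => h2 _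
  rw [h3, h3]
  simp only [if_true, Bool.false_eq_true, if_false, add_zero]
  rw [pow_succ (-1 : ℚ), map_mul, map_neg, map_one, pow_succ (PowerSeries.X : PowerSeries ℚ)]
  ring

private theorem BB4_window (T U : PowerSeries ℚ) (W m₁ : ℕ) (h : (1 - PowerSeries.X ^ W) * T = U) :
    ∑ m ∈ Finset.Ico m₁ (m₁ + W), PowerSeries.coeff m T =
      ∑ m ∈ Finset.range (m₁ + W), PowerSeries.coeff m U := by
  have h1 : ∀ m, PowerSeries.coeff m U = PowerSeries.coeff m T -
      (if W ≤ m then PowerSeries.coeff (m - W) T else 0) := by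
    intro m
    rw [← h, sub_mul, one_mul, map_sub, PowerSeries.coeff_X_pow_mul']
  rw [Finset.sum_congr rfl fun m _ => h1 m, Finset.sum_sub_distrib,
    Finset.sum_Ico_eq_sub _ (Nat.le_add_right m₁ W)]
  congr 1
  rw [add_comm m₁ W, Finset.sum_range_add,
    Finset.sum_eq_zero (s := Finset.range W) fun m hm => if_neg (not_le.2 (Finset.mem_range.1 hm)), zero_add]
  refine Finset.sum_congr rfl fun m _ => ?_
  rw [if_pos (Nat.le_add_right W m), Nat.add_sub_cancel_left]

private theorem BB4_geo {a c W : ℕ} (h : W = a * c) :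
    (1 - Polynomial.X ^ a) * ∑ k ∈ Finset.range c, ((Polynomial.X : Polynomial ℚ) ^ a) ^ k =
      1 - Polynomial.X ^ W := by
  rw [mul_neg_geom_sum, ← pow_mul, ← h]

private theorem BB4_eval {a c : ℕ} :
    (∑ k ∈ Finset.range c, ((Polynomial.X : Polynomial ℚ) ^ a) ^ k).eval 1 = c := by
  simp only [Polynomial.eval_finsetSum, Polynomial.eval_pow, Polynomial.eval_X, one_pow,
    Finset.sum_const, Finset.card_range, nsmul_eq_mul, mul_one]

private theorem BB4_deg {a c W : ℕ} (hW : 0 < W) (h : W = a * c) :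
    (Polynomial.X ^ a * ∑ k ∈ Finset.range c, ((Polynomial.X : Polynomial ℚ) ^ a) ^ k).natDegree ≤ 2 * W := by
  have hc : 0 < c := by
    rcases Nat.eq_zero_or_pos c with h0 | h0
    · rw [h0, mul_zero] at h
      omega
    · exact h0
  have haW : a ≤ W := by
    rw [h]
    exact Nat.le_mul_of_pos_right _ hc
  refine Polynomial.natDegree_mul_le.trans ?_
  have h1 : ((Polynomial.X : Polynomial ℚ) ^ a).natDegree ≤ W := by
    rw [Polynomial.natDegree_X_pow]
    exact haW
  have h2 : (∑ k ∈ Finset.range c, ((Polynomial.X : Polynomial ℚ) ^ a) ^ k).natDegree ≤ W := by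
    refine Polynomial.natDegree_sum_le_of_forall_le _ _ fun k hk => ?_
    rw [← pow_mul, Polynomial.natDegree_X_pow, h]
    exact Nat.mul_le_mul_left _ (Finset.mem_range.1 hk).le
  omega

theorem window_w {M : ℕ} (w : Fin (M + 1) → ℕ) (δ : Fin M → ℕ) (hδ : ∀ j, 0 < δ j) (W m0 : ℕ)
    (hW : 0 < W) (hw : ∀ i, w i + 1 ∣ W) (hd : ∀ j, δ j ∣ W)
    (h0 : ∀ m, m0 ≤ m → ∑ t : IxW w δ m, (if parW t = true then (-1 : ℤ) else 1) = 0) :
    ∃ m₁, m0 ≤ m₁ ∧ ∃ N : ℚ, 0 < N ∧ ∀ (lam : Fin (M + 1) → ℤ) (L : ℤ),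
      ((∑ m ∈ Finset.Ico m₁ (m₁ + W), ∑ t : IxW w δ m, (if parW t = true then -1 else 1) *
        (-(∑ i, (t.1.2.2 i : ℤ) * lam i) - ∑ _j ∈ t.1.2.1, L) : ℤ) : ℚ) =
      N * ((L : ℚ) * ∑ j, 1 / (δ j : ℚ) - ∑ i, (lam i : ℚ) / ((w i : ℚ) + 1)) := by
  choose a ha using hw
  choose b hb using hd
  set Z₀ : PowerSeries ℚ := PowerSeries.mk fun m => ((∑ t : IxW w δ m,
    (if parW t = true then (-1 : ℤ) else 1) : ℤ) : ℚ) with hZ₀
  set Zp : Polynomial ℚ := PowerSeries.trunc m0 Z₀ with hZp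
  have hZ : (Zp : PowerSeries ℚ) = Z₀ := by
    ext m
    rw [hZp, Polynomial.coeff_coe, PowerSeries.coeff_trunc]
    by_cases hm : m < m0
    · rw [if_pos hm]
    · rw [if_neg hm, hZ₀, PowerSeries.coeff_mk, h0 m (not_lt.1 hm), Int.cast_zero]
  set P : PowerSeries ℚ := ∏ t, (1 - PowerSeries.X ^ (w t + 1)) with hP
  set B : PowerSeries ℚ := ∏ j, (1 - PowerSeries.X ^ δ j) with hB
  have hSP := BB4_one w
  rw [← hP] at hSP
  have hZP : Z₀ * P = (1 - PowerSeries.X) * B := by
    rw [hZ₀, BB4_Z, ← hB]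
    calc (1 - PowerSeries.X) * (B * BB4_S w fun _ => 1) * P =
        (1 - PowerSeries.X) * B * ((BB4_S w fun _ => 1) * P) := by ring
      _ = _ := by rw [hSP, mul_one]
  have hP0 : P ≠ 0 := by
    intro h
    rw [h, mul_zero] at hSP
    exact zero_ne_one hSP
  have φX : Polynomial.coeToPowerSeries.ringHom (R := ℚ) Polynomial.X = PowerSeries.X :=
    Polynomial.coe_X
  have φC : ∀ a : ℚ, Polynomial.coeToPowerSeries.ringHom (R := ℚ) (Polynomial.C a) =
    PowerSeries.C a := fun a => Polynomial.coe_C a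
  have φZ : Polynomial.coeToPowerSeries.ringHom (R := ℚ) Zp = Z₀ := hZ
  have hinj : Function.Injective (Polynomial.coeToPowerSeries.ringHom (R := ℚ)) :=
    Polynomial.coe_injective ℚ
  -- the value at one
  have hZ1 : 0 < Zp.eval 1 := by
    have e1 : Zp * ∏ t : Fin (M + 1), (1 - Polynomial.X ^ (w t + 1)) =
        (1 - Polynomial.X) * ∏ j : Fin M, (1 - Polynomial.X ^ δ j) := by
      apply hinj
      simp only [map_mul, map_pow, map_prod, map_sub, map_one, φX, φZ]
      exact hZP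
    set g : ℕ → Polynomial ℚ := fun l => ∑ i ∈ Finset.range l, Polynomial.X ^ i with hg
    have hgeo : ∀ l : ℕ, (1 - Polynomial.X ^ l : Polynomial ℚ) = (1 - Polynomial.X) * g l := fun l =>
      (mul_neg_geom_sum _ _).symm
    have hg1 : ∀ l : ℕ, (g l).eval 1 = (l : ℚ) := by
      intro l
      rw [hg]
      simp only [Polynomial.eval_finsetSum, Polynomial.eval_pow, Polynomial.eval_X, one_pow,
        Finset.sum_const, Finset.card_range, nsmul_eq_mul, mul_one]
    simp only [hgeo, Finset.prod_mul_distrib, Finset.prod_const, Finset.card_univ,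
      Fintype.card_fin] at e1
    have hu0 : (1 - Polynomial.X : Polynomial ℚ) ≠ 0 := by
      intro h0
      have h1 := congrArg (Polynomial.eval 0) h0
      simp at h1
    have e2 : (1 - Polynomial.X : Polynomial ℚ) ^ (M + 1) * (Zp * ∏ t : Fin (M + 1), g (w t + 1)) =
        (1 - Polynomial.X : Polynomial ℚ) ^ (M + 1) * ∏ j : Fin M, g (δ j) := by
      calc (1 - Polynomial.X : Polynomial ℚ) ^ (M + 1) * (Zp * ∏ t : Fin (M + 1), g (w t + 1)) =
          Zp * ((1 - Polynomial.X) ^ (M + 1) * ∏ t : Fin (M + 1), g (w t + 1)) := by ring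
        _ = (1 - Polynomial.X) * ((1 - Polynomial.X) ^ M * ∏ j : Fin M, g (δ j)) := e1
        _ = _ := by ring
    have e3 := congrArg (Polynomial.eval 1) (mul_left_cancel₀ (pow_ne_zero _ hu0) e2)
    rw [Polynomial.eval_mul, Polynomial.eval_prod, Polynomial.eval_prod] at e3
    have e4 : 0 < ∏ t : Fin (M + 1), Polynomial.eval 1 (g (w t + 1)) := by
      refine Finset.prod_pos fun t _ => ?_
      rw [hg1]
      positivity
    have e5 : 0 < ∏ j : Fin M, Polynomial.eval 1 (g (δ j)) := by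
      refine Finset.prod_pos fun j _ => ?_
      rw [hg1]
      exact_mod_cast hδ j
    rw [← e3] at e5
    exact (mul_pos_iff_of_pos_right e4).1 e5
  set G : Fin (M + 1) → Polynomial ℚ := fun i => ∑ k ∈ Finset.range (a i), ((Polynomial.X : Polynomial ℚ) ^ (w i + 1)) ^ k
    with hG
  set H : Fin M → Polynomial ℚ := fun j => ∑ k ∈ Finset.range (b j), ((Polynomial.X : Polynomial ℚ) ^ δ j) ^ k
    with hH
  have hGi : ∀ i, (1 - PowerSeries.X ^ (w i + 1)) * Polynomial.coeToPowerSeries.ringHom (R := ℚ) (G i) =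
      1 - PowerSeries.X ^ W := by
    intro i
    have h1 := congrArg (Polynomial.coeToPowerSeries.ringHom (R := ℚ)) (BB4_geo (ha i))
    rw [map_mul, map_sub, map_one, map_pow, φX, map_sub, map_one, map_pow, φX] at h1
    exact h1
  have hHj : ∀ j, (1 - PowerSeries.X ^ δ j) * Polynomial.coeToPowerSeries.ringHom (R := ℚ) (H j) =
      1 - PowerSeries.X ^ W := by
    intro j
    have h1 := congrArg (Polynomial.coeToPowerSeries.ringHom (R := ℚ)) (BB4_geo (hb j))
    rw [map_mul, map_sub, map_one, map_pow, φX, map_sub, map_one, map_pow, φX] at h1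
    exact h1
  refine ⟨max m0 (Zp.natDegree + 2 * W + 1), le_max_left _ _, Zp.eval 1 * W, ?_, fun lam L => ?_⟩
  · exact mul_pos hZ1 (by exact_mod_cast hW)
  set m₁ := max m0 (Zp.natDegree + 2 * W + 1) with hm₁
  set Br : Polynomial ℚ := Polynomial.C (L : ℚ) * ∑ j, Polynomial.X ^ δ j * H j -
    ∑ i, Polynomial.C (lam i : ℚ) * (Polynomial.X ^ (w i + 1) * G i) with hBr
  set T : PowerSeries ℚ := PowerSeries.mk fun m => ((∑ t : IxW w δ m, (if parW t = true then -1 else 1) *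
      (-(∑ i, (t.1.2.2 i : ℤ) * lam i) - ∑ _j ∈ t.1.2.1, L) : ℤ) : ℚ) with hT
  have hser := BB4_series w δ lam L
  rw [← hT, ← hP, ← hB] at hser
  have hUT : (1 - PowerSeries.X ^ W) * T = ((Zp * Br : Polynomial ℚ) : PowerSeries ℚ) := by
    have e1 : ∀ i, P * Polynomial.coeToPowerSeries.ringHom (R := ℚ) (G i) =
        (1 - PowerSeries.X ^ W) * ∏ s ∈ Finset.univ.erase i, (1 - PowerSeries.X ^ (w s + 1)) := by
      intro i
      rw [← hGi i, hP, ← Finset.mul_prod_erase Finset.univ (fun t => (1 - PowerSeries.X ^ (w t + 1) :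
        PowerSeries ℚ)) (Finset.mem_univ i)]
      ring
    have e2 : ∀ j, B * Polynomial.coeToPowerSeries.ringHom (R := ℚ) (H j) =
        (1 - PowerSeries.X ^ W) * ∏ i ∈ Finset.univ.erase j, (1 - PowerSeries.X ^ δ i) := by
      intro j
      rw [← hHj j, hB, ← Finset.mul_prod_erase Finset.univ (fun t => (1 - PowerSeries.X ^ δ t :
        PowerSeries ℚ)) (Finset.mem_univ j)]
      ring
    have e3 : P * ∑ i, PowerSeries.C (lam i : ℚ) * (PowerSeries.X ^ (w i + 1) *
        Polynomial.coeToPowerSeries.ringHom (R := ℚ) (G i)) =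
        (1 - PowerSeries.X ^ W) * ∑ t, PowerSeries.C (lam t : ℚ) * (PowerSeries.X ^ (w t + 1) *
        ∏ s ∈ Finset.univ.erase t, (1 - PowerSeries.X ^ (w s + 1))) := by
      rw [Finset.mul_sum, Finset.mul_sum]
      refine Finset.sum_congr rfl fun i _ => ?_
      calc P * (PowerSeries.C (lam i : ℚ) * (PowerSeries.X ^ (w i + 1) *
            Polynomial.coeToPowerSeries.ringHom (R := ℚ) (G i))) =
          PowerSeries.C (lam i : ℚ) * (PowerSeries.X ^ (w i + 1) *
            (P * Polynomial.coeToPowerSeries.ringHom (R := ℚ) (G i))) := by ring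
        _ = _ := by
            rw [e1]
            ring
    have e4 : B * ∑ j, PowerSeries.X ^ δ j * Polynomial.coeToPowerSeries.ringHom (R := ℚ) (H j) =
        (1 - PowerSeries.X ^ W) * ∑ j, PowerSeries.X ^ δ j *
        ∏ i ∈ Finset.univ.erase j, (1 - PowerSeries.X ^ δ i) := by
      rw [Finset.mul_sum, Finset.mul_sum]
      refine Finset.sum_congr rfl fun j _ => ?_
      calc B * (PowerSeries.X ^ δ j * Polynomial.coeToPowerSeries.ringHom (R := ℚ) (H j)) =
          PowerSeries.X ^ δ j * (B * Polynomial.coeToPowerSeries.ringHom (R := ℚ) (H j)) := by ring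
        _ = _ := by
            rw [e2]
            ring
    have e5 : ((Zp * Br : Polynomial ℚ) : PowerSeries ℚ) =
        Z₀ * (PowerSeries.C (L : ℚ) * ∑ j, PowerSeries.X ^ δ j *
          Polynomial.coeToPowerSeries.ringHom (R := ℚ) (H j) -
          ∑ i, PowerSeries.C (lam i : ℚ) * (PowerSeries.X ^ (w i + 1) *
            Polynomial.coeToPowerSeries.ringHom (R := ℚ) (G i))) := by
      have e6 : ((Zp * Br : Polynomial ℚ) : PowerSeries ℚ) =
        Polynomial.coeToPowerSeries.ringHom (R := ℚ) (Zp * Br) := rfl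
      rw [e6, map_mul, φZ, hBr]
      simp only [map_mul, map_pow, map_sub, map_sum, φX, φC]
    rw [e5]
    refine mul_right_cancel₀ (pow_ne_zero 2 hP0) ?_
    set A1 := ∑ t, PowerSeries.C (lam t : ℚ) * (PowerSeries.X ^ (w t + 1) *
        ∏ s ∈ Finset.univ.erase t, (1 - PowerSeries.X ^ (w s + 1))) with hA1
    set A2 := ∑ j, PowerSeries.X ^ δ j *
        ∏ i ∈ Finset.univ.erase j, (1 - PowerSeries.X ^ δ i : PowerSeries ℚ) with hA2
    set D1 := ∑ i, PowerSeries.C (lam i : ℚ) * (PowerSeries.X ^ (w i + 1) *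
            Polynomial.coeToPowerSeries.ringHom (R := ℚ) (G i)) with hD1
    set D2 := ∑ j, PowerSeries.X ^ δ j *
          Polynomial.coeToPowerSeries.ringHom (R := ℚ) (H j) with hD2
    calc (1 - PowerSeries.X ^ W) * T * P ^ 2 = (1 - PowerSeries.X ^ W) * (T * P ^ 2) := by ring
      _ = (1 - PowerSeries.X) * (PowerSeries.C (L : ℚ) * ((1 - PowerSeries.X ^ W) * A2) * P -
            B * ((1 - PowerSeries.X ^ W) * A1)) := by
          rw [hser]
          ring
      _ = (1 - PowerSeries.X) * (PowerSeries.C (L : ℚ) * (B * D2) * P - B * (P * D1)) := by rw [← e4, ← e3]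
      _ = (1 - PowerSeries.X) * B * ((PowerSeries.C (L : ℚ) * D2 - D1) * P) := by ring
      _ = Z₀ * P * ((PowerSeries.C (L : ℚ) * D2 - D1) * P) := by rw [hZP]
      _ = Z₀ * (PowerSeries.C (L : ℚ) * D2 - D1) * P ^ 2 := by ring
  have hwin := BB4_window T _ W m₁ hUT
  have hdeg : (Zp * Br).natDegree < m₁ + W := by
    have d1 : Br.natDegree ≤ 2 * W := by
      rw [hBr]
      refine (Polynomial.natDegree_sub_le _ _).trans (max_le ?_ ?_)
      · refine (Polynomial.natDegree_C_mul_le _ _).trans ?_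
        exact Polynomial.natDegree_sum_le_of_forall_le _ _ fun j _ => BB4_deg hW (hb j)
      · refine Polynomial.natDegree_sum_le_of_forall_le _ _ fun i _ => ?_
        exact (Polynomial.natDegree_C_mul_le _ _).trans (BB4_deg hW (ha i))
    have d2 := Polynomial.natDegree_mul_le (p := Zp) (q := Br)
    have d3 : Zp.natDegree + 2 * W + 1 ≤ m₁ := le_max_right _ _
    omega
  have hev : ∑ m ∈ Finset.range (m₁ + W), PowerSeries.coeff m ((Zp * Br : Polynomial ℚ) : PowerSeries ℚ) =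
      (Zp * Br).eval 1 := by
    rw [Polynomial.eval_eq_sum_range' hdeg]
    refine Finset.sum_congr rfl fun m _ => ?_
    rw [Polynomial.coeff_coe, one_pow, mul_one]
  rw [hev] at hwin
  have hlhs : ((∑ m ∈ Finset.Ico m₁ (m₁ + W), ∑ t : IxW w δ m, (if parW t = true then -1 else 1) *
        (-(∑ i, (t.1.2.2 i : ℤ) * lam i) - ∑ _j ∈ t.1.2.1, L) : ℤ) : ℚ) =
      ∑ m ∈ Finset.Ico m₁ (m₁ + W), PowerSeries.coeff m T := by
    rw [Int.cast_sum]
    refine Finset.sum_congr rfl fun m _ => ?_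
    rw [hT, PowerSeries.coeff_mk]
  rw [hlhs, hwin, Polynomial.eval_mul, mul_assoc]
  congr 1
  have eH : ∀ j, (H j).eval 1 = (W : ℚ) * (1 / (δ j : ℚ)) := by
    intro j
    have h1 : (H j).eval 1 = (b j : ℚ) := BB4_eval
    have h2 : (δ j : ℚ) ≠ 0 := by
      have := hδ j
      positivity
    have h3 : (W : ℚ) = δ j * b j := by exact_mod_cast hb j
    rw [h1, h3]
    field_simp
  have eG : ∀ i, (G i).eval 1 = (W : ℚ) * (1 / ((w i : ℚ) + 1)) := by
    intro i
    have h1 : (G i).eval 1 = (a i : ℚ) := BB4_eval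
    have h2 : ((w i : ℚ) + 1) ≠ 0 := by positivity
    have h3 : (W : ℚ) = ((w i : ℚ) + 1) * a i := by exact_mod_cast ha i
    rw [h1, h3]
    field_simp
  rw [hBr, Polynomial.eval_sub, Polynomial.eval_mul, Polynomial.eval_C, Polynomial.eval_finsetSum,
    Polynomial.eval_finsetSum]
  have s1 : ∑ j, Polynomial.eval 1 (Polynomial.X ^ δ j * H j) = (W : ℚ) * ∑ j, 1 / (δ j : ℚ) := by
    rw [Finset.mul_sum]
    refine Finset.sum_congr rfl fun j _ => ?_
    rw [Polynomial.eval_mul, Polynomial.eval_pow, Polynomial.eval_X, one_pow, one_mul, eH]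
  have s2 : ∑ i, Polynomial.eval 1 (Polynomial.C (lam i : ℚ) * (Polynomial.X ^ (w i + 1) * G i)) =
      (W : ℚ) * ∑ i, (lam i : ℚ) / ((w i : ℚ) + 1) := by
    rw [Finset.mul_sum]
    refine Finset.sum_congr rfl fun i _ => ?_
    rw [Polynomial.eval_mul, Polynomial.eval_C, Polynomial.eval_mul, Polynomial.eval_pow, Polynomial.eval_X,
      one_pow, one_mul, eG]
    ring
  rw [s1, s2]
  ring

end Pool.Agent.LibTC1.KW
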