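import Pool.Agent.LibTC1.B0

/-!
[TC1 BB5a] exactness of the cone in weight `m`: constants of `D` of weight `m` lie in the ideal of the equations. Plan: take the element `F` of the cone with `F false ∅ = f`, all other components `0`.
Then `cdW g θ a F = 0` (`kd` lowers the exterior degree: `insert j J ≠ ∅`; `DW θ a (F false) ∅ = dv θ f = 0`, other components: `insert j (J.erase i) ≠ ∅`). With the private lemmas `ch`, `rd`, `ch_rd`, `rd_cd_ch`,
`cdW_ch` of KG.lean (copy them): `φ = rd F`, `mulVec φ = 0`; from `D H + H D = 1` (`h.ht`): `φ = D (H φ)`, so `F = ch φ = cdW (ch (H φ))`, and the component `false, ∅` of it is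
`kd g _ ∅ = ∑ j, ± g j * _`.
-/

open scoped Classical
open MvPolynomial

set_option linter.unusedSectionVars false

namespace Pool.Agent.LibTC1.KW

open Pool.Agent.LibPK60 Pool.Agent.LibBH2 Pool.Agent.LibQC8

section copied

variable {κ : Type} [Field κ] {n M : ℕ}

private noncomputable def ch {w : Fin n → ℕ} {δ : Fin M → ℕ} {d : ℕ} (φ : IxW w δ d → κ) : Bool → Ch κ n M :=
  fun b J => ∑ t, C (φ t) * basW κ t b J

private noncomputable def rd (w : Fin n → ℕ) (δ : Fin M → ℕ) (d : ℕ) (F : Bool → Ch κ n M) : IxW w δ d → κ :=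
  fun t => coeff t.1.2.2 (F t.1.1 t.1.2.1)

private theorem bas_zero {w : Fin n → ℕ} {δ : Fin M → ℕ} {d : ℕ} (t : IxW w δ d) {b : Bool}
    {J : Finset (Fin M)} (h : ¬ (b = t.1.1 ∧ J = t.1.2.1)) : basW κ t b J = 0 := if_neg h

private theorem coeff_bas {w : Fin n → ℕ} {δ : Fin M → ℕ} {d : ℕ} (t : IxW w δ d) (b : Bool)
    (J : Finset (Fin M)) (α : Fin n →₀ ℕ) :
    coeff α (basW κ t b J) = if t.1 = (b, J, α) then 1 else 0 := by
  by_cases h : b = t.1.1 ∧ J = t.1.2.1
  · have h1 : basW κ t b J = monomial t.1.2.2 1 := if_pos h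
    rw [h1, coeff_monomial]
    by_cases h2 : t.1.2.2 = α
    · have h3 : t.1 = (b, J, α) := Prod.ext h.1.symm (Prod.ext h.2.symm h2)
      rw [if_pos h2, if_pos h3]
    · have h3 : ¬ t.1 = (b, J, α) := fun h4 => h2 (by rw [h4])
      rw [if_neg h2, if_neg h3]
  · have h3 : ¬ t.1 = (b, J, α) := fun h4 => h ⟨by rw [h4], by rw [h4]⟩
    rw [bas_zero t h, coeff_zero, if_neg h3]

private theorem coeff_ch {w : Fin n → ℕ} {δ : Fin M → ℕ} {d : ℕ} (φ : IxW w δ d → κ) (b : Bool)
    (J : Finset (Fin M)) (α : Fin n →₀ ℕ) :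
    coeff α (ch φ b J) = ∑ t : IxW w δ d, φ t * (if t.1 = (b, J, α) then 1 else 0) := by
  unfold ch
  rw [coeff_sum]
  refine Finset.sum_congr rfl fun t _ => ?_
  rw [coeff_C_mul, coeff_bas]

private theorem rd_ch {w : Fin n → ℕ} {δ : Fin M → ℕ} {d : ℕ} (φ : IxW w δ d → κ) : rd w δ d (ch φ) = φ := by
  funext s
  show coeff s.1.2.2 (ch φ s.1.1 s.1.2.1) = φ s
  rw [coeff_ch, Finset.sum_eq_single s]
  · rw [if_pos rfl, mul_one]
  · intro t _ hts
    rw [if_neg (fun h => hts (Subtype.ext h)), mul_zero]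
  · intro h
    exact absurd (Finset.mem_univ s) h

private theorem ch_gr {w : Fin n → ℕ} {δ : Fin M → ℕ} {d : ℕ} (φ : IxW w δ d → κ) : CGrW w δ d (ch φ) := by
  intro b J α h
  rw [coeff_ch] at h
  obtain ⟨t, -, ht⟩ := Finset.exists_ne_zero_of_sum_ne_zero h
  have h1 : t.1 = (b, J, α) := by
    by_contra h2
    rw [if_neg h2, mul_zero] at ht
    exact ht rfl
  have h2 := t.2
  rw [h1] at h2
  exact h2

private theorem ch_rd {w : Fin n → ℕ} {δ : Fin M → ℕ} {d : ℕ} {F : Bool → Ch κ n M} (hF : CGrW w δ d F) :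
    ch (rd w δ d F) = F := by
  funext b J
  ext α
  by_cases h : coeff α (F b J) = 0
  · rw [h, coeff_ch]
    refine Finset.sum_eq_zero fun t _ => ?_
    by_cases h1 : t.1 = (b, J, α)
    · have h2 : rd w δ d F t = coeff α (F b J) := by
        show coeff t.1.2.2 (F t.1.1 t.1.2.1) = _
        rw [h1]
      rw [h2, h, zero_mul]
    · rw [if_neg h1, mul_zero]
  · have h0 := hF b J α h
    have h1 := congrFun (rd_ch (rd w δ d F)) ⟨(b, J, α), h0⟩
    exact h1

private theorem rd_cd_ch (g : Fin M → MvPolynomial (Fin n) κ) (w : Fin n → ℕ) (δ : Fin M → ℕ) (x : Fin n → MvPolynomial (Fin n) κ)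
    (a : Fin M → ℕ) (d : ℕ) (φ : IxW w δ d → κ) :
    rd w δ d (cdW g x a (ch φ)) = (CMW w δ d g x a).mulVec φ := by
  funext s
  show coeff s.1.2.2 (cdW g x a (ch φ) s.1.1 s.1.2.1) = ∑ t, CMW w δ d g x a s t * φ t
  have h := cdW_lin g x a Finset.univ φ (fun t : IxW w δ d => basW κ t)
  have h1 : cdW g x a (ch φ) = fun b J => ∑ t, C (φ t) * cdW g x a (basW κ t) b J := h
  rw [h1, coeff_sum]
  refine Finset.sum_congr rfl fun t _ => ?_
  rw [coeff_C_mul, mul_comm]
  rfl

private theorem cdW_ch (g : Fin M → MvPolynomial (Fin n) κ) (w : Fin n → ℕ) (δ : Fin M → ℕ) (x : Fin n → MvPolynomial (Fin n) κ)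
    (a : Fin M → ℕ) (hs : SysW g w δ x a) (d : ℕ) (φ : IxW w δ d → κ) :
    cdW g x a (ch φ) = ch ((CMW w δ d g x a).mulVec φ) := by
  rw [← rd_cd_ch, ch_rd (cdW_gr g w δ x a hs d _ (ch_gr φ))]

private theorem ch_zero {w : Fin n → ℕ} {δ : Fin M → ℕ} {d : ℕ} : ch (0 : IxW w δ d → κ) = 0 := by
  funext b J
  show ∑ t : IxW w δ d, C ((0 : IxW w δ d → κ) t) * basW κ t b J = 0
  refine Finset.sum_eq_zero fun t _ => ?_
  rw [Pi.zero_apply, C_0, zero_mul]

private theorem kd_zero_of (g : Fin M → MvPolynomial (Fin n) κ) (f : Ch κ n M)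
    (J : Finset (Fin M)) (h : ∀ j, j ∉ J → f (insert j J) = 0) : kd g f J = 0 := by
  unfold kd
  refine Finset.sum_eq_zero fun j hj => ?_
  rw [h j (Finset.mem_compl.1 hj), smul_zero, smul_zero]

private theorem DW_zero_of (x : Fin n → MvPolynomial (Fin n) κ) (a : Fin M → ℕ) (f : Ch κ n M)
    (J : Finset (Fin M)) (h0 : f J = 0)
    (h : ∀ i j, i ∈ J → j ∉ J → f (insert j (J.erase i)) = 0) : DW x a f J = 0 := by
  unfold DW
  rw [h0]
  have h1 : dv x (0 : MvPolynomial (Fin n) κ) = 0 := by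
    unfold dv
    refine Finset.sum_eq_zero fun i _ => ?_
    rw [map_zero, mul_zero]
  rw [h1, zero_add]
  refine Finset.sum_eq_zero fun i _ => Finset.sum_eq_zero fun j _ => ?_
  split_ifs with h2
  · rw [h i j h2.2.1 h2.2.2, mul_zero]
  · rfl

end copied

theorem ker_mem {κ : Type} [Field κ] {n M : ℕ} (g : Fin M → MvPolynomial (Fin n) κ) (w : Fin n → ℕ)
    (δ : Fin M → ℕ) (θ : Fin n → MvPolynomial (Fin n) κ) (a : Fin M → ℕ) (hs : SysW g w δ θ a) (m : ℕ)
    {H : Matrix (IxW w δ m) (IxW w δ m) κ} (h : Tor.Hom parW (CMW w δ m g θ a) H)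
    (f : MvPolynomial (Fin n) κ) (hf : ∀ α, coeff α f ≠ 0 → wm w α = m) (h0 : dv θ f = 0) :
    f ∈ Ideal.span (Set.range g) := by
  set F : Bool → Ch κ n M := fun b J => if b = false ∧ J = ∅ then f else 0 with hF
  have hFne : ∀ (b : Bool) (J : Finset (Fin M)), ¬ (b = false ∧ J = ∅) → F b J = 0 :=
    fun b J h1 => if_neg h1
  have hF0 : F false ∅ = f := if_pos ⟨rfl, rfl⟩
  have hgr : CGrW w δ m F := by
    intro b J α h1
    by_cases h2 : b = false ∧ J = ∅
    · obtain ⟨h3, h4⟩ := h2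
      subst h3
      subst h4
      rw [hF0] at h1
      rw [hf α h1, Finset.sum_empty, if_neg (by decide)]
      rfl
    · rw [hFne b J h2, coeff_zero] at h1
      exact absurd rfl h1
  have hcd : cdW g θ a F = 0 := by
    funext b J
    cases b with
    | false =>
      show kd g (F false) J = 0
      refine kd_zero_of g _ _ fun j _ => hFne false _ ?_
      rintro ⟨_, h1⟩
      exact Finset.insert_ne_empty j J h1
    | true =>
      show DW θ a (F false) J - kd g (F true) J = 0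
      have h1 : kd g (F true) J = 0 :=
        kd_zero_of g _ _ fun j _ => hFne true _ fun h2 => absurd h2.1 (by decide)
      have h2 : DW θ a (F false) J = 0 := by
        by_cases hJ : J = ∅
        · subst hJ
          unfold DW
          rw [hF0, h0, zero_add]
          refine Finset.sum_eq_zero fun i _ => Finset.sum_eq_zero fun j _ => ?_
          rw [if_neg]
          rintro ⟨_, h3, _⟩
          exact Finset.notMem_empty i h3
        · refine DW_zero_of θ a _ _ (hFne false _ fun h3 => hJ h3.2) fun i j _ _ =>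
            hFne false _ ?_
          rintro ⟨_, h3⟩
          exact Finset.insert_ne_empty _ _ h3
      rw [h1, h2, sub_zero]
  set φ : IxW w δ m → κ := rd w δ m F with hφ
  have hchφ : ch φ = F := ch_rd hgr
  have hD0 : (CMW w δ m g θ a).mulVec φ = 0 := by
    rw [← rd_cd_ch, hchφ, hcd]
    funext t
    show coeff t.1.2.2 ((0 : Bool → Ch κ n M) t.1.1 t.1.2.1) = 0
    rw [Pi.zero_apply, Pi.zero_apply, coeff_zero]
  have hφ2 : φ = (CMW w δ m g θ a).mulVec (H.mulVec φ) := by
    have h1 := congrArg (fun X : Matrix (IxW w δ m) (IxW w δ m) κ => X.mulVec φ) h.ht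
    simp only [Matrix.add_mulVec, Matrix.one_mulVec] at h1
    rw [← Matrix.mulVec_mulVec, ← Matrix.mulVec_mulVec, hD0, Matrix.mulVec_zero, add_zero] at h1
    exact h1.symm
  have hFcd : F = cdW g θ a (ch (H.mulVec φ)) := by
    rw [cdW_ch g w δ θ a hs, ← hφ2, hchφ]
  have hf2 : f = kd g (ch (H.mulVec φ) false) ∅ := by
    have h1 := congrFun (congrFun hFcd false) ∅
    rw [hF0] at h1
    exact h1
  rw [hf2]
  unfold kd
  refine Ideal.sum_mem _ fun j _ => ?_
  refine zsmul_mem ?_ _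
  rw [smul_eq_mul]
  exact Ideal.mul_mem_right _ _ (Ideal.subset_span ⟨j, rfl⟩)

end Pool.Agent.LibTC1.KW
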