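import Pool.Agent.LibTC1.P1

/-!
[TC1 P2] (SHORT/MEDIUM) The torus `G(K)` (`IsT`).

isT_rel: `∏ i, (t ^ a i) ^ ⟨m, v i⟩ = t ^ (∑ i, a i * ∑ j, m j * v i j) = t ^ (∑ j, m j * ∑ i, a i * v i j) = t ^ 0`.
isT_map: apply the field homomorphism. ord_rel: take `m = Pi.single j 1` in `IsT`; the order of a product of powers is
`∑ i, v.ord (l i) * v i j = 0` (`Place.ord_zpow`, product over a finset by induction, all factors nonzero).
isT_val: all `c i ≠ 0`: the value of a product is the product of the values (`Place.val_mul`, `val_inv`, zpow as in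
LibPC60/B5.lean, private lemmas `b5_val_zpow`, `b5_val_prod`: copy), and values are unique (`Place.val_unique`).
aeval_scale: `aeval z F = ∑_(e in support) coeff e F * ∏ i, z i ^ e i` (`aeval_def`, `eval₂_eq'`), and by `X.mon` for every `e` in the
support `∏ i, (l i * z i) ^ e i = (∏ l i ^ (⟨m, v i⟩ + 1)) ∏ z i ^ e i = (∏ l i) ∏ z i ^ e i`. `K` may be any field extension.
zs_scale: `l i ≠ 0`.
-/

open scoped Classical
open MvPolynomial

set_option linter.unusedSectionVars false

namespace Pool.Agent.LibTC1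

open Pool.Agent.LibBH2 Pool.Agent.LibQC8

variable {ι : Type} [Fintype ι] {r : ℕ} {k : Type} [Field k] {P : Tor ι r} {K : Type} [Field K]
  [Algebra k K]

private theorem p2_prod_zpow {t : K} (ht : t ≠ 0) (f : ι → ℤ) :
    ∏ i, t ^ f i = t ^ ∑ i, f i := by
  have h : ∀ A : Finset ι, ∏ i ∈ A, t ^ f i = t ^ ∑ i ∈ A, f i := by
    intro A
    induction A using Finset.induction_on with
    | empty => simp
    | insert i A hi ih => rw [Finset.prod_insert hi, Finset.sum_insert hi, ih, zpow_add₀ ht]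
  exact h Finset.univ

private theorem p2_ord_prod (v : Place k K) {l : ι → K} (hl : ∀ i, l i ≠ 0) (n : ι → ℤ)
    (A : Finset ι) : v.ord (∏ i ∈ A, l i ^ n i) = ∑ i ∈ A, n i * v.ord (l i) := by
  induction A using Finset.induction_on with
  | empty => simp
  | insert i A hi ih =>
    rw [Finset.prod_insert hi, Finset.sum_insert hi,
      v.ord_mul _ _ (zpow_ne_zero _ (hl i)) (Finset.prod_ne_zero_iff.2 fun j _ =>
        zpow_ne_zero _ (hl j)), ih, Place.ord_zpow]

private theorem p2_val_zpow {v : Place k K} {f : K} {a : k} (h : v.Zer (f - algebraMap k K a))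
    (ha : a ≠ 0) (n : ℤ) : v.Zer (f ^ n - algebraMap k K (a ^ n)) := by
  cases n with
  | ofNat n => simpa using Place.val_pow h n
  | negSucc n =>
    rw [zpow_negSucc, zpow_negSucc]
    exact Place.val_inv (Place.val_pow h (n + 1)) (pow_ne_zero _ ha)

private theorem p2_val_prod {v : Place k K} {f : ι → K} {a : ι → k}
    (h : ∀ t, v.Zer (f t - algebraMap k K (a t))) (A : Finset ι) :
    v.Zer (∏ t ∈ A, f t - algebraMap k K (∏ t ∈ A, a t)) := by
  induction A using Finset.induction_on with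
  | empty => simpa using Place.val_const (v := v) (1 : k)
  | insert t A ht ih =>
    rw [Finset.prod_insert ht, Finset.prod_insert ht]
    exact Place.val_mul (h t) ih

theorem isT_one : IsT P (fun _ : ι => (1 : K)) := by
  exact ⟨fun _ => one_ne_zero, fun m => by simp⟩

theorem isT_mul {l l' : ι → K} (h : IsT P l) (h' : IsT P l') : IsT P (fun i => l i * l' i) := by
  refine ⟨fun i => mul_ne_zero (h.1 i) (h'.1 i), fun m => ?_⟩
  simp only [mul_zpow, Finset.prod_mul_distrib]
  rw [h.2 m, h'.2 m, mul_one]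

theorem isT_inv {l : ι → K} (h : IsT P l) : IsT P (fun i => (l i)⁻¹) := by
  refine ⟨fun i => inv_ne_zero (h.1 i), fun m => ?_⟩
  simp only [inv_zpow, Finset.prod_inv_distrib]
  rw [h.2 m, inv_one]

theorem isT_rel {a : ι → ℤ} (ha : a ∈ Rel P) {t : K} (ht : t ≠ 0) :
    IsT P (fun i => t ^ a i) := by
  refine ⟨fun i => zpow_ne_zero _ ht, fun m => ?_⟩
  have h1 : ∀ i, (t ^ a i) ^ (∑ j, m j * P.v i j) = t ^ (a i * ∑ j, m j * P.v i j) := fun i =>
    (zpow_mul t _ _).symm
  rw [Finset.prod_congr rfl fun i _ => h1 i, p2_prod_zpow ht]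
  have h2 : ∑ i, a i * ∑ j, m j * P.v i j = 0 := by
    have h3 : ∀ i, a i * ∑ j, m j * P.v i j = ∑ j, m j * (a i * P.v i j) := by
      intro i
      rw [Finset.mul_sum]
      exact Finset.sum_congr rfl fun j _ => by ring
    rw [Finset.sum_congr rfl fun i _ => h3 i, Finset.sum_comm]
    refine Finset.sum_eq_zero fun j _ => ?_
    rw [← Finset.mul_sum]
    have h4 : ∑ i, a i * P.v i j = 0 := ha j
    rw [h4, mul_zero]
  rw [h2, zpow_zero]

theorem isT_map {L : Type} [Field L] (φ : K →+* L) {l : ι → K} (h : IsT P l) :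
    IsT P (fun i => φ (l i)) := by
  refine ⟨fun i => (map_ne_zero φ).2 (h.1 i), fun m => ?_⟩
  have h1 := congrArg φ (h.2 m)
  rw [map_prod, map_one] at h1
  rw [← h1]
  exact Finset.prod_congr rfl fun i _ => (map_zpow₀ φ _ _).symm

theorem ord_rel (v : Place k K) {l : ι → K} (h : IsT P l) : (fun i => v.ord (l i)) ∈ Rel P := by
  intro j
  have h1 := h.2 (Pi.single j 1)
  have h2 : ∀ i, ∑ j', (Pi.single j 1 : Fin r → ℤ) j' * P.v i j' = P.v i j := by
    intro i
    rw [Finset.sum_eq_single j]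
    · simp
    · intro j' _ hj'
      rw [Pi.single_eq_of_ne hj', zero_mul]
    · intro hj
      exact absurd (Finset.mem_univ j) hj
  simp only [h2] at h1
  have h3 := p2_ord_prod v h.1 (fun i => P.v i j) Finset.univ
  rw [h1, Place.ord_one] at h3
  show ∑ i, v.ord (l i) * P.v i j = 0
  rw [h3]
  exact Finset.sum_congr rfl fun i _ => mul_comm _ _

theorem isT_val (v : Place k K) {l : ι → K} (h : IsT P l) (c : ι → k) (hc : ∀ i, c i ≠ 0)
    (hv : ∀ i, v.Zer (l i - algebraMap k K (c i))) : IsT P c := by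
  refine ⟨hc, fun m => ?_⟩
  have h1 := p2_val_prod (v := v) (f := fun i => l i ^ (∑ j, m j * P.v i j))
    (a := fun i => c i ^ (∑ j, m j * P.v i j)) (fun i => p2_val_zpow (hv i) (hc i) _) Finset.univ
  rw [h.2 m] at h1
  have h2 : v.Zer ((1 : K) - algebraMap k K 1) := by
    rw [map_one, sub_self]
    exact Place.zer_zero v
  exact Place.val_unique h1 h2

theorem aeval_scale (X : Hyp k P) {l : ι → K} (h : IsT P l) (z : ι → K) :
    aeval (fun i => l i * z i) X.F = (∏ i, l i) * aeval z X.F := by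
  rw [aeval_def, aeval_def, eval₂_eq', eval₂_eq', Finset.mul_sum]
  refine Finset.sum_congr rfl fun e he => ?_
  obtain ⟨m, hm⟩ := X.mon e he
  have h1 : ∏ i, l i ^ e i = ∏ i, l i := by
    have h2 : ∀ i, l i ^ e i = l i ^ (∑ j, m j * P.v i j) * l i := by
      intro i
      rw [← zpow_natCast, hm i, zpow_add₀ (h.1 i), zpow_one]
    rw [Finset.prod_congr rfl fun i _ => h2 i, Finset.prod_mul_distrib, h.2 m, one_mul]
  have h3 : ∏ i, (l i * z i) ^ e i = (∏ i, l i) * ∏ i, z i ^ e i := by
    simp only [mul_pow, Finset.prod_mul_distrib]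
    rw [h1]
  rw [h3]
  ring

theorem zs_scale {l : ι → K} (h : IsT P l) (z : ι → K) : zs (fun i => l i * z i) = zs z := by
  unfold zs
  refine Finset.filter_congr fun i _ => ?_
  simp [h.1 i]

end Pool.Agent.LibTC1
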