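import Pool.Agent.LibTC1.SDefs
import Pool.Agent.LibTC1.P2

/-!
[TC1 BB5d] normalisation of a solution. Plan: `A i = (a i).toNat`, `c i j = (f i).coeff j`, `μ = - c i₀ 1 / (a i₀ * x i₀)`; `g i = ∑ j ∈ range (A i + 1), C (c i j) * X ^ j * (1 + C μ * X) ^ (A i - j)`.
Degrees `≤ A i`; `coeff 0 = c i 0`; `coeff 1 = c i 1 + μ * A i * c i 0`. Total contact: for `s` with `1 + μ s ≠ 0`: `(g i).eval s = (1 + μ s)^(A i) * (f i).eval (s / (1 + μ s))`, so with `aeval_scale` (P2.lean; the torus
element `(1 + μ s)^(a i)`, `isT_rel`): `(cmp X g).eval s = (1 + μ s)^d * C c * (s / (1 + μ s))^d = c s^d`, `d = (dk a).toNat = ∑ A i`; two polynomials which agree at infinitely many points are equal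
(`Polynomial.eq_of_infinite_eval_eq`). `cmp`: evaluation `(cmp X g).eval s = aeval (fun i => (g i).eval s) X.F` is `cmp_eval'` or direct. Not trivial: if `g i = C (x i) * (1 + C ν * X)^(A i)` for all `i` with `x i` its value at `0`,
then `coeff 1` at `i₀`: `ν * A i₀ * x i₀ = 0`, so `ν = 0`, `g i = C (x i)`; then `(f i).eval (s / (1 + μ s)) * (1 + μ s)^(A i) = x i` for almost all `s`, i.e. `(f i).eval t = x i * (1 - μ t)^(A i)` for almost all `t`:
`f` is trivial with `-μ`.
-/

open scoped Classical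
open MvPolynomial

set_option linter.unusedSectionVars false

namespace Pool.Agent.LibTC1

open Pool.Agent.LibBH2 Pool.Agent.LibQC8

variable {ι : Type} [Fintype ι] {r : ℕ} {k : Type} [Field k] {P : Tor ι r}

private theorem BB5d_pow0 (μ : k) (n : ℕ) :
    ((1 + Polynomial.C μ * Polynomial.X : Polynomial k) ^ n).coeff 0 = 1 := by
  rw [Polynomial.coeff_zero_eq_eval_zero]
  simp

private theorem BB5d_pow1 (μ : k) (n : ℕ) :
    ((1 + Polynomial.C μ * Polynomial.X : Polynomial k) ^ n).coeff 1 = n * μ := by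
  induction n with
  | zero => simp [Polynomial.coeff_one]
  | succ n ih =>
    rw [pow_succ, Polynomial.mul_coeff_one, ih, BB5d_pow0]
    have h1 : (1 + Polynomial.C μ * Polynomial.X : Polynomial k).coeff 0 = 1 := by simp
    have h2 : (1 + Polynomial.C μ * Polynomial.X : Polynomial k).coeff 1 = μ := by
      simp [Polynomial.coeff_one]
    rw [h1, h2]
    push_cast
    ring

/-- the reparametrised polynomial -/
private noncomputable def BB5d_g (μ : k) (n : ℕ) (f : Polynomial k) : Polynomial k :=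
  ∑ j ∈ Finset.range (n + 1), Polynomial.C (f.coeff j) * Polynomial.X ^ j *
    (1 + Polynomial.C μ * Polynomial.X) ^ (n - j)

private theorem BB5d_deg (μ : k) (n : ℕ) (f : Polynomial k) : (BB5d_g μ n f).natDegree ≤ n := by
  unfold BB5d_g
  refine Polynomial.natDegree_sum_le_of_forall_le _ _ fun j hj => ?_
  have hj' : j ≤ n := Nat.lt_succ_iff.1 (Finset.mem_range.1 hj)
  have h1 : (Polynomial.C (f.coeff j) * Polynomial.X ^ j : Polynomial k).natDegree ≤ j :=
    Polynomial.natDegree_C_mul_X_pow_le _ _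
  have h2 : (1 + Polynomial.C μ * Polynomial.X : Polynomial k).natDegree ≤ 1 := by
    refine (Polynomial.natDegree_add_le _ _).trans ?_
    rw [Polynomial.natDegree_one]
    refine max_le (Nat.zero_le _) ?_
    have h4 := Polynomial.natDegree_C_mul_X_pow_le μ 1
    rwa [pow_one] at h4
  have h3 : ((1 + Polynomial.C μ * Polynomial.X : Polynomial k) ^ (n - j)).natDegree ≤ n - j := by
    have h4 := Polynomial.natDegree_pow_le_of_le (n - j) h2
    rwa [mul_one] at h4
  have h5 := Polynomial.natDegree_mul_le_of_le h1 h3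
  omega

private theorem BB5d_eval (μ : k) (n : ℕ) (f : Polynomial k) (hf : f.natDegree ≤ n) {s : k}
    (hs : 1 + μ * s ≠ 0) :
    (BB5d_g μ n f).eval s = (1 + μ * s) ^ n * f.eval (s / (1 + μ * s)) := by
  unfold BB5d_g
  rw [Polynomial.eval_finsetSum, Polynomial.eval_eq_sum_range' (Nat.lt_succ_of_le hf), Finset.mul_sum]
  refine Finset.sum_congr rfl fun j hj => ?_
  have hj' : j ≤ n := Nat.lt_succ_iff.1 (Finset.mem_range.1 hj)
  simp only [Polynomial.eval_mul, Polynomial.eval_C, Polynomial.eval_pow, Polynomial.eval_X,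
    Polynomial.eval_add, Polynomial.eval_one]
  obtain ⟨m, rfl⟩ := Nat.exists_eq_add_of_le hj'
  rw [Nat.add_sub_cancel_left, div_pow, pow_add]
  field_simp

private theorem BB5d_coeff1 (μ : k) (n : ℕ) (hn : 1 ≤ n) (f : Polynomial k) :
    (BB5d_g μ n f).coeff 1 = f.coeff 1 + μ * n * f.coeff 0 := by
  unfold BB5d_g
  rw [Polynomial.finsetSum_coeff]
  have h1 : ∀ j ∈ Finset.range (n + 1), (Polynomial.C (f.coeff j) * Polynomial.X ^ j *
      (1 + Polynomial.C μ * Polynomial.X) ^ (n - j) : Polynomial k).coeff 1 =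
      (if j = 0 then μ * n * f.coeff 0 else 0) + (if j = 1 then f.coeff 1 else 0) := by
    intro j _
    rw [Polynomial.mul_coeff_one, BB5d_pow0, BB5d_pow1, Polynomial.coeff_C_mul_X_pow,
      Polynomial.coeff_C_mul_X_pow]
    by_cases h0 : j = 0
    · subst h0
      simp
      ring
    · by_cases h1 : j = 1
      · subst h1
        simp
      · rw [if_neg (Ne.symm h0), if_neg (Ne.symm h1), if_neg h0, if_neg h1]
        ring
  rw [Finset.sum_congr rfl h1, Finset.sum_add_distrib, Finset.sum_ite_eq', Finset.sum_ite_eq',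
    if_pos (Finset.mem_range.2 (by omega)), if_pos (Finset.mem_range.2 (by omega))]
  ring

private theorem BB5d_inf [CharZero k] (μ : k) : Set.Infinite {s : k | 1 + μ * s ≠ 0} := by
  have h1 : Set.Finite {s : k | 1 + μ * s = 0} := by
    refine (Set.finite_singleton (-μ⁻¹)).subset fun s hs => ?_
    have hs' : 1 + μ * s = 0 := hs
    have hμ : μ ≠ 0 := by
      rintro rfl
      simp at hs'
    rw [Set.mem_singleton_iff]
    field_simp
    linear_combination hs'
  exact h1.infinite_compl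

private theorem BB5d_cmp (X : Hyp k P) (f : ι → Polynomial k) (s : k) :
    (cmp X f).eval s = aeval (fun i => (f i).eval s) X.F := by
  unfold cmp
  have h1 := MvPolynomial.comp_aeval_apply (R := k) f (Polynomial.aeval s : Polynomial k →ₐ[k] k) X.F
  simpa [Polynomial.coe_aeval_eq_eval] using h1

theorem sol_reparam [CharZero k] (X : Hyp k P) (a : ι → ℤ) (ha : a ∈ Rel P) (h0 : ∀ i, 0 ≤ a i)
    (x : ι → k) (f : ι → Polynomial k) (hf : Sol X a x f) (i₀ : ι) (hi₀ : 0 < a i₀) (hx : x i₀ ≠ 0) :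
    ∃ g, Sol X a x g ∧ (g i₀).coeff 1 = 0 := by
  have hA0 : ((a i₀).toNat : k) ≠ 0 := by
    rw [Nat.cast_ne_zero]
    omega
  obtain ⟨μ, hμ⟩ : ∃ μ : k, (f i₀).coeff 1 + μ * ((a i₀).toNat : k) * x i₀ = 0 := by
    refine ⟨-(f i₀).coeff 1 / (((a i₀).toNat : k) * x i₀), ?_⟩
    field_simp
    ring
  have hdeg := hf.q.deg
  have hat := hf.at0
  have hev : ∀ i, ∀ s : k, 1 + μ * s ≠ 0 → (BB5d_g μ (a i).toNat (f i)).eval s =
      (1 + μ * s) ^ (a i).toNat * (f i).eval (s / (1 + μ * s)) :=
    fun i s hs => BB5d_eval μ _ _ (hdeg i) hs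
  have hc0 : ∀ i, (BB5d_g μ (a i).toNat (f i)).coeff 0 = x i := by
    intro i
    have h1 := hev i 0 (by simp)
    rw [Polynomial.coeff_zero_eq_eval_zero, h1, ← hat i, Polynomial.coeff_zero_eq_eval_zero]
    simp
  have hc1 : (BB5d_g μ (a i₀).toNat (f i₀)).coeff 1 = 0 := by
    rw [BB5d_coeff1 μ _ (by omega), hat i₀, hμ]
  refine ⟨fun i => BB5d_g μ (a i).toNat (f i), ⟨⟨ha, fun i hi => absurd hi (not_lt.2 (h0 i)),
    fun i => BB5d_deg μ _ _⟩, hc0, ?_, ?_⟩, hc1⟩
  · -- total contact
    obtain ⟨c, hc⟩ := hf.tot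
    refine ⟨c, ?_⟩
    refine Polynomial.eq_of_infinite_eval_eq _ _ ((BB5d_inf μ).mono fun s hs => ?_)
    have hs' : 1 + μ * s ≠ 0 := hs
    change Polynomial.eval s _ = Polynomial.eval s _
    rw [BB5d_cmp]
    have h1 : (fun i => (BB5d_g μ (a i).toNat (f i)).eval s) =
        fun i => (1 + μ * s) ^ (a i) * (f i).eval (s / (1 + μ * s)) := by
      funext i
      rw [hev i s hs', ← zpow_natCast, Int.toNat_of_nonneg (h0 i)]
    rw [h1, aeval_scale X (isT_rel ha hs'), ← BB5d_cmp, hc]
    have hd : 0 ≤ dk a := Finset.sum_nonneg fun i _ => h0 i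
    have h2 : ∏ i, (1 + μ * s) ^ (a i) = (1 + μ * s) ^ (dk a).toNat := by
      have h3 : ∏ i, (1 + μ * s) ^ (a i) = ∏ i, (1 + μ * s) ^ (a i).toNat :=
        Finset.prod_congr rfl fun i _ => by
          rw [← zpow_natCast, Int.toNat_of_nonneg (h0 i)]
      rw [h3, Finset.prod_pow_eq_pow_sum]
      congr 1
      have h4 : ((∑ i, (a i).toNat : ℕ) : ℤ) = dk a := by
        push_cast
        exact Finset.sum_congr rfl fun i _ => Int.toNat_of_nonneg (h0 i)
      omega
    rw [h2]
    simp only [Polynomial.eval_mul, Polynomial.eval_C, Polynomial.eval_pow, Polynomial.eval_X]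
    rw [div_pow]
    field_simp
  · -- not trivial
    rintro ⟨ν, hν⟩
    have h1 := congrArg (fun q : Polynomial k => q.coeff 1) (hν i₀)
    simp only [Polynomial.coeff_C_mul] at h1
    rw [hc1, hc0 i₀, BB5d_pow1] at h1
    have hν0 : ν = 0 := by
      rcases mul_eq_zero.1 h1.symm with h2 | h2
      · exact absurd h2 hx
      · rcases mul_eq_zero.1 h2 with h3 | h3
        · exact absurd h3 hA0
        · exact h3
    subst hν0
    have hg : ∀ i, BB5d_g μ (a i).toNat (f i) = Polynomial.C (x i) := by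
      intro i
      have h2 := hν i
      simp only [map_zero, zero_mul, add_zero, one_pow, mul_one] at h2
      rw [hc0 i] at h2
      exact h2
    refine hf.ntriv ⟨-μ, fun i => ?_⟩
    refine Polynomial.eq_of_infinite_eval_eq _ _ ((BB5d_inf (-μ)).mono fun u hu => ?_)
    have hu' : 1 + -μ * u ≠ 0 := hu
    obtain ⟨t, ht⟩ : ∃ t : k, t = 1 + -μ * u := ⟨_, rfl⟩
    rw [← ht] at hu'
    have h3 : 1 + μ * (u / t) = 1 / t := by
      rw [eq_div_iff hu', add_mul, mul_assoc, div_mul_cancel₀ _ hu', ht]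
      ring
    have h4 : 1 + μ * (u / t) ≠ 0 := by
      rw [h3]
      exact one_div_ne_zero hu'
    have h5 := hev i (u / t) h4
    rw [hg i, Polynomial.eval_C, h3] at h5
    have h6 : u / t / (1 / t) = u := by
      rw [div_div, mul_one_div, div_self hu', div_one]
    rw [h6] at h5
    change Polynomial.eval u _ = Polynomial.eval u _
    simp only [Polynomial.eval_mul, Polynomial.eval_C, Polynomial.eval_pow, Polynomial.eval_X,
      Polynomial.eval_add, Polynomial.eval_one]
    rw [hat i, h5, ← ht, one_div, inv_pow]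
    have h7 : t ^ (a i).toNat ≠ 0 := pow_ne_zero _ hu'
    rw [mul_comm (t ^ (a i).toNat)⁻¹, mul_assoc, inv_mul_cancel₀ h7, mul_one]

end Pool.Agent.LibTC1
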