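import Pool.Agent.LibTC1.BB5a
import Pool.Agent.LibTC1.BB5b
import Pool.Agent.LibTC1.BB5d
import Pool.Agent.LibTC1.KS2

/-!
[TC1 BB5e] exactness in one weight `m`, divisible by all `wt ε t + 1`, excludes solutions. Plan: `i₀` from `exists_i0`; the slice `h₀ = C c⁻¹ * X i₁`, `i₁ = ε.symm ⟨i₀, 0⟩`, `c = (a i₀).toNat * x i₀`, with
`dv (th ε x) h₀ = 1` and weight `1`, as in the proof of `good_at` (KM.lean, copy). `ker_mem`, `mem_slice`, `zero_of` (for `Fin.cons h₀ (gs ..)`): the only common zero of `h₀` and the `gs` is `0`. A solution `f`: by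
`sol_reparam` one with `(g i₀).coeff 1 = 0`; `y t = (g (ε t).1).coeff ((ε t).2 + 1)` is a common zero: `eval y (gs X ε M x j) = (cmp X g).coeff (j + 1) = 0` (`j + 1 ≤ M < (dk a).toNat`; see the proof of
`gs_zero` in KS2.lean for this identity); so `y = 0`, `g i = C (x i)`, which is trivial (`μ = 0`).
-/

open scoped Classical
open MvPolynomial

set_option linter.unusedSectionVars false

namespace Pool.Agent.LibTC1.KW

open Pool.Agent.LibPK60 Pool.Agent.LibBH2 Pool.Agent.LibQC8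

variable {ι : Type} [Fintype ι] {r : ℕ} {k : Type} [Field k] {P : Tor ι r}

private noncomputable def bb5_f {n : ℕ} {a : ι → ℤ} (ε : Fin n ≃ Un a) (x : ι → k) (y : Fin n → k)
    (i : ι) : Polynomial k :=
  Polynomial.C (x i) + ∑ m : Fin (a i).toNat,
    Polynomial.C (y (ε.symm ⟨i, m⟩)) * Polynomial.X ^ (m.val + 1)

private theorem bb5_map {n : ℕ} {a : ι → ℤ} (ε : Fin n ≃ Un a) (x : ι → k) (y : Fin n → k) (i : ι) :
    Polynomial.mapAlgHom (MvPolynomial.aeval y : MvPolynomial (Fin n) k →ₐ[k] k) (gen ε x i) =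
      bb5_f ε x y i := by
  rw [Polynomial.coe_mapAlgHom, gen, bb5_f, Polynomial.map_add, Polynomial.map_C,
    Polynomial.map_sum]
  congr 1
  · simp
  · refine Finset.sum_congr rfl fun m _ => ?_
    rw [Polynomial.map_mul, Polynomial.map_C, Polynomial.map_pow, Polynomial.map_X]
    simp

private theorem bb5_coeff {n : ℕ} (X : Hyp k P) {a : ι → ℤ} (ε : Fin n ≃ Un a) (x : ι → k)
    (y : Fin n → k) (l : ℕ) :
    (cmp X (bb5_f ε x y)).coeff l = eval y (kap X ε x l) := by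
  have h1 : cmp X (bb5_f ε x y) =
      Polynomial.mapAlgHom (MvPolynomial.aeval y : MvPolynomial (Fin n) k →ₐ[k] k)
        (cmp X (gen ε x)) := by
    have h2 : bb5_f ε x y = fun i =>
        Polynomial.mapAlgHom (MvPolynomial.aeval y : MvPolynomial (Fin n) k →ₐ[k] k)
          (gen ε x i) := by
      funext i
      rw [bb5_map]
    rw [h2, cmp, cmp, MvPolynomial.comp_aeval_apply]
  rw [h1, Polynomial.coe_mapAlgHom, Polynomial.coeff_map, kap]
  rfl

private theorem bb5_coeff_zero {n : ℕ} {a : ι → ℤ} (ε : Fin n ≃ Un a) (x : ι → k) (y : Fin n → k)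
    (i : ι) : (bb5_f ε x y i).coeff 0 = x i := by
  rw [bb5_f, Polynomial.coeff_add, Polynomial.coeff_C_zero, Polynomial.finsetSum_coeff,
    Finset.sum_eq_zero, add_zero]
  intro m _
  rw [Polynomial.coeff_C_mul_X_pow, if_neg (Nat.succ_ne_zero _).symm]

private theorem bb5_coeff_succ {n : ℕ} {a : ι → ℤ} (ε : Fin n ≃ Un a) (x : ι → k) (y : Fin n → k)
    (i : ι) (m : Fin (a i).toNat) :
    (bb5_f ε x y i).coeff (m.val + 1) = y (ε.symm ⟨i, m⟩) := by
  rw [bb5_f, Polynomial.coeff_add, Polynomial.coeff_C_succ, zero_add, Polynomial.finsetSum_coeff,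
    Finset.sum_eq_single m]
  · rw [Polynomial.coeff_C_mul_X_pow, if_pos rfl]
  · intro m' _ hm'
    rw [Polynomial.coeff_C_mul_X_pow, if_neg]
    intro h
    exact hm' (Fin.ext (by omega))
  · intro h
    exact absurd (Finset.mem_univ m) h

private theorem bb5_deg {n : ℕ} {a : ι → ℤ} (ε : Fin n ≃ Un a) (x : ι → k) (y : Fin n → k) (i : ι) :
    (bb5_f ε x y i).natDegree ≤ (a i).toNat := by
  rw [bb5_f]
  refine Polynomial.natDegree_add_le_of_degree_le ?_ ?_
  · rw [Polynomial.natDegree_C]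
    exact Nat.zero_le _
  · refine Polynomial.natDegree_sum_le_of_forall_le _ _ fun m _ => ?_
    refine (Polynomial.natDegree_C_mul_X_pow_le _ _).trans ?_
    exact m.isLt

theorem no_sol [CharZero k] (X : Hyp k P) (a : ι → ℤ) (ha : a ∈ Rel P)
    (h0 : ∀ i, 0 ≤ a i) (hne : a ≠ 0) {M : ℕ} (ε : Fin (M + 1) ≃ Un a)
    (hM : (dk a).toNat = M + 1) (x : ι → k) (hF : aeval x X.F = 0) (hc : zs x ∈ P.C) (m : ℕ)
    (hm : 0 < m) (hdiv : ∀ t, wt ε t + 1 ∣ m) {H : Matrix (IxW (wt ε) (ds M) m) (IxW (wt ε) (ds M) m) k}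
    (h : Tor.Hom parW (CM X ε m x) H) : ¬ ∃ f, Sol X a x f := by
  rintro ⟨f, hf⟩
  obtain ⟨i₀, hai, hi₀⟩ := exists_i0 a ha h0 hne x hc
  obtain ⟨g, hg, hg1⟩ := sol_reparam X a ha h0 x f hf i₀ hai hi₀
  have hpos : 0 < (a i₀).toNat := by omega
  obtain ⟨m₀, hm₀⟩ : ∃ m₀ : Fin (a i₀).toNat, m₀ = ⟨0, hpos⟩ := ⟨_, rfl⟩
  obtain ⟨i₁, hi₁⟩ : ∃ i₁ : Fin (M + 1), i₁ = ε.symm ⟨i₀, m₀⟩ := ⟨_, rfl⟩
  have hεi : ε i₁ = ⟨i₀, m₀⟩ := by rw [hi₁, Equiv.apply_symm_apply]
  have hs₀ : SysW (gs X ε M x) (wt ε) (ds M) (th ε x) (as M) := sys_gs X a ha h0 ε M hM x hF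
  have hcne : (((a i₀).toNat : k) * x i₀) ≠ 0 :=
    mul_ne_zero (Nat.cast_ne_zero.2 hpos.ne') hi₀
  obtain ⟨c, hcdef⟩ : ∃ c : k, c = (a i₀).toNat * x i₀ := ⟨_, rfl⟩
  rw [← hcdef] at hcne
  have hth : th ε x i₁ = C c := by
    unfold th
    have e1 : (ε i₁).2.val = 0 := by rw [hεi, hm₀]
    have e2 : (ε i₁).1 = i₀ := by rw [hεi]
    rw [if_pos e1, e1, e2, Nat.sub_zero, hcdef, C_mul, map_natCast]
  have hwt : wt ε i₁ = 0 := by
    unfold wt
    rw [hεi, hm₀]
  obtain ⟨h₀, hh₀def⟩ : ∃ h₀ : MvPolynomial (Fin (M + 1)) k,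
      h₀ = C c⁻¹ * MvPolynomial.X i₁ := ⟨_, rfl⟩
  have hh₀ : dv (th ε x) h₀ = 1 := by
    unfold dv
    rw [Finset.sum_eq_single i₁]
    · rw [hh₀def, pderiv_C_mul, pderiv_X_self, mul_one, hth, ← C_mul, mul_inv_cancel₀ hcne, C_1]
    · intro b _ hb
      rw [hh₀def, pderiv_C_mul, pderiv_X_of_ne (Ne.symm hb), mul_zero, mul_zero]
    · intro hb
      exact absurd (Finset.mem_univ _) hb
  have hh₀' : ∀ α, coeff α h₀ ≠ 0 → wm (wt ε) α = 1 := by
    intro α hα
    rw [hh₀def, coeff_C_mul, coeff_X] at hα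
    have e1 : Finsupp.single i₁ 1 = α := by
      by_contra hcon
      rw [if_neg hcon, mul_zero] at hα
      exact hα rfl
    rw [← e1, wm_single, hwt]
  -- the values
  obtain ⟨y, hy⟩ : ∃ y : Fin (M + 1) → k, ∀ t, y t = (g (ε t).1).coeff ((ε t).2.val + 1) :=
    ⟨_, fun t => rfl⟩
  have hysym : ∀ (i : ι) (q : Fin (a i).toNat), y (ε.symm ⟨i, q⟩) = (g i).coeff (q.val + 1) := by
    intro i q
    rw [hy, Equiv.apply_symm_apply]
  have hgy : g = bb5_f ε x y := by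
    funext i
    ext l
    rcases l with _ | l
    · rw [hg.at0, bb5_coeff_zero]
    · by_cases hl : l < (a i).toNat
      · rw [bb5_coeff_succ ε x y i ⟨l, hl⟩, hysym]
      · rw [Polynomial.coeff_eq_zero_of_natDegree_lt, Polynomial.coeff_eq_zero_of_natDegree_lt]
        · have := bb5_deg ε x y i
          omega
        · have := hg.q.deg i
          omega
  have hgsy : ∀ j, eval y (gs X ε M x j) = 0 := by
    intro j
    have e1 : eval y (gs X ε M x j) = (cmp X g).coeff (j.val + 1) := by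
      rw [hgy, bb5_coeff]
      rfl
    obtain ⟨c', hc'⟩ := hg.tot
    rw [e1, hc', hM, Polynomial.coeff_C_mul_X_pow, if_neg]
    have := j.isLt
    omega
  have hzero : y = 0 := by
    refine zero_of (Fin.cons h₀ (gs X ε M x) : Fin (M + 1) → MvPolynomial (Fin (M + 1)) k) (wt ε) m
      hm hdiv ?_ y ?_
    · intro q hq
      exact mem_slice (gs X ε M x) (wt ε) (th ε x) hs₀.th h₀ hh₀ hh₀' m
        (fun q' hq' hq0 => ker_mem (gs X ε M x) (wt ε) (ds M) (th ε x) (as M) hs₀ m h q' hq' hq0) q hq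
    · intro j
      refine Fin.cases ?_ (fun q => ?_) j
      · rw [Fin.cons_zero, hh₀def, map_mul, eval_C, eval_X, hi₁, hysym, hm₀]
        have e1 : (g i₀).coeff ((⟨0, hpos⟩ : Fin (a i₀).toNat).val + 1) = 0 := hg1
        rw [e1, mul_zero]
      · rw [Fin.cons_succ]
        exact hgsy q
  apply hg.ntriv
  refine ⟨0, fun i => ?_⟩
  rw [Polynomial.C_0, zero_mul, add_zero, one_pow, mul_one, hg.at0]
  ext l
  rcases l with _ | l
  · rw [hg.at0, Polynomial.coeff_C_zero]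
  · rw [Polynomial.coeff_C_succ]
    by_cases hl : l < (a i).toNat
    · have e1 := hysym i ⟨l, hl⟩
      rw [hzero] at e1
      exact e1.symm
    · refine Polynomial.coeff_eq_zero_of_natDegree_lt ?_
      have := hg.q.deg i
      omega

end Pool.Agent.LibTC1.KW
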