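import Pool.Agent.LibTC1.B0

/-!
[TC1 BB6a] the torus weight of the discriminant. Plan: `pwW (mu ε l) (rh M l) t = ((∏ s, l (ε s).1 ^ α s) * ∏ j ∈ J, ∏ i, l i)⁻¹`, so with `e_t = if parW t = true then -1 else 1` the inverse of the factor of `t` is
`((∏ s, l (ε s).1 ^ α s) * ∏ j ∈ J, ∏ i, l i) ^ (- e_t)` (zpow) `= ∏ i, l i ^ (e_t * (-(∑ s, α s * [ (ε s).1 = i ]) - |J|))`; the product over `t` and `m` of powers of `l i ≠ 0` is the power with the sum of the exponents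
(a private lemma by induction with `zpow_add₀`; `Finset.prod_comm`).
-/

open scoped Classical
open MvPolynomial

set_option linter.unusedSectionVars false

namespace Pool.Agent.LibTC1.KW

open Pool.Agent.LibPK60 Pool.Agent.LibBH2 Pool.Agent.LibQC8

variable {ι : Type} [Fintype ι] {r : ℕ} {k : Type} [Field k] {P : Tor ι r}

private theorem BB6a_sum {L A : Type} [Field L] (l : L) (hl : l ≠ 0) (s : Finset A) (f : A → ℤ) :
    l ^ (∑ a ∈ s, f a) = ∏ a ∈ s, l ^ f a := by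
  induction s using Finset.induction_on with
  | empty => simp
  | insert a s ha ih => rw [Finset.sum_insert ha, Finset.prod_insert ha, zpow_add₀ hl, ih]

private theorem BB6a_one {L : Type} [Field L] {a : ι → ℤ} {M : ℕ} (ε : Fin (M + 1) ≃ Un a) (l : ι → L)
    (hl : ∀ i, l i ≠ 0) {m : ℕ} (t : IxW (wt ε) (ds M) m) :
    (if parW t = true then pwW (mu ε l) (rh M l) t else (pwW (mu ε l) (rh M l) t)⁻¹)⁻¹ =
      ∏ i, l i ^ ((if parW t = true then -1 else 1) *
        (-(∑ s, (t.1.2.2 s : ℤ) * (if (ε s).1 = i then 1 else 0)) - ∑ _j ∈ t.1.2.1, 1)) := by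
  have h1 : (∏ s, mu ε l s ^ t.1.2.2 s) =
      ∏ i, l i ^ (∑ s, (t.1.2.2 s : ℤ) * (if (ε s).1 = i then 1 else 0)) := by
    have h2 : ∀ s, mu ε l s ^ t.1.2.2 s =
        ∏ i, l i ^ ((t.1.2.2 s : ℤ) * (if (ε s).1 = i then 1 else 0)) := by
      intro s
      rw [Finset.prod_eq_single (ε s).1]
      · rw [if_pos rfl, mul_one, zpow_natCast]
        rfl
      · intro i _ hi
        rw [if_neg (Ne.symm hi), mul_zero, zpow_zero]
      · intro h
        exact absurd (Finset.mem_univ _) h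
    rw [Finset.prod_congr rfl fun s _ => h2 s, Finset.prod_comm]
    exact Finset.prod_congr rfl fun i _ => (BB6a_sum _ (hl i) _ _).symm
  have h3 : (∏ j ∈ t.1.2.1, rh M l j) = ∏ i, l i ^ (∑ _j ∈ t.1.2.1, (1 : ℤ)) := by
    have h4 : (∏ j ∈ t.1.2.1, rh M l j) = ∏ _j ∈ t.1.2.1, ∏ i, l i := rfl
    rw [h4, Finset.prod_comm]
    refine Finset.prod_congr rfl fun i _ => ?_
    rw [BB6a_sum _ (hl i)]
    simp only [zpow_one]
  have h5 : pwW (mu ε l) (rh M l) t =
      ∏ i, l i ^ (-(∑ s, (t.1.2.2 s : ℤ) * (if (ε s).1 = i then 1 else 0)) -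
        ∑ _j ∈ t.1.2.1, 1) := by
    unfold pwW
    rw [h1, h3, ← Finset.prod_mul_distrib, ← Finset.prod_inv_distrib]
    refine Finset.prod_congr rfl fun i _ => ?_
    rw [← zpow_add₀ (hl i), ← zpow_neg]
    congr 1
    ring
  rw [h5]
  split_ifs
  · rw [← Finset.prod_inv_distrib]
    refine Finset.prod_congr rfl fun i _ => ?_
    rw [← zpow_neg]
    congr 1
    ring
  · rw [inv_inv]
    refine Finset.prod_congr rfl fun i _ => ?_
    rw [one_mul]

theorem scale_id {L : Type} [Field L] {a : ι → ℤ} {M : ℕ} (ε : Fin (M + 1) ≃ Un a) (l : ι → L)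
    (hl : ∀ i, l i ≠ 0) (m₁ W : ℕ) (T : ι → ℕ)
    (hT : ∀ i, (T i : ℤ) = ∑ m ∈ Finset.Ico m₁ (m₁ + W), ∑ t : IxW (wt ε) (ds M) m,
      (if parW t = true then -1 else 1) *
        (-(∑ s, (t.1.2.2 s : ℤ) * (if (ε s).1 = i then 1 else 0)) - ∑ _j ∈ t.1.2.1, 1)) :
    ∏ m ∈ Finset.Ico m₁ (m₁ + W), (∏ t : IxW (wt ε) (ds M) m,
      if parW t = true then pwW (mu ε l) (rh M l) t else (pwW (mu ε l) (rh M l) t)⁻¹)⁻¹ =
      ∏ i, l i ^ T i := by
  have h1 : ∀ m, (∏ t : IxW (wt ε) (ds M) m,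
      if parW t = true then pwW (mu ε l) (rh M l) t else (pwW (mu ε l) (rh M l) t)⁻¹)⁻¹ =
      ∏ i, l i ^ (∑ t : IxW (wt ε) (ds M) m, (if parW t = true then -1 else 1) *
        (-(∑ s, (t.1.2.2 s : ℤ) * (if (ε s).1 = i then 1 else 0)) - ∑ _j ∈ t.1.2.1, 1)) := by
    intro m
    rw [← Finset.prod_inv_distrib, Finset.prod_congr rfl fun t _ => BB6a_one ε l hl t,
      Finset.prod_comm]
    exact Finset.prod_congr rfl fun i _ => (BB6a_sum _ (hl i) _ _).symm
  rw [Finset.prod_congr rfl fun m _ => h1 m, Finset.prod_comm]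
  refine Finset.prod_congr rfl fun i _ => ?_
  rw [← BB6a_sum _ (hl i), ← hT i, zpow_natCast]

end Pool.Agent.LibTC1.KW
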