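import Pool.Agent.LibTC1.BB6

/-!
The locus of the points with a nontrivial solution is closed under specialisation.
-/

open scoped Classical
open MvPolynomial

set_option linter.unusedSectionVars false

namespace Pool.Agent.LibTC1

open Pool.Agent.LibBH2 Pool.Agent.LibQC8

variable {ι : Type} [Fintype ι] {r : ℕ} {k : Type} [Field k] {P : Tor ι r}

theorem zs_map {K L : Type} [Field K] [Field L] (φ : K →+* L) (z : ι → K) :
    zs (fun i => φ (z i)) = zs z := by
  ext i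
  simp only [zs, Finset.mem_filter, Finset.mem_univ, true_and, map_eq_zero]

theorem closed [IsAlgClosed k] [CharZero k] (X : Hyp k P) (a : ι → ℤ) (ha : a ∈ Rel P)
    (h0 : ∀ i, 0 ≤ a i) (hne : a ≠ 0) {K L : Type} [Field K] [Algebra k K] [Field L] [Algebra k L]
    (φ : K →ₐ[k] L) (v : Place k K) (u : Pt X K) (p : Pt X k) (l : ι → K) (h : Sp v u p l)
    (hf : ∃ f, Sol (bc X L) a (fun i => φ (u.z i)) f) : ∃ f, Sol X a p.z f := by
  by_contra hp
  obtain ⟨𝒟⟩ := exists_disc X a ha h0 hne p.z p.hF p.cone hp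
  have hp' : ¬ ∃ f, Sol (bc X k) a p.z f := fun ⟨f, hf⟩ => hp ⟨f, (sol_bc_self X a p.z f).1 hf⟩
  obtain ⟨z, z₀, h1, h2, h3⟩ := 𝒟.place k K v (fun i => l i * u.z i) p.z
    (by rw [aeval_scale X h.tor, u.hF, mul_zero]) p.hF p.cone h.val hp'
  have h4 := 𝒟.map K L φ _ z h1
  have h5 := 𝒟.scale L (fun i => φ (l i * u.z i)) (fun i => (φ (l i))⁻¹) (φ z) h4
    (isT_inv (isT_map (φ : K →+* L) h.tor))
  have h6 : (fun i => (φ (l i))⁻¹ * φ (l i * u.z i)) = fun i => φ (u.z i) := by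
    funext i
    have h7 : φ (l i) ≠ 0 := fun e => h.tor.1 i ((map_eq_zero φ).1 e)
    rw [map_mul, inv_mul_cancel_left₀ h7]
  rw [h6] at h5
  refine 𝒟.nosol L _ _ h5 ?_ hf
  have h8 := zs_map (φ : K →+* L) u.z
  have h9 : zs (fun i => φ (u.z i)) = zs u.z := h8
  rw [h9]
  exact u.cone

end Pool.Agent.LibTC1
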