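import Pool.Agent.LibTC1.BG6b

/-!
[TC1 BG6c] the algebraic closure `kc k c` of `k(c)` in an algebraically closed field `Ω` of transcendence degree two. Plan. `kc_curve`: `K = kc(y)` contains `s j` (the `s j` are in `k(y)`), is generated by finitely many elements algebraic over `kc(s j)`: `IntermediateField.finiteDimensional_adjoin`-like; `IsFunctionField` (LibQC8/Defs.lean).
-/

open scoped Classical
open MvPolynomial

set_option linter.unusedSectionVars false

namespace Pool.Agent.LibTC1

open Pool.Agent.LibBH2 Pool.Agent.LibQC8

variable {ι : Type} [Fintype ι] {r : ℕ} {k : Type} [Field k] {P : Tor ι r}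

private theorem BG6c_fd {F Ω : Type} [Field F] [Field Ω] [Algebra F Ω] {ι : Type} [Finite ι]
    (y : ι → Ω) (S : IntermediateField.adjoin F (Set.range y))
    (halg : Algebra.IsAlgebraic (IntermediateField.adjoin F {(S : Ω)}) Ω) :
    FiniteDimensional (IntermediateField.adjoin F {S})
      (IntermediateField.adjoin F (Set.range y)) := by
  have hy : ∀ i, y i ∈ IntermediateField.adjoin F (Set.range y) := fun i =>
    IntermediateField.subset_adjoin F (Set.range y) ⟨i, rfl⟩
  generalize hT : (Set.range fun i => (⟨y i, hy i⟩ : IntermediateField.adjoin F (Set.range y))) = T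
  have hfin : Finite T := by
    rw [← hT]
    infer_instance
  have hlift : IntermediateField.adjoin F T = ⊤ := by
    apply IntermediateField.lift_injective (IntermediateField.adjoin F (Set.range y))
    rw [IntermediateField.lift_adjoin, IntermediateField.lift_top]
    congr 1
    rw [← hT]
    ext z
    constructor
    · rintro ⟨_, ⟨i, rfl⟩, rfl⟩
      exact ⟨i, rfl⟩
    · rintro ⟨i, rfl⟩
      exact ⟨_, ⟨i, rfl⟩, rfl⟩
  have htop : IntermediateField.adjoin (IntermediateField.adjoin F {S}) T = ⊤ := by
    rw [← IntermediateField.restrictScalars_eq_top_iff (K := F), eq_top_iff, ← hlift,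
      IntermediateField.adjoin_le_iff]
    intro z hz
    exact IntermediateField.subset_adjoin (IntermediateField.adjoin F {S}) T hz
  have hmap : (IntermediateField.adjoin F {S}).map
      (IntermediateField.adjoin F (Set.range y)).val = IntermediateField.adjoin F {(S : Ω)} := by
    rw [IntermediateField.adjoin_map, Set.image_singleton]
    rfl
  rw [← hmap] at halg
  have hint : ∀ x ∈ T, IsIntegral (IntermediateField.adjoin F {S}) x := by
    intro x _
    apply IsAlgebraic.isIntegral
    exact IsAlgebraic.of_ringHom_of_comp_eq
      (IntermediateField.equivMap (IntermediateField.adjoin F {S})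
        (IntermediateField.adjoin F (Set.range y)).val)
      (IntermediateField.adjoin F (Set.range y)).val
      (halg.isAlgebraic _) (AlgEquiv.surjective _) (RingHom.injective _) rfl
  have hfd := IntermediateField.finiteDimensional_adjoin hint
  rw [htop] at hfd
  exact LinearEquiv.finiteDimensional
    (IntermediateField.topEquiv (F := IntermediateField.adjoin F {S})
      (E := IntermediateField.adjoin F (Set.range y))).toLinearEquiv

theorem kc_curve {Ω : Type} [Field Ω] [IsAlgClosed Ω] [Algebra k Ω] (htr : Algebra.trdeg k Ω = 2)
    (c : Ω) (hc : Transcendental k c) (s : Fin 2 → Ω) (hs : AlgebraicIndependent k s)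
    (y : ι → Ω) (hsy : ∀ j, s j ∈ IntermediateField.adjoin k (Set.range y)) :
    ∃ (j : Fin 2) (hj : s j ∈ IntermediateField.adjoin (kc k c) (Set.range y)),
      Transcendental (kc k c) (⟨s j, hj⟩ : IntermediateField.adjoin (kc k c) (Set.range y)) ∧
      IsFunctionField (kc k c) (IntermediateField.adjoin (kc k c) (Set.range y)) := by
  obtain ⟨j, hj1, hj2⟩ := kc_trans htr c hc s hs
  have hle : IntermediateField.adjoin k (Set.range y) ≤
      (IntermediateField.adjoin (kc k c) (Set.range y)).restrictScalars k := by
    rw [IntermediateField.adjoin_le_iff]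
    intro z hz
    exact IntermediateField.subset_adjoin (kc k c) (Set.range y) hz
  have hj : s j ∈ IntermediateField.adjoin (kc k c) (Set.range y) := hle (hsy j)
  have htS : Transcendental (kc k c)
      (⟨s j, hj⟩ : IntermediateField.adjoin (kc k c) (Set.range y)) := by
    intro h
    exact hj1 (h.algebraMap (A := Ω))
  exact ⟨j, hj, htS, ⟨s j, hj⟩, htS, BG6c_fd y ⟨s j, hj⟩ hj2⟩

end Pool.Agent.LibTC1
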