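import Pool.Agent.LibTC1.BG0

/-!
[TC1 BG7] finitely many elements of an algebraic extension of `k(c)` lie in a function field. Plan: `K₂ = IntermediateField.adjoin k (insert c S)`. `IsFunctionField k K₂` with `s = ⟨c, _⟩`: transcendental over `k`;
`K₂` is finite over `k(c)`: as a field it is `adjoin (adjoin k {c}) S` (generated by finitely many algebraic = integral elements: `IntermediateField.finiteDimensional_adjoin`); compare with LibPN22/C3.lean for the change of the
base field (`adjoin k {c}` inside `K₂` and inside `k₁`).
-/

open scoped Classical
open MvPolynomial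

set_option linter.unusedSectionVars false

namespace Pool.Agent.LibTC1

open Pool.Agent.LibBH2 Pool.Agent.LibQC8

variable {ι : Type} [Fintype ι] {r : ℕ} {k : Type} [Field k] {P : Tor ι r}

private theorem BG7_ff {K : Type} [Field K] [Algebra k K] (hK : IsFunctionField k K) (L : Type) [Field L]
    [Algebra k L] [Algebra K L] [IsScalarTower k K L] [FiniteDimensional K L] : IsFunctionField k L := by
  obtain ⟨s, hs, hfin⟩ := hK
  refine ⟨algebraMap K L s, ?_, ?_⟩
  · intro h
    exact hs ((isAlgebraic_algebraMap_iff (algebraMap K L).injective).1 h)
  · have hmem : ∀ x : IntermediateField.adjoin k {s},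
        algebraMap K L x ∈ IntermediateField.adjoin k {algebraMap K L s} := by
      intro x
      have h1 : (IsScalarTower.toAlgHom k K L) x ∈
          (IntermediateField.adjoin k {s}).map (IsScalarTower.toAlgHom k K L) :=
        ⟨x, x.2, rfl⟩
      rw [IntermediateField.adjoin_map, Set.image_singleton] at h1
      exact h1
    let φ : IntermediateField.adjoin k {s} →+* IntermediateField.adjoin k {algebraMap K L s} :=
      RingHom.codRestrict ((algebraMap K L).comp (algebraMap (IntermediateField.adjoin k {s}) K))
        (IntermediateField.adjoin k {algebraMap K L s}) hmem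
    letI : Algebra (IntermediateField.adjoin k {s})
      (IntermediateField.adjoin k {algebraMap K L s}) := φ.toAlgebra
    haveI : FiniteDimensional (IntermediateField.adjoin k {s}) L :=
      FiniteDimensional.trans (IntermediateField.adjoin k {s}) K L
    haveI : IsScalarTower (IntermediateField.adjoin k {s})
        (IntermediateField.adjoin k {algebraMap K L s}) L :=
      IsScalarTower.of_algebraMap_eq fun _ => rfl
    exact Module.Finite.of_restrictScalars_finite (IntermediateField.adjoin k {s}) _ _

private theorem BG7_simple (k₁ : Type) [Field k₁] [Algebra k k₁] (c : k₁) (hc : Transcendental k c) :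
    IsFunctionField k (IntermediateField.adjoin k {c}) := by
  have hcE : c ∈ IntermediateField.adjoin k {c} :=
    IntermediateField.subset_adjoin k {c} (Set.mem_singleton c)
  refine ⟨⟨c, hcE⟩, ?_, ?_⟩
  · intro h
    apply hc
    have h1 := (isAlgebraic_algebraMap_iff (R := k) (A := k₁)
      (algebraMap (IntermediateField.adjoin k {c}) k₁).injective (a := ⟨c, hcE⟩)).2 h
    exact h1
  · have htop : IntermediateField.adjoin k {(⟨c, hcE⟩ : IntermediateField.adjoin k {c})} = ⊤ := by
      apply IntermediateField.map_injective (IntermediateField.adjoin k {c}).val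
      rw [IntermediateField.adjoin_map, Set.image_singleton, ← AlgHom.fieldRange_eq_map,
        IntermediateField.fieldRange_val]
      rfl
    rw [htop]
    haveI : FiniteDimensional (⊤ : IntermediateField k (IntermediateField.adjoin k {c}))
      (IntermediateField.adjoin k {c}) := by
      refine Module.Finite.of_surjective (Algebra.linearMap
        (⊤ : IntermediateField k (IntermediateField.adjoin k {c})) (IntermediateField.adjoin k {c})) ?_
      intro x
      exact ⟨⟨x, IntermediateField.mem_top⟩, rfl⟩
    infer_instance

theorem exists_K2 (k₁ : Type) [Field k₁] [Algebra k k₁] (c : k₁) (hc : Transcendental k c)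
    (hal : Algebra.IsAlgebraic (IntermediateField.adjoin k {c}) k₁) (S : Finset k₁) :
    ∃ K₂ : IntermediateField k k₁, c ∈ K₂ ∧ (∀ x ∈ S, x ∈ K₂) ∧ IsFunctionField k K₂ := by
  let E : IntermediateField k k₁ := IntermediateField.adjoin k {c}
  let L : IntermediateField E k₁ := IntermediateField.adjoin E (S : Set k₁)
  haveI : Finite ↑(S : Set k₁) := S.finite_toSet.to_subtype
  haveI : FiniteDimensional E L :=
    IntermediateField.finiteDimensional_adjoin fun x _ => (hal.isAlgebraic x).isIntegral
  refine ⟨L.restrictScalars k, ?_, ?_, ?_⟩
  · have hcE : c ∈ E := IntermediateField.subset_adjoin k {c} (Set.mem_singleton c)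
    exact L.algebraMap_mem ⟨c, hcE⟩
  · intro x hx
    exact IntermediateField.subset_adjoin E (S : Set k₁) hx
  · exact BG7_ff (BG7_simple k₁ c hc) L

end Pool.Agent.LibTC1
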