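import Pool.Agent.LibTC1.BC1
import Pool.Agent.LibTC1.BG1
import Pool.Agent.LibTC1.BG6c
import Pool.Agent.LibTC1.BG7
import Pool.Agent.LibTC1.BG8
import Pool.Agent.LibTC1.T2

/-!
Solutions on the curves through the generic point of a surface.
-/

open scoped Classical
open MvPolynomial

set_option linter.unusedSectionVars false

namespace Pool.Agent.LibTC1

open Pool.Agent.LibBH2 Pool.Agent.LibQC8

variable {ι : Type} [Fintype ι] {r : ℕ} {k : Type} [Field k] {P : Tor ι r}

theorem zs_ne {R : Type} [Zero R] (P : Tor ι r) [Nonempty ι] (z : ι → R) (h : ∀ i, z i ≠ 0) :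
    zs z ∈ P.C := by
  have h1 : zs z = ∅ := by
    ext i
    simp [zs, h i]
  rw [h1]
  exact P.down _ (P.single (Classical.arbitrary ι)) _ (Finset.empty_subset _)

theorem chi_map {K L : Type} [Field K] [Field L] (φ : K →+* L) (m : Fin r → ℤ) (z : ι → K) :
    chi P m (fun i => φ (z i)) = φ (chi P m z) := by
  unfold chi
  rw [map_prod]
  exact Finset.prod_congr rfl fun i _ => (map_zpow₀ φ _ _).symm

theorem curve_sol [IsAlgClosed k] [CharZero k] (X : Hyp k P) (b : ι → ℤ) (hb : b ∈ Rel P)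
    (hb0 : ∀ i, 0 ≤ b i) (hbne : b ≠ 0) {Ω : Type} [Field Ω] [IsAlgClosed Ω] [Algebra k Ω]
    (htr : Algebra.trdeg k Ω = 2) (y : ι → Ω) (hy : ∀ i, y i ≠ 0) (hyF : aeval y X.F = 0)
    (m₁ m₂ : Fin r → ℤ) (hind : AlgebraicIndependent k ![chi P m₁ y, chi P m₂ y])
    (hb1 : ∀ i, b i = dk b - 1 → pa P m₁ i = 0) (hb2 : ∀ i, b i = dk b - 1 → pa P m₂ i = 0)
    (c : Ω) (hc : Transcendental k c) :
    ∃ (u : Pt (bc X (kc k c)) (IntermediateField.adjoin (kc k c) (Set.range y)))
      (v : Place (kc k c) (IntermediateField.adjoin (kc k c) (Set.range y)))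
      (x : Pt (bc X (kc k c)) (kc k c))
      (l : ι → IntermediateField.adjoin (kc k c) (Set.range y)),
      (∀ i, (u.z i : Ω) = y i) ∧ Sp v u x l ∧ ∃ f, Sol (bc X (kc k c)) b x.z f := by
  have hcl : IsAlgClosed (kc k c) := kc_closed c
  have hch : CharZero (kc k c) := charZero_of_injective_algebraMap (algebraMap k (kc k c)).injective
  have hne : Nonempty ι := by
    by_contra h
    rw [not_nonempty_iff] at h
    exact hbne (Subsingleton.elim _ _)
  have hmem : ∀ m : Fin r → ℤ, chi P m y ∈ IntermediateField.adjoin k (Set.range y) := by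
    intro m
    unfold chi
    refine prod_mem fun i _ => zpow_mem ?_ _
    exact IntermediateField.subset_adjoin k _ ⟨i, rfl⟩
  have hsy : ∀ j : Fin 2, (![chi P m₁ y, chi P m₂ y] : Fin 2 → Ω) j ∈
      IntermediateField.adjoin k (Set.range y) := by
    intro j
    fin_cases j
    · exact hmem m₁
    · exact hmem m₂
  obtain ⟨j, hj, htj, hK⟩ := kc_curve htr c hc _ hind y hsy
  have hyK : ∀ i, y i ∈ IntermediateField.adjoin (kc k c) (Set.range y) := fun i =>
    IntermediateField.subset_adjoin _ _ ⟨i, rfl⟩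
  let z : ι → IntermediateField.adjoin (kc k c) (Set.range y) := fun i => ⟨y i, hyK i⟩
  have hz : ∀ i, z i ≠ 0 := fun i h => hy i (congrArg Subtype.val h)
  have hzF : aeval z (bc X (kc k c)).F = 0 := by
    rw [aeval_bc]
    have h1 := MvPolynomial.comp_aeval_apply
      (φ := ((IntermediateField.adjoin (kc k c) (Set.range y)).val.restrictScalars k)) z X.F
    apply Subtype.ext
    exact h1.trans hyF
  let u : Pt (bc X (kc k c)) (IntermediateField.adjoin (kc k c) (Set.range y)) :=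
    ⟨z, zs_ne P z hz, hzF⟩
  obtain ⟨D, hD⟩ := exists_hasDeg (bc X (kc k c)) hK u
  obtain ⟨hD0, hD1⟩ := deg_torus (bc X (kc k c)) hK u hz hD
  have key : ∀ m : Fin r → ℤ, (∀ i, b i = dk b - 1 → pa P m i = 0) →
      Transcendental (kc k c) (chi P m z) →
      ∑ i, (harmonic (dk b - 1).toNat - harmonic (b i).toNat) * (D i : ℚ) ≠ 0 := by
    intro m hm ht
    obtain ⟨i, hi, hDi⟩ := hD1 m ht
    exact weight_pos b hb hb0 hbne D hD0 i (fun h => hi (hm i h)) hDi
  have hchi : ∀ m : Fin r → ℤ, ((chi P m z : IntermediateField.adjoin (kc k c) (Set.range y)) : Ω) =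
      chi P m y := fun m =>
    (chi_map (P := P) ((IntermediateField.adjoin (kc k c) (Set.range y)).val :
      IntermediateField.adjoin (kc k c) (Set.range y) →+* Ω) m z).symm
  have hw : ∑ i, (harmonic (dk b - 1).toNat - harmonic (b i).toNat) * (D i : ℚ) ≠ 0 := by
    fin_cases j
    · refine key m₁ hb1 ?_
      have h2 : chi P m₁ z = ⟨(![chi P m₁ y, chi P m₂ y] : Fin 2 → Ω) 0, hj⟩ := Subtype.ext (hchi m₁)
      rw [h2]
      exact htj
    · refine key m₂ hb2 ?_
      have h2 : chi P m₂ z = ⟨(![chi P m₁ y, chi P m₂ y] : Fin 2 → Ω) 1, hj⟩ := Subtype.ext (hchi m₂)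
      rw [h2]
      exact htj
  obtain ⟨v, x, l, hs, hf⟩ := sol_curve (bc X (kc k c)) b hb hb0 hbne hK u D hD hw
  exact ⟨u, v, x, l, fun i => rfl, hs, hf⟩

end Pool.Agent.LibTC1
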