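import Pool.Agent.LibTC1.BG1
import Pool.Agent.LibTC1.BG2
import Pool.Agent.LibTC1.BG3
import Pool.Agent.LibTC1.BG4
import Pool.Agent.LibTC1.BG4b

/-!
[TC1 BG5] the surface (assembly of BG1 - BG4). Plan: `e ≠ e'`: `i₁` with `e i₁ ≠ e' i₁`. `s` for `b`, `s'` for `a` (`exists_s`). `exists_chars` (`i₁, i₂, i₃` are distinct by the values of `pa`), `exists_Om`, `exists_root`. The
character of `y` for `m` with `pa P m i₁ = 0`: `chi P m y = algebraMap (∏ other τ i ^ pa P m i) * t 0 ^ pa P m i₂ * t 1 ^ pa P m i₃` (split the product; `τ i ≠ 0` for the others since `y i ≠ 0`). `algInd_pow`, `trans_pow`.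
-/

open scoped Classical
open MvPolynomial

set_option linter.unusedSectionVars false

namespace Pool.Agent.LibTC1

open Pool.Agent.LibBH2 Pool.Agent.LibQC8

variable {ι : Type} [Fintype ι] {r : ℕ} {k : Type} [Field k] {P : Tor ι r}

private theorem BG5_chi {Ω : Type} [Field Ω] [Algebra k Ω] {t : Fin 2 → Ω} {y : ι → Ω} {τ : ι → k}
    {i₁ i₂ i₃ : ι} (h12 : i₁ ≠ i₂) (h13 : i₁ ≠ i₃) (h23 : i₂ ≠ i₃) (hy : ∀ i, y i ≠ 0)
    (h2 : y i₂ = t 0) (h3 : y i₃ = t 1)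
    (hτ : ∀ i, i ≠ i₁ → i ≠ i₂ → i ≠ i₃ → y i = algebraMap k Ω (τ i)) (m : Fin r → ℤ)
    (hm : pa P m i₁ = 0) :
    ∃ c : k, c ≠ 0 ∧ chi P m y = algebraMap k Ω c * t 0 ^ pa P m i₂ * t 1 ^ pa P m i₃ := by
  refine ⟨∏ i ∈ ((Finset.univ.erase i₁).erase i₂).erase i₃, τ i ^ pa P m i, ?_, ?_⟩
  · refine Finset.prod_ne_zero_iff.2 fun i hi => zpow_ne_zero _ ?_
    simp only [Finset.mem_erase, Finset.mem_univ, and_true] at hi
    intro h0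
    have h4 := hτ i hi.2.2 hi.2.1 hi.1
    rw [h0, map_zero] at h4
    exact hy i h4
  · have e1 : i₂ ∈ Finset.univ.erase i₁ := by simp [h12.symm]
    have e2 : i₃ ∈ (Finset.univ.erase i₁).erase i₂ := by simp [h13.symm, h23.symm]
    have h5 : ∏ i ∈ ((Finset.univ.erase i₁).erase i₂).erase i₃, y i ^ pa P m i =
        algebraMap k Ω (∏ i ∈ ((Finset.univ.erase i₁).erase i₂).erase i₃, τ i ^ pa P m i) := by
      rw [map_prod]
      refine Finset.prod_congr rfl fun i hi => ?_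
      simp only [Finset.mem_erase, Finset.mem_univ, and_true] at hi
      rw [hτ i hi.2.2 hi.2.1 hi.1, map_zpow₀]
    unfold chi
    rw [← Finset.mul_prod_erase Finset.univ _ (Finset.mem_univ i₁), ← Finset.mul_prod_erase _ _ e1,
      ← Finset.mul_prod_erase _ _ e2, h5, hm, zpow_zero, h2, h3]
    ring

theorem exists_surf [IsAlgClosed k] (hr : 4 ≤ r) (X : Hyp k P)
    (hF : ∃ e ∈ X.F.support, ∃ e' ∈ X.F.support, e ≠ e') (a : ι → ℤ) (ha : a ∈ Rel P)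
    (ha0 : ∀ i, 0 ≤ a i) (hane : a ≠ 0) (b : ι → ℤ) (hb : b ∈ Rel P) (hb0 : ∀ i, 0 ≤ b i)
    (hbne : b ≠ 0) :
    ∃ (Ω : Type) (_ : Field Ω) (_ : Algebra k Ω) (y : ι → Ω) (m₁ m₂ m' : Fin r → ℤ),
      IsAlgClosed Ω ∧ Algebra.trdeg k Ω = 2 ∧ (∀ i, y i ≠ 0) ∧ aeval y X.F = 0 ∧
      AlgebraicIndependent k ![chi P m₁ y, chi P m₂ y] ∧ Transcendental k (chi P m' y) ∧
      (∀ i, b i = dk b - 1 → pa P m₁ i = 0) ∧ (∀ i, b i = dk b - 1 → pa P m₂ i = 0) ∧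
      ∀ i, a i = dk a - 1 → pa P m' i = 0 := by
  obtain ⟨e, he, e', he', hne⟩ := hF
  obtain ⟨i₁, hi₁⟩ : ∃ i, e i ≠ e' i := by
    by_contra hcon
    push Not at hcon
    exact hne (Finsupp.ext hcon)
  obtain ⟨s, hs⟩ := exists_s b hb hb0 hbne
  obtain ⟨s', hs'⟩ := exists_s a ha ha0 hane
  obtain ⟨i₂, i₃, m₁, m₂, m', c1, c2, c3, c4, c5, c6, c7, c8, c9, c10, c11⟩ := exists_chars hr P i₁ s s'
  have h12 : i₁ ≠ i₂ := by
    rintro rfl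
    exact c3 c1
  have h13 : i₁ ≠ i₃ := by
    rintro rfl
    exact c8 c5
  have h23 : i₂ ≠ i₃ := by
    rintro rfl
    exact c3 c4
  obtain ⟨Ω, fΩ, aΩ, t, d1, d2, d3⟩ := exists_Om k
  obtain ⟨y, τ, hy, hyF, hy2, hy3, hτ⟩ := exists_root X Ω t d2 e e' he he' i₁ i₂ i₃ h12 h13 h23 hi₁
  obtain ⟨u1, hu1, hc1⟩ := BG5_chi h12 h13 h23 hy hy2 hy3 hτ m₁ c1
  obtain ⟨u2, hu2, hc2⟩ := BG5_chi h12 h13 h23 hy hy2 hy3 hτ m₂ c5
  obtain ⟨u3, hu3, hc3⟩ := BG5_chi h12 h13 h23 hy hy2 hy3 hτ m' c9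
  refine ⟨Ω, fΩ, aΩ, y, m₁, m₂, m', d1, d3, hy, hyF, ?_, ?_, hs m₁ c2, hs m₂ c6, hs' m' c10⟩
  · rw [hc1, hc2, c4, c7, zpow_zero, zpow_zero, mul_one, mul_one]
    exact algInd_pow d2 u1 u2 hu1 hu2 _ _ c3 c8
  · rw [hc3]
    exact trans_pow d2 u3 hu3 _ _ c11

end Pool.Agent.LibTC1
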