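import Pool.Agent.LibTC1.BC2
import Pool.Agent.LibTC1.BG5

/-!
Any two classes `a, b ≥ 0` have a common point with nontrivial solutions.
-/

open scoped Classical
open MvPolynomial

set_option linter.unusedSectionVars false

namespace Pool.Agent.LibTC1

open Pool.Agent.LibBH2 Pool.Agent.LibQC8

variable {ι : Type} [Fintype ι] {r : ℕ} {k : Type} [Field k] {P : Tor ι r}

/-- the torus and the exponents `e i = n T i + ⟨m, v i⟩` -/
theorem exp_id {K : Type} [Field K] {l : ι → K} (hl : IsT P l) (n : ℕ) (T e : ι → ℕ) (m : Fin r → ℤ)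
    (he : ∀ i, (e i : ℤ) = n * T i + pa P m i) : ∏ i, l i ^ e i = (∏ i, l i ^ T i) ^ n := by
  have h1 : ∏ i, l i ^ pa P m i = 1 := hl.2 m
  have h2 : ∏ i, l i ^ e i = (∏ i, l i ^ T i) ^ n * ∏ i, l i ^ pa P m i := by
    rw [← Finset.prod_pow, ← Finset.prod_mul_distrib]
    refine Finset.prod_congr rfl fun i _ => ?_
    rw [← zpow_natCast, he i, zpow_add₀ (hl.1 i), ← pow_mul, ← zpow_natCast (l i) (T i * n)]
    congr 2
    push_cast
    ring
  rw [h2, h1, mul_one]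

/-- a specialisation over `k` of a solution over the closure of `k(c)` -/
theorem descend [IsAlgClosed k] [CharZero k] (X : Hyp k P) {k₁ : Type} [Field k₁] [Algebra k k₁]
    (K₂ : IntermediateField k k₁) (hK : IsFunctionField k K₂) (x : ι → K₂)
    (hx : zs (fun i => (x i : k₁)) ∈ P.C) (hF : aeval (fun i => (x i : k₁)) X.F = 0)
    (w : Place k K₂) :
    ∃ (u : Pt X K₂) (p : Pt X k) (l : ι → K₂), (∀ i, u.z i = x i) ∧ Sp w u p l ∧
      ∀ (a : ι → ℤ), a ∈ Rel P → (∀ i, 0 ≤ a i) → a ≠ 0 →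
        (∃ f, Sol (bc X k₁) a (fun i => (x i : k₁)) f) → ∃ f, Sol X a p.z f := by
  have h1 : zs x ∈ P.C := by
    have h := zs_map (K₂.val : K₂ →+* k₁) x
    rw [← h]
    exact hx
  have h2 : aeval x X.F = 0 := by
    have h := MvPolynomial.comp_aeval_apply (φ := K₂.val) x X.F
    apply Subtype.ext
    exact h.trans hF
  let u : Pt X K₂ := ⟨x, h1, h2⟩
  obtain ⟨p, l, hs⟩ := exists_sp X hK w u
  exact ⟨u, p, l, fun _ => rfl, hs, fun a ha h0 hne hf =>
    closed X a ha h0 hne K₂.val w u p l hs hf⟩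

theorem exists_c [IsAlgClosed k] {Ω : Type} [Field Ω] [Algebra k Ω] (y : ι → Ω) (hy : ∀ i, y i ≠ 0)
    (T : ι → ℕ) (m' : Fin r → ℤ) (hm' : Transcendental k (chi P m' y))
    (hT : ∀ i, T i = 0 → pa P m' i = 0) (δ : Ω) (hδ : δ ≠ 0) :
    ∃ (n : ℕ) (e : ι → ℕ) (m : Fin r → ℤ) (c : Ω), (∀ i, (e i : ℤ) = n * T i + pa P m i) ∧
      Transcendental k c ∧ δ ^ n = c * ∏ i, y i ^ e i := by
  have hprod : ∏ i, y i ^ T i ≠ 0 := Finset.prod_ne_zero_iff.2 fun i _ => pow_ne_zero _ (hy i)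
  by_cases h : Transcendental k (δ / ∏ i, y i ^ T i)
  · refine ⟨1, T, 0, δ / ∏ i, y i ^ T i, fun i => ?_, h, ?_⟩
    · simp [pa]
    · rw [pow_one, div_mul_cancel₀ _ hprod]
  · have halg : IsAlgebraic k (δ / ∏ i, y i ^ T i) := by
      unfold Transcendental at h
      exact not_not.1 h
    set g := δ / ∏ i, y i ^ T i with hg
    have hg0 : g ≠ 0 := div_ne_zero hδ hprod
    have hdg : δ = g * ∏ i, y i ^ T i := by rw [hg, div_mul_cancel₀ _ hprod]
    set n : ℕ := ∑ i, (pa P m' i).natAbs with hn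
    have he0 : ∀ i, 0 ≤ (n : ℤ) * T i + pa P m' i := by
      intro i
      have h1 : (pa P m' i).natAbs ≤ n :=
        Finset.single_le_sum (f := fun i => (pa P m' i).natAbs) (fun _ _ => Nat.zero_le _)
          (Finset.mem_univ i)
      rcases Nat.eq_zero_or_pos (T i) with h2 | h2
      · rw [h2, hT i h2]
        simp
      · have h3 : (n : ℤ) ≤ n * T i := by
          have : (1 : ℤ) ≤ T i := by exact_mod_cast h2
          nlinarith [Int.natCast_nonneg n]
        have h4 : -((pa P m' i).natAbs : ℤ) ≤ pa P m' i := by omega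
        have h5 : ((pa P m' i).natAbs : ℤ) ≤ n := by exact_mod_cast h1
        linarith
    have hchi0 : chi P m' y ≠ 0 := Finset.prod_ne_zero_iff.2 fun i _ => zpow_ne_zero _ (hy i)
    refine ⟨n, fun i => ((n : ℤ) * T i + pa P m' i).toNat, m', g ^ n * (chi P m' y)⁻¹,
      fun i => Int.toNat_of_nonneg (he0 i), ?_, ?_⟩
    · intro hal
      apply hm'
      have h1 : (chi P m' y)⁻¹ = (g ^ n)⁻¹ * (g ^ n * (chi P m' y)⁻¹) := by
        rw [← mul_assoc, inv_mul_cancel₀ (pow_ne_zero _ hg0), one_mul]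
      have h2 : IsAlgebraic k (chi P m' y)⁻¹ := by
        rw [h1]
        exact (halg.pow n).inv.mul hal
      have h3 := h2.inv
      rwa [inv_inv] at h3
    · have h1 : ∏ i, y i ^ ((n : ℤ) * T i + pa P m' i).toNat = (∏ i, y i ^ T i) ^ n * chi P m' y := by
        unfold chi
        rw [← Finset.prod_pow, ← Finset.prod_mul_distrib]
        refine Finset.prod_congr rfl fun i _ => ?_
        rw [← zpow_natCast, Int.toNat_of_nonneg (he0 i), zpow_add₀ (hy i), ← pow_mul,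
          ← zpow_natCast (y i) (T i * n)]
        congr 2
        push_cast
        ring
      rw [h1, hdg, mul_pow]
      field_simp

theorem big [IsAlgClosed k] [CharZero k] (hr : 4 ≤ r) (X : Hyp k P)
    (hF : ∃ e ∈ X.F.support, ∃ e' ∈ X.F.support, e ≠ e') (a : ι → ℤ) (ha : a ∈ Rel P)
    (ha0 : ∀ i, 0 ≤ a i) (hane : a ≠ 0) (b : ι → ℤ) (hb : b ∈ Rel P) (hb0 : ∀ i, 0 ≤ b i)
    (hbne : b ≠ 0) : ∃ p : Pt X k, (∃ f, Sol X a p.z f) ∧ ∃ f, Sol X b p.z f := by
  by_contra hZ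
  have hZ' : ∀ p : Pt X k, (∃ f, Sol X a p.z f) → (∃ f, Sol X b p.z f) → False :=
    fun p h1 h2 => hZ ⟨p, h1, h2⟩
  have hne : Nonempty ι := by
    by_contra h
    rw [not_nonempty_iff] at h
    exact hbne (Subsingleton.elim _ _)
  obtain ⟨Ω, iF, iA, y, m₁, m₂, m', hΩ, htr, hy, hyF, hind, htm', hb1, hb2, ham'⟩ :=
    exists_surf hr X hF a ha ha0 hane b hb hb0 hbne
  have hc₀ : Transcendental k (chi P m₁ y) := by
    have h := hind.transcendental 0
    exact h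
  -- no point over the closure of `k(c)` either
  have hZc : ∀ (c : Ω), Transcendental k c → ∀ x : Pt (bc X (kc k c)) (kc k c),
      (∃ f, Sol (bc X (kc k c)) a x.z f) → (∃ f, Sol (bc X (kc k c)) b x.z f) → False := by
    intro c hc x h1 h2
    have hc' : Transcendental k (⟨c, mem_kc c⟩ : kc k c) := by
      intro h
      exact hc (h.algHom (kc k c).val)
    obtain ⟨K₂, hcK, hxK, hK⟩ := exists_K2 (kc k c) ⟨c, mem_kc c⟩ hc' (kc_alg c)
      (Finset.univ.image x.z)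
    have hx : ∀ i, x.z i ∈ K₂ := fun i => hxK _ (Finset.mem_image_of_mem _ (Finset.mem_univ i))
    have hcK2 : Transcendental k (⟨⟨c, mem_kc c⟩, hcK⟩ : K₂) := by
      intro h
      exact hc' (h.algHom K₂.val)
    obtain ⟨w, hw⟩ := Pool.Agent.LibEnd77.Val8.exists_zero hK hcK2
    have hxF : aeval (fun i => x.z i) X.F = 0 := by
      rw [← aeval_bc X (kc k c)]
      exact x.hF
    obtain ⟨u, p, l, hu, hs, hd⟩ := descend X K₂ hK (fun i => ⟨x.z i, hx i⟩) x.cone hxF w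
    exact hZ' p (hd a ha ha0 hane h1) (hd b hb hb0 hbne h2)
  have hcurve := fun (c : Ω) (hc : Transcendental k c) =>
    curve_sol X b hb hb0 hbne htr y hy hyF m₁ m₂ hind hb1 hb2 c hc
  have hzy : zs y ∈ P.C := zs_ne P y hy
  by_cases hA : ∃ f, Sol (bc X Ω) a y f
  · obtain ⟨u, v, x, l, hu, hs, hfb⟩ := hcurve _ hc₀
    have hcl : IsAlgClosed (kc k (chi P m₁ y)) := kc_closed _
    have hch : CharZero (kc k (chi P m₁ y)) :=
      charZero_of_injective_algebraMap (algebraMap k (kc k (chi P m₁ y))).injective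
    refine hZc _ hc₀ x ?_ hfb
    refine closed (bc X (kc k (chi P m₁ y))) a ha ha0 hane
      (IntermediateField.adjoin (kc k (chi P m₁ y)) (Set.range y)).val v u x l hs ?_
    rw [bc_bc]
    have h1 : (fun i => (IntermediateField.adjoin (kc k (chi P m₁ y)) (Set.range y)).val (u.z i)) = y :=
      funext hu
    rw [h1]
    exact hA
  -- an exact point for `a`
  obtain ⟨𝒟⟩ : Nonempty (Disc X a) := by
    obtain ⟨u, v, x, l, hu, hs, hfb⟩ := hcurve _ hc₀
    have hc' : Transcendental k (⟨chi P m₁ y, mem_kc _⟩ : kc k (chi P m₁ y)) := by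
      intro h
      exact hc₀ (h.algHom (kc k (chi P m₁ y)).val)
    obtain ⟨K₂, hcK, hxK, hK⟩ := exists_K2 (kc k (chi P m₁ y)) ⟨_, mem_kc _⟩ hc' (kc_alg _)
      (Finset.univ.image x.z)
    have hx : ∀ i, x.z i ∈ K₂ := fun i => hxK _ (Finset.mem_image_of_mem _ (Finset.mem_univ i))
    have hcK2 : Transcendental k (⟨⟨chi P m₁ y, mem_kc _⟩, hcK⟩ : K₂) := by
      intro h
      exact hc' (h.algHom K₂.val)
    obtain ⟨w, hw⟩ := Pool.Agent.LibEnd77.Val8.exists_zero hK hcK2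
    have hxF : aeval (fun i => x.z i) X.F = 0 := by
      rw [← aeval_bc X (kc k (chi P m₁ y))]
      exact x.hF
    obtain ⟨-, p, -, -, -, hd⟩ := descend X K₂ hK (fun i => ⟨x.z i, hx i⟩) x.cone hxF w
    exact exists_disc X a ha ha0 hane p.z p.hF p.cone fun h => hZ' p h (hd b hb hb0 hbne hfb)
  obtain ⟨δ, hδ⟩ := 𝒟.ex Ω y hyF hzy hA
  have hδ0 : δ ≠ 0 := 𝒟.ne Ω y δ hδ
  obtain ⟨n, e, m, c, he, hc, hδc⟩ := exists_c (P := P) y hy 𝒟.T m' htm'
    (fun i hi => ham' i (𝒟.pos i hi)) δ hδ0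
  obtain ⟨u, v, x, l, hu, hs, hfb⟩ := hcurve c hc
  have hxa : ¬ ∃ f, Sol (bc X (kc k c)) a x.z f := fun h => hZc c hc x h hfb
  have hcl : IsAlgClosed (kc k c) := kc_closed _
  have hxF : aeval (fun i => x.z i) X.F = 0 := by
    rw [← aeval_bc X (kc k c)]
    exact x.hF
  have huF : aeval u.z X.F = 0 := by
    rw [← aeval_bc X (kc k c)]
    exact u.hF
  -- specialisation at `v`
  obtain ⟨z, z₀, hz, hz₀, hzv⟩ := 𝒟.place (kc k c) (IntermediateField.adjoin (kc k c) (Set.range y)) v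
    (fun i => l i * u.z i) x.z (by rw [aeval_scale X hs.tor, huF, mul_zero]) hxF x.cone hs.val hxa
  let φ : IntermediateField.adjoin (kc k c) (Set.range y) →ₐ[k] Ω :=
    (IntermediateField.adjoin (kc k c) (Set.range y)).val.restrictScalars k
  have hφu : ∀ i, φ (u.z i) = y i := hu
  have hz1 := 𝒟.map _ Ω φ _ z hz
  have hz2 := 𝒟.scale Ω y (fun i => φ (l i)) δ hδ
    (isT_map (φ : IntermediateField.adjoin (kc k c) (Set.range y) →+* Ω) hs.tor)
  have hz3 : (fun i => φ (l i * u.z i)) = fun i => φ (l i) * y i := by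
    funext i
    rw [map_mul, hφu]
  rw [hz3] at hz1
  have hz4 : φ z = (∏ i, φ (l i) ^ 𝒟.T i) * δ := 𝒟.uniq Ω _ _ _ hz1 hz2
  -- the relation at `x`
  have hrel : z₀ ^ n = (⟨c, mem_kc c⟩ : kc k c) * ∏ i, x.z i ^ e i := by
    have h1 : z ^ n = algebraMap (kc k c) _ (⟨c, mem_kc c⟩ : kc k c) * ∏ i, (l i * u.z i) ^ e i := by
      apply (φ : IntermediateField.adjoin (kc k c) (Set.range y) →+* Ω).injective
      have h2 := exp_id (P := P)
        (isT_map (φ : IntermediateField.adjoin (kc k c) (Set.range y) →+* Ω) hs.tor) n 𝒟.T e m he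
      have h3 : ∏ i, φ (l i) ^ e i = (∏ i, φ (l i) ^ 𝒟.T i) ^ n := h2
      have h4 : φ (algebraMap (kc k c) _ (⟨c, mem_kc c⟩ : kc k c)) = c := rfl
      show φ (z ^ n) = φ (algebraMap (kc k c) _ (⟨c, mem_kc c⟩ : kc k c) *
        ∏ i, (l i * u.z i) ^ e i)
      rw [map_pow, hz4, mul_pow, hδc, map_mul, h4, map_prod]
      have h5 : ∀ i, φ ((l i * u.z i) ^ e i) = φ (l i) ^ e i * y i ^ e i := fun i => by
        rw [map_pow, map_mul, hφu, mul_pow]
      rw [Finset.prod_congr rfl fun i _ => h5 i, Finset.prod_mul_distrib, h3]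
      ring
    have h2 : v.Zer (z ^ n - algebraMap (kc k c) _ (z₀ ^ n)) := Place.val_pow hzv n
    have h3 : v.Zer (z ^ n - algebraMap (kc k c) _
        ((⟨c, mem_kc c⟩ : kc k c) * ∏ i, x.z i ^ e i)) := by
      rw [h1]
      refine Place.val_mul (Place.val_const _) ?_
      exact Pool.Agent.LibPK60.Tor.val_prod _ _ _ fun i _ => Place.val_pow (hs.val i) (e i)
    exact Place.val_unique h2 h3
  -- descend to `k`
  have hc' : Transcendental k (⟨c, mem_kc c⟩ : kc k c) := by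
    intro h
    exact hc (h.algHom (kc k c).val)
  obtain ⟨K₂, hcK, hxK, hK⟩ := exists_K2 (kc k c) ⟨c, mem_kc c⟩ hc' (kc_alg c)
    (insert z₀ (Finset.univ.image x.z))
  have hx : ∀ i, x.z i ∈ K₂ := fun i =>
    hxK _ (Finset.mem_insert_of_mem (Finset.mem_image_of_mem _ (Finset.mem_univ i)))
  have hzK : z₀ ∈ K₂ := hxK _ (Finset.mem_insert_self _ _)
  have hcK2 : Transcendental k (⟨⟨c, mem_kc c⟩, hcK⟩ : K₂) := by
    intro h
    exact hc' (h.algHom K₂.val)
  obtain ⟨w, hw⟩ := Pool.Agent.LibEnd77.Val8.exists_zero hK hcK2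
  obtain ⟨u2, p, l2, hu2, hs2, hd⟩ := descend X K₂ hK (fun i => ⟨x.z i, hx i⟩) x.cone hxF w
  have hpb := hd b hb hb0 hbne hfb
  have hpa : ¬ ∃ f, Sol (bc X k) a p.z f := fun ⟨f, hf⟩ =>
    hZ' p ⟨f, (sol_bc_self X a p.z f).1 hf⟩ hpb
  obtain ⟨z', z₀', hz', hz₀', hzw⟩ := 𝒟.place k K₂ w (fun i => l2 i * u2.z i) p.z
    (by rw [aeval_scale X hs2.tor, u2.hF, mul_zero]) p.hF p.cone hs2.val hpa
  have hne' : z₀' ≠ 0 := 𝒟.ne k _ _ hz₀'
  have hy1 := 𝒟.map K₂ (kc k c) K₂.val _ z' hz'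
  have hy2 := 𝒟.scale (kc k c) x.z (fun i => K₂.val (l2 i)) z₀ hz₀
    (isT_map (K₂.val : K₂ →+* kc k c) hs2.tor)
  have hy3 : (fun i => K₂.val (l2 i * u2.z i)) = fun i => K₂.val (l2 i) * x.z i := by
    funext i
    rw [map_mul, hu2]
    rfl
  rw [hy3] at hy1
  have hy4 : K₂.val z' = (∏ i, K₂.val (l2 i) ^ 𝒟.T i) * z₀ := 𝒟.uniq (kc k c) _ _ _ hy1 hy2
  have hfin : z' ^ n = (⟨⟨c, mem_kc c⟩, hcK⟩ : K₂) * ∏ i, (l2 i * u2.z i) ^ e i := by
    apply (K₂.val : K₂ →+* kc k c).injective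
    have h2 := exp_id (P := P) (isT_map (K₂.val : K₂ →+* kc k c) hs2.tor) n 𝒟.T e m he
    have h3 : ∏ i, K₂.val (l2 i) ^ e i = (∏ i, K₂.val (l2 i) ^ 𝒟.T i) ^ n := h2
    show K₂.val (z' ^ n) = K₂.val ((⟨⟨c, mem_kc c⟩, hcK⟩ : K₂) * ∏ i, (l2 i * u2.z i) ^ e i)
    have h5 : ∀ i, K₂.val ((l2 i * u2.z i) ^ e i) = K₂.val (l2 i) ^ e i * x.z i ^ e i := fun i => by
      rw [map_pow, map_mul, hu2, mul_pow]
      rfl
    have h4 : K₂.val (⟨⟨c, mem_kc c⟩, hcK⟩ : K₂) = (⟨c, mem_kc c⟩ : kc k c) := rfl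
    rw [map_pow, hy4, mul_pow, hrel, map_mul, h4, map_prod,
      Finset.prod_congr rfl fun i _ => h5 i, Finset.prod_mul_distrib, h3]
    ring
  have hreg : w.Reg (∏ i, (l2 i * u2.z i) ^ e i) := by
    have h1 := Pool.Agent.LibPK60.Tor.val_prod (v := w) Finset.univ
      (fun i => (l2 i * u2.z i) ^ e i) (fun i => p.z i ^ e i)
      fun i _ => Place.val_pow (hs2.val i) (e i)
    exact Place.reg_of_val h1
  have hzer : w.Zer (z' ^ n) := by
    rw [hfin]
    exact Place.Zer.mul_reg (Or.inr hw) hreg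
  have hval : w.Zer (z' ^ n - algebraMap k K₂ (z₀' ^ n)) := Place.val_pow hzw n
  have h0 : z₀' ^ n = 0 := by
    refine Place.val_unique hval (d := 0) ?_
    rw [map_zero, sub_zero]
    exact hzer
  exact pow_ne_zero n hne' h0

end Pool.Agent.LibTC1
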