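import Pool.Agent.LibTC1.B0
import Pool.Agent.LibTC1.P5

/-!
Characters of the torus, the algebraic closure of `k(c)`.
-/

open scoped Classical
open MvPolynomial

set_option linter.unusedSectionVars false

namespace Pool.Agent.LibTC1

open Pool.Agent.LibBH2 Pool.Agent.LibQC8

variable {ι : Type} [Fintype ι] {r : ℕ}

/-- the pairing of the character `m` with the ray `v i` -/
def pa (P : Tor ι r) (m : Fin r → ℤ) (i : ι) : ℤ := ∑ j, m j * P.v i j

/-- the character `m` -/
noncomputable def chi (P : Tor ι r) (m : Fin r → ℤ) {K : Type} [Field K] (z : ι → K) : K :=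
  ∏ i, z i ^ pa P m i

/-- the algebraic closure of `k(c)` in `Ω` -/
noncomputable def kc (k : Type) [Field k] {Ω : Type} [Field Ω] [Algebra k Ω] (c : Ω) :
    IntermediateField k Ω :=
  (algebraicClosure (IntermediateField.adjoin k {c}) Ω).restrictScalars k

end Pool.Agent.LibTC1
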