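import Pool.Agent.LibTC1.CDefs

/-!
[TC1 C15] Extension of additive functions; a strictly positive class.
-/

open scoped Classical
open MvPolynomial

set_option linter.unusedSectionVars false

namespace Pool.Agent.LibTC1

open Pool.Agent.LibBH2 Pool.Agent.LibQC8

variable {ι : Type} [Fintype ι] {r : ℕ}

private theorem C15_mul {G : Type} [AddCommGroup G] (S : Set G)
    (hadd : ∀ a ∈ S, ∀ b ∈ S, a + b ∈ S) (b0 : G) (hb0 : b0 ∈ S) (m : ℕ) (hm : 1 ≤ m) :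
    m • b0 ∈ S := by
  induction m with
  | zero => omega
  | succ m ih =>
    rcases Nat.eq_zero_or_pos m with h | h
    · subst h
      rw [zero_add, one_smul]
      exact hb0
    · rw [succ_nsmul]
      exact hadd _ (ih h) _ hb0

private theorem C15_ind {G A : Type} [AddCommGroup G] [AddCommGroup A] (S : Set G)
    (hadd : ∀ a ∈ S, ∀ b ∈ S, a + b ∈ S) (b0 : G) (hb0 : b0 ∈ S) (φ0 : G → A)
    (h : ∀ a ∈ S, ∀ b ∈ S, φ0 (a + b) = φ0 a + φ0 b) (a : G) (m m' : ℕ) (hm : 1 ≤ m)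
    (hm' : 1 ≤ m') (ha : a + m • b0 ∈ S) (ha' : a + m' • b0 ∈ S) :
    φ0 (a + m • b0) - φ0 (m • b0) = φ0 (a + m' • b0) - φ0 (m' • b0) := by
  have h1 := h _ ha _ (C15_mul S hadd b0 hb0 m' hm')
  have h2 := h _ ha' _ (C15_mul S hadd b0 hb0 m hm)
  have h3 : a + m • b0 + m' • b0 = a + m' • b0 + m • b0 := by abel
  rw [h3, h2] at h1
  rw [sub_eq_sub_iff_add_eq_add]
  exact h1.symm

theorem extend_hom {G A : Type} [AddCommGroup G] [AddCommGroup A] (S : Set G)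
    (hadd : ∀ a ∈ S, ∀ b ∈ S, a + b ∈ S) (b0 : G) (hb0 : b0 ∈ S)
    (hS : ∀ a : G, ∃ n : ℕ, ∀ m, n ≤ m → a + m • b0 ∈ S) (φ0 : G → A)
    (h : ∀ a ∈ S, ∀ b ∈ S, φ0 (a + b) = φ0 a + φ0 b) :
    ∃ φ : G →+ A, ∀ a ∈ S, φ a = φ0 a := by
  choose n hn using hS
  have key : ∀ (a : G) (m : ℕ), 1 ≤ m → a + m • b0 ∈ S →
      φ0 (a + (n a + 1) • b0) - φ0 ((n a + 1) • b0) = φ0 (a + m • b0) - φ0 (m • b0) :=
    fun a m hm ha => C15_ind S hadd b0 hb0 φ0 h a (n a + 1) m (by omega) hm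
      (hn a _ (by omega)) ha
  refine ⟨AddMonoidHom.mk' (fun a => φ0 (a + (n a + 1) • b0) - φ0 ((n a + 1) • b0)) ?_, ?_⟩
  · intro a b
    obtain ⟨m, hm⟩ : ∃ m : ℕ, m = n a + n b + n (a + b) + 1 := ⟨_, rfl⟩
    have ha := hn a m (by omega)
    have hb := hn b m (by omega)
    have hab := hn (a + b) (m + m) (by omega)
    show φ0 (a + b + (n (a + b) + 1) • b0) - φ0 ((n (a + b) + 1) • b0) =
      (φ0 (a + (n a + 1) • b0) - φ0 ((n a + 1) • b0)) +
      (φ0 (b + (n b + 1) • b0) - φ0 ((n b + 1) • b0))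
    rw [key a m (by omega) ha, key b m (by omega) hb, key (a + b) (m + m) (by omega) hab]
    have h1 : a + b + (m + m) • b0 = (a + m • b0) + (b + m • b0) := by
      rw [add_nsmul]; abel
    have hmm := C15_mul S hadd b0 hb0 m (by omega)
    rw [h1, h _ ha _ hb, add_nsmul, h _ hmm _ hmm]
    abel
  · intro a ha
    have hmm := C15_mul S hadd b0 hb0 (n a + 1) (by omega)
    show φ0 (a + (n a + 1) • b0) - φ0 ((n a + 1) • b0) = φ0 a
    rw [h _ ha _ hmm, add_sub_cancel_right]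

theorem exists_b0 (P : Tor ι r) : ∃ b ∈ Rel P, ∀ i, 0 < b i := by
  obtain ⟨m, -, hm⟩ := P.compl (fun j => -∑ i, P.v i j)
  refine ⟨fun i => (m i : ℤ) + 1, ?_, fun i => by positivity⟩
  intro j
  show ∑ i, ((m i : ℤ) + 1) * P.v i j = 0
  simp only [add_mul, one_mul, Finset.sum_add_distrib]
  rw [hm j]
  ring

end Pool.Agent.LibTC1
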