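import Pool.Agent.LibTC1.C17
import Pool.Agent.LibTC1.C16

/-!
[TC1 C18] (MEDIUM) The homomorphism `φ` and all maps.

mobius: `f' i = mob (a i).toNat q (f i)` for `a i ≥ 0`, `0` for `a i < 0` (`mobq`). `vl_mob`: `vl a f' ζ i = l i * vl a f (mu q ζ) i` with `l i = s ^ a i` for `ζ = some s`, `s ≠ 0`
(`mob_eval`, `isT_rel`), `l = 1` for `ζ = some 0`, `none` (`mob_zero`, `mob_coeff`). So `f'` is a map, and `pz X (vl a f' ζ) = pz X (vl a f (mu q ζ))` (`pz_congr`).
cmp_mob: `cmp X f' = mob (dk a).toNat q (cmp X f)`: equal values at all `s ≠ 0` (`cmp_eval`, `aeval_scale` with `l i = s ^ a i`, `∏ l i = s ^ dk a`, `dk a ≥ 0`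
by `isMap_dk`, `cmp_deg`). With `fcyc_rsum` (C13) and `rsum_mob`: `cl (fcyc X a f') = cl (fcyc X a f)`.
exists_phi: `φ` from `phi0`; `cmp X f = 0`: `phi1`. Otherwise choose `q` with `(cmp X f).eval q ≠ 0`: the value of `f'` at infinity is `f(q)`, `F ≠ 0` there
(`cmp_eval`), `phi1` for `f'`.
-/

open scoped Classical
open MvPolynomial

set_option linter.unusedSectionVars false

namespace Pool.Agent.LibTC1

open Pool.Agent.LibBH2 Pool.Agent.LibQC8

variable {ι : Type} [Fintype ι] {r : ℕ} {k : Type} [Field k] [IsAlgClosed k] {P : Tor ι r}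
  {K : Type} [Field K] [Algebra k K]

/-- `f` in the new coordinate -/
noncomputable def mobq (a : ι → ℤ) (q : k) (f : ι → Polynomial k) (i : ι) : Polynomial k :=
  if a i < 0 then 0 else mob (a i).toNat q (f i)

private theorem C18_prod {K : Type} [Field K] {s : K} (hs : s ≠ 0) (a : ι → ℤ) :
    ∏ i, s ^ a i = s ^ dk a := by
  unfold dk
  generalize (Finset.univ : Finset ι) = A
  induction A using Finset.induction_on with
  | empty => simp
  | insert i A hi ih => rw [Finset.prod_insert hi, Finset.sum_insert hi, zpow_add₀ hs, ih]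

private theorem C18_zpow {K : Type} [Field K] (s : K) {n : ℤ} (hn : 0 ≤ n) :
    s ^ n = s ^ n.toNat := by
  obtain ⟨m, rfl⟩ := Int.eq_ofNat_of_zero_le hn
  rw [zpow_natCast, Int.toNat_natCast]

private theorem C18_neg {a : ι → ℤ} {q : k} {f : ι → Polynomial k} {i : ι} (h : a i < 0) :
    mobq a q f i = 0 := by
  unfold mobq
  rw [if_pos h]

private theorem C18_pos {a : ι → ℤ} {q : k} {f : ι → Polynomial k} {i : ι} (h : ¬ a i < 0) :
    mobq a q f i = mob (a i).toNat q (f i) := by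
  unfold mobq
  rw [if_neg h]

theorem vl_mob {a : ι → ℤ} {f : ι → Polynomial k} (hf : IsQ P a f) (q : k) (ζ : Option k) :
    ∃ l : ι → k, IsT P l ∧ ∀ i, vl a (mobq a q f) ζ i = l i * vl a f (mu q ζ) i := by
  rcases ζ with _ | s
  · refine ⟨fun _ => 1, isT_one, fun i => ?_⟩
    by_cases h : a i < 0
    · simp only [vl, mu, if_pos h, hf.neg i h, Polynomial.eval_zero, mul_zero]
    · simp only [vl, mu, if_neg h, one_mul]
      rw [C18_pos h, mob_coeff (hf.deg i)]
  · by_cases hs : s = 0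
    · subst hs
      refine ⟨fun _ => 1, isT_one, fun i => ?_⟩
      by_cases h : a i < 0
      · simp only [vl, mu, if_true, if_pos h, C18_neg h, Polynomial.eval_zero, mul_zero]
      · simp only [vl, mu, if_true, if_neg h, one_mul]
        rw [C18_pos h, mob_zero]
    · refine ⟨fun i => s ^ a i, isT_rel hf.rel hs, fun i => ?_⟩
      by_cases h : a i < 0
      · simp only [vl, mu, if_neg hs, C18_neg h, hf.neg i h, Polynomial.eval_zero, mul_zero]
      · simp only [vl, mu, if_neg hs]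
        rw [C18_pos h, mob_eval (hf.deg i) hs, C18_zpow s (not_lt.mp h)]

theorem cmp_mob (X : Hyp k P) {a : ι → ℤ} {f : ι → Polynomial k} (hf : IsMap P a f) (q : k) :
    cmp X (mobq a q f) = mob (dk a).toNat q (cmp X f) := by
  apply Polynomial.eq_of_infinite_eval_eq
  have hinf : ({x : k | x ≠ 0}).Infinite := by
    have h1 : ({x : k | x ≠ 0}) = ({0} : Set k)ᶜ := by
      ext x
      simp
    rw [h1]
    exact (Set.finite_singleton (0 : k)).infinite_compl
  refine hinf.mono (fun s hs => ?_)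
  have hs' : s ≠ 0 := hs
  show Polynomial.eval s (cmp X (mobq a q f)) =
    Polynomial.eval s (mob (dk a).toNat q (cmp X f))
  rw [mob_eval (cmp_deg X hf.toIsQ) hs', cmp_eval X a (mobq a q f) s]
  have h2 : vl a (mobq a q f) (some s) =
      fun i => s ^ a i * vl a f (some (q + s⁻¹)) i := by
    funext i
    by_cases h : a i < 0
    · simp only [vl, C18_neg h, hf.neg i h, Polynomial.eval_zero, mul_zero]
    · simp only [vl]
      rw [C18_pos h, mob_eval (hf.deg i) hs', C18_zpow s (not_lt.mp h)]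
  rw [h2, aeval_scale X (isT_rel hf.rel hs') (vl a f (some (q + s⁻¹))), C18_prod hs',
    C18_zpow s (isMap_dk hf), cmp_eval X a f (q + s⁻¹)]

theorem mobius (X : Hyp k P) {a : ι → ℤ} {f : ι → Polynomial k} (hf : IsMap P a f) (q : k)
    (hc : cmp X f ≠ 0) : IsMap P a (mobq a q f) ∧
      cl (fcyc X a (mobq a q f)) = cl (fcyc X a f) := by
  have hm : IsMap P a (mobq a q f) := by
    refine ⟨⟨hf.rel, fun i h => C18_neg h, fun i => ?_⟩, fun ζ => ?_⟩
    · by_cases h : a i < 0
      · rw [C18_neg h, Polynomial.natDegree_zero]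
        exact Nat.zero_le _
      · rw [C18_pos h]
        exact mob_deg _ _ _
    · obtain ⟨l, hl, h⟩ := vl_mob hf.toIsQ q ζ
      have h1 : vl a (mobq a q f) ζ = fun i => l i * vl a f (mu q ζ) i := funext h
      rw [h1, zs_scale hl]
      exact hf.cone _
  refine ⟨hm, ?_⟩
  have hd := cmp_deg X hf.toIsQ
  have hc' : cmp X (mobq a q f) ≠ 0 := by
    rw [cmp_mob X hf q]
    exact mob_ne hd hc
  rw [fcyc_rsum X hc', fcyc_rsum X hc, cmp_mob X hf q]
  have h2 : (fun ζ => cl (pz X (vl a (mobq a q f) ζ))) =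
      fun ζ => (fun ξ => cl (pz X (vl a f ξ))) (mu q ζ) := by
    funext ζ
    obtain ⟨l, hl, h⟩ := vl_mob hf.toIsQ q ζ
    show cl (pz X (vl a (mobq a q f) ζ)) = cl (pz X (vl a f (mu q ζ)))
    rw [pz_congr X hl h]
  rw [h2]
  exact rsum_mob (A := CH X) q hd hc (fun ξ => cl (pz X (vl a f ξ)))

theorem exists_phi (X : Hyp k P) : ∃ φ : Rel P →+ CH X, ∀ a f (h : IsMap P a f),
    φ ⟨a, h.rel⟩ = cl (fcyc X a f) := by
  obtain ⟨φ, hφ⟩ := phi0 X
  refine ⟨φ, fun a f h => ?_⟩
  by_cases hc : cmp X f = 0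
  · exact phi1 X φ hφ a f h (Or.inr hc)
  · obtain ⟨q, hq⟩ : ∃ q : k, (cmp X f).eval q ≠ 0 := by
      by_contra hno
      push Not at hno
      exact hc (Polynomial.funext fun r => by rw [hno r, Polynomial.eval_zero])
    obtain ⟨hm, he⟩ := mobius X h q hc
    have h1 : aeval (vl a (mobq a q f) none) X.F ≠ 0 := by
      rw [← cmp_coeff X hm.toIsQ, cmp_mob X h q, mob_coeff (cmp_deg X h.toIsQ)]
      exact hq
    rw [← he]
    exact phi1 X φ hφ a (mobq a q f) hm (Or.inl h1)

end Pool.Agent.LibTC1
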