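import Pool.Agent.LibTC1.P2

/-!
[TC1 P8] (SHORT) `pz`.

pz_eq: `dif_pos`. pz_scale: `zs_scale`, `aeval_scale` (for `K = k`; the factor `∏ l i ≠ 0`): both sides are zero, or both are points and
`Quot.sound ⟨l, h, _⟩` identifies them (`pt` is `Finsupp.single (Quot.mk _ p) 1`). pt_eq: `Pt` is determined by `z`.
pz_congr: rewrite `z'` as `fun i => l i * z i`. cl_of_sp: from two values `p`, `z₀` of the same vector with scalings in the torus: the point `p`
is `pz X z₀`: by `val_unique'`-free argument here: if `p.z i = c i * z₀ i` with `IsT P c` then `pt p = pz X z₀`.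
-/

open scoped Classical
open MvPolynomial

set_option linter.unusedSectionVars false

namespace Pool.Agent.LibTC1

open Pool.Agent.LibBH2 Pool.Agent.LibQC8

variable {ι : Type} [Fintype ι] {r : ℕ} {k : Type} [Field k] [IsAlgClosed k] {P : Tor ι r}
  {K : Type} [Field K] [Algebra k K]

theorem pz_eq (X : Hyp k P) {z : ι → k} (h : zs z ∈ P.C) (hF : aeval z X.F = 0) :
    pz X z = pt ⟨z, h, hF⟩ := by
  unfold pz
  rw [dif_pos ⟨h, hF⟩]

theorem pz_pt {X : Hyp k P} (p : Pt X k) : pz X p.z = pt p :=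
  pz_eq X p.cone p.hF

theorem pz_scale (X : Hyp k P) {l : ι → k} (h : IsT P l) (z : ι → k) :
    pz X (fun i => l i * z i) = pz X z := by
  have hne : (∏ i, l i) ≠ 0 := Finset.prod_ne_zero_iff.2 fun i _ => h.1 i
  by_cases h0 : zs z ∈ P.C ∧ aeval z X.F = 0
  · have h1 : zs (fun i => l i * z i) ∈ P.C := by rw [zs_scale h]; exact h0.1
    have h2 : aeval (fun i => l i * z i) X.F = 0 := by rw [aeval_scale X h, h0.2, mul_zero]
    rw [pz_eq X h1 h2, pz_eq X h0.1 h0.2]
    unfold pt
    congr 1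
    exact (Quot.sound ⟨l, h, fun i => rfl⟩).symm
  · have h1 : ¬ (zs (fun i => l i * z i) ∈ P.C ∧ aeval (fun i => l i * z i) X.F = 0) := by
      rintro ⟨h2, h3⟩
      rw [zs_scale h] at h2
      rw [aeval_scale X h] at h3
      exact h0 ⟨h2, (mul_eq_zero.1 h3).resolve_left hne⟩
    unfold pz
    rw [dif_neg h0, dif_neg h1]

theorem pz_congr (X : Hyp k P) {l z z' : ι → k} (h : IsT P l) (hz : ∀ i, z' i = l i * z i) :
    pz X z' = pz X z := by
  have h1 : z' = fun i => l i * z i := funext hz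
  rw [h1]
  exact pz_scale X h z

theorem pt_eq_pz {X : Hyp k P} (p : Pt X k) {c z₀ : ι → k} (h : IsT P c)
    (hz : ∀ i, p.z i = c i * z₀ i) : pt p = pz X z₀ := by
  rw [← pz_pt p]
  exact pz_congr X h hz

theorem dg_pz (X : Hyp k P) {z : ι → k} (h : zs z ∈ P.C) (hF : aeval z X.F = 0) :
    dg (pz X z) = 1 := by
  rw [pz_eq X h hF]
  unfold dg pt
  exact Finsupp.sum_single_index rfl

end Pool.Agent.LibTC1
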