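import Pool.Agent.LibTC1.P7
import Pool.Agent.LibTC1.P9
import Pool.Agent.LibTC1.C2
import Pool.Agent.LibTC1.C3
import Pool.Agent.LibTC1.C4
import Pool.Agent.LibPC60.C17

/-!
[TC1 P10] (MEDIUM) A quasi-map contained in `X`: all its points have the same class.

`K = RatFunc k` (`Pool.Agent.LibPC60.ratFunc_ff`), `x = RatFunc.X`, `G i = (f i).map (algebraMap k K)`: `IsQ P a G`, `CV v (G i) (f i)` at every place
(`cv_map`). The point `u : Pt X K` with `u.z i = (G i).eval x` (the image of `f i` in `K`, zero iff `f i = 0`): `zs u.z ⊆ zs (vl a f ζ) ∈ C`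
(`f i = 0` implies `vl a f ζ i = 0`), equation: `cmp_eval` for `G`, and `cmp X G = (cmp X f).map _ = 0` (`cmp_map`), or directly.
If `ζ = ξ` trivial. Otherwise let `φ = x - c` if `{ζ, ξ} = {some c, none}`, `φ = (x - c) / (x - d)` if `ζ = some c`, `ξ = some d`: in all cases
a transcendental `φ` such that `0 < v.ord φ → AtP v (some x) ζ` and `v.ord φ < 0 → AtP v (some x) ξ` (up to exchanging `ζ`, `ξ`;
for `(x - c)/(x - d) = 1 + (d - c)/(x - d)`: a pole of `φ` is a zero of `x - d`; a zero of `φ`: `(x - d)/(x - c)= 1 + (c - d)/(x - c)` has a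
pole, so `x - c` has a zero). `genM` (P7) with `M = 1`, `u`, `φ`, `a = cl (pz X (vl a f ζ))`, `a' = cl (pz X (vl a f ξ))`: at `v`
use `val_vl` (C2) and `sp_of_val` (P9).
-/

open scoped Classical
open MvPolynomial

set_option linter.unusedSectionVars false

namespace Pool.Agent.LibTC1

open Pool.Agent.LibBH2 Pool.Agent.LibQC8

variable {ι : Type} [Fintype ι] {r : ℕ} {k : Type} [Field k] [IsAlgClosed k] {P : Tor ι r}
  {K : Type} [Field K] [Algebra k K]

private theorem P10_tr {c : k} : (RatFunc.X : RatFunc k) ≠ algebraMap k (RatFunc k) c := by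
  intro h
  have ht := (Pool.Agent.LibPC60.ratFunc_ff (k := k)).2
  apply ht
  rw [h]
  exact isAlgebraic_algebraMap c

private theorem P10_main (X : Hyp k P) {a : ι → ℤ} {f : ι → Polynomial k} (hf : IsQ P a f)
    (h0 : cmp X f = 0) (ζ ξ : Option k) (hζ : zs (vl a f ζ) ∈ P.C) (hξ : zs (vl a f ξ) ∈ P.C)
    (φ : RatFunc k) (hφ : Transcendental k φ)
    (h1 : ∀ v : Place k (RatFunc k), 0 < v.ord φ → AtP v (some RatFunc.X) ζ)
    (h2 : ∀ v : Place k (RatFunc k), v.ord φ < 0 → AtP v (some RatFunc.X) ξ) :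
    cl (pz X (vl a f ζ)) = cl (pz X (vl a f ξ)) := by
  obtain ⟨hff, ht⟩ := Pool.Agent.LibPC60.ratFunc_ff (k := k)
  set G : ι → Polynomial (RatFunc k) := fun i => (f i).map (algebraMap k (RatFunc k)) with hG
  have hQ : IsQ P a G := by
    refine ⟨hf.rel, fun i hi => ?_, fun i => ?_⟩
    · simp only [hG]
      rw [hf.neg i hi, Polynomial.map_zero]
    · exact Polynomial.natDegree_map_le.trans (hf.deg i)
  have hcmp : cmp X G = 0 := by
    have h := cmp_map (K := k) X (Algebra.ofId k (RatFunc k)) f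
    have e : (fun i => (f i).map ((Algebra.ofId k (RatFunc k) : k →ₐ[k] RatFunc k) : k →+* RatFunc k)) = G := rfl
    rw [e, h0, Polynomial.map_zero] at h
    exact h.symm
  have hz0 : ∀ i, vl a G (some RatFunc.X) i = 0 → f i = 0 := by
    intro i hi
    have h : Polynomial.aeval (RatFunc.X : RatFunc k) (f i) = 0 := by
      have : (Polynomial.eval (RatFunc.X : RatFunc k) ((f i).map (algebraMap k (RatFunc k)))) = 0 := hi
      rwa [Polynomial.eval_map_algebraMap] at this
    exact (transcendental_iff.1 ht) _ h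
  have hcone : zs (vl a G (some RatFunc.X)) ∈ P.C := by
    refine P.down _ hζ _ ?_
    intro i hi
    have hi' : vl a G (some RatFunc.X) i = 0 := (Finset.mem_filter.1 hi).2
    have h3 := hz0 i hi'
    refine Finset.mem_filter.2 ⟨Finset.mem_univ _, ?_⟩
    cases ζ with
    | some s => show (f i).eval s = 0; rw [h3, Polynomial.eval_zero]
    | none => show (if a i < 0 then 0 else (f i).coeff (a i).toNat) = 0; rw [h3, Polynomial.coeff_zero, ite_self]
  have haev : aeval (vl a G (some RatFunc.X)) X.F = 0 := by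
    rw [← cmp_eval, hcmp, Polynomial.eval_zero]
  set u : Pt X (RatFunc k) := ⟨vl a G (some RatFunc.X), hcone, haev⟩ with hu
  have key : ∀ (v : Place k (RatFunc k)) (η : Option k), zs (vl a f η) ∈ P.C →
      AtP v (some RatFunc.X) η →
      ∃ p : Pt X k, (∃ l, Sp v u p l) ∧ pt p = pz X (vl a f η) := by
    intro v η hη hat
    obtain ⟨l, hl, hl2⟩ := val_vl v hQ (fun i => cv_map v (f i)) hat
    obtain ⟨p, -, hp, hp2⟩ := sp_of_val X v u hη hl hl2
    exact ⟨p, ⟨l, hp⟩, hp2⟩
  refine genM X hff 1 (fun _ => u) φ hφ _ _ (fun v hv => ?_) (fun v hv => ?_)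
  · obtain ⟨p, hp, hp2⟩ := key v ζ hζ (h1 v hv)
    refine ⟨fun _ => p, fun _ => hp, ?_⟩
    simp [hp2]
  · obtain ⟨p, hp, hp2⟩ := key v ξ hξ (h2 v hv)
    refine ⟨fun _ => p, fun _ => hp, ?_⟩
    simp [hp2]

private theorem P10_const {φ : RatFunc k} (h : ∀ e : k, φ ≠ algebraMap k (RatFunc k) e) :
    Transcendental k φ := by
  intro hal
  obtain ⟨e, he⟩ := Pool.Agent.LibEnd77.Val8.alg_const hal
  exact h e he.symm

private theorem P10_inf (X : Hyp k P) {a : ι → ℤ} {f : ι → Polynomial k} (hf : IsQ P a f)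
    (h0 : cmp X f = 0) (c : k) (hζ : zs (vl a f (some c)) ∈ P.C) (hξ : zs (vl a f none) ∈ P.C) :
    cl (pz X (vl a f (some c))) = cl (pz X (vl a f none)) := by
  have hX : ∀ e : k, (RatFunc.X : RatFunc k) ≠ algebraMap k (RatFunc k) e := fun e => P10_tr
  refine P10_main X hf h0 (some c) none hζ hξ (RatFunc.X - algebraMap k (RatFunc k) c)
    (P10_const ?_) ?_ ?_
  · intro e he
    refine hX (e + c) ?_
    rw [map_add, ← he, sub_add_cancel]
  · intro v hv
    exact Or.inr hv
  · intro v hv
    have hne : (RatFunc.X : RatFunc k) - algebraMap k (RatFunc k) c ≠ 0 := sub_ne_zero.2 (hX c)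
    have hXne : (RatFunc.X : RatFunc k) ≠ 0 := by
      have := hX 0
      rwa [map_zero] at this
    refine ⟨hXne, Or.inr ?_⟩
    rw [v.ord_inv]
    by_cases hc : c = 0
    · subst hc
      rw [map_zero, sub_zero] at hv
      omega
    · have hc' : algebraMap k (RatFunc k) c ≠ 0 := by simpa using hc
      have h3 := Place.ord_add_of_lt (v := v) hne hc' (by rw [v.ord_const c hc]; exact hv)
      rw [sub_add_cancel] at h3
      rw [h3.2]
      omega

private theorem P10_fin (X : Hyp k P) {a : ι → ℤ} {f : ι → Polynomial k} (hf : IsQ P a f)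
    (h0 : cmp X f = 0) (c d : k) (hζ : zs (vl a f (some c)) ∈ P.C)
    (hξ : zs (vl a f (some d)) ∈ P.C) :
    cl (pz X (vl a f (some c))) = cl (pz X (vl a f (some d))) := by
  by_cases hcd : c = d
  · rw [hcd]
  have hX : ∀ e : k, (RatFunc.X : RatFunc k) ≠ algebraMap k (RatFunc k) e := fun e => P10_tr
  set A : RatFunc k := RatFunc.X - algebraMap k (RatFunc k) c with hA
  set B : RatFunc k := RatFunc.X - algebraMap k (RatFunc k) d with hB
  have hA0 : A ≠ 0 := sub_ne_zero.2 (hX c)
  have hB0 : B ≠ 0 := sub_ne_zero.2 (hX d)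
  have hdc : algebraMap k (RatFunc k) (d - c) ≠ 0 :=
    (map_ne_zero (algebraMap k (RatFunc k))).2 (sub_ne_zero.2 fun h => hcd h.symm)
  have hdc' : algebraMap k (RatFunc k) (c - d) ≠ 0 :=
    (map_ne_zero (algebraMap k (RatFunc k))).2 (sub_ne_zero.2 hcd)
  have hAB : B + algebraMap k (RatFunc k) (d - c) = A := by
    rw [hA, hB, map_sub]; ring
  have hBA : A + algebraMap k (RatFunc k) (c - d) = B := by
    rw [hA, hB, map_sub]; ring
  refine P10_main X hf h0 (some c) (some d) hζ hξ (A / B) (P10_const ?_) ?_ ?_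
  · intro e he
    have h3 : A = algebraMap k (RatFunc k) e * B := by
      rw [← he, div_mul_cancel₀ _ hB0]
    by_cases h1 : e = 1
    · subst h1
      rw [map_one, one_mul] at h3
      have : algebraMap k (RatFunc k) (d - c) = 0 := by
        have h4 := hAB
        rw [h3] at h4
        exact left_eq_add.1 h4.symm
      exact hdc this
    · have h5 : (RatFunc.X : RatFunc k) * algebraMap k (RatFunc k) (1 - e) =
          algebraMap k (RatFunc k) (c - e * d) := by
        rw [hA, hB] at h3
        rw [map_sub, map_sub, map_mul, map_one]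
        linear_combination h3
      have h6 : algebraMap k (RatFunc k) (1 - e) ≠ 0 :=
        (map_ne_zero (algebraMap k (RatFunc k))).2 (sub_ne_zero.2 fun h => h1 h.symm)
      refine hX ((c - e * d) / (1 - e)) ?_
      rw [map_div₀, eq_div_iff h6, h5]
  · intro v hv
    rw [v.ord_div A B hA0 hB0] at hv
    show v.Zer A
    refine Or.inr ?_
    by_contra hneg
    have h3 := Place.ord_add_of_lt (v := v) hB0 hdc (by
      rw [v.ord_const (d - c) (by intro h; exact hdc (by rw [h, map_zero]))]; omega)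
    rw [hAB] at h3
    omega
  · intro v hv
    rw [v.ord_div A B hA0 hB0] at hv
    show v.Zer B
    refine Or.inr ?_
    by_contra hneg
    have h3 := Place.ord_add_of_lt (v := v) hA0 hdc' (by
      rw [v.ord_const (c - d) (by intro h; exact hdc' (by rw [h, map_zero]))]; omega)
    rw [hBA] at h3
    omega

theorem rat_const (X : Hyp k P) {a : ι → ℤ} {f : ι → Polynomial k} (hf : IsQ P a f)
    (h0 : cmp X f = 0) (ζ ξ : Option k) (hζ : zs (vl a f ζ) ∈ P.C) (hξ : zs (vl a f ξ) ∈ P.C) :
    cl (pz X (vl a f ζ)) = cl (pz X (vl a f ξ)) := by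
  cases ζ with
  | none =>
    cases ξ with
    | none => rfl
    | some d => exact (P10_inf X hf h0 d hξ hζ).symm
  | some c =>
    cases ξ with
    | none => exact P10_inf X hf h0 c hζ hξ
    | some d => exact P10_fin X hf h0 c d hζ hξ

end Pool.Agent.LibTC1
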