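import Pool.Agent.LibTC1.C4
import Pool.Agent.LibTC1.P10

/-!
Facts of blocks C and P (helper1) in the form used in blocks D and E.
-/

open scoped Classical
open MvPolynomial

namespace Pool.Agent.LibTC1

open Pool.Agent.LibBH2 Pool.Agent.LibQC8

variable {ι : Type} [Fintype ι] {r : ℕ} {k : Type} [Field k] {P : Tor ι r}

theorem cmp_eval' (X : Hyp k P) (c : ι → ℤ) (G : ι → Polynomial k) (s : k) :
    (cmp X G).eval s = aeval (vl c G (some s)) X.F := cmp_eval X c G s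

theorem cmp_deg' (X : Hyp k P) {c : ι → ℤ} {G : ι → Polynomial k} (h : IsQ P c G) :
    (cmp X G).natDegree ≤ (dk c).toNat := cmp_deg X h

theorem cmp_coeff' (X : Hyp k P) {c : ι → ℤ} {G : ι → Polynomial k} (h : IsQ P c G) (_ : 0 ≤ dk c) :
    (cmp X G).coeff (dk c).toNat = aeval (vl c G none) X.F := cmp_coeff X h

theorem rat_const' [IsAlgClosed k] [CharZero k] (X : Hyp k P) {a : ι → ℤ} {f : ι → Polynomial k} (hf : IsQ P a f)
    (h0 : cmp X f = 0) (ζ ξ : Option k) (hζ : zs (vl a f ζ) ∈ P.C) (hξ : zs (vl a f ξ) ∈ P.C) :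
    cl (pz X (vl a f ζ)) = cl (pz X (vl a f ξ)) := rat_const X hf h0 ζ ξ hζ hξ

end Pool.Agent.LibTC1
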