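import Pool.Agent.LibTC1.DDefs

/-!
Row [TC1 D0] (helper25, typed by helper85). The star of a cone: pigeonhole on the cones of the vectors `M N` of
`w + N * ∑_{i ∈ σ} v i`, Dickson's lemma and uniqueness.
-/

open scoped Classical
open MvPolynomial

namespace Pool.Agent.LibTC1

open Pool.Agent.LibBH2 Pool.Agent.LibQC8

variable {ι : Type} [Fintype ι] {r : ℕ} {k : Type} [Field k] {P : Tor ι r}

private theorem D0_pig (S : Type) [Finite S] (f : ℕ → S) (M : ℕ → ι → ℕ) :
    ∃ N N' : ℕ, N < N' ∧ f N = f N' ∧ M N ≤ M N' := by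
  obtain ⟨s, hs⟩ := Finite.exists_infinite_fiber f
  have hinf : (f ⁻¹' {s}).Infinite := Set.infinite_coe_iff.1 hs
  let e : ℕ → ℕ := fun n => (Nat.orderEmbeddingOfSet (f ⁻¹' {s})) n
  have he : StrictMono e := (Nat.orderEmbeddingOfSet (f ⁻¹' {s})).strictMono
  have hm : ∀ n, f (e n) = s := by
    intro n
    have h1 : e n ∈ Set.range (Nat.orderEmbeddingOfSet (f ⁻¹' {s})) := ⟨n, rfl⟩
    rw [Nat.orderEmbeddingOfSet_range] at h1
    exact h1
  have hw : WellQuasiOrdered (α := ι → ℕ) (· ≤ ·) := wellQuasiOrdered_le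
  obtain ⟨m, n, hmn, hle⟩ := hw (fun n => M (e n))
  exact ⟨e m, e n, he hmn, by rw [hm, hm], hle⟩

theorem starD (P : Tor ι r) (σ : Finset ι) (hσ : σ ∈ P.C) (m : ι → ℕ) :
    ∃ b ∈ Rel P, (∀ i, i ∉ σ → b i ≤ m i) ∧ ∃ τ ∈ P.C, σ ⊆ τ ∧ ∀ i, i ∉ σ → b i ≠ m i → i ∈ τ := by
  choose M hM1 hM2 using fun N : ℕ => P.compl
    (fun j => ∑ i, ((m i : ℤ) + (N : ℤ) * (if i ∈ σ then 1 else 0)) * P.v i j)
  obtain ⟨N, N', hNN, hs, hle⟩ := D0_pig (Finset ι) (fun N => sp (M N)) M
  have hsub : σ ⊆ sp (M N') := by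
    have h1 : (fun i => M N' i - M N i) = (fun i => (N' - N) * (if i ∈ σ then 1 else 0)) := by
      apply P.uniq
      · refine P.down _ (hM1 N') _ ?_
        intro i hi
        simp only [sp, Finset.mem_filter, Finset.mem_univ, true_and] at hi ⊢
        omega
      · refine P.down _ hσ _ ?_
        intro i hi
        simp only [sp, Finset.mem_filter, Finset.mem_univ, true_and] at hi
        by_contra hn
        rw [if_neg hn, mul_zero] at hi
        exact hi rfl
      · intro j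
        have e1 : ∑ i, ((M N' i - M N i : ℕ) : ℤ) * P.v i j =
            ∑ i, (M N' i : ℤ) * P.v i j - ∑ i, (M N i : ℤ) * P.v i j := by
          rw [← Finset.sum_sub_distrib]
          refine Finset.sum_congr rfl fun i _ => ?_
          rw [Nat.cast_sub (hle i)]
          ring
        rw [e1, hM2 N', hM2 N, ← Finset.sum_sub_distrib]
        refine Finset.sum_congr rfl fun i _ => ?_
        push_cast [Nat.cast_sub hNN.le]
        ring
    intro i hi
    have h2 : M N' i - M N i = (N' - N) * (if i ∈ σ then 1 else 0) := congrFun h1 i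
    rw [if_pos hi, mul_one] at h2
    simp only [sp, Finset.mem_filter, Finset.mem_univ, true_and]
    omega
  refine ⟨fun i => (m i : ℤ) + (N : ℤ) * (if i ∈ σ then 1 else 0) - M N i, ?_, ?_, sp (M N), hM1 N, ?_, ?_⟩
  · intro j
    have e1 : ∑ i, ((m i : ℤ) + (N : ℤ) * (if i ∈ σ then 1 else 0) - M N i) * P.v i j =
        ∑ i, ((m i : ℤ) + (N : ℤ) * (if i ∈ σ then 1 else 0)) * P.v i j - ∑ i, (M N i : ℤ) * P.v i j := by
      rw [← Finset.sum_sub_distrib]
      exact Finset.sum_congr rfl fun i _ => by ring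
    show ∑ i, ((m i : ℤ) + (N : ℤ) * (if i ∈ σ then 1 else 0) - M N i) * P.v i j = 0
    rw [e1, hM2 N, sub_self]
  · intro i hi
    show (m i : ℤ) + (N : ℤ) * (if i ∈ σ then 1 else 0) - M N i ≤ m i
    rw [if_neg hi, mul_zero, add_zero]
    have : (0 : ℤ) ≤ M N i := Int.natCast_nonneg _
    linarith
  · have h3 : sp (M N) = sp (M N') := hs
    rw [h3]
    exact hsub
  · intro i hi hne
    simp only [sp, Finset.mem_filter, Finset.mem_univ, true_and]
    intro h0
    apply hne
    show (m i : ℤ) + (N : ℤ) * (if i ∈ σ then 1 else 0) - M N i = m i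
    rw [if_neg hi, h0]
    simp

end Pool.Agent.LibTC1
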