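import Pool.Agent.LibTC1.DDefs
import Pool.Agent.LibTC1.D0

/-!
Row [TC1 D2a] (helper25).  MEDIUM. Removal of a base point at a finite place `s ≠ 0`.  PLAN: `σ = {i | f i = 0} ⊆ zs (f(0))`, so `σ ∈ P.C`
(`P.down`; `vl`, `zs` unfold to `eval`/`coeff`).  `μ = -s⁻¹`, `L = 1 + C μ * X = C μ * (X - C s)`.  For `i ∉ σ` let `m i = rootMultiplicity s (f i)`
and `f i = L ^ m i * g i` with `(g i).eval s ≠ 0` (`Polynomial.exists_eq_pow_rootMultiplicity_mul_and_not_dvd`, move the unit `C μ ^ m i` into `g i`); for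
`i ∈ σ` put `m i = 0`, `g i = 0`.  `starD P σ hσ m` gives `b`, `τ`.  `f' i = L ^ (m i - b i).toNat * g i` for `i ∉ σ` (`0 ≤ m i - b i`), `0` for `i ∈ σ`.
Degrees: `natDegree (f' i) = natDegree (f i) - m i + (m i - b i) = natDegree (f i) - b i ≤ a i - b i` for `i ∉ σ` (there `f i ≠ 0`, so `0 ≤ a i` by
`hf.neg`, `natDegree (f i) ≤ a i`; `natDegree L = 1`, `natDegree_mul`, `natDegree_pow`).  `(f' i).coeff 0 = (g i).coeff 0 = (f i).coeff 0` as `L(0) = 1`
(`coeff_zero_eq_eval_zero`, `eval_mul`).  `vl (a - b) f' (some s) i = (f' i).eval s` is `0` iff `i ∈ σ` or `m i - b i > 0` (`L(s) = 0`), so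
`zs ... ⊆ τ`, and `b i < 0` implies `i ∈ σ` or `m i - b i > 0`: `occ`.  `b ≠ 0`: if `b = 0` then `zs (vl a f (some s)) ⊆ τ` (for `i ∉ σ` with
`(f i).eval s = 0`: `m i ≠ 0 = b i`, so `i ∈ τ`), contradiction.  `eq`: for `i ∉ σ` both sides are `L ^ (max (m i) (m i - b i)) * g i`
(`m i + (-b i).toNat = (m i - b i).toNat + (b i).toNat`, `pow_add`).
-/

open scoped Classical
open MvPolynomial

namespace Pool.Agent.LibTC1

open Pool.Agent.LibBH2 Pool.Agent.LibQC8

variable {ι : Type} [Fintype ι] {r : ℕ} {k : Type} [Field k] {P : Tor ι r}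

private theorem D2a_fac (s : k) (hs : s ≠ 0) (f : Polynomial k) (hf : f ≠ 0) :
    ∃ (m : ℕ) (g : Polynomial k),
      f = (1 + Polynomial.C (-s⁻¹) * Polynomial.X) ^ m * g ∧ g.eval s ≠ 0 := by
  obtain ⟨q, hq, hq'⟩ := Polynomial.exists_eq_pow_rootMultiplicity_mul_and_not_dvd f hf s
  set m := Polynomial.rootMultiplicity s f with hm
  have hμ : (-s⁻¹ : k) ≠ 0 := neg_ne_zero.2 (inv_ne_zero hs)
  have hL : (1 + Polynomial.C (-s⁻¹) * Polynomial.X : Polynomial k) =
      Polynomial.C (-s⁻¹) * (Polynomial.X - Polynomial.C s) := by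
    have h1 : (-s⁻¹ : k) * s = -1 := by field_simp
    rw [mul_sub, ← Polynomial.C_mul, h1]
    simp
    ring
  refine ⟨m, Polynomial.C ((-s⁻¹)⁻¹ ^ m) * q, ?_, ?_⟩
  · rw [hL, mul_pow, ← Polynomial.C_pow]
    calc f = (Polynomial.X - Polynomial.C s) ^ m * q := hq
      _ = (Polynomial.C ((-s⁻¹) ^ m) * Polynomial.C ((-s⁻¹)⁻¹ ^ m)) *
          ((Polynomial.X - Polynomial.C s) ^ m * q) := by
          rw [← Polynomial.C_mul, ← mul_pow, mul_inv_cancel₀ hμ, one_pow, Polynomial.C_1, one_mul]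
      _ = _ := by ring
  · rw [Polynomial.eval_mul, Polynomial.eval_C]
    refine mul_ne_zero (pow_ne_zero _ (inv_ne_zero hμ)) ?_
    intro h
    exact hq' (Polynomial.dvd_iff_isRoot.2 h)

private theorem D2a_fac' (s : k) (hs : s ≠ 0) (f : Polynomial k) :
    ∃ (m : ℕ) (g : Polynomial k),
      f = (1 + Polynomial.C (-s⁻¹) * Polynomial.X) ^ m * g ∧ (f ≠ 0 → g.eval s ≠ 0) ∧
      (f = 0 → g = 0) := by
  by_cases hf : f = 0
  · exact ⟨0, 0, by rw [hf, mul_zero], fun h => absurd hf h, fun _ => rfl⟩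
  · obtain ⟨m, g, h1, h2⟩ := D2a_fac s hs f hf
    exact ⟨m, g, h1, fun _ => h2, fun h => absurd h hf⟩

theorem rem_fin {a : ι → ℤ} {f : ι → Polynomial k} (hf : IsQ P a f) (h0 : zs (fun i => (f i).coeff 0) ∈ P.C)
    (s : k) (hs : s ≠ 0) (hq : zs (vl a f (some s)) ∉ P.C) : ∃ b f' μ, Rem P a f (some s) b f' μ := by
  choose m g hfg hg hg0 using fun i => D2a_fac' s hs (f i)
  have hμ : (-s⁻¹ : k) ≠ 0 := neg_ne_zero.2 (inv_ne_zero hs)
  set L : Polynomial k := 1 + Polynomial.C (-s⁻¹) * Polynomial.X with hLdef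
  have hLs : L.eval s = 0 := by
    rw [hLdef]
    simp only [Polynomial.eval_add, Polynomial.eval_one, Polynomial.eval_mul, Polynomial.eval_C,
      Polynomial.eval_X]
    field_simp
    ring
  have hL0 : L.eval 0 = 1 := by
    rw [hLdef]
    simp
  have hLne : L ≠ 0 := by
    intro h
    rw [h] at hL0
    simp at hL0
  have hLd : L.natDegree = 1 := by
    have h1 : L = Polynomial.C (-s⁻¹) * Polynomial.X + Polynomial.C 1 := by
      rw [hLdef, Polynomial.C_1, add_comm]
    rw [h1]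
    exact Polynomial.natDegree_linear hμ
  set σ : Finset ι := Finset.univ.filter (fun i => f i = 0) with hσdef
  have hσmem : ∀ i, i ∈ σ ↔ f i = 0 := fun i => by simp [hσdef]
  have hσ : σ ∈ P.C := by
    refine P.down _ h0 _ ?_
    intro i hi
    rw [hσmem] at hi
    simp [zs, hi]
  obtain ⟨b, hbR, hbm, τ, hτ, hστ, hτm⟩ := starD P σ hσ m
  have hf'0 : ∀ i ∈ σ, L ^ ((m i : ℤ) - b i).toNat * g i = 0 := by
    intro i hi
    rw [hg0 i ((hσmem i).1 hi), mul_zero]
  have hev : ∀ (i : ι) (n : ℕ), n ≠ 0 → (L ^ n * g i).eval s = 0 := by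
    intro i n hn
    rw [Polynomial.eval_mul, Polynomial.eval_pow, hLs, zero_pow hn, zero_mul]
  have hev' : ∀ (i : ι) (n : ℕ), i ∉ σ → (L ^ n * g i).eval s = 0 → n ≠ 0 := by
    intro i n hi h hn
    rw [hn, pow_zero, one_mul] at h
    exact hg i (fun h' => hi ((hσmem i).2 h')) h
  have hdeg : ∀ i, i ∉ σ → ((L ^ ((m i : ℤ) - b i).toNat * g i).natDegree : ℤ) ≤ a i - b i := by
    intro i hi
    have hfi : f i ≠ 0 := fun h => hi ((hσmem i).2 h)
    have hgi : g i ≠ 0 := by
      intro h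
      have := hg i hfi
      rw [h] at this
      simp at this
    have ha : 0 ≤ a i := by
      by_contra hneg
      exact hfi (hf.neg i (not_le.1 hneg))
    have h1 := hf.deg i
    have h2 : (f i).natDegree = m i + (g i).natDegree := by
      conv_lhs => rw [hfg i]
      rw [Polynomial.natDegree_mul (pow_ne_zero _ hLne) hgi, Polynomial.natDegree_pow, hLd, mul_one]
    have h3 : (L ^ ((m i : ℤ) - b i).toNat * g i).natDegree =
        ((m i : ℤ) - b i).toNat + (g i).natDegree := by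
      rw [Polynomial.natDegree_mul (pow_ne_zero _ hLne) hgi, Polynomial.natDegree_pow, hLd, mul_one]
    have h4 := hbm i hi
    rw [h3]
    omega
  refine ⟨b, fun i => L ^ ((m i : ℤ) - b i).toNat * g i, -s⁻¹, ?_⟩
  refine
    { rel := hbR
      ne := ?_
      isq := ?_
      at0 := ?_
      cone := ?_
      occ := ?_
      eq := ?_ }
  · intro hb
    apply hq
    refine P.down _ hτ _ ?_
    intro i hi
    have hi' : (f i).eval s = 0 := by
      simpa [zs, vl] using hi
    by_cases hiσ : i ∈ σ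
    · exact hστ hiσ
    · refine hτm i hiσ ?_
      rw [hfg i] at hi'
      have h1 := hev' i (m i) hiσ hi'
      rw [hb]
      simp only [Pi.zero_apply]
      intro h2
      exact h1 (by exact_mod_cast h2.symm)
  · refine ⟨(Rel P).sub_mem hf.rel hbR, ?_, ?_⟩
    · intro i hi
      by_cases hiσ : i ∈ σ
      · exact hf'0 i hiσ
      · exfalso
        have h1 := hdeg i hiσ
        have h2 : (a - b) i = a i - b i := rfl
        rw [h2] at hi
        have h3 : (0 : ℤ) ≤ ((L ^ ((m i : ℤ) - b i).toNat * g i).natDegree : ℤ) := Int.natCast_nonneg _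
        omega
    · intro i
      by_cases hiσ : i ∈ σ
      · show (L ^ ((m i : ℤ) - b i).toNat * g i).natDegree ≤ _
        rw [hf'0 i hiσ]
        simp
      · have h1 := hdeg i hiσ
        have h2 : (a - b) i = a i - b i := rfl
        rw [h2]
        show (L ^ ((m i : ℤ) - b i).toNat * g i).natDegree ≤ _
        omega
  · intro i
    show (L ^ ((m i : ℤ) - b i).toNat * g i).coeff 0 = (f i).coeff 0
    rw [hfg i, Polynomial.coeff_zero_eq_eval_zero, Polynomial.coeff_zero_eq_eval_zero,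
      Polynomial.eval_mul, Polynomial.eval_mul, Polynomial.eval_pow, Polynomial.eval_pow, hL0,
      one_pow, one_pow]
  · refine P.down _ hτ _ ?_
    intro i hi
    have hi' : (L ^ ((m i : ℤ) - b i).toNat * g i).eval s = 0 := by
      simpa only [zs, vl, Finset.mem_filter, Finset.mem_univ, true_and] using hi
    by_cases hiσ : i ∈ σ
    · exact hστ hiσ
    · refine hτm i hiσ ?_
      have h1 := hev' i _ hiσ hi'
      omega
  · intro i hi
    show (L ^ ((m i : ℤ) - b i).toNat * g i).eval s = 0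
    by_cases hiσ : i ∈ σ
    · rw [hf'0 i hiσ, Polynomial.eval_zero]
    · refine hev i _ ?_
      omega
  · intro i
    show f i * L ^ (-b i).toNat = L ^ ((m i : ℤ) - b i).toNat * g i * L ^ (b i).toNat
    by_cases hiσ : i ∈ σ
    · rw [hf'0 i hiσ, (hσmem i).1 hiσ, zero_mul, zero_mul]
    · have h1 : m i + (-b i).toNat = ((m i : ℤ) - b i).toNat + (b i).toNat := by
        have := hbm i hiσ
        omega
      conv_lhs => rw [hfg i]
      calc L ^ m i * g i * L ^ (-b i).toNat = L ^ (m i + (-b i).toNat) * g i := by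
            rw [pow_add]; ring
        _ = L ^ (((m i : ℤ) - b i).toNat + (b i).toNat) * g i := by rw [h1]
        _ = _ := by rw [pow_add]; ring

end Pool.Agent.LibTC1
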