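import Pool.Agent.LibTC1.DDefs
import Pool.Agent.LibTC1.D0

/-!
Row [TC1 D2b] (helper25).  SHORT/MEDIUM. Removal of a base point at infinity (`μ = 0`, `f' = f`, only the class changes).  PLAN: `σ = {i | f i = 0} ⊆ zs (f(0))`,
`σ ∈ P.C`.  For `i ∉ σ`: `f i ≠ 0`, `0 ≤ a i` (`hf.neg`), `natDegree (f i) ≤ a i`; `m i = (a i).toNat - natDegree (f i)`; for `i ∈ σ` put `m i = 0`.
`starD P σ hσ m` gives `b`, `τ`.  `f' = f`: `natDegree (f i) = a i - m i ≤ a i - b i` for `i ∉ σ`, so `IsQ P (a - b) f` (`neg`: if `a i - b i < 0` then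
`i ∈ σ`).  `vl (a - b) f none i`: for `i ∉ σ` it is `(f i).coeff (a i - b i).toNat`, zero iff `natDegree (f i) < a i - b i` iff `b i < m i`
(`leadingCoeff ≠ 0`, `coeff_eq_zero_of_natDegree_lt`), so zero implies `b i ≠ m i`, `i ∈ τ`; `zs ... ⊆ τ`.  `occ`: `b i < 0`, `i ∉ σ`: `b i < 0 ≤ m i`,
so the value is `0`; for `i ∈ σ` it is `0`.  `b ≠ 0`: if `b = 0` then `zs (vl a f none) ∈ P.C`, contradiction.  `eq`: `1 + C 0 * X = 1`.
-/

open scoped Classical
open MvPolynomial

namespace Pool.Agent.LibTC1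

open Pool.Agent.LibBH2 Pool.Agent.LibQC8

variable {ι : Type} [Fintype ι] {r : ℕ} {k : Type} [Field k] {P : Tor ι r}

theorem rem_inf {a : ι → ℤ} {f : ι → Polynomial k} (hf : IsQ P a f) (h0 : zs (fun i => (f i).coeff 0) ∈ P.C)
    (hq : zs (vl a f none) ∉ P.C) : ∃ b f', Rem P a f none b f' (0 : k) := by
  have hσ : (Finset.univ.filter fun i => f i = 0) ∈ P.C := by
    refine P.down _ h0 _ ?_
    intro i hi
    simp only [Finset.mem_filter, Finset.mem_univ, true_and, zs] at hi ⊢
    rw [hi, Polynomial.coeff_zero]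
  obtain ⟨b, hb, hbm, τ, hτ, hστ, hbτ⟩ := starD P _ hσ
    (fun i => (a i).toNat - (f i).natDegree)
  have hns : ∀ i, f i ≠ 0 → i ∉ (Finset.univ.filter fun i => f i = 0) := by
    intro i hi h
    exact hi (Finset.mem_filter.mp h).2
  have key : ∀ i, f i ≠ 0 → ((f i).natDegree : ℤ) ≤ a i - b i := by
    intro i hi
    have h1 : ¬ a i < 0 := fun h => hi (hf.neg i h)
    have h2 := hf.deg i
    have h3 := hbm i (hns i hi)
    omega
  have hval : ∀ i, f i ≠ 0 → vl (a - b) f none i = (f i).coeff (a i - b i).toNat := by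
    intro i hi
    have h1 := key i hi
    have h2 : ¬ a i - b i < 0 := by omega
    simp only [vl, Pi.sub_apply, if_neg h2]
  have hcone : zs (vl (a - b) f none) ⊆ τ := by
    intro i hi
    simp only [Finset.mem_filter, Finset.mem_univ, true_and, zs] at hi
    by_cases hfi : f i = 0
    · exact hστ (Finset.mem_filter.mpr ⟨Finset.mem_univ _, hfi⟩)
    · refine hbτ i (hns i hfi) ?_
      intro hbi
      rw [hval i hfi] at hi
      have h1 : ¬ a i < 0 := fun h => hfi (hf.neg i h)
      have h2 := hf.deg i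
      have h3 : (a i - b i).toNat = (f i).natDegree := by
        omega
      rw [h3] at hi
      exact hfi (Polynomial.leadingCoeff_eq_zero.mp hi)
  refine ⟨b, f, ?_, ?_, ?_, ?_, ?_, ?_, ?_⟩
  · exact hb
  · rintro rfl
    rw [sub_zero] at hcone
    exact hq (P.down _ hτ _ hcone)
  · refine ⟨(Rel P).sub_mem hf.rel hb, ?_, ?_⟩
    · intro i hi
      by_contra hfi
      have h1 := key i hfi
      simp only [Pi.sub_apply] at hi
      omega
    · intro i
      by_cases hfi : f i = 0
      · rw [hfi, Polynomial.natDegree_zero]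
        exact Nat.zero_le _
      · have h1 := key i hfi
        simp only [Pi.sub_apply]
        omega
  · intro i
    rfl
  · exact P.down _ hτ _ hcone
  · intro i hi
    by_cases hfi : f i = 0
    · simp only [vl, hfi, Polynomial.coeff_zero, ite_self]
    · rw [hval i hfi]
      have h1 : ¬ a i < 0 := fun h => hfi (hf.neg i h)
      have h2 := hf.deg i
      refine Polynomial.coeff_eq_zero_of_natDegree_lt ?_
      omega
  · intro i
    simp

end Pool.Agent.LibTC1
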