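import Pool.Agent.LibTC1.DDefs

/-!
Row [TC1 D3c] (helper25).  SHORT. PLAN: `f' i` has class `a - a = 0`: `natDegree (f' i) ≤ 0` (`h.isq.deg`), so `f' i = C c`, `c = (f' i).coeff 0 = (f i).coeff 0`
(`Polynomial.eq_C_of_natDegree_le_zero`, `h.at0`).  If `a i < 0`: `f i = 0` (`hf.neg`).  If `0 ≤ a i`: `(-a i).toNat = 0` and `h.eq i` says
`f i = C c * L ^ (a i).toNat`.
-/

open scoped Classical
open MvPolynomial

namespace Pool.Agent.LibTC1

open Pool.Agent.LibBH2 Pool.Agent.LibQC8

variable {ι : Type} [Fintype ι] {r : ℕ} {k : Type} [Field k] {P : Tor ι r}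

theorem triv_rem {a : ι → ℤ} {f f' : ι → Polynomial k} {q : Option k} {μ : k} (hf : IsQ P a f)
    (h : Rem P a f q a f' μ) : Triv a f := by
  refine ⟨μ, fun i => ?_⟩
  by_cases hi : a i < 0
  · rw [hf.neg i hi]; simp
  · push Not at hi
    have h1 := h.isq.deg i
    have h2 : ((a - a) i).toNat = 0 := by simp
    rw [h2] at h1
    have h3 := Polynomial.eq_C_of_natDegree_le_zero h1
    have h4 := h.eq i
    have h5 : (-a i).toNat = 0 := by omega
    rw [h5, pow_zero, mul_one, h3, h.at0 i] at h4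
    exact h4

end Pool.Agent.LibTC1
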