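import Pool.Agent.LibTC1.DDefs
import Pool.Agent.LibTC1.D1
import Pool.Agent.LibTC1.D2a
import Pool.Agent.LibTC1.D2b
import Pool.Agent.LibTC1.D3c

/-!
Row [TC1 D4] (helper25).  MEDIUM. The induction which removes all base points.  PLAN: strong induction on `(dH P a).toNat` (generalizing `a f`).  `hQ` gives
`IsQ P a f` and `zs (f(0)) ∈ P.C`; `a` occurs at `f(0)` (`IsQ.neg`: a negative entry gives the polynomial 0), so `0 ≤ dH P a`
(`occ_ample`, or `a = 0`).  If `∀ ζ, zs (vl a f ζ) ∈ P.C`: `IsMap`, `h1`.  Otherwise a base point `ζ`: `ζ = some s` with `s ≠ 0`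
(`vl a f (some 0) i = (f i).coeff 0`, `coeff_zero_eq_eval_zero`) or `ζ = none`: `rem_fin`, `rem_inf` give `h : Rem P a f ζ b f' μ`.
`b ≠ 0` occurs at `vl (a - b) f' ζ`: `0 < dH P b` (`occ_ample`), so `dH P (a - b) < dH P a ≤ dH P a₀`; `h2` and the induction hypothesis (first
alternative) give the statement for `a - b`.  `dH P b < dH P a₀`: if `a ≠ b`, `a - b ≠ 0` occurs at `f'(0) = f(0)` (`h.at0`, `h.isq.neg`), so
`0 < dH P (a - b)` and `dH P b < dH P a ≤ dH P a₀`; if `a = b`, `triv_rem` gives `Triv a f`, so the second alternative of `hh` is impossible and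
`dH P b = dH P a < dH P a₀`.  `h3`.  Add: `⟨a, ha⟩ = ⟨a - b, _⟩ + ⟨b, _⟩` in `Rel P`, `map_add`.
-/

open scoped Classical
open MvPolynomial

namespace Pool.Agent.LibTC1

open Pool.Agent.LibBH2 Pool.Agent.LibQC8

variable {ι : Type} [Fintype ι] {r : ℕ} {k : Type} [Field k] {P : Tor ι r}

theorem removal {G : Type} [AddCommGroup G] (φ ψ : Rel P →+ G) (a₀ : ι → ℤ)
    (Q : (ι → ℤ) → (ι → Polynomial k) → Prop)
    (hQ : ∀ a f, Q a f → IsQ P a f ∧ zs (fun i => (f i).coeff 0) ∈ P.C)
    (h1 : ∀ a f, Q a f → ∀ h : IsMap P a f, φ ⟨a, h.rel⟩ = ψ ⟨a, h.rel⟩)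
    (h2 : ∀ a f q b f' μ, Q a f → Rem P a f q b f' μ → Q (a - b) f')
    (h3 : ∀ a f q b f' μ, Q a f → ∀ h : Rem P a f q b f' μ, dH P b < dH P a₀ → φ ⟨b, h.rel⟩ = ψ ⟨b, h.rel⟩)
    (a : ι → ℤ) (f : ι → Polynomial k) (h : Q a f) (hh : dH P a < dH P a₀ ∨ a = a₀ ∧ ¬ Triv a f)
    (ha : a ∈ Rel P) : φ ⟨a, ha⟩ = ψ ⟨a, ha⟩ := by
  have dsub : ∀ x y : ι → ℤ, dH P (x - y) = dH P x - dH P y := by
    intro x y
    simp [dH, mul_sub, Finset.sum_sub_distrib]
  have key : ∀ n : ℕ, ∀ (a : ι → ℤ) (f : ι → Polynomial k), (dH P a).toNat = n → Q a f →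
      (dH P a < dH P a₀ ∨ a = a₀ ∧ ¬ Triv a f) → ∀ ha : a ∈ Rel P, φ ⟨a, ha⟩ = ψ ⟨a, ha⟩ := by
    intro n
    induction n using Nat.strong_induction_on with
    | _ n ih =>
      intro a f hn hq hh ha
      by_cases hm : ∀ ζ, zs (vl a f ζ) ∈ P.C
      · exact h1 a f hq ⟨(hQ a f hq).1, hm⟩
      · push Not at hm
        obtain ⟨ζ, hζ⟩ := hm
        obtain ⟨hisq, h0⟩ := hQ a f hq
        obtain ⟨b, f', μ, h⟩ : ∃ b f' μ, Rem P a f ζ b f' μ := by
          cases ζ with
          | none => obtain ⟨b, f', h⟩ := rem_inf hisq h0 hζ; exact ⟨b, f', 0, h⟩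
          | some s =>
            have hs : s ≠ 0 := by
              rintro rfl
              apply hζ
              have e : vl a f (some 0) = fun i => (f i).coeff 0 := by
                funext i
                simp only [vl]
                rw [← Polynomial.coeff_zero_eq_eval_zero]
              rw [e]
              exact h0
            exact rem_fin hisq h0 s hs hζ
        have hb : 0 < dH P b := occ_ample h.rel h.cone h.occ h.ne
        have hsub : a - b ∈ Rel P := (Rel P).sub_mem ha h.rel
        have hocc : Occ (a - b) (fun i => (f i).coeff 0) := by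
          intro i hi
          have e := h.isq.neg i hi
          show (f i).coeff 0 = 0
          rw [← h.at0 i, e, Polynomial.coeff_zero]
        have hab : a ≠ b → 0 < dH P (a - b) := fun hne =>
          occ_ample hsub h0 hocc (sub_ne_zero.2 hne)
        have hge : dH P b ≤ dH P a := by
          by_cases e : a = b
          · rw [e]
          · have := hab e
            rw [dsub] at this
            omega
        have hle : dH P a ≤ dH P a₀ := by
          rcases hh with hh | ⟨hh, -⟩
          · exact hh.le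
          · rw [hh]
        have hd := dsub a b
        have i1 := ih (dH P (a - b)).toNat (by omega) (a - b) f' rfl (h2 a f ζ b f' μ hq h)
          (Or.inl (by omega)) hsub
        have hblt : dH P b < dH P a₀ := by
          by_cases e : a = b
          · rcases hh with hh | ⟨-, hh⟩
            · rw [← e]; exact hh
            · exfalso
              subst e
              exact hh (triv_rem hisq h)
          · have := hab e
            omega
        have i2 := h3 a f ζ b f' μ hq h hblt
        have e : (⟨a, ha⟩ : Rel P) = ⟨a - b, hsub⟩ + ⟨b, h.rel⟩ := by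
          apply Subtype.ext
          show a = (a - b) + b
          rw [sub_add_cancel]
        rw [e, map_add, map_add, i1, i2]
  exact key _ a f rfl h hh ha

end Pool.Agent.LibTC1
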