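import Pool.Agent.LibTC1.DDefs

/-!
Row [TC1 E1] (helper25).  SHORT/MEDIUM (Mathlib only; `le_height_span_X` of Pool/Agent/LibGMX/KrH.lean on main is about `Fin N`: copy it / transport it with
`Fintype.equivFin`, `MvPolynomial.renameEquiv`, or prove E1 first for `σ = Fin N`).  PLAN: suppose `0` is the only common zero.  `I = Ideal.span (range F)`,
`m0 = Ideal.span (range X)`, which is the ideal of the polynomials vanishing at `0` (constant coefficient 0), `m0 = vanishingIdeal {0}`.  `zeroLocus I = {0}`,
so `I.radical = vanishingIdeal (zeroLocus I) = m0` (`MvPolynomial.vanishingIdeal_zeroLocus_eq_radical`, Nullstellensatz).  `m0` is maximal, and every prime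
containing `I` contains `m0`, so `m0 ∈ I.minimalPrimes`, hence `m0.height ≤ m` (`Ideal.height_le_card_of_mem_minimalPrimes_span_finset` or
`Ideal.height_le_spanRank_toENat_of_mem_minimalPrimes`); but `card σ ≤ m0.height`: contradiction.
-/

open scoped Classical
open MvPolynomial

namespace Pool.Agent.LibTC1

open Pool.Agent.LibBH2 Pool.Agent.LibQC8

variable {ι : Type} [Fintype ι] {r : ℕ} {k : Type} [Field k] {P : Tor ι r}

/-- The map which sends the first `t` variables to zero. -/
private noncomputable def E1_phi (k : Type) [Field k] (N t : ℕ) :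
    MvPolynomial (Fin N) k →ₐ[k] MvPolynomial (Fin N) k :=
  MvPolynomial.aeval fun i : Fin N => if (i : ℕ) < t then 0 else MvPolynomial.X i

private theorem E1_phi_X (k : Type) [Field k] (N t : ℕ) (i : Fin N) :
    E1_phi k N t (MvPolynomial.X i) = if (i : ℕ) < t then 0 else MvPolynomial.X i := by
  unfold E1_phi
  rw [MvPolynomial.aeval_X]

private theorem E1_comp (k : Type) [Field k] (N t : ℕ) :
    (E1_phi k N (t + 1)).comp (E1_phi k N t) = E1_phi k N (t + 1) := by
  refine MvPolynomial.algHom_ext fun i => ?_
  rw [AlgHom.comp_apply, E1_phi_X, E1_phi_X]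
  by_cases h : (i : ℕ) < t
  · rw [if_pos h, map_zero, if_pos (h.trans (Nat.lt_succ_self t))]
  · rw [if_neg h, E1_phi_X]

private theorem E1_height (k : Type) [Field k] (N : ℕ) :
    ∀ t ≤ N, (t : ℕ∞) ≤ (RingHom.ker (E1_phi k N t)).height := by
  intro t
  induction t with
  | zero => intro _; exact zero_le
  | succ t ih =>
    intro ht
    have h1 : RingHom.ker (E1_phi k N t) < RingHom.ker (E1_phi k N (t + 1)) := by
      rw [SetLike.lt_iff_le_and_exists]
      refine ⟨fun f hf => ?_, MvPolynomial.X ⟨t, ht⟩, ?_, ?_⟩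
      · rw [RingHom.mem_ker] at hf ⊢
        rw [← E1_comp, AlgHom.comp_apply, hf, map_zero]
      · rw [RingHom.mem_ker, E1_phi_X, if_pos (Nat.lt_succ_self t)]
      · rw [RingHom.mem_ker, E1_phi_X, if_neg (lt_irrefl t)]
        exact MvPolynomial.X_ne_zero _
    have : (RingHom.ker (E1_phi k N t)).IsPrime := RingHom.ker_isPrime _
    have : (RingHom.ker (E1_phi k N (t + 1))).IsPrime := RingHom.ker_isPrime _
    have h2 := Ideal.height_add_one_le_of_lt_of_isPrime h1
    refine le_trans ?_ h2
    push_cast
    exact add_le_add (ih (Nat.le_of_succ_le ht)) le_rfl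

private theorem E1_ker_eq (k : Type) [Field k] (N : ℕ) :
    RingHom.ker (E1_phi k N N) ≤
      Ideal.span (Set.range (MvPolynomial.X : Fin N → MvPolynomial (Fin N) k)) := by
  intro f hf
  rw [RingHom.mem_ker] at hf
  set I := Ideal.span (Set.range (MvPolynomial.X : Fin N → MvPolynomial (Fin N) k)) with hI
  have h1 : ∀ g : MvPolynomial (Fin N) k, g - E1_phi k N N g ∈ I := by
    intro g
    induction g using MvPolynomial.induction_on with
    | C a =>
      have h2 : E1_phi k N N (MvPolynomial.C a) = MvPolynomial.C a := by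
        rw [← MvPolynomial.algebraMap_eq, AlgHom.commutes]
      rw [h2, sub_self]
      exact I.zero_mem
    | add p q hp hq =>
      have h2 : p + q - E1_phi k N N (p + q) =
          (p - E1_phi k N N p) + (q - E1_phi k N N q) := by
        rw [map_add]
        ring
      rw [h2]
      exact I.add_mem hp hq
    | mul_X p i hp =>
      have h2 : p * MvPolynomial.X i - E1_phi k N N (p * MvPolynomial.X i) =
          p * MvPolynomial.X i := by
        rw [map_mul, E1_phi_X, if_pos i.2, mul_zero, sub_zero]
      rw [h2]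
      exact I.mul_mem_left _ (Ideal.subset_span ⟨i, rfl⟩)
  have h2 := h1 f
  rwa [hf, sub_zero] at h2

/-- The ideal generated by the `N` variables has height at least `N` (it is equal to `N`). Induction on
`N`: `MvPolynomial.finSuccEquiv` and `Polynomial.height_eq_height_add_one` (Mathlib,
RingTheory/KrullDimension/Polynomial.lean; for a maximal ideal `P` of `A[X]` lying over `p`,
`P.height = p.height + 1`; the ideal of all variables is maximal, the quotient is `k`), or give a chain
of prime ideals `span (X '' {i | i < t})`. -/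
private theorem E1_le_height_span_X (k : Type) [Field k] (N : ℕ) :
    (N : ℕ∞) ≤ (Ideal.span (Set.range (MvPolynomial.X : Fin N → MvPolynomial (Fin N) k))).height :=
  (E1_height k N N le_rfl).trans (Ideal.height_mono (E1_ker_eq k N))

/-- Consequence of Krull's height theorem: if powers of all `N` variables are in the ideal generated by
`t` polynomials without constant term, then `N ≤ t`. (The ideal `𝔪` of the variables is a minimal prime
of `span (range f)`: a prime `p`, `span (range f) ≤ p ≤ 𝔪`, contains all the variables.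
`Ideal.height_le_card_of_mem_minimalPrimes_span`.) -/
private theorem E1_card_le_of_pow_mem (k : Type) [Field k] (N t : ℕ) (f : Fin t → MvPolynomial (Fin N) k)
    (hf : ∀ a, MvPolynomial.constantCoeff (f a) = 0)
    (h : ∀ i : Fin N, ∃ M : ℕ, (MvPolynomial.X i : MvPolynomial (Fin N) k) ^ M ∈
      Ideal.span (Set.range f)) : N ≤ t := by
  classical
  set m := RingHom.ker (MvPolynomial.constantCoeff (σ := Fin N) (R := k)) with hm
  have hmp : m.IsPrime := RingHom.ker_isPrime _
  have hXm : ∀ i : Fin N, (MvPolynomial.X i : MvPolynomial (Fin N) k) ∈ m := by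
    intro i
    rw [hm, RingHom.mem_ker, MvPolynomial.constantCoeff_X]
  have hle : Ideal.span (Set.range (MvPolynomial.X : Fin N → MvPolynomial (Fin N) k)) ≤ m := by
    rw [Ideal.span_le]
    rintro _ ⟨i, rfl⟩
    exact hXm i
  have hge : m ≤ Ideal.span (Set.range (MvPolynomial.X : Fin N → MvPolynomial (Fin N) k)) := by
    intro g hg
    refine E1_ker_eq k N ?_
    rw [RingHom.mem_ker]
    have h1 : E1_phi k N N g = MvPolynomial.C (MvPolynomial.constantCoeff g) := by
      have h2 : E1_phi k N N = (Algebra.ofId k (MvPolynomial (Fin N) k)).comp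
          (MvPolynomial.aeval fun _ : Fin N => (0 : k)) := by
        refine MvPolynomial.algHom_ext fun i => ?_
        rw [E1_phi_X, if_pos i.2, AlgHom.comp_apply, MvPolynomial.aeval_X, map_zero]
      rw [h2, AlgHom.comp_apply]
      rw [Algebra.ofId_apply, MvPolynomial.algebraMap_eq, MvPolynomial.aeval_zero']
      simp
    rw [h1, RingHom.mem_ker.1 hg, map_zero]
  have hmin : m ∈ (Ideal.span (Set.range f)).minimalPrimes := by
    refine ⟨⟨hmp, ?_⟩, ?_⟩
    · rw [Ideal.span_le]
      rintro _ ⟨a, rfl⟩
      exact RingHom.mem_ker.2 (hf a)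
    · rintro p ⟨hp, hfp⟩ -
      refine hge.trans ?_
      rw [Ideal.span_le]
      rintro _ ⟨i, rfl⟩
      obtain ⟨M, hM⟩ := h i
      exact hp.mem_of_pow_mem M (hfp hM)
  have h1 := Ideal.height_le_card_of_mem_minimalPrimes_span (Set.finite_range f) hmin
  have h2 : (N : ℕ∞) ≤ ((Set.range f).ncard : ℕ∞) :=
    ((E1_le_height_span_X k N).trans (Ideal.height_mono hle)).trans h1
  have h3 : (Set.range f).ncard ≤ t := by
    rw [← Set.image_univ]
    refine (Set.ncard_image_le (Set.finite_univ)).trans ?_
    rw [Set.ncard_univ, Nat.card_eq_fintype_card, Fintype.card_fin]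
  exact (Nat.cast_le.1 h2).trans h3

private theorem E1_fin {k : Type} [Field k] [IsAlgClosed k] {N : ℕ} (m : ℕ)
    (F : Fin m → MvPolynomial (Fin N) k) (h0 : ∀ j, constantCoeff (F j) = 0) (hm : m < N) :
    ∃ y : Fin N → k, y ≠ 0 ∧ ∀ j, MvPolynomial.eval y (F j) = 0 := by
  by_contra hcon
  push Not at hcon
  refine absurd (E1_card_le_of_pow_mem k N m F h0 fun i => ?_) (not_le.2 hm)
  have h1 : (MvPolynomial.X i : MvPolynomial (Fin N) k) ∈ (Ideal.span (Set.range F)).radical := by
    rw [← vanishingIdeal_zeroLocus_eq_radical (K := k), mem_vanishingIdeal_iff]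
    intro x hx
    rw [zeroLocus_span] at hx
    have hx0 : x = 0 := by
      by_contra hne
      obtain ⟨j, hj⟩ := hcon x hne
      exact hj (by rw [← aeval_eq_eval]; exact hx (F j) ⟨j, rfl⟩)
    rw [aeval_X, hx0]
    rfl
  exact h1

theorem common_zero {k : Type} [Field k] [IsAlgClosed k] {σ : Type} [Fintype σ] (m : ℕ)
    (F : Fin m → MvPolynomial σ k) (h0 : ∀ j, constantCoeff (F j) = 0) (hm : m < Fintype.card σ) :
    ∃ y : σ → k, y ≠ 0 ∧ ∀ j, MvPolynomial.eval y (F j) = 0 := by
  obtain ⟨y, hy, h⟩ := E1_fin (k := k) m (fun j => rename (Fintype.equivFin σ) (F j))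
    (fun j => by rw [constantCoeff_rename]; exact h0 j) hm
  refine ⟨y ∘ Fintype.equivFin σ, fun h1 => hy ?_, fun j => ?_⟩
  · funext i
    have h2 := congrFun h1 ((Fintype.equivFin σ).symm i)
    rw [Function.comp_apply, Equiv.apply_symm_apply] at h2
    rw [h2]
    rfl
  · rw [← eval_rename]
    exact h j

end Pool.Agent.LibTC1
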