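import Pool.Agent.LibTC1.DDefs
import Pool.Agent.LibTC1.DCite
import Pool.Agent.LibTC1.D1
import Pool.Agent.LibTC1.E0

/-!
Row [TC1 E2] (helper25).  MEDIUM. (T1).  PLAN `isq_fy`: `neg`: `a i < 0` gives `x i = 0` and `Fin (a i).toNat` empty; `deg`: every term has degree `≤ (a i).toNat`
(`natDegree_add_le`, `natDegree_sum_le_of_forall_le`, `natDegree_C_mul_X_pow_le`).
PLAN `sol_occ`: `a ≠ 0` (it has a negative entry).  `occ_pos`: `i0`.  `U = Σ i, Fin (a i).toNat`, `G = fy a (fun i => C (x.z i)) X : ι → Polynomial (MvPolynomial U k)`,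
`K = cmp X G` (with `R = MvPolynomial U k`), `E j = K.coeff (j + 1)` for `j : Fin ((dk a).toNat - 1)`.  For `y : U → k`:
`K.map (MvPolynomial.eval y) = cmp X (fy a x.z y)` (`aeval` commutes with the `k`-algebra map `Polynomial.mapAlgHom (aeval y)`; `MvPolynomial.map_aeval` / `AlgHom.comp` and
`MvPolynomial.algHom_ext`), so `eval y (K.coeff n) = (cmp X (fy a x.z y)).coeff n`.  `constantCoeff (E j) = eval 0 (E j) = (cmp X (fy a x.z 0)).coeff (j+1) = 0`,
as `fy a x.z 0 = C ∘ x.z` and `cmp X (C ∘ x.z) = C (aeval x.z X.F) = 0`.  Count: `∑ (a i).toNat = dk a + ∑ (-a i).toNat ≥ dk a + 1` (a negative entry),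
`0 ≤ dk a` (`occ_nef`), `2 ≤ ∑ (a i).toNat` (`occ_card`): `(dk a).toNat - 1 + 1 < ∑ (a i).toNat`.  `exists_nontriv` gives `y`; `f = fy a x.z y`.  `tot`:
`c = (cmp X f).coeff (dk a).toNat`: compare coefficients: `n > (dk a).toNat`: `cmp_deg'`; `0 < n < (dk a).toNat`: `E (n-1)`; `n = 0`, `0 < (dk a).toNat`:
`(cmp X f).coeff 0 = (cmp X f).eval 0 = aeval x.z X.F = 0` (`cmp_eval'`, `x.hF`).
-/

open scoped Classical
open MvPolynomial

namespace Pool.Agent.LibTC1

open Pool.Agent.LibBH2 Pool.Agent.LibQC8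

variable {ι : Type} [Fintype ι] {r : ℕ} {k : Type} [Field k] {P : Tor ι r}

theorem isq_fy {a : ι → ℤ} (ha : a ∈ Rel P) {x : ι → k} (h : Occ a x) (y : (Σ i : ι, Fin (a i).toNat) → k) :
    IsQ P a (fy a x y) := by
  refine ⟨ha, ?_, ?_⟩
  · intro i hi
    have h0 : (a i).toNat = 0 := Int.toNat_of_nonpos hi.le
    have he : IsEmpty (Fin (a i).toNat) := by
      rw [h0]
      infer_instance
    unfold fy
    rw [h i hi, Polynomial.C_0, zero_add]
    exact Finset.sum_of_isEmpty _
  · intro i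
    unfold fy
    refine (Polynomial.natDegree_add_le _ _).trans (max_le ?_ ?_)
    · rw [Polynomial.natDegree_C]
      exact Nat.zero_le _
    · refine Polynomial.natDegree_sum_le_of_forall_le _ _ fun j _ => ?_
      exact (Polynomial.natDegree_C_mul_X_pow_le _ _).trans (Nat.succ_le_of_lt j.2)

/-- the composition with specialised coefficients -/
private theorem E2_map (X : Hyp k P) (a : ι → ℤ) (x : ι → k) (y : (Σ i : ι, Fin (a i).toNat) → k)
    (n : ℕ) : MvPolynomial.eval y ((cmp X (fy a (fun i => MvPolynomial.C (x i))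
      (MvPolynomial.X : (Σ i : ι, Fin (a i).toNat) → MvPolynomial (Σ i : ι, Fin (a i).toNat) k))).coeff n) =
      (cmp X (fy a x y)).coeff n := by
  have h1 : (Polynomial.mapAlgHom (MvPolynomial.aeval y : MvPolynomial (Σ i : ι, Fin (a i).toNat) k →ₐ[k] k))
      (cmp X (fy a (fun i => MvPolynomial.C (x i))
      (MvPolynomial.X : (Σ i : ι, Fin (a i).toNat) → MvPolynomial (Σ i : ι, Fin (a i).toNat) k))) =
      cmp X (fy a x y) := by
    unfold cmp
    rw [MvPolynomial.comp_aeval_apply]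
    congr 2
    funext i
    unfold fy
    rw [map_add, map_sum]
    congr 1
    · change Polynomial.map _ (Polynomial.C _) = _
      rw [Polynomial.map_C]
      congr 1
      exact MvPolynomial.aeval_C y (x i)
    · refine Finset.sum_congr rfl fun j _ => ?_
      change Polynomial.map _ (Polynomial.C _ * Polynomial.X ^ _) = _
      rw [Polynomial.map_mul, Polynomial.map_pow, Polynomial.map_X, Polynomial.map_C]
      congr 2
      exact MvPolynomial.aeval_X y ⟨i, j⟩
  rw [← h1]
  change _ = Polynomial.coeff (Polynomial.map _ _) n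
  rw [Polynomial.coeff_map]
  rfl

private theorem E2_const (X : Hyp k P) (a : ι → ℤ) (x : ι → k) (hx : aeval x X.F = 0) :
    cmp X (fy a x (0 : (Σ i : ι, Fin (a i).toNat) → k)) = 0 := by
  have h1 : fy a x (0 : (Σ i : ι, Fin (a i).toNat) → k) =
      fun i => (Algebra.ofId k (Polynomial k)) (x i) := by
    funext i
    unfold fy
    rw [Finset.sum_eq_zero, add_zero]
    · rfl
    · intro j _
      rw [Pi.zero_apply, Polynomial.C_0, zero_mul]
  unfold cmp
  rw [h1, ← MvPolynomial.comp_aeval_apply, hx, map_zero]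

private theorem E2_count (a : ι → ℤ) (hneg : ∃ i, a i < 0) :
    dk a + 1 ≤ ((∑ i, (a i).toNat : ℕ) : ℤ) := by
  obtain ⟨i0, hi0⟩ := hneg
  have h1 : dk a = ((∑ i, (a i).toNat : ℕ) : ℤ) - ((∑ i, (-a i).toNat : ℕ) : ℤ) := by
    unfold dk
    push_cast
    rw [← Finset.sum_sub_distrib]
    refine Finset.sum_congr rfl fun i _ => ?_
    omega
  have h2 : 1 ≤ ∑ i, (-a i).toNat := by
    refine le_trans ?_ (Finset.single_le_sum (f := fun i => (-a i).toNat)
      (fun i _ => Nat.zero_le _) (Finset.mem_univ i0))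
    change 1 ≤ (-a i0).toNat
    omega
  omega

theorem sol_occ [IsAlgClosed k] [CharZero k] (X : Hyp k P) {a : ι → ℤ} (ha : a ∈ Rel P) (x : Pt X k)
    (h : Occ a x.z) (hneg : ∃ i, a i < 0) : ∃ f, Sol X a x.z f := by
  have h0 : a ≠ 0 := by
    rintro rfl
    obtain ⟨i, hi⟩ := hneg
    exact lt_irrefl _ hi
  obtain ⟨i0, hi0, hx0⟩ := occ_pos ha x.cone h h0
  have hdk := occ_nef ha x.cone h
  have hcard := occ_card ha x.cone h h0
  have hcount := E2_count a hneg
  obtain ⟨y, hy, hnt⟩ := exists_nontriv a x.z i0 hi0 hx0 ((dk a).toNat - 1)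
    (fun j => (cmp X (fy a (fun i => MvPolynomial.C (x.z i))
      (MvPolynomial.X : (Σ i : ι, Fin (a i).toNat) →
        MvPolynomial (Σ i : ι, Fin (a i).toNat) k))).coeff ((j : ℕ) + 1)) (by
      intro j
      rw [← MvPolynomial.eval_zero, E2_map, E2_const X a x.z x.hF, Polynomial.coeff_zero])
    (by omega)
  have hq := isq_fy ha h y
  refine ⟨fy a x.z y, hq, fun i => fy_coeff_zero a x.z y i,
    ⟨(cmp X (fy a x.z y)).coeff (dk a).toNat, ?_⟩, hnt⟩
  ext n
  rw [Polynomial.coeff_C_mul_X_pow]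
  split_ifs with hn
  · rw [hn]
  · rcases Nat.lt_or_ge (dk a).toNat n with h1 | h1
    · exact Polynomial.coeff_eq_zero_of_natDegree_lt ((cmp_deg' X hq).trans_lt h1)
    · have h2 : n < (dk a).toNat := lt_of_le_of_ne h1 hn
      rcases Nat.eq_zero_or_pos n with h3 | h3
      · rw [h3, Polynomial.coeff_zero_eq_eval_zero, cmp_eval' X a]
        have h4 : vl a (fy a x.z y) (some 0) = x.z := by
          funext i
          change ((fy a x.z y) i).eval 0 = x.z i
          rw [← Polynomial.coeff_zero_eq_eval_zero, fy_coeff_zero]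
        rw [h4, x.hF]
      · have h4 := hy ⟨n - 1, by omega⟩
        rw [E2_map] at h4
        have h5 : n - 1 + 1 = n := by omega
        simpa [h5] using h4

end Pool.Agent.LibTC1
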