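import Pool.Agent.LibTC1.DDefs
import Pool.Agent.LibTC1.DCite
import Pool.Agent.LibTC1.D1
import Pool.Agent.LibTC1.D4
import Pool.Agent.LibTC1.D4m
import Pool.Agent.LibTC1.E0
import Pool.Agent.LibTC1.E2

/-!
Row [TC1 D5] (helper25).  SHORT/MEDIUM. (Z).  PLAN: strong induction on `(dH P b).toNat` (generalizing `b y`).  If `b = 0`: `φ 0 = 0`.  Otherwise `occ_pos`: `i0`,
`occ_card`, `exists_nontriv` with `m = 0`: `y'` with `¬ Triv b (fy b y y')`; `f = fy b y y'` is a quasi-map (`isq_fy`) with `f(0) = y` (`fy_coeff_zero`).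
Apply `removal` with `ψ = 0`, `a₀ = b`, `Q a f := IsQ P a f ∧ zs (fun i => (f i).coeff 0) ∈ P.C ∧ dk a = 0`: `h1`: `hφ`, `fcyc_zero`, `cl 0 = 0`;
`h2`: `dk b' ≥ 0` (`occ_nef` at `vl _ f' q`), `dk (a - b') ≥ 0` (`a - b'` occurs at `f'(0)`), sum `dk a = 0`, so `dk (a - b') = 0`, and
`zs (f'(0)) = zs (f(0)) ∈ P.C` by `h.at0`; `h3`: the same computation gives `dk b' = 0`, `b'` occurs at `vl (a - b') f' q`, and the outer induction hypothesis applies
(`0 < dH P b'` by `occ_ample`, `dH P b' < dH P b`).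
-/

open scoped Classical
open MvPolynomial

namespace Pool.Agent.LibTC1

open Pool.Agent.LibBH2 Pool.Agent.LibQC8

variable {ι : Type} [Fintype ι] {r : ℕ} {k : Type} [Field k] {P : Tor ι r}

private theorem D5_dk {a : ι → ℤ} {f : ι → Polynomial k} {q : Option k} {b : ι → ℤ}
    {f' : ι → Polynomial k} {μ : k} (h : Rem P a f q b f' μ)
    (hc : zs (fun i => (f i).coeff 0) ∈ P.C) (h0 : dk a = 0) :
    zs (fun i => (f' i).coeff 0) ∈ P.C ∧ dk (a - b) = 0 ∧ dk b = 0 := by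
  have h1 : (fun i => (f' i).coeff 0) = fun i => (f i).coeff 0 := funext h.at0
  have hc' : zs (fun i => (f' i).coeff 0) ∈ P.C := by
    rw [h1]
    exact hc
  have h2 : 0 ≤ dk b := occ_nef h.rel h.cone h.occ
  have h3 : 0 ≤ dk (a - b) := by
    refine occ_nef (x := fun i => (f' i).coeff 0) h.isq.rel hc' fun i hi => ?_
    show (f' i).coeff 0 = 0
    rw [h.isq.neg i hi, Polynomial.coeff_zero]
  have h4 : dk (a - b) = dk a - dk b := by
    unfold dk
    rw [← Finset.sum_sub_distrib]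
    rfl
  refine ⟨hc', ?_, ?_⟩ <;> omega

private theorem D5_aux [IsAlgClosed k] [CharZero k] (X : Hyp k P) (φ : Rel P →+ CH X)
    (hφ : ∀ a f (h : IsMap P a f), φ ⟨a, h.rel⟩ = cl (fcyc X a f)) :
    ∀ (n : ℕ) (b : ι → ℤ) (hb : b ∈ Rel P), dk b = 0 → ∀ (y : ι → k), zs y ∈ P.C → Occ b y →
      (dH P b).toNat = n → φ ⟨b, hb⟩ = 0 := by
  intro n
  induction n using Nat.strong_induction_on with
  | _ n ih =>
    intro b hb h0 y hy h hn
    by_cases hb0 : b = 0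
    · subst hb0
      exact map_zero φ
    · obtain ⟨i0, hi0, hy0⟩ := occ_pos hb hy h hb0
      have hcard := occ_card hb hy h hb0
      obtain ⟨y', -, hnt⟩ := exists_nontriv b y i0 hi0 hy0 0 (fun j => j.elim0)
        (fun j => j.elim0) (by omega)
      refine removal φ 0 b
        (fun a f => IsQ P a f ∧ zs (fun i => (f i).coeff 0) ∈ P.C ∧ dk a = 0)
        (fun a f hQ => ⟨hQ.1, hQ.2.1⟩) ?_ ?_ ?_ b (fy b y y') ⟨isq_fy hb h y', ?_, h0⟩
        (Or.inr ⟨rfl, hnt⟩) hb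
      · intro a f hQ hm
        rw [hφ a f hm, fcyc_zero X hm hQ.2.2]
        rfl
      · intro a f q b' f' μ hQ hr
        obtain ⟨g1, g2, -⟩ := D5_dk hr hQ.2.1 hQ.2.2
        exact ⟨hr.isq, g1, g2⟩
      · intro a f q b' f' μ hQ hr hlt
        obtain ⟨-, -, g3⟩ := D5_dk hr hQ.2.1 hQ.2.2
        have hpos := occ_ample hr.rel hr.cone hr.occ hr.ne
        exact ih (dH P b').toNat (by omega) b' hr.rel g3 _ hr.cone hr.occ rfl
      · have h1 : (fun i => (fy b y y' i).coeff 0) = y := funext fun i => fy_coeff_zero b y y' i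
        rw [h1]
        exact hy

theorem phi_zero [IsAlgClosed k] [CharZero k] (X : Hyp k P) (φ : Rel P →+ CH X)
    (hφ : ∀ a f (h : IsMap P a f), φ ⟨a, h.rel⟩ = cl (fcyc X a f)) (b : ι → ℤ) (hb : b ∈ Rel P) (h0 : dk b = 0)
    (y : ι → k) (hy : zs y ∈ P.C) (h : Occ b y) : φ ⟨b, hb⟩ = 0 := by
  exact D5_aux X φ hφ _ b hb h0 y hy h rfl

end Pool.Agent.LibTC1
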