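import Pool.Agent.LibTC1.DDefs
import Pool.Agent.LibTC1.DCite
import Pool.Agent.LibTC1.D3b
import Pool.Agent.LibTC1.D5

open scoped Classical
open MvPolynomial

namespace Pool.Agent.LibTC1

open Pool.Agent.LibBH2 Pool.Agent.LibQC8

variable {ι : Type} [Fintype ι] {r : ℕ} {k : Type} [Field k] {P : Tor ι r}

private theorem D6_vl0 (c : ι → ℤ) (f : ι → Polynomial k) : vl c f (some 0) = fun i => (f i).coeff 0 := by
  funext i
  simp only [vl]
  rw [← Polynomial.coeff_zero_eq_eval_zero]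

private theorem D6_occ {c : ι → ℤ} {f : ι → Polynomial k} (h : IsQ P c f) : Occ c (fun i => (f i).coeff 0) := by
  intro i hi
  show (f i).coeff 0 = 0
  rw [h.neg i hi, Polynomial.coeff_zero]

private theorem D6_aux [IsAlgClosed k] [CharZero k] (X : Hyp k P) (φ : Rel P →+ CH X)
    (hφ : ∀ a f (h : IsMap P a f), φ ⟨a, h.rel⟩ = cl (fcyc X a f)) (o : CH X)
    (hW : ∀ a ∈ Rel P, (∀ i, 0 ≤ a i) → a ≠ 0 → ∃ p : Pt X k, cl (pt p) = o ∧ ∃ f, Sol X a p.z f) :
    ∀ (n : ℕ) (a : ι → ℤ) (ha : a ∈ Rel P) (x : Pt X k), cl (pt x) = o → Occ a x.z →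
      (dH P a).toNat = n → φ ⟨a, ha⟩ = ((dk a : ℤ) : ℚ) • o := by
  intro n
  induction n using Nat.strong_induction_on with
  | _ n ih =>
    intro a ha x hx hocc hn
    by_cases ha0 : a = 0
    · subst ha0
      have h1 : φ ⟨0, ha⟩ = 0 := map_zero φ
      have h2 : dk (0 : ι → ℤ) = 0 := by simp [dk]
      rw [h1, h2, Int.cast_zero, zero_smul]
    · obtain ⟨z, hz, f, hf⟩ : ∃ z : Pt X k, cl (pt z) = o ∧ ∃ f, Sol X a z.z f := by
        by_cases hneg : ∃ i, a i < 0
        · exact ⟨x, hx, sol_occ X ha x hocc hneg⟩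
        · push Not at hneg
          exact hW a ha hneg ha0
      let ψ : Rel P →+ CH X :=
        { toFun := fun c => ((dk c.1 : ℤ) : ℚ) • o
          map_zero' := by simp [dk]
          map_add' := fun c c' => by
            have : dk (c + c').1 = dk c.1 + dk c'.1 := by
              simp [dk, Finset.sum_add_distrib]
            rw [this, Int.cast_add, add_smul] }
      have key := removal φ ψ a
        (fun c f => IsQ P c f ∧ (∃ w : Pt X k, cl (pt w) = o ∧ ∀ i, (f i).coeff 0 = w.z i) ∧ IsTot X c f)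
        ?_ ?_ ?_ ?_ a f ⟨hf.q, ⟨z, hz, hf.at0⟩, hf.tot⟩ (Or.inr ⟨rfl, hf.ntriv⟩) ha
      · exact key
      · rintro c g ⟨h1, ⟨w, hw, hw0⟩, h3⟩
        refine ⟨h1, ?_⟩
        have : (fun i => (g i).coeff 0) = w.z := funext hw0
        rw [this]
        exact w.cone
      · rintro c g ⟨h1, ⟨w, hw, hw0⟩, h3⟩ hm
        rw [hφ c g hm, fcyc_tot X hm w hw0 h3, hw]
        rfl
      · rintro c g q b g' μ ⟨h1, ⟨w, hw, hw0⟩, h3⟩ hr
        have hc : zs (fun i => (g i).coeff 0) ∈ P.C := by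
          have : (fun i => (g i).coeff 0) = w.z := funext hw0
          rw [this]
          exact w.cone
        exact ⟨hr.isq, ⟨w, hw, fun i => by rw [hr.at0 i, hw0 i]⟩, (tot_rem X h1 hc hr h3).1⟩
      · rintro c g q b g' μ ⟨h1, ⟨w, hw, hw0⟩, h3⟩ hr hlt
        have hgw : (fun i => (g i).coeff 0) = w.z := funext hw0
        have hc : zs (fun i => (g i).coeff 0) ∈ P.C := by
          rw [hgw]
          exact w.cone
        obtain ⟨t1, t2, t3⟩ := tot_rem X h1 hc hr h3
        show φ ⟨b, hr.rel⟩ = ((dk b : ℤ) : ℚ) • o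
        by_cases hcmp : cmp X g = 0
        · have hcmp' := t3 hcmp
          have hg'w : (fun i => (g' i).coeff 0) = w.z := by
            funext i
            rw [hr.at0 i, hw0 i]
          have hvl0 : vl (c - b) g' (some 0) = w.z := by rw [D6_vl0, hg'w]
          have hdk : 0 ≤ dk (c - b) := occ_nef (x := w.z) hr.isq.rel w.cone (by
            rw [← hg'w]
            exact D6_occ hr.isq)
          have hF : aeval (vl (c - b) g' q) X.F = 0 := by
            cases q with
            | none => rw [← cmp_coeff' X hr.isq hdk, hcmp', Polynomial.coeff_zero]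
            | some s => rw [← cmp_eval' X (c - b) g' s, hcmp', Polynomial.eval_zero]
          have hcl : cl (pt (⟨vl (c - b) g' q, hr.cone, hF⟩ : Pt X k)) = o := by
            have e1 : pz X (vl (c - b) g' q) = pt (⟨vl (c - b) g' q, hr.cone, hF⟩ : Pt X k) := by
              unfold pz
              rw [dif_pos ⟨hr.cone, hF⟩]
            have e2 : pz X (vl (c - b) g' (some 0)) = pt w := by
              rw [hvl0]
              unfold pz
              rw [dif_pos ⟨w.cone, w.hF⟩]
            rw [← e1, rat_const' X hr.isq hcmp' q (some 0) hr.cone (by rw [hvl0]; exact w.cone), e2, hw]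
          have hpos := occ_ample hr.rel hr.cone hr.occ hr.ne
          exact ih (dH P b).toNat (by omega) b hr.rel _ hcl hr.occ rfl
        · rw [t2 hcmp, Int.cast_zero, zero_smul]
          exact phi_zero X φ hφ b hr.rel (t2 hcmp) _ hr.cone hr.occ

theorem phi_occ [IsAlgClosed k] [CharZero k] (X : Hyp k P) (φ : Rel P →+ CH X)
    (hφ : ∀ a f (h : IsMap P a f), φ ⟨a, h.rel⟩ = cl (fcyc X a f)) (o : CH X)
    (hW : ∀ a ∈ Rel P, (∀ i, 0 ≤ a i) → a ≠ 0 → ∃ p : Pt X k, cl (pt p) = o ∧ ∃ f, Sol X a p.z f)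
    (a : ι → ℤ) (ha : a ∈ Rel P) (x : Pt X k) (hx : cl (pt x) = o) (h : Occ a x.z) :
    φ ⟨a, ha⟩ = ((dk a : ℤ) : ℚ) • o :=
  D6_aux X φ hφ o hW _ a ha x hx h rfl

end Pool.Agent.LibTC1
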