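import Pool.Agent.LibTC1.DDefs
import Pool.Agent.LibTC1.D6

/-!
Row [TC1 DMain] (helper25).  SHORT/MEDIUM. PLAN: for `c ∈ Rel P` with `∀ i, 0 ≤ c i`: `φ c = dk c • o`: if `c = 0` trivial, otherwise `hW c` gives a point `p` of class `o`, `c` occurs at `p.z`
(no negative entries) and `phi_occ`.  `P.compl (fun j => -∑ i, v i j)` gives `m : ι → ℕ`; `b0 i = m i + 1`, `b0 ∈ Rel P`, `1 ≤ b0 i`.  For `a ∈ Rel P` let
`n = ∑ i, (a i).natAbs`: `0 ≤ a i + n * b0 i` for all `i`.  `φ a = φ (a + n • b0) - n • φ b0 = (dk (a + n b0) - n dk b0) • o = dk a • o`.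
-/

open scoped Classical
open MvPolynomial

namespace Pool.Agent.LibTC1

open Pool.Agent.LibBH2 Pool.Agent.LibQC8

variable {ι : Type} [Fintype ι] {r : ℕ} {k : Type} [Field k] {P : Tor ι r}

theorem all_classes [IsAlgClosed k] [CharZero k] (X : Hyp k P) (φ : Rel P →+ CH X)
    (hφ : ∀ a f (h : IsMap P a f), φ ⟨a, h.rel⟩ = cl (fcyc X a f)) (o : CH X)
    (hW : ∀ a ∈ Rel P, (∀ i, 0 ≤ a i) → a ≠ 0 → ∃ p : Pt X k, cl (pt p) = o ∧ ∃ f, Sol X a p.z f) (a : Rel P) :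
    φ a = ((dk a.1 : ℤ) : ℚ) • o := by
  have hpos : ∀ (c : ι → ℤ) (hc : c ∈ Rel P), (∀ i, 0 ≤ c i) →
      φ ⟨c, hc⟩ = ((dk c : ℤ) : ℚ) • o := by
    intro c hc h0
    by_cases hne : c = 0
    · subst hne
      have h1 : (⟨0, hc⟩ : Rel P) = 0 := rfl
      rw [h1, map_zero]
      simp [dk]
    · obtain ⟨p, hp, _⟩ := hW c hc h0 hne
      exact phi_occ X φ hφ o hW c hc p hp fun i hi => absurd hi (not_lt.mpr (h0 i))
  obtain ⟨m, -, hm⟩ := P.compl (fun j => -∑ i, P.v i j)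
  have hB : (fun i => (m i : ℤ) + 1) ∈ Rel P := by
    intro j
    have h1 := hm j
    simp only [add_mul, one_mul, Finset.sum_add_distrib]
    rw [h1]
    simp
  set B : Rel P := ⟨fun i => (m i : ℤ) + 1, hB⟩ with hBdef
  set n : ℕ := ∑ i, (a.1 i).natAbs with hn
  have hc : ∀ i, (a + n • B).1 i = a.1 i + n * ((m i : ℤ) + 1) := by
    intro i
    simp [hBdef]
  have hnn : ∀ i, 0 ≤ (a + n • B).1 i := by
    intro i
    rw [hc]
    have h1 : (a.1 i).natAbs ≤ n :=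
      Finset.single_le_sum (f := fun i => (a.1 i).natAbs) (fun _ _ => Nat.zero_le _)
        (Finset.mem_univ i)
    have h2 : (n : ℤ) ≤ n * ((m i : ℤ) + 1) := by
      have h3 : (0 : ℤ) ≤ n * (m i : ℤ) := by positivity
      linarith
    have h4 : -((a.1 i).natAbs : ℤ) ≤ a.1 i := by omega
    have h5 : ((a.1 i).natAbs : ℤ) ≤ n := by exact_mod_cast h1
    linarith
  have h1 := hpos (a + n • B).1 (a + n • B).2 hnn
  have h2 := hpos B.1 B.2 (fun i => by
    change 0 ≤ (m i : ℤ) + 1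
    positivity)
  have h3 : φ (a + n • B) = φ a + n • φ B := by rw [map_add, map_nsmul]
  have h4 : dk (a + n • B).1 = dk a.1 + n * dk B.1 := by
    unfold dk
    rw [Finset.mul_sum, ← Finset.sum_add_distrib]
    exact Finset.sum_congr rfl fun i _ => hc i
  have h5 : φ (a + n • B) = ((dk (a + n • B).1 : ℤ) : ℚ) • o := h1
  have h6 : φ B = ((dk B.1 : ℤ) : ℚ) • o := h2
  rw [h3, h6, h4] at h5
  have h7 : n • (((dk B.1 : ℤ) : ℚ) • o) = ((n : ℚ) * ((dk B.1 : ℤ) : ℚ)) • o := by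
    rw [mul_smul, Nat.cast_smul_eq_nsmul]
  rw [h7] at h5
  push_cast at h5
  rw [add_smul] at h5
  exact add_right_cancel h5

end Pool.Agent.LibTC1
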