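import Pool.Agent.LibTC1.W
import Pool.Agent.LibTC1.DMain
import Pool.Agent.LibTC1.T2
import Pool.Agent.LibTC1.C18
import Pool.Agent.LibTC1.P6

/-!
Calabi-Yau hypersurfaces in toric varieties: every rational curve of the toric variety meets `X` in a multiple of one class.
-/

open scoped Classical
open MvPolynomial

set_option linter.unusedSectionVars false

namespace Pool.Agent.LibTC1

open Pool.Agent.LibBH2 Pool.Agent.LibQC8

variable {ι : Type} [Fintype ι] {r : ℕ} {k : Type} [Field k] {P : Tor ι r}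

theorem main [Nonempty ι] [IsAlgClosed k] [CharZero k] (X : Hyp k P)
    (h : (∃ S : Finset ι, 4 ≤ S.card ∧ (∀ j, ∑ i ∈ S, P.v i j = 0) ∧ ∀ T ⊂ S, T ∈ P.C) ∨
      ∃ o : CH X, HW X o) :
    (∀ a : Cyc X, cl a = 0 → dg a = 0) ∧
      ∃ o : Cyc X, dg o = 1 ∧ ∀ (a : ι → ℤ) (f : ι → Polynomial k), IsMap P a f →
        cl (fcyc X a f) = ((dk a : ℤ) : ℚ) • cl o := by
  refine ⟨fun a ha => dg_of_cl a ha, ?_⟩
  obtain ⟨o, ho⟩ : ∃ o : CH X, HW X o := by
    rcases h with ⟨S, h4, hS, hT⟩ | h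
    · exact exists_HW X S h4 hS hT
    · exact h
  obtain ⟨φ, hφ⟩ := exists_phi X
  have hW : ∀ a ∈ Rel P, (∀ i, 0 ≤ a i) → a ≠ 0 →
      ∃ p : Pt X k, cl (pt p) = o ∧ ∃ f, Sol X a p.z f := by
    intro a ha h0 hne
    obtain ⟨K, _, _, u, D, hK, hc, hD, hn⟩ := ho a ha h0 hne
    obtain ⟨v, p, l, hs, f, hf⟩ := sol_curve X a ha h0 hne hK u D hD hn
    exact ⟨p, hc v p l hs, f, hf⟩
  obtain ⟨b, hb, hb0⟩ := exists_b0 P
  obtain ⟨p, hp, -⟩ := hW b hb (fun i => (hb0 i).le) (fun h => by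
    have := hb0 (Classical.arbitrary ι)
    rw [h] at this
    exact lt_irrefl _ this)
  refine ⟨pt p, dg_pt p, fun a f hf => ?_⟩
  rw [hp, ← hφ a f hf]
  exact all_classes X φ hφ o hW ⟨a, hf.rel⟩

end Pool.Agent.LibTC1
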