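import Pool.Agent.LibTC1.BC3
import Pool.Agent.LibTC1.BM1
import Pool.Agent.LibTC1.Main

/-!
Calabi-Yau hypersurfaces in toric varieties: every rational curve of the toric variety meets `X` in a multiple of one class.
-/

open scoped Classical
open MvPolynomial

set_option linter.unusedSectionVars false

namespace Pool.Agent.LibTC1

open Pool.Agent.LibBH2 Pool.Agent.LibQC8

variable {ι : Type} [Fintype ι] {r : ℕ} {k : Type} [Field k] {P : Tor ι r}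

theorem main_big [IsAlgClosed k] [CharZero k] (hr : 4 ≤ r) (X : Hyp k P)
    (hF : ∃ e ∈ X.F.support, ∃ e' ∈ X.F.support, e ≠ e') :
    (∀ a : Cyc X, cl a = 0 → dg a = 0) ∧
      ∃ o : Cyc X, dg o = 1 ∧ ∀ (a : ι → ℤ) (f : ι → Polynomial k), IsMap P a f →
        cl (fcyc X a f) = ((dk a : ℤ) : ℚ) • cl o := by
  refine ⟨fun a ha => dg_of_cl a ha, ?_⟩
  have hne : Nonempty ι := by
    by_contra h
    rw [not_nonempty_iff] at h
    obtain ⟨e, -, e', -, hee⟩ := hF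
    exact hee (Subsingleton.elim _ _)
  obtain ⟨φ, hφ⟩ := exists_phi X
  obtain ⟨b₀, hb₀, hb₀0⟩ := exists_b0 P
  -- a minimal class
  obtain ⟨b, hb, hb0, hbne, hmin⟩ : ∃ b ∈ Rel P, (∀ i, 0 ≤ b i) ∧ b ≠ 0 ∧
      ∀ c ∈ Rel P, (∀ i, 0 ≤ c i) → c ≠ 0 → dH P b ≤ dH P c := by
    have hex : ∃ n : ℕ, ∃ b ∈ Rel P, (∀ i, 0 ≤ b i) ∧ b ≠ 0 ∧ (dH P b).toNat = n :=
      ⟨_, b₀, hb₀, fun i => (hb₀0 i).le, fun h => by
        have := hb₀0 (Classical.arbitrary ι)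
        rw [h] at this
        exact lt_irrefl _ this, rfl⟩
    obtain ⟨b, hb, hb0, hbne, hbn⟩ := Nat.find_spec hex
    refine ⟨b, hb, hb0, hbne, fun c hc hc0 hcne => ?_⟩
    have h1 := Nat.find_min' hex ⟨c, hc, hc0, hcne, rfl⟩
    have hpos : ∀ c ∈ Rel P, (∀ i, 0 ≤ c i) → c ≠ 0 → 0 < dH P c := fun c hc hc0 hcne =>
      occ_ample (x := fun _ : ι => (1 : k)) hc (zs_ne P _ fun _ => one_ne_zero)
        (fun i hi => absurd hi (not_lt.2 (hc0 i))) hcne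
    have h2 := hpos c hc hc0 hcne
    have h3 := hpos b hb hb0 hbne
    omega
  have hdb : ((dk b : ℤ) : ℚ) ≠ 0 := by
    have h1 : 0 < dk b := by
      obtain ⟨i, hi⟩ := Function.ne_iff.1 hbne
      have h1 : b i ≤ dk b := Finset.single_le_sum (f := b) (fun i _ => hb0 i) (Finset.mem_univ i)
      have h2 := hb0 i
      simp only [Pi.zero_apply] at hi
      omega
    exact_mod_cast h1.ne'
  have hcls : ∀ p : Pt X k, (∃ f, Sol X b p.z f) →
      cl (pt p) = (((dk b : ℤ) : ℚ)⁻¹) • φ ⟨b, hb⟩ := by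
    intro p hp
    rw [phi_min X φ hφ b hb hb0 hbne hmin p hp, smul_smul, inv_mul_cancel₀ hdb, one_smul]
  have hW : ∀ a ∈ Rel P, (∀ i, 0 ≤ a i) → a ≠ 0 →
      ∃ p : Pt X k, cl (pt p) = (((dk b : ℤ) : ℚ)⁻¹) • φ ⟨b, hb⟩ ∧ ∃ f, Sol X a p.z f := by
    intro a ha h0 hne
    obtain ⟨p, h1, h2⟩ := big hr X hF a ha h0 hne b hb hb0 hbne
    exact ⟨p, hcls p h2, h1⟩
  obtain ⟨p, hp, -⟩ := hW b hb hb0 hbne
  refine ⟨pt p, dg_pt p, fun a f hf => ?_⟩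
  rw [hp, ← hφ a f hf]
  exact all_classes X φ hφ _ hW ⟨a, hf.rel⟩

end Pool.Agent.LibTC1
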