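import Pool.Agent.LibTC1.CDefs

/-!
[TC1 C6] (MEDIUM) The family `glu`: coefficients, values of the coefficients at `t = 1` and at `t = 0`.

glu_coeff: for `j ≤ (a i + b i).toNat` by definition (`Polynomial.finset_sum_coeff`, `coeff_monomial`). For `j > (a i + b i).toNat` the right
side is zero: `j > a i + b i ≥ a i` (`b i ≥ 0`), so the second case of `if`, with index `(j - a i).toNat > (b i).toNat ≥ natDegree (h i)`
(`D.mh.deg`), and `j > natDegree (g i)` (`D.mg.deg`).
glu_isQ: rel: `D.mg.rel`. neg: `a i + b i < 0`: all coefficients vanish by `glu_coeff` (`a i < 0 ≤ j`; `(j - a i).toNat > (b i).toNat`; `g i = 0`).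
deg: by definition (`Polynomial.natDegree_le_iff_coeff_eq_zero`). glu_one: values of coefficients: `1 - t → 0`, the bracket is regular, `t ^ N → 1`.
glu_zero: `1 - t → 1`, `t ^ N → 0`, `t ^ (j - a i).toNat → 0` for `j > a i`, where `(f i).coeff j = 0` (`D.mf.deg`: `j > (a i).toNat`; for
`a i < 0` `f i = 0`).
-/

open scoped Classical
open MvPolynomial

set_option linter.unusedSectionVars false

namespace Pool.Agent.LibTC1

open Pool.Agent.LibBH2 Pool.Agent.LibQC8

variable {ι : Type} [Fintype ι] {r : ℕ} {k : Type} [Field k] {P : Tor ι r}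
  {K : Type} [Field K] [Algebra k K]

variable {a b : ι → ℤ} {f h g : ι → Polynomial k}

private theorem C6_zero (D : GD P a b f h g) (N : ℕ) (t : K) (i : ι) (j : ℕ)
    (hj : (a i + b i) < (j : ℤ)) :
    (1 - t) * (if (j : ℤ) ≤ a i then algebraMap k K ((f i).coeff j) else
        t ^ ((j : ℤ) - a i).toNat * algebraMap k K ((h i).coeff ((j : ℤ) - a i).toNat)) +
        t ^ N * algebraMap k K ((g i).coeff j) = 0 := by
  have hb := D.b0 i
  have h1 : ¬ (j : ℤ) ≤ a i := by omega
  have h2 : (h i).coeff ((j : ℤ) - a i).toNat = 0 := by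
    apply Polynomial.coeff_eq_zero_of_natDegree_lt
    have := D.mh.deg i
    omega
  have h3 : (g i).coeff j = 0 := by
    by_cases hn : (a + b) i < 0
    · rw [D.mg.neg i hn, Polynomial.coeff_zero]
    · apply Polynomial.coeff_eq_zero_of_natDegree_lt
      have := D.mg.deg i
      rw [Pi.add_apply] at this hn
      omega
  rw [if_neg h1, h2, h3]
  simp

theorem glu_coeff (D : GD P a b f h g) (N : ℕ) (t : K) (i : ι) (j : ℕ) :
    (glu a b f h g N t i).coeff j =
      (1 - t) * (if (j : ℤ) ≤ a i then algebraMap k K ((f i).coeff j) else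
        t ^ ((j : ℤ) - a i).toNat * algebraMap k K ((h i).coeff ((j : ℤ) - a i).toNat)) +
        t ^ N * algebraMap k K ((g i).coeff j) := by
  unfold glu
  rw [Polynomial.finsetSum_coeff]
  simp only [Polynomial.coeff_monomial]
  rw [Finset.sum_ite_eq' (Finset.range ((a i + b i).toNat + 1)) j]
  by_cases hj : j ∈ Finset.range ((a i + b i).toNat + 1)
  · rw [if_pos hj]
  · rw [if_neg hj]
    rw [Finset.mem_range] at hj
    exact (C6_zero D N t i j (by omega)).symm

theorem glu_isQ (D : GD P a b f h g) (N : ℕ) (t : K) :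
    IsQ P (a + b) (glu a b f h g N t) := by
  refine ⟨D.mg.rel, fun i hi => ?_, fun i => ?_⟩
  · ext j
    rw [glu_coeff D, Polynomial.coeff_zero]
    rw [Pi.add_apply] at hi
    exact C6_zero D N t i j (by omega)
  · rw [Polynomial.natDegree_le_iff_coeff_eq_zero]
    intro j hj
    rw [Pi.add_apply] at hj
    rw [glu_coeff D]
    exact C6_zero D N t i j (by omega)

theorem glu_one (D : GD P a b f h g) (N : ℕ) {t : K} {v : Place k K} (hv : v.Zer (t - 1))
    (i : ι) : CV v (glu a b f h g N t i) (g i) := by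
  intro j
  rw [glu_coeff D]
  have ht : v.Zer (t - algebraMap k K 1) := by rwa [map_one]
  have htr : v.Reg t := v.reg_of_val ht
  have hX : v.Reg (if (j : ℤ) ≤ a i then algebraMap k K ((f i).coeff j) else
        t ^ ((j : ℤ) - a i).toNat * algebraMap k K ((h i).coeff ((j : ℤ) - a i).toNat)) := by
    split_ifs
    · exact v.reg_const _
    · exact (Place.Reg.pow htr _).mul (v.reg_const _)
  have h1 : v.Zer (1 - t) := by
    have := Place.Zer.neg hv
    rwa [neg_sub] at this
  have h2 := Place.Zer.mul_reg h1 hX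
  have h3 := v.val_mul (v.val_pow ht N) (v.val_const ((g i).coeff j))
  rw [one_pow, one_mul] at h3
  have h4 := Place.Zer.add h2 h3
  rwa [← add_sub_assoc] at h4

theorem glu_zero (D : GD P a b f h g) {N : ℕ} (hN : 1 ≤ N) {t : K} {v : Place k K}
    (hv : v.Zer t) (i : ι) : CV v (glu a b f h g N t i) (f i) := by
  intro j
  rw [glu_coeff D]
  have hpow : ∀ n : ℕ, 1 ≤ n → v.Zer (t ^ n) := by
    intro n hn
    obtain ⟨m, rfl⟩ : ∃ m, n = m + 1 := ⟨n - 1, by omega⟩
    rw [pow_succ]
    exact Place.Zer.reg_mul (Place.Reg.pow (Place.Zer.reg hv) m) hv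
  have h1 : v.Zer ((1 - t) - algebraMap k K 1) := by
    rw [map_one, sub_sub_cancel_left]
    exact Place.Zer.neg hv
  have h2 : v.Zer (t ^ N * algebraMap k K ((g i).coeff j)) :=
    Place.Zer.mul_reg (hpow N hN) (v.reg_const _)
  have hX : v.Zer ((if (j : ℤ) ≤ a i then algebraMap k K ((f i).coeff j) else
        t ^ ((j : ℤ) - a i).toNat * algebraMap k K ((h i).coeff ((j : ℤ) - a i).toNat)) -
        algebraMap k K ((f i).coeff j)) := by
    split_ifs with hj
    · exact v.val_const _
    · have hf : (f i).coeff j = 0 := by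
        by_cases hn : a i < 0
        · rw [D.mf.neg i hn, Polynomial.coeff_zero]
        · apply Polynomial.coeff_eq_zero_of_natDegree_lt
          have := D.mf.deg i
          omega
      rw [hf, map_zero, sub_zero]
      exact Place.Zer.mul_reg (hpow _ (by omega)) (v.reg_const _)
  have h3 := v.val_mul h1 hX
  rw [one_mul] at h3
  have h4 := Place.Zer.add h3 h2
  rwa [sub_add_eq_add_sub] at h4

end Pool.Agent.LibTC1
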