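import Pool.Agent.LibTC1.C6
import Pool.Agent.LibTC1.P2

/-!
[TC1 C7] (MEDIUM) The second chart of the family `glu`.

glt_coeff: `Polynomial.coeff_C_mul`, `Polynomial.comp_C_mul_X_coeff` (the coefficient of `p.comp (C x * X)` is `coeff j * x ^ j`), `t ≠ 0`.
glt_isQ: by `glt_coeff`. glt_cv: `glt_coeff`, `glu_coeff`. Case `j < a i`: `(1 - t) t ^ (a i - j) f_ij + t ^ (N + a i - j) g_ij → 0`, and the coefficient `j` of
`sh (a i) (h i) = X ^ (a i).toNat * h i` is `0`. Case `j = a i`: the value is `f_ij = vl a f none i = (h i).coeff 0`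
(`D.h0`, `a i ≥ 0`). Case `j > a i`: `t ^ (a i - j) * t ^ (j - a i).toNat = 1`, the first part has value `(h i).coeff (j - a i)`; in the second part
`t ^ (N + a i - j) * g_ij`: if `j ≤ a i + b i` the exponent is `≥ N - b i > 0`; otherwise `g_ij = 0` (`D.mg.deg`, `D.mg.neg`). The coefficient `j` of
`sh (a i) (h i)` is `(h i).coeff (j - a i)` (for `a i < 0` by `D.dvd`: `h i = X ^ n * q`, `sh = q`).
sh_isQ: degrees: `natDegree (sh (a i) (h i)) ≤ (a i + b i).toNat`; if `a i + b i < 0` then `h i = 0` (divisible by `X ^ (-a i)`, of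
degree `≤ b i < -a i`). vl_glt: `some s`: `l i = t ^ a i`; `none`: `l i = t ^ (a i - c i)` (`isT_rel` for `a - c ∈ Rel P`). vl_sh: `some x`, `x ≠ 0`:
`l i = x ^ a i`; `none`: `l = 1`.
-/

open scoped Classical
open MvPolynomial

set_option linter.unusedSectionVars false

namespace Pool.Agent.LibTC1

open Pool.Agent.LibBH2 Pool.Agent.LibQC8

variable {ι : Type} [Fintype ι] {r : ℕ} {k : Type} [Field k] {P : Tor ι r}
  {K : Type} [Field K] [Algebra k K]

variable {a b : ι → ℤ} {f h g : ι → Polynomial k}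

private theorem C7_sh {n : ℤ} {p : Polynomial k}
    (hd : n < 0 → Polynomial.X ^ (-n).toNat ∣ p) (j : ℕ) :
    (sh n p).coeff j = if n ≤ j then p.coeff ((j : ℤ) - n).toNat else 0 := by
  unfold sh
  by_cases hn : 0 ≤ n
  · rw [if_pos hn, Polynomial.coeff_X_pow_mul']
    by_cases hj : n ≤ j
    · rw [if_pos (by omega), if_pos hj]
      congr 1
      omega
    · rw [if_neg (by omega), if_neg hj]
  · rw [if_neg hn, if_pos (by omega)]
    obtain ⟨q, hq⟩ := hd (by omega)
    rw [hq, Polynomial.mul_divByMonic_cancel_left _ (Polynomial.monic_X_pow _)]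
    have h1 : ((j : ℤ) - n).toNat = j + (-n).toNat := by omega
    rw [h1, Polynomial.coeff_X_pow_mul]

private theorem C7_zpow {v : Place k K} {t : K} (hv : v.Zer t) {n : ℤ} (hn : 1 ≤ n) :
    v.Zer (t ^ n) := by
  obtain ⟨m, rfl⟩ : ∃ m : ℕ, n = (m : ℤ) + 1 := ⟨(n - 1).toNat, by omega⟩
  have h1 : t ^ ((m : ℤ) + 1) = t ^ m * t := by
    have h2 : ((m : ℤ) + 1) = ((m + 1 : ℕ) : ℤ) := by push_cast; rfl
    rw [h2, zpow_natCast, pow_succ]
  rw [h1]
  exact Place.Zer.reg_mul (hv.reg.pow m) hv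

theorem glt_coeff (a : ι → ℤ) {t : K} (ht : t ≠ 0) (G : ι → Polynomial K) (i : ι) (j : ℕ) :
    (glt a t G i).coeff j = t ^ (a i - j) * (G i).coeff j := by
  unfold glt
  rw [Polynomial.coeff_C_mul, Polynomial.comp_C_mul_X_coeff, zpow_sub₀ ht, zpow_natCast, inv_pow,
    div_eq_mul_inv]
  ring

theorem glt_isQ (a : ι → ℤ) {t : K} (ht : t ≠ 0) {c : ι → ℤ} {G : ι → Polynomial K}
    (hG : IsQ P c G) : IsQ P c (glt a t G) := by
  refine ⟨hG.rel, fun i hi => ?_, fun i => ?_⟩
  · ext j
    rw [glt_coeff a ht, hG.neg i hi, Polynomial.coeff_zero, mul_zero]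
  · rw [Polynomial.natDegree_le_iff_coeff_eq_zero]
    intro j hj
    rw [glt_coeff a ht, Polynomial.coeff_eq_zero_of_natDegree_lt (lt_of_le_of_lt (hG.deg i) hj),
      mul_zero]

theorem glt_cv (D : GD P a b f h g) {N : ℕ} (hN : ∀ i, b i < N) {t : K} (ht : t ≠ 0)
    {v : Place k K} (hv : v.Zer t) (i : ι) :
    CV v (glt a t (glu a b f h g N t) i) (sh (a i) (h i)) := by
  intro j
  have hN1 : 1 ≤ (N : ℤ) := by
    have h1 := hN i
    have h2 := D.b0 i
    omega
  have hreg : v.Reg (1 - t) := by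
    have h1 := v.reg_const (1 : k)
    rw [map_one] at h1
    exact h1.sub hv.reg
  have htN : v.Zer (t ^ N) := by
    have h1 := C7_zpow hv hN1
    rwa [zpow_natCast] at h1
  rw [glt_coeff a ht, glu_coeff D, C7_sh (D.dvd i)]
  rcases lt_trichotomy (j : ℤ) (a i) with hj0 | hj0 | hj0
  · rw [if_pos hj0.le, if_neg (by omega), map_zero, sub_zero]
    have h1 : v.Zer (t ^ (a i - j)) := C7_zpow hv (by omega)
    exact h1.mul_reg ((hreg.mul (v.reg_const _)).add (htN.reg.mul (v.reg_const _)))
  · rw [if_pos hj0.le, if_pos hj0.ge]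
    have h1 : a i - (j : ℤ) = 0 := by omega
    have h2 : ((j : ℤ) - a i).toNat = 0 := by omega
    have h3 : (h i).coeff 0 = (f i).coeff j := by
      rw [D.h0 i]
      change (if a i < 0 then 0 else (f i).coeff (a i).toNat) = _
      rw [if_neg (by omega)]
      congr 1
      omega
    rw [h1, h2, zpow_zero, one_mul, h3]
    have h4 : (1 - t) * algebraMap k K ((f i).coeff j) + t ^ N * algebraMap k K ((g i).coeff j) -
        algebraMap k K ((f i).coeff j) = t ^ N * algebraMap k K ((g i).coeff j) -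
          t * algebraMap k K ((f i).coeff j) := by ring
    rw [h4]
    exact (htN.mul_reg (v.reg_const _)).sub (hv.mul_reg (v.reg_const _))
  · rw [if_neg (by omega), if_pos hj0.le]
    have h1 : t ^ (a i - (j : ℤ)) * t ^ ((j : ℤ) - a i).toNat = 1 := by
      rw [← zpow_natCast, ← zpow_add₀ ht]
      have h2 : a i - (j : ℤ) + (((j : ℤ) - a i).toNat : ℤ) = 0 := by omega
      rw [h2, zpow_zero]
    have h5 : v.Zer (t ^ (a i - (j : ℤ)) * (t ^ N * algebraMap k K ((g i).coeff j))) := by
      by_cases hj : (j : ℤ) ≤ a i + b i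
      · rw [← mul_assoc, ← zpow_natCast t N, ← zpow_add₀ ht]
        have h6 := hN i
        exact (C7_zpow hv (by omega)).mul_reg (v.reg_const _)
      · have h6 : (g i).coeff j = 0 := by
          by_cases hab : a i + b i < 0
          · rw [D.mg.neg i hab, Polynomial.coeff_zero]
          · have h7 : (g i).natDegree ≤ (a i + b i).toNat := D.mg.deg i
            exact Polynomial.coeff_eq_zero_of_natDegree_lt (by omega)
        rw [h6, map_zero, mul_zero, mul_zero]
        exact v.zer_zero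
    have h4 : t ^ (a i - (j : ℤ)) * ((1 - t) * (t ^ ((j : ℤ) - a i).toNat *
        algebraMap k K ((h i).coeff ((j : ℤ) - a i).toNat)) +
        t ^ N * algebraMap k K ((g i).coeff j)) -
        algebraMap k K ((h i).coeff ((j : ℤ) - a i).toNat) =
        t ^ (a i - (j : ℤ)) * (t ^ N * algebraMap k K ((g i).coeff j)) -
          t * algebraMap k K ((h i).coeff ((j : ℤ) - a i).toNat) := by
      linear_combination (1 - t) * algebraMap k K ((h i).coeff ((j : ℤ) - a i).toNat) * h1
    rw [h4]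
    exact h5.sub (hv.mul_reg (v.reg_const _))

theorem sh_isQ (D : GD P a b f h g) : IsQ P (a + b) (fun i => sh (a i) (h i)) := by
  have hz : ∀ i (j : ℕ), a i + b i < j → (sh (a i) (h i)).coeff j = 0 := by
    intro i j hj
    rw [C7_sh (D.dvd i)]
    split_ifs with h1
    · have h2 : (h i).natDegree ≤ (b i).toNat := D.mh.deg i
      have h3 := D.b0 i
      exact Polynomial.coeff_eq_zero_of_natDegree_lt (by omega)
    · rfl
  refine ⟨D.mg.rel, fun i hi => ?_, fun i => ?_⟩
  · ext j
    rw [Polynomial.coeff_zero]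
    apply hz
    rw [Pi.add_apply] at hi
    omega
  · rw [Polynomial.natDegree_le_iff_coeff_eq_zero]
    intro j hj
    apply hz
    rw [Pi.add_apply] at hj
    omega

theorem vl_glt {a : ι → ℤ} (ha : a ∈ Rel P) {t : K} (ht : t ≠ 0) {c : ι → ℤ}
    {G : ι → Polynomial K} (hG : IsQ P c G) (s : Option K) :
    ∃ l : ι → K, IsT P l ∧ ∀ i, vl c (glt a t G) (s.map (t * ·)) i = l i * vl c G s i := by
  rcases s with _ | s
  · refine ⟨fun i => t ^ (a - c) i, isT_rel ((Rel P).sub_mem ha hG.rel) ht, fun i => ?_⟩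
    change (if c i < 0 then 0 else (glt a t G i).coeff (c i).toNat) =
      t ^ (a - c) i * (if c i < 0 then 0 else (G i).coeff (c i).toNat)
    split_ifs with hc
    · rw [mul_zero]
    · rw [glt_coeff a ht]
      have h1 : a i - ((c i).toNat : ℤ) = (a - c) i := by
        rw [Pi.sub_apply]
        omega
      rw [h1]
  · refine ⟨fun i => t ^ a i, isT_rel ha ht, fun i => ?_⟩
    change (glt a t G i).eval (t * s) = t ^ a i * (G i).eval s
    unfold glt
    rw [Polynomial.eval_mul, Polynomial.eval_C, Polynomial.eval_comp, Polynomial.eval_mul,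
      Polynomial.eval_C, Polynomial.eval_X, inv_mul_cancel_left₀ ht]

theorem vl_sh (D : GD P a b f h g) {ξ : Option k} (hξ : ξ ≠ some 0) :
    ∃ l : ι → k, IsT P l ∧
      ∀ i, vl (a + b) (fun i => sh (a i) (h i)) ξ i = l i * vl b h ξ i := by
  rcases ξ with _ | x
  · refine ⟨fun _ => 1, isT_one, fun i => ?_⟩
    change (if a i + b i < 0 then 0 else (sh (a i) (h i)).coeff (a i + b i).toNat) =
      1 * (if b i < 0 then 0 else (h i).coeff (b i).toNat)
    have hb := D.b0 i
    rw [one_mul, if_neg (by omega : ¬ b i < 0)]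
    split_ifs with hab
    · have h1 := (Polynomial.X_pow_dvd_iff.mp (D.dvd i (by omega))) (b i).toNat (by omega)
      exact h1.symm
    · rw [C7_sh (D.dvd i), if_pos (by omega)]
      congr 1
      omega
  · have hx : x ≠ 0 := fun h => hξ (by rw [h])
    refine ⟨fun i => x ^ a i, isT_rel D.mf.rel hx, fun i => ?_⟩
    change (sh (a i) (h i)).eval x = x ^ a i * (h i).eval x
    unfold sh
    by_cases ha : 0 ≤ a i
    · rw [if_pos ha, Polynomial.eval_mul, Polynomial.eval_pow, Polynomial.eval_X]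
      have h1 : x ^ a i = x ^ (a i).toNat := by
        rw [← zpow_natCast, Int.toNat_of_nonneg ha]
      rw [h1]
    · rw [if_neg ha]
      obtain ⟨q, hq⟩ := D.dvd i (by omega)
      rw [hq, Polynomial.mul_divByMonic_cancel_left _ (Polynomial.monic_X_pow _),
        Polynomial.eval_mul, Polynomial.eval_pow, Polynomial.eval_X, ← mul_assoc, ← zpow_natCast,
        ← zpow_add₀ hx]
      have h1 : a i + ((-a i).toNat : ℤ) = 0 := by omega
      rw [h1, zpow_zero, one_mul]

end Pool.Agent.LibTC1
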