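import Pool.Agent.LibTC1.CDefs

/-!
[TC1 C9] (SHORT/MEDIUM) Enumeration of the zeros; change of the coordinate.

exists_enum: the list `L = Φ.roots.toList.map some ++ List.replicate (d - natDegree Φ) none` has length `d`; `u n = L.get (cast n)`;
`∑ n, θ (u n) = (L.map θ).sum` (`List.sum_ofFn`, `List.ofFn_get`, or `Fin.sum_univ_get'`). `Φ.eval s = 0` for roots; if `none` occurs then
`natDegree Φ < d` so `Φ.coeff d = 0`.
rsum_comp: the roots of `C c * Φ.comp (C t⁻¹ * X)` are `t * s` (`Polynomial.roots_C_mul`; `Polynomial.roots_comp_C_mul_X_...` or via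
`Polynomial.roots` of `scaleRoots`, or by counting: `rootMultiplicity` and `comp` with the linear automorphism `Polynomial.algEquivOfCompEqX`), same degree
(`Polynomial.natDegree_comp`). Both for `Φ = 0` too.
-/

open scoped Classical
open MvPolynomial

set_option linter.unusedSectionVars false

namespace Pool.Agent.LibTC1

open Pool.Agent.LibBH2 Pool.Agent.LibQC8

variable {ι : Type} [Fintype ι] {r : ℕ} {k : Type} [Field k] {P : Tor ι r}
  {K : Type} [Field K] [Algebra k K]

theorem exists_enum (d : ℕ) (Φ : Polynomial K) (hd : Φ.natDegree ≤ d)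
    (hs : Multiset.card Φ.roots = Φ.natDegree) :
    ∃ u : Fin d → Option K,
      (∀ n, (∃ s, u n = some s ∧ Φ.eval s = 0) ∨ (u n = none ∧ Φ.coeff d = 0)) ∧
      ∀ (A : Type) (_ : AddCommMonoid A) (θ : Option K → A), rsum d Φ θ = ∑ n, θ (u n) := by
  classical
  have hcard : (Φ.roots.toList.map some ++
      List.replicate (d - Φ.natDegree) (none : Option K)).length = d := by
    rw [List.length_append, List.length_map, Multiset.length_toList, List.length_replicate, hs]
    omega
  refine ⟨fun n => (Φ.roots.toList.map some ++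
      List.replicate (d - Φ.natDegree) (none : Option K)).get (Fin.cast hcard.symm n), ?_, ?_⟩
  · intro n
    have hm : (Φ.roots.toList.map some ++
        List.replicate (d - Φ.natDegree) (none : Option K)).get (Fin.cast hcard.symm n) ∈
        Φ.roots.toList.map some ++ List.replicate (d - Φ.natDegree) (none : Option K) :=
      List.get_mem _ _
    rcases List.mem_append.1 hm with h | h
    · left
      obtain ⟨s, hs1, hs2⟩ := List.mem_map.1 h
      exact ⟨s, hs2.symm, (Polynomial.mem_roots'.1 (Multiset.mem_toList.1 hs1)).2⟩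
    · right
      obtain ⟨h1, h2⟩ := List.mem_replicate.1 h
      exact ⟨h2, Polynomial.coeff_eq_zero_of_natDegree_lt (by omega)⟩
  · intro A _ θ
    have h1 : ∑ n : Fin d, θ ((Φ.roots.toList.map some ++
        List.replicate (d - Φ.natDegree) (none : Option K)).get (Fin.cast hcard.symm n)) =
        ((Φ.roots.toList.map some ++
          List.replicate (d - Φ.natDegree) (none : Option K)).map θ).sum := by
      rw [← List.sum_ofFn]
      congr 1
      refine List.ext_getElem (by
        rw [List.length_ofFn, List.length_map, hcard]) ?_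
      intro i h1 h2
      rw [List.getElem_ofFn, List.getElem_map]
      rfl
    rw [h1, List.map_append, List.sum_append, List.map_map, List.map_replicate,
      List.sum_replicate]
    unfold rsum
    congr 1
    rw [← Multiset.sum_coe, ← Multiset.map_coe, Multiset.coe_toList]
    rfl

private theorem C9_comp (Φ : Polynomial K) {c t : K} (hc : c ≠ 0) (ht : t ≠ 0) :
    (Polynomial.C c * Φ.comp (Polynomial.C t⁻¹ * Polynomial.X)).roots = Φ.roots.map (t * ·) ∧
      (Polynomial.C c * Φ.comp (Polynomial.C t⁻¹ * Polynomial.X)).natDegree = Φ.natDegree := by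
  constructor
  · rw [Polynomial.roots_C_mul _ hc]
    have h := Polynomial.roots_comp_C_mul_X_add_C Φ t⁻¹ 0 (isUnit_iff_ne_zero.2 (inv_ne_zero ht))
    rw [Polynomial.C_0, add_zero] at h
    rw [h]
    refine Multiset.map_congr rfl fun x _ => ?_
    simp
  · rw [Polynomial.natDegree_C_mul hc, Polynomial.natDegree_comp,
      Polynomial.natDegree_C_mul_X _ (inv_ne_zero ht), mul_one]

theorem rsum_comp {A : Type} [AddCommMonoid A] (d : ℕ) (Φ : Polynomial K) {c t : K}
    (hc : c ≠ 0) (ht : t ≠ 0) (θ : Option K → A) :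
    rsum d (Polynomial.C c * Φ.comp (Polynomial.C t⁻¹ * Polynomial.X)) θ =
      rsum d Φ (fun s => θ (s.map (t * ·))) := by
  have h := C9_comp Φ hc ht
  unfold rsum
  rw [h.1, h.2, Multiset.map_map]
  rfl

theorem comp_roots (Φ : Polynomial K) {c t : K} (hc : c ≠ 0) (ht : t ≠ 0)
    (hs : Multiset.card Φ.roots = Φ.natDegree) :
    Multiset.card (Polynomial.C c * Φ.comp (Polynomial.C t⁻¹ * Polynomial.X)).roots =
      (Polynomial.C c * Φ.comp (Polynomial.C t⁻¹ * Polynomial.X)).natDegree ∧
      (Polynomial.C c * Φ.comp (Polynomial.C t⁻¹ * Polynomial.X)).natDegree = Φ.natDegree := by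
  have h := C9_comp Φ hc ht
  rw [h.1, h.2, Multiset.card_map]
  exact ⟨hs, rfl⟩

end Pool.Agent.LibTC1
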