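import Pool.Agent.LibTC1.C10
import Pool.Agent.LibTC1.C11
import Pool.Agent.LibTC1.C12
import Pool.Agent.LibTC1.P7
import Pool.Agent.LibTC1.P10
import Pool.Agent.LibTC1.C8

/-!
[TC1 C13] (MEDIUM) The glueing lemma.

`fcyc_rsum`: unfold; `cl` commutes with multiset sums (`cl_msum`, `cl_nsmul`, `cl_add`, P6).
glue: `N = 1 + ∑ i, (b i).toNat`. `exists_split` (C8): `K`, `t`, roots rational. `Φ = cmp X (glu ..)`, `d = (dk (a + b)).toNat`, `e : Fin d → Option K` from
`exists_enum` (C9; degree bound `cmp_deg (glu_isQ ..)`), `u n : Pt X K` from `glu_point`. The function `w = t / (t - 1)` is transcendental;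
`0 < w.ord ↔ t → 0` (`v.Zer t`: if `t/(t-1)` vanishes then `t` does: `t = w/(w - 1)`), `w.ord < 0`: `t - 1 = 1/(w - 1)` so `v.Zer (t - 1)`.
Apply `genM` (P7) with `a = cl (fcyc X a f) + cl (fcyc X b h)`, `a' = cl (fcyc X (a + b) g)`.
At `t = 1`: choose `ζ` (`exists_atP`), `val_one`; `∑ n, cl (pz X (vl (a + b) g (ζ (e n)))) = rsum d Φ (..)` (`exists_enum`) `= rsum d (cmp X g) (..)` (`rsum_lim`, `cv_cmp`,
`glu_one`, `hcg`) `= cl (fcyc X (a + b) g)` (`fcyc_rsum`).
At `t = 0`: for every `s = e n`: `ζ s`, and `ζ (s.map (t * ·))`.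
Case `F(f(∞)) ≠ 0`: `cmp X f ≠ 0`, of degree exactly `(dk a).toNat` (`cmp_coeff`). Let `θ₁ (some c) = cl (pz X (vl a f (some c)))`, `θ₁ none = 0`;
`θ₂ (some 0) = 0`, `θ₂ ξ = cl (pz X (vl b h ξ))` otherwise. For every `n` there is a value `p` of `u n` with `cl (pt p) = θ₁ (ζ s) + θ₂ (ζ (t s))`: if
`ζ s = some c`: `val_fin`, and `ζ (t s) = some 0` by `atP_small`, `atP_unique`. If `ζ s = none` and `ζ (t s) ≠ some 0`: `val_far`. If `ζ s = none`,
`ζ (t s) = some 0`: `s` is not `none`, `val_mid` gives a point `p` of `X` with `p.z = vl a f none`, `F(f(∞)) = 0`, contradiction. The sum is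
`rsum d Φ (θ₁ ∘ ζ) + rsum d Φ (θ₂ ∘ ζ ∘ (t ·)) = rsum d (cmp X f) θ₁ + (dk a).toNat • 0 + rsum (dk b).toNat (cmp X h) θ₂` (`sum_s`, `sum_far`), the first is
`cl (fcyc X a f)`, the second `cl (fcyc X b h)`: no root of `cmp X h` is `0`, as `F(h(0)) = F(f(∞)) ≠ 0` (`D.h0`).
Case `cmp X f = 0`: `θ ξ = cl (pz X (vl a f none))` for `ξ = some 0`, `cl (pz X (vl b h ξ))` otherwise; in fact `θ ξ = cl (pz X (vl b h ξ))` for all `ξ`, as
`vl b h (some 0) = vl a f none` (`D.h0`). The value of `u n` has class `θ (ζ (t s))`: if `ζ s = some c`: `val_fin`, `rat_const` (P10);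
else `val_mid` or `val_far`. `sum_far`: the sum is `(dk a).toNat • cl (pz X (vl a f none)) + cl (fcyc X b h)`, and
`cl (fcyc X a f) = dk a • cl (pz X (vl a f (some 0)))` (`rat_const`, `dk a ≥ 0`).
-/

open scoped Classical
open MvPolynomial

set_option linter.unusedSectionVars false

namespace Pool.Agent.LibTC1

open Pool.Agent.LibBH2 Pool.Agent.LibQC8

variable {ι : Type} [Fintype ι] {r : ℕ} {k : Type} [Field k] [IsAlgClosed k] {P : Tor ι r}
  {K : Type} [Field K] [Algebra k K]

variable {a b : ι → ℤ} {f h g : ι → Polynomial k}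

theorem fcyc_rsum (X : Hyp k P) {a : ι → ℤ} {f : ι → Polynomial k} (h : cmp X f ≠ 0) :
    cl (fcyc X a f) = rsum (dk a).toNat (cmp X f) (fun ζ => cl (pz X (vl a f ζ))) := by
  unfold fcyc rsum
  rw [if_neg h, cl_add, cl_msum, cl_nsmul]

private theorem ord_pos_zero (v : Place k K) {t : K} (ht0 : t ≠ 0) (ht1 : t - 1 ≠ 0)
    (h : 0 < v.ord (t / (t - 1))) : v.Zer t := by
  rw [v.ord_div _ _ ht0 ht1] at h
  right
  by_contra hc
  have h1 := v.ord_add t (-1) ht0 (by simp) (by rwa [← sub_eq_add_neg])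
  rw [v.ord_neg, v.ord_one, ← sub_eq_add_neg] at h1
  have h2 : v.ord t ≤ 0 := not_lt.mp hc
  rw [min_eq_left h2] at h1
  omega

private theorem ord_neg_zero (v : Place k K) {t : K} (ht0 : t ≠ 0) (ht1 : t - 1 ≠ 0)
    (h : v.ord (t / (t - 1)) < 0) : v.Zer (t - 1) := by
  rw [v.ord_div _ _ ht0 ht1] at h
  right
  by_contra hc
  have h1 := v.ord_add (t - 1) 1 ht1 one_ne_zero (by rwa [sub_add_cancel])
  rw [v.ord_one, sub_add_cancel] at h1
  have h2 : v.ord (t - 1) ≤ 0 := not_lt.mp hc
  rw [min_eq_left h2] at h1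
  omega

private theorem vl_h0 (D : GD P a b f h g) : vl b h (some 0) = vl a f none := by
  funext i
  show (h i).eval 0 = vl a f none i
  rw [← Polynomial.coeff_zero_eq_eval_zero, D.h0 i]

theorem glue (X : Hyp k P) (D : GD P a b f h g) (hcg : cmp X g ≠ 0) (hch : cmp X h ≠ 0)
    (hcf : aeval (vl a f none) X.F ≠ 0 ∨ cmp X f = 0) :
    cl (fcyc X (a + b) g) = cl (fcyc X a f) + cl (fcyc X b h) := by
  obtain ⟨N, hN1, hNb⟩ : ∃ N : ℕ, 1 ≤ N ∧ ∀ i, b i < N := by
    refine ⟨1 + ∑ i, (b i).toNat, by omega, fun i => ?_⟩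
    have := Finset.single_le_sum (f := fun i => (b i).toNat) (fun _ _ => Nat.zero_le _)
      (Finset.mem_univ i)
    have h2 := Int.self_le_toNat (b i)
    push_cast
    have h3 : ((b i).toNat : ℤ) ≤ ((∑ i, (b i).toNat : ℕ) : ℤ) := by exact_mod_cast this
    push_cast at h3
    omega
  obtain ⟨K, _, _, t, hK, ht, hs⟩ := exists_split X a b f h g N
  have ht0 : t ≠ 0 := by
    rintro rfl
    exact ht isAlgebraic_zero
  have ht1 : t - 1 ≠ 0 := by
    intro h1
    have h2 : t = 1 := sub_eq_zero.mp h1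
    rw [h2] at ht
    exact ht isAlgebraic_one
  have hdeg : (cmp X (glu a b f h g N t)).natDegree ≤ (dk (a + b)).toNat :=
    cmp_deg X (glu_isQ D N t)
  obtain ⟨e, he, hsum⟩ := exists_enum _ (cmp X (glu a b f h g N t)) hdeg hs
  have hu : ∀ n, ∃ u : Pt X K, u.z = vl (a + b) (glu a b f h g N t) (e n) := fun n =>
    glu_point X D hK N ht (e n) (he n)
  choose u hu using hu
  have hw : Transcendental k (t / (t - 1)) := by
    intro hal
    apply ht
    have hw1 : t / (t - 1) - 1 ≠ 0 := by
      rw [div_sub_one ht1]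
      have : t - (t - 1) = 1 := by ring
      rw [this]
      exact div_ne_zero one_ne_zero ht1
    have h1 : t = (t / (t - 1)) * (t / (t - 1) - 1)⁻¹ := by
      rw [eq_mul_inv_iff_mul_eq₀ hw1]
      field_simp
      ring
    rw [h1]
    exact hal.mul (hal.sub isAlgebraic_one).inv
  refine (genM X hK _ u _ hw _ _ ?_ ?_).symm
  · intro v hv
    have hv := ord_pos_zero v ht0 ht1 hv
    have hζ' : ∀ s, ∃ ζ, AtP v s ζ := fun s => exists_atP hK v s
    choose ζ hζ using hζ'
    rcases hcf with hcf | hcf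
    · have hfc : (cmp X f).coeff (dk a).toNat ≠ 0 := by
        rw [cmp_coeff X D.mf.toIsQ]; exact hcf
      have hf0 : cmp X f ≠ 0 := by
        intro h0; rw [h0] at hfc; simp at hfc
      have hfd : (cmp X f).natDegree = (dk a).toNat :=
        le_antisymm (cmp_deg X D.mf.toIsQ) (Polynomial.le_natDegree_of_ne_zero hfc)
      let θ₁ : Option k → CH X := fun ξ => ξ.elim 0 fun c => cl (pz X (vl a f (some c)))
      let θ₂ : Option k → CH X := fun ξ => if ξ = some 0 then 0 else cl (pz X (vl b h ξ))
      have key : ∀ n, ∃ (p : Pt X k), (∃ l : ι → K, Sp v (u n) p l) ∧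
          cl (pt p) = θ₁ (ζ (e n)) + θ₂ (ζ ((e n).map (t * ·))) := by
        intro n
        rcases hc : ζ (e n) with _ | c
        · by_cases hξ : ζ ((e n).map (t * ·)) = some 0
          · exfalso
            have h1 := hζ (e n)
            have h2 := hζ ((e n).map (t * ·))
            rw [hc] at h1
            rw [hξ] at h2
            have hun := hu n
            rcases hen : e n with _ | s
            · rw [hen] at h2
              exact h2
            · rw [hen] at h1 h2 hun
              have h3 : v.Zer (t * s) := by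
                have h4 : v.Zer (t * s - algebraMap k K 0) := h2
                simpa using h4
              obtain ⟨p, l, _, _, hpz⟩ := val_mid X D hNb hN1 hv (u n) hun h1 h3
              apply hcf
              rw [← hpz]
              exact p.hF
          · obtain ⟨p, l, hp, hpz⟩ := val_far X D hNb ht0 hv (u n) (hu n) hξ (hζ _)
            refine ⟨p, ⟨l, hp⟩, ?_⟩
            rw [hpz]
            simp only [θ₁, θ₂, Option.elim_none, if_neg hξ, zero_add]
        · have h1 := hζ (e n)
          rw [hc] at h1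
          obtain ⟨p, l, hp, hpz⟩ := val_fin X D hN1 hv (u n) (hu n) h1
          refine ⟨p, ⟨l, hp⟩, ?_⟩
          have h2 : ζ ((e n).map (t * ·)) = some 0 := atP_unique (hζ _) (atP_small hv h1)
          rw [hpz, h2]
          simp only [θ₁, θ₂, Option.elim_some, if_true, add_zero]
      choose p hp hpz using key
      refine ⟨p, hp, ?_⟩
      rw [Finset.sum_congr rfl (fun n _ => hpz n), Finset.sum_add_distrib,
        ← hsum (CH X) _ (fun s => θ₁ (ζ s)), ← hsum (CH X) _ (fun s => θ₂ (ζ (s.map (t * ·)))),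
        sum_s X D hN1 hv hs hf0 ζ hζ θ₁, sum_far X D hNb ht0 hv hs hch ζ hζ θ₂,
        fcyc_rsum X hf0, fcyc_rsum X hch]
      have e1 : rsum (dk (a + b)).toNat (cmp X f) θ₁ =
          rsum (dk a).toNat (cmp X f) (fun ζ => cl (pz X (vl a f ζ))) := by
        unfold rsum
        rw [hfd, Nat.sub_self, zero_smul]
        simp only [θ₁, Option.elim_some, Option.elim_none, smul_zero]
      have e2 : rsum (dk b).toNat (cmp X h) θ₂ =
          rsum (dk b).toNat (cmp X h) (fun ζ => cl (pz X (vl b h ζ))) := by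
        unfold rsum
        have e3 : (cmp X h).roots.map (fun s => θ₂ (some s)) =
            (cmp X h).roots.map (fun s => cl (pz X (vl b h (some s)))) := by
          apply Multiset.map_congr rfl
          intro s hsr
          have hne : (some s : Option k) ≠ some 0 := by
            intro h0
            have h0' : s = 0 := Option.some.inj h0
            rw [h0'] at hsr
            have h1 := (Polynomial.mem_roots hch).mp hsr
            have h2 := cmp_eval (K := k) X b h 0
            rw [vl_h0 D] at h2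
            exact hcf (h2.symm.trans h1)
          simp only [θ₂, if_neg hne]
        have e4 : θ₂ none = cl (pz X (vl b h none)) := by
          simp only [θ₂, if_neg (Option.some_ne_none (0 : k)).symm]
        rw [e3, e4]
      have e5 : θ₂ (some 0) = 0 := by
        simp only [θ₂, if_true]
      rw [e1, e2, e5, smul_zero, zero_add]
    · let θ : Option k → CH X := fun ξ => cl (pz X (vl b h ξ))
      have hθ0 : θ (some 0) = cl (pz X (vl a f none)) := by
        show cl (pz X (vl b h (some 0))) = _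
        rw [vl_h0 D]
      have key : ∀ n, ∃ (p : Pt X k), (∃ l : ι → K, Sp v (u n) p l) ∧
          cl (pt p) = θ (ζ ((e n).map (t * ·))) := by
        intro n
        rcases hc : ζ (e n) with _ | c
        · by_cases hξ : ζ ((e n).map (t * ·)) = some 0
          · have h1 := hζ (e n)
            have h2 := hζ ((e n).map (t * ·))
            rw [hc] at h1
            rw [hξ] at h2
            have hun := hu n
            rcases hen : e n with _ | s
            · rw [hen] at h2
              exact absurd h2 id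
            · rw [hen] at h1 h2 hun
              have h3 : v.Zer (t * s) := by
                have h4 : v.Zer (t * s - algebraMap k K 0) := h2
                simpa using h4
              obtain ⟨p, l, hp, hpt, _⟩ := val_mid X D hNb hN1 hv (u n) hun h1 h3
              refine ⟨p, ⟨l, hp⟩, ?_⟩
              rw [hen] at hξ
              rw [hξ, hθ0, hpt]
          · obtain ⟨p, l, hp, hpz⟩ := val_far X D hNb ht0 hv (u n) (hu n) hξ (hζ _)
            exact ⟨p, ⟨l, hp⟩, by rw [hpz]⟩
        · have h1 := hζ (e n)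
          rw [hc] at h1
          obtain ⟨p, l, hp, hpz⟩ := val_fin X D hN1 hv (u n) (hu n) h1
          refine ⟨p, ⟨l, hp⟩, ?_⟩
          have h2 : ζ ((e n).map (t * ·)) = some 0 := atP_unique (hζ _) (atP_small hv h1)
          rw [hpz, h2, hθ0]
          exact rat_const X D.mf.toIsQ hcf _ _ (D.mf.cone _) (D.mf.cone _)
      choose p hp hpz using key
      refine ⟨p, hp, ?_⟩
      rw [Finset.sum_congr rfl (fun n _ => hpz n),
        ← hsum (CH X) _ (fun s => θ (ζ (s.map (t * ·)))),
        sum_far X D hNb ht0 hv hs hch ζ hζ θ, fcyc_rsum X hch, hθ0]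
      have e1 : cl (fcyc X a f) = (dk a).toNat • cl (pz X (vl a f none)) := by
        unfold fcyc
        rw [if_pos hcf, cl_smul,
          rat_const X D.mf.toIsQ hcf (some 0) none (D.mf.cone _) (D.mf.cone _)]
        have h1 : ((dk a : ℤ) : ℚ) = (((dk a).toNat : ℕ) : ℚ) := by
          have h2 : (((dk a).toNat : ℕ) : ℤ) = dk a := Int.toNat_of_nonneg (isMap_dk D.mf)
          exact_mod_cast h2.symm
        rw [h1, Nat.cast_smul_eq_nsmul]
      rw [e1]
  · intro v hv
    have hv := ord_neg_zero v ht0 ht1 hv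
    have hζ' : ∀ s, ∃ ζ, AtP v s ζ := fun s => exists_atP hK v s
    choose ζ hζ using hζ'
    have key : ∀ n, ∃ (p : Pt X k), (∃ l : ι → K, Sp v (u n) p l) ∧
        cl (pt p) = cl (pz X (vl (a + b) g (ζ (e n)))) := by
      intro n
      obtain ⟨p, l, hp, hpz⟩ := val_one X D N hv (u n) (hu n) (hζ (e n))
      exact ⟨p, ⟨l, hp⟩, by rw [hpz]⟩
    choose p hp hpz using key
    refine ⟨p, hp, ?_⟩
    rw [Finset.sum_congr rfl (fun n _ => hpz n),
      ← hsum (CH X) _ (fun s => cl (pz X (vl (a + b) g (ζ s)))), fcyc_rsum X hcg]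
    exact rsum_lim v _ _ _ hdeg hs (cv_cmp X v (fun i => glu_one D N hv i)) hcg ζ hζ
      (fun ζ => cl (pz X (vl (a + b) g ζ)))

end Pool.Agent.LibTC1
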