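import Pool.Agent.LibTC1.CDefs

/-!
[TC1 C17] (MEDIUM) A change of coordinates of the projective line exchanging `∞` and `q` (pure algebra).

`mu q (some s) = some (q + s⁻¹)` for `s ≠ 0`, `mu q (some 0) = none`, `mu q none = some q`; `mob d q Φ = ∑_(l ≤ d) Φ_l (q X + 1) ^ l X ^ (d - l)`, the form `Φ` of degree `d` at
`(q s + 1 : s)`. mob_eval: for `s ≠ 0` `= s ^ d Φ(q + s⁻¹)`. mob_mul: compare the values at all `s ≠ 0` (infinitely many) by `mob_eval`.
mob_coeff: the coefficient at `d` is `∑ Φ_l q ^ l = Φ(q)`; value at `0`: the term `l = d`.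
rsum_mob: `Φ = C c * ∏ (X - C ρ)` (`IsAlgClosed.splits`), `mob d q Φ = C c * X ^ (d - n) * ∏ ((q - ρ) X + 1)` (`n` factors; `mob_mul`, induction, or directly
by values); its roots are `0` (`d - n` times, `mu q (some 0) = none`), and `(ρ - q)⁻¹` for the roots `ρ ≠ q` (`mu q (some (ρ - q)⁻¹) = some ρ`); its degree is `d` minus
the number of roots `ρ = q` (`mu q none = some q`).
-/

open scoped Classical
open MvPolynomial

set_option linter.unusedSectionVars false

namespace Pool.Agent.LibTC1

open Pool.Agent.LibBH2 Pool.Agent.LibQC8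

variable {k : Type} [Field k] [IsAlgClosed k]

/-- the map `s ↦ q + 1/s` of the projective line -/
noncomputable def mu (q : k) : Option k → Option k
  | some s => if s = 0 then none else some (q + s⁻¹)
  | none => some q

/-- the form `Φ` of degree `d` in the new coordinate -/
noncomputable def mob (d : ℕ) (q : k) (Φ : Polynomial k) : Polynomial k :=
  ∑ l ∈ Finset.range (d + 1), Polynomial.C (Φ.coeff l) *
    (Polynomial.C q * Polynomial.X + 1) ^ l * Polynomial.X ^ (d - l)

theorem mob_eval {d : ℕ} {q : k} {Φ : Polynomial k} (h : Φ.natDegree ≤ d) {s : k}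
    (hs : s ≠ 0) : (mob d q Φ).eval s = s ^ d * Φ.eval (q + s⁻¹) := by
  rw [Polynomial.eval_eq_sum_range' (Nat.lt_succ_of_le h), mob, Polynomial.eval_finsetSum,
    Finset.mul_sum]
  refine Finset.sum_congr rfl fun l hl => ?_
  have hld : l ≤ d := Nat.lt_succ_iff.1 (Finset.mem_range.1 hl)
  simp only [Polynomial.eval_mul, Polynomial.eval_C, Polynomial.eval_pow, Polynomial.eval_add,
    Polynomial.eval_X, Polynomial.eval_one]
  have h1 : q * s + 1 = s * (q + s⁻¹) := by
    field_simp
  have h2 : s ^ d = s ^ l * s ^ (d - l) := by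
    rw [← pow_add, Nat.add_sub_cancel' hld]
  rw [h1, mul_pow, h2]
  ring

theorem mob_zero {d : ℕ} {q : k} {Φ : Polynomial k} : (mob d q Φ).eval 0 = Φ.coeff d := by
  rw [mob, Polynomial.eval_finsetSum, Finset.sum_range_succ, Finset.sum_eq_zero]
  · simp
  · intro l hl
    have hld : d - l ≠ 0 := by
      have := Finset.mem_range.1 hl
      omega
    simp [hld]

private theorem C17_coeff_pow (q : k) (l : ℕ) :
    ((Polynomial.C q * Polynomial.X + 1 : Polynomial k) ^ l).coeff l = q ^ l := by
  induction l with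
  | zero => simp
  | succ l ih =>
    have hdeg : ((Polynomial.C q * Polynomial.X + 1 : Polynomial k) ^ l).natDegree ≤ l := by
      refine (Polynomial.natDegree_pow_le).trans ?_
      have : (Polynomial.C q * Polynomial.X + 1 : Polynomial k).natDegree ≤ 1 := by
        have := Polynomial.natDegree_linear_le (a := q) (b := (1 : k))
        rwa [Polynomial.C_1] at this
      calc l * (Polynomial.C q * Polynomial.X + 1 : Polynomial k).natDegree ≤ l * 1 :=
            Nat.mul_le_mul le_rfl this
        _ = l := mul_one l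
    have h0 : ((Polynomial.C q * Polynomial.X + 1 : Polynomial k) ^ l).coeff (l + 1) = 0 :=
      Polynomial.coeff_eq_zero_of_natDegree_lt (by omega)
    rw [pow_succ, mul_add, mul_one, Polynomial.coeff_add, h0, add_zero, ← mul_assoc,
      Polynomial.coeff_mul_X, Polynomial.coeff_mul_C, ih, pow_succ]

theorem mob_coeff {d : ℕ} {q : k} {Φ : Polynomial k} (h : Φ.natDegree ≤ d) :
    (mob d q Φ).coeff d = Φ.eval q := by
  rw [Polynomial.eval_eq_sum_range' (Nat.lt_succ_of_le h), mob, Polynomial.finsetSum_coeff]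
  refine Finset.sum_congr rfl fun l hl => ?_
  have hld : l ≤ d := Nat.lt_succ_iff.1 (Finset.mem_range.1 hl)
  rw [Polynomial.coeff_mul_X_pow', if_pos (Nat.sub_le d l), Nat.sub_sub_self hld,
    Polynomial.coeff_C_mul, C17_coeff_pow]

theorem mob_deg (d : ℕ) (q : k) (Φ : Polynomial k) : (mob d q Φ).natDegree ≤ d := by
  refine Polynomial.natDegree_sum_le_of_forall_le _ _ fun l hl => ?_
  have hld : l ≤ d := Nat.lt_succ_iff.1 (Finset.mem_range.1 hl)
  have h1 : (Polynomial.C q * Polynomial.X + 1 : Polynomial k).natDegree ≤ 1 := by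
    have := Polynomial.natDegree_linear_le (a := q) (b := (1 : k))
    rwa [Polynomial.C_1] at this
  have h2 : ((Polynomial.C q * Polynomial.X + 1 : Polynomial k) ^ l).natDegree ≤ l := by
    refine (Polynomial.natDegree_pow_le).trans ?_
    calc l * (Polynomial.C q * Polynomial.X + 1 : Polynomial k).natDegree ≤ l * 1 :=
          Nat.mul_le_mul le_rfl h1
      _ = l := mul_one l
  have h3 : (Polynomial.C (Φ.coeff l) *
      (Polynomial.C q * Polynomial.X + 1 : Polynomial k) ^ l).natDegree ≤ l :=
    (Polynomial.natDegree_C_mul_le _ _).trans h2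
  calc (Polynomial.C (Φ.coeff l) * (Polynomial.C q * Polynomial.X + 1) ^ l *
        Polynomial.X ^ (d - l) : Polynomial k).natDegree
      ≤ l + (d - l) := by
        refine (Polynomial.natDegree_mul_le).trans ?_
        rw [Polynomial.natDegree_X_pow]
        omega
    _ = d := by omega

theorem mob_ne {d : ℕ} {q : k} {Φ : Polynomial k} (h : Φ.natDegree ≤ d) (h0 : Φ ≠ 0) :
    mob d q Φ ≠ 0 := by
  intro hm
  have : Infinite k := IsAlgClosed.instInfinite
  obtain ⟨x, hx⟩ := Infinite.exists_notMem_finset (insert q Φ.roots.toFinset)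
  rw [Finset.mem_insert, not_or, Multiset.mem_toFinset, Polynomial.mem_roots h0,
    Polynomial.IsRoot.def] at hx
  have hs : (x - q)⁻¹ ≠ 0 := inv_ne_zero (sub_ne_zero.2 hx.1)
  have h1 := mob_eval (q := q) h hs
  rw [hm, Polynomial.eval_zero, inv_inv, add_sub_cancel] at h1
  exact mul_ne_zero (pow_ne_zero _ hs) hx.2 h1.symm

private noncomputable def C17_lin (q ρ : k) : Polynomial k :=
  Polynomial.C (q - ρ) * Polynomial.X + Polynomial.C 1

private theorem C17_lin_ne (q ρ : k) : C17_lin q ρ ≠ 0 := by
  intro h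
  have h1 : (C17_lin q ρ).eval 0 = 0 := by
    rw [h, Polynomial.eval_zero]
  simp [C17_lin] at h1

private theorem C17_key {A : Type} [AddCommMonoid A] (q c : k) (hc : c ≠ 0) (a : ℕ) (g : k → A)
    (g' : A) (M : Multiset k) :
    (Polynomial.C c * Polynomial.X ^ a * (M.map (C17_lin q)).prod) ≠ 0 ∧
    (Polynomial.C c * Polynomial.X ^ a * (M.map (C17_lin q)).prod).natDegree +
      M.countP (fun ρ => ρ = q) = a + Multiset.card M ∧
    (((Polynomial.C c * Polynomial.X ^ a * (M.map (C17_lin q)).prod).roots.map g).sum +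
      M.countP (fun ρ => ρ = q) • g' = a • g 0 +
        (M.map fun ρ => if ρ = q then g' else g ((ρ - q)⁻¹)).sum) := by
  induction M using Multiset.induction_on with
  | empty =>
    have h1 : (Polynomial.C c * Polynomial.X ^ a : Polynomial k) ≠ 0 :=
      mul_ne_zero (Polynomial.C_ne_zero.2 hc) (pow_ne_zero _ Polynomial.X_ne_zero)
    refine ⟨?_, ?_, ?_⟩
    · simpa using h1
    · simp [Polynomial.natDegree_C_mul_X_pow a c hc]
    · rw [Multiset.map_zero, Multiset.prod_zero, mul_one, Multiset.map_zero, Multiset.sum_zero,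
        Multiset.countP_zero, zero_smul, add_zero, add_zero, Polynomial.roots_C_mul _ hc,
        Polynomial.roots_X_pow, Multiset.map_nsmul, Multiset.sum_nsmul, Multiset.map_singleton,
        Multiset.sum_singleton]
  | cons ρ M ih =>
    obtain ⟨h1, h2, h3⟩ := ih
    have e1 : (Polynomial.C c * Polynomial.X ^ a * ((ρ ::ₘ M).map (C17_lin q)).prod) =
        (Polynomial.C c * Polynomial.X ^ a * (M.map (C17_lin q)).prod) * C17_lin q ρ := by
      rw [Multiset.map_cons, Multiset.prod_cons]
      ring
    have hne := mul_ne_zero h1 (C17_lin_ne q ρ)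
    rw [e1]
    refine ⟨hne, ?_, ?_⟩
    · rw [Polynomial.natDegree_mul h1 (C17_lin_ne q ρ), Multiset.card_cons]
      by_cases hρ : ρ = q
      · have hcp : Multiset.countP (fun ρ => ρ = q) (ρ ::ₘ M) =
            Multiset.countP (fun ρ => ρ = q) M + 1 := by
          rw [Multiset.countP_cons, if_pos hρ]
        have h4 : (C17_lin q ρ).natDegree = 0 := by
          rw [C17_lin, hρ, sub_self, Polynomial.C_0, zero_mul, zero_add, Polynomial.natDegree_C]
        rw [h4, hcp]
        omega
      · have hcp : Multiset.countP (fun ρ => ρ = q) (ρ ::ₘ M) =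
            Multiset.countP (fun ρ => ρ = q) M := by
          rw [Multiset.countP_cons, if_neg hρ, add_zero]
        have h4 : (C17_lin q ρ).natDegree = 1 := by
          rw [C17_lin, Polynomial.natDegree_linear (sub_ne_zero.2 (Ne.symm hρ))]
        rw [h4, hcp]
        omega
    · rw [Polynomial.roots_mul hne, Multiset.map_add, Multiset.sum_add, Multiset.map_cons,
        Multiset.sum_cons]
      by_cases hρ : ρ = q
      · have h4 : (C17_lin q ρ).roots = 0 := by
          rw [C17_lin, hρ, sub_self, Polynomial.C_0, zero_mul, zero_add, Polynomial.roots_C]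
        rw [Multiset.countP_cons, if_pos hρ, h4, Multiset.map_zero,
          Multiset.sum_zero, add_zero, succ_nsmul, ← add_assoc, h3, if_pos hρ]
        abel
      · have h4 : (C17_lin q ρ).roots = {(ρ - q)⁻¹} := by
          rw [C17_lin, Polynomial.roots_C_mul_X_add_C _ (sub_ne_zero.2 (Ne.symm hρ)), mul_one,
            ← inv_neg, neg_sub]
        rw [Multiset.countP_cons, if_neg hρ, add_zero, h4, Multiset.map_singleton,
          Multiset.sum_singleton, add_right_comm, h3, if_neg hρ]
        abel

private theorem C17_factor {d : ℕ} (q : k) {Φ : Polynomial k} (h : Φ.natDegree ≤ d) :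
    mob d q Φ = Polynomial.C Φ.leadingCoeff * Polynomial.X ^ (d - Φ.natDegree) *
      (Φ.roots.map (C17_lin q)).prod := by
  have hinf : Infinite k := IsAlgClosed.instInfinite
  refine Polynomial.eq_of_infinite_eval_eq _ _ ?_
  refine Set.Infinite.mono (s := ({0} : Set k)ᶜ) ?_ (Set.finite_singleton 0).infinite_compl
  intro s hs
  have hs0 : s ≠ 0 := hs
  have hsp : Φ.Splits := IsAlgClosed.splits Φ
  have hcard : Multiset.card Φ.roots = Φ.natDegree := Polynomial.splits_iff_card_roots.1 hsp
  show (mob d q Φ).eval s = _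
  rw [mob_eval h hs0]
  have h1 : Φ.eval (q + s⁻¹) = Φ.leadingCoeff *
      (Φ.roots.map fun ρ => (q + s⁻¹) - ρ).prod := by
    conv_lhs => rw [hsp.eq_prod_roots]
    rw [Polynomial.eval_mul, Polynomial.eval_C, Polynomial.eval_multiset_prod, Multiset.map_map]
    congr 2
    refine Multiset.map_congr rfl fun ρ _ => ?_
    simp
  have h2 : (Φ.roots.map (C17_lin q)).prod.eval s =
      s ^ Φ.natDegree * (Φ.roots.map fun ρ => (q + s⁻¹) - ρ).prod := by
    rw [Polynomial.eval_multiset_prod, Multiset.map_map, ← hcard]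
    have h3 : (s ^ Multiset.card Φ.roots) = (Φ.roots.map fun _ => s).prod := by
      rw [Multiset.map_const', Multiset.prod_replicate]
    rw [h3, ← Multiset.prod_map_mul]
    congr 1
    refine Multiset.map_congr rfl fun ρ _ => ?_
    simp only [Function.comp_apply, C17_lin, Polynomial.eval_add, Polynomial.eval_mul,
      Polynomial.eval_C, Polynomial.eval_X]
    field_simp
    ring
  rw [h1, Polynomial.eval_mul, h2, Polynomial.eval_mul, Polynomial.eval_C, Polynomial.eval_pow,
    Polynomial.eval_X]
  have h4 : s ^ d = s ^ (d - Φ.natDegree) * s ^ Φ.natDegree := by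
    rw [← pow_add, Nat.sub_add_cancel h]
  rw [h4]
  ring

theorem rsum_mob {A : Type} [AddCommMonoid A] {d : ℕ} (q : k) {Φ : Polynomial k}
    (h : Φ.natDegree ≤ d) (h0 : Φ ≠ 0) (θ : Option k → A) :
    rsum d (mob d q Φ) (fun s => θ (mu q s)) = rsum d Φ θ := by
  have hsp : Φ.Splits := IsAlgClosed.splits Φ
  have hcard : Multiset.card Φ.roots = Φ.natDegree := Polynomial.splits_iff_card_roots.1 hsp
  obtain ⟨h1, h2, h3⟩ := C17_key q Φ.leadingCoeff (Polynomial.leadingCoeff_ne_zero.2 h0)
    (d - Φ.natDegree) (fun s => θ (mu q (some s))) (θ (some q)) Φ.roots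
  rw [← C17_factor q h] at h2 h3
  have h4 : d - (mob d q Φ).natDegree = Φ.roots.countP (fun ρ => ρ = q) := by
    rw [hcard] at h2
    omega
  have h5 : mu q none = some q := rfl
  have h6 : mu q (some 0) = none := by
    simp [mu]
  rw [rsum, rsum, h4, h5, h3, h6, add_comm]
  congr 1
  congr 1
  refine Multiset.map_congr rfl fun ρ _ => ?_
  by_cases hρ : ρ = q
  · rw [if_pos hρ, hρ]
  · rw [if_neg hρ]
    have h7 : (ρ - q)⁻¹ ≠ 0 := inv_ne_zero (sub_ne_zero.2 hρ)
    simp [mu, h7]

end Pool.Agent.LibTC1
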