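import Pool.Agent.LibTC1.SDefs

/-!
# Zeros of forms on the projective line, values at places, glueing
-/

open scoped Classical
open MvPolynomial

set_option linter.unusedSectionVars false

namespace Pool.Agent.LibTC1

open Pool.Agent.LibBH2 Pool.Agent.LibQC8

variable {ι : Type} [Fintype ι] {r : ℕ} {k : Type} [Field k] {P : Tor ι r}
  {K : Type} [Field K] [Algebra k K]

/-- the sum of `θ` over the zeros of `Φ`, considered as a form of degree `d` on the projective line -/
noncomputable def rsum {R A : Type} [Field R] [AddCommMonoid A] (d : ℕ) (Φ : Polynomial R)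
    (θ : Option R → A) : A :=
  (Φ.roots.map fun s => θ (some s)).sum + (d - Φ.natDegree) • θ none

/-- the value at `v` of the point `s` of the projective line over `K` is `ζ` -/
def AtP (v : Place k K) : Option K → Option k → Prop
  | some s, some c => v.Zer (s - algebraMap k K c)
  | some s, none => s ≠ 0 ∧ v.Zer s⁻¹
  | none, some _ => False
  | none, none => True

/-- the coefficients of `Φ` have at `v` the values given by `φ` -/
def CV (v : Place k K) (Φ : Polynomial K) (φ : Polynomial k) : Prop :=
  ∀ j, v.Zer (Φ.coeff j - algebraMap k K (φ.coeff j))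

/-- the family of quasi-maps glueing `f` (of class `a`) and `h` (of class `b`) -/
noncomputable def glu (a b : ι → ℤ) (f h g : ι → Polynomial k) (N : ℕ) (t : K) (i : ι) :
    Polynomial K :=
  ∑ j ∈ Finset.range ((a i + b i).toNat + 1), Polynomial.monomial j
    ((1 - t) * (if (j : ℤ) ≤ a i then algebraMap k K ((f i).coeff j) else
      t ^ ((j : ℤ) - a i).toNat * algebraMap k K ((h i).coeff ((j : ℤ) - a i).toNat)) +
      t ^ N * algebraMap k K ((g i).coeff j))

/-- the data which are glued: `f` of class `a`, `h` of class `b ≥ 0` with `h(0) = f(∞)`; `g` of class `a + b` is arbitrary -/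
structure GD (P : Tor ι r) (a b : ι → ℤ) (f h g : ι → Polynomial k) : Prop where
  mf : IsMap P a f
  mh : IsMap P b h
  mg : IsMap P (a + b) g
  b0 : ∀ i, 0 ≤ b i
  h0 : ∀ i, (h i).coeff 0 = vl a f none i
  dvd : ∀ i, a i < 0 → Polynomial.X ^ (-a i).toNat ∣ h i

/-- the second chart: `s = t⁻¹ σ`, scaled by `t ^ a` -/
noncomputable def glt (a : ι → ℤ) (t : K) (G : ι → Polynomial K) (i : ι) : Polynomial K :=
  Polynomial.C (t ^ a i) * (G i).comp (Polynomial.C t⁻¹ * Polynomial.X)

/-- `X ^ n * p` (for `n < 0`: the quotient of `p` by `X ^ (-n)`) -/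
noncomputable def sh (n : ℤ) (p : Polynomial k) : Polynomial k :=
  if 0 ≤ n then Polynomial.X ^ n.toNat * p else p /ₘ Polynomial.X ^ (-n).toNat

end Pool.Agent.LibTC1
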