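import Pool.Agent.LibEnd77.ValC

/-!
# Hypersurfaces in smooth projective toric varieties

Definitions: smooth projective toric varieties `Tor` (fan, ample class, `-K` nef), the anticanonical hypersurfaces `Hyp`, their
points, the Chow group of zero-cycles with rational coefficients, the zero-cycle cut out by `X` on a rational curve of `P`
(`fcyc`), constant cycle curves.
-/

open scoped Classical
open MvPolynomial

namespace Pool.Agent.LibTC1

open Pool.Agent.LibBH2 Pool.Agent.LibQC8

/-- the set of indices at which `z` vanishes -/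
noncomputable def zs {ι R : Type} [Fintype ι] [Zero R] (z : ι → R) : Finset ι :=
  Finset.univ.filter fun i => z i = 0

/-- the support of `m` -/
noncomputable def sp {ι : Type} [Fintype ι] (m : ι → ℕ) : Finset ι :=
  Finset.univ.filter fun i => m i ≠ 0

/-- A smooth projective toric variety `P` with nef anticanonical class: the rays `v i` of the fan in `ℤ^r`, the set `C` of
the cones (sets of rays), and an ample class `∑ H i D_i`. `compl` and `uniq`: every lattice point is in a unique way a
nonnegative integral combination of the rays of a cone (the fan is complete and smooth). `ample`, `nef`: strict convexity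
of the support function of `H`, convexity of the one of `-K = ∑ D_i`. -/
structure Tor (ι : Type) [Fintype ι] (r : ℕ) where
  v : ι → Fin r → ℤ
  C : Set (Finset ι)
  H : ι → ℤ
  down : ∀ σ ∈ C, ∀ τ ⊆ σ, τ ∈ C
  single : ∀ i, {i} ∈ C
  compl : ∀ w : Fin r → ℤ, ∃ m : ι → ℕ, sp m ∈ C ∧ ∀ j, ∑ i, (m i : ℤ) * v i j = w j
  uniq : ∀ m m' : ι → ℕ, sp m ∈ C → sp m' ∈ C →
    (∀ j, ∑ i, (m i : ℤ) * v i j = ∑ i, (m' i : ℤ) * v i j) → m = m'
  ample : ∀ m m' : ι → ℕ, sp m ∉ C → sp m' ∈ C →
    (∀ j, ∑ i, (m i : ℤ) * v i j = ∑ i, (m' i : ℤ) * v i j) →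
    ∑ i, H i * (m' i : ℤ) < ∑ i, H i * (m i : ℤ)
  nef : ∀ m m' : ι → ℕ, sp m' ∈ C →
    (∀ j, ∑ i, (m i : ℤ) * v i j = ∑ i, (m' i : ℤ) * v i j) →
    ∑ i, (m' i : ℤ) ≤ ∑ i, (m i : ℤ)

variable {ι : Type} [Fintype ι] {r : ℕ}

/-- the relations between the rays: the classes of curves on `P` (`a i = D_i · a`) -/
def Rel (P : Tor ι r) : AddSubgroup (ι → ℤ) where
  carrier := {a | ∀ j, ∑ i, a i * P.v i j = 0}
  zero_mem' := fun j => by simp
  add_mem' := fun {a b} ha hb j => by
    simp only [Pi.add_apply, add_mul, Finset.sum_add_distrib]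
    rw [ha j, hb j, add_zero]
  neg_mem' := fun {a} ha j => by
    simp only [Pi.neg_apply, neg_mul, Finset.sum_neg_distrib]
    rw [ha j, neg_zero]

/-- the elements of the torus `G(K) = Hom(Cl(P), K^*)` -/
def IsT {K : Type} [Field K] (P : Tor ι r) (l : ι → K) : Prop :=
  (∀ i, l i ≠ 0) ∧ ∀ m : Fin r → ℤ, ∏ i, l i ^ (∑ j, m j * P.v i j) = 1

/-- A hypersurface `X = {F = 0}`, `F ≠ 0` a section of `-K`: every monomial of `F` has exponents
`⟨m, v_i⟩ + 1` for some `m` in the dual lattice. -/
structure Hyp (k : Type) [Field k] (P : Tor ι r) where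
  F : MvPolynomial ι k
  ne : F ≠ 0
  mon : ∀ e ∈ F.support, ∃ m : Fin r → ℤ, ∀ i, (e i : ℤ) = (∑ j, m j * P.v i j) + 1

variable {k : Type} [Field k] {P : Tor ι r}

/-- A point of `X` with (Cox) coordinates in `K`. -/
structure Pt (X : Hyp k P) (K : Type) [Field K] [Algebra k K] where
  z : ι → K
  cone : zs z ∈ P.C
  hF : aeval z X.F = 0

/-- Two sets of coordinates of the same point. -/
def Eqv (X : Hyp k P) (p q : Pt X k) : Prop := ∃ l : ι → k, IsT P l ∧ ∀ i, q.z i = l i * p.z i

/-- The set of points of `X` over `k`. -/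
abbrev XPt (X : Hyp k P) : Type := Quot (Eqv X)

/-- zero-cycles with rational coefficients -/
abbrev Cyc (X : Hyp k P) : Type := XPt X →₀ ℚ

/-- The zero-cycle of a point. -/
noncomputable def pt {X : Hyp k P} (p : Pt X k) : Cyc X := Finsupp.single (Quot.mk _ p) 1

/-- The degree of a zero-cycle. -/
noncomputable def dg {X : Hyp k P} (a : Cyc X) : ℚ := a.sum fun _ q => q

/-- The value of the `K`-point `u` at the place `v` of `K` is `p`: the coordinates of `u`,
multiplied by the element `l` of the torus, are regular at `v` and have the values `p`. -/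
structure Sp {X : Hyp k P} {K : Type} [Field K] [Algebra k K] (v : Place k K) (u : Pt X K)
    (p : Pt X k) (l : ι → K) : Prop where
  tor : IsT P l
  val : ∀ i, v.Zer (l i * u.z i - algebraMap k K (p.z i))

/-- `a` is the push-forward of the divisor of a function `f` on a curve: `K` is a function field of
one variable over `k`, `u` is a `K`-point of `X` (a map from the curve of `K` to `X`), and `a` is
the sum over the places `v` of `K` of `ord_v f` times the value of `u` at `v`. -/
def IsDiv (X : Hyp k P) (a : Cyc X) : Prop :=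
  ∃ (K : Type) (_ : Field K) (_ : Algebra k K) (u : Pt X K) (f : K) (A : Finset (Place k K))
    (p : Place k K → Pt X k),
    IsFunctionField k K ∧ f ≠ 0 ∧ (∀ v, v.ord f ≠ 0 → v ∈ A) ∧
    (∀ v ∈ A, ∃ l, Sp v u (p v) l) ∧ a = ∑ v ∈ A, (v.ord f : ℚ) • pt (p v)

/-- The zero-cycles rationally equivalent to zero (with rational coefficients). -/
noncomputable def Rat (X : Hyp k P) : Submodule ℚ (Cyc X) := Submodule.span ℚ {a | IsDiv X a}

/-- The Chow group of zero-cycles of `X` with rational coefficients. -/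
abbrev CH (X : Hyp k P) : Type := Cyc X ⧸ Rat X

/-- The class of a zero-cycle. -/
noncomputable def cl {X : Hyp k P} (a : Cyc X) : CH X := Submodule.Quotient.mk a

/-- the cycle of the point with coordinates `z` (zero if `z` is not a point of `X`) -/
noncomputable def pz (X : Hyp k P) (z : ι → k) : Cyc X :=
  if h : zs z ∈ P.C ∧ aeval z X.F = 0 then pt ⟨z, h.1, h.2⟩ else 0

/-- The value at `ζ` (`some s` or infinity) of the vector of polynomials `f`, `f i` of degree `≤ a i` (zero if `a i < 0`). -/
noncomputable def vl {R : Type} [CommRing R] (a : ι → ℤ) (f : ι → Polynomial R) : Option R → ι → R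
  | some s => fun i => (f i).eval s
  | none => fun i => if a i < 0 then 0 else (f i).coeff (a i).toNat

/-- `f` is a quasi-map of class `a` -/
structure IsQ {R : Type} [CommRing R] (P : Tor ι r) (a : ι → ℤ) (f : ι → Polynomial R) : Prop where
  rel : a ∈ Rel P
  neg : ∀ i, a i < 0 → f i = 0
  deg : ∀ i, (f i).natDegree ≤ (a i).toNat

/-- `f` is a map from the projective line to `P`, of class `a`: a rational curve in `P` -/
structure IsMap (P : Tor ι r) (a : ι → ℤ) (f : ι → Polynomial k) : Prop extends IsQ P a f where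
  cone : ∀ ζ, zs (vl a f ζ) ∈ P.C

/-- the polynomial `F ∘ f` -/
noncomputable def cmp (X : Hyp k P) {R : Type} [CommRing R] [Algebra k R]
    (f : ι → Polynomial R) : Polynomial R :=
  aeval f X.F

/-- the degree of a class with respect to `-K` -/
def dk (a : ι → ℤ) : ℤ := ∑ i, a i

/-- The zero-cycle `f^* X`: the sum of the points `f(ζ)` over the zeros `ζ` (with multiplicity) of
`F ∘ f`, as a form of degree `dk a`; if `F ∘ f = 0` (the curve is contained in `X`), `dk a` times the point `f(0)`. -/
noncomputable def fcyc (X : Hyp k P) (a : ι → ℤ) (f : ι → Polynomial k) : Cyc X :=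
  if cmp X f = 0 then ((dk a : ℤ) : ℚ) • pz X (vl a f (some 0)) else
    ((cmp X f).roots.map fun s => pz X (vl a f (some s))).sum +
      ((dk a).toNat - (cmp X f).natDegree) • pz X (vl a f none)

/-- All points of the curve `u` have the class `o`. -/
def IsConst {X : Hyp k P} {K : Type} [Field K] [Algebra k K] (u : Pt X K) (o : CH X) : Prop :=
  ∀ v p l, Sp v u p l → cl (pt p) = o

/-- `D i` is the degree of the line bundle `O(D_i)` on the curve `u`. -/
def HasDeg {X : Hyp k P} {K : Type} [Field K] [Algebra k K] (u : Pt X K) (D : ι → ℤ) : Prop :=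
  ∃ (A : Finset (Place k K)) (p : Place k K → Pt X k) (l : Place k K → ι → K),
    (∀ v, Sp v u (p v) (l v)) ∧ (∀ v, v ∉ A → ∀ i, v.ord (l v i) = 0) ∧
    ∀ i, D i = ∑ v ∈ A, v.ord (l v i)

/-- For every class `a ≥ 0`, `a ≠ 0`, there is a curve with all points of class `o`, on which
`∑ i (h (d - 1) - h (a i)) D_i`, `d = ∑ a i`, `h m = 1 + 1/2 + ... + 1/m`, does not have degree zero. -/
def HW (X : Hyp k P) (o : CH X) : Prop :=
  ∀ a ∈ Rel P, (∀ i, 0 ≤ a i) → a ≠ 0 →
    ∃ (K : Type) (_ : Field K) (_ : Algebra k K) (u : Pt X K) (D : ι → ℤ),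
      IsFunctionField k K ∧ IsConst u o ∧ HasDeg u D ∧
      ∑ i, (harmonic (dk a - 1).toNat - harmonic (a i).toNat) * (D i : ℚ) ≠ 0

end Pool.Agent.LibTC1
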