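import Pool.Agent.LibPK60.Defs

/-!
Weighted Koszul complexes: the variable `y_i` has the weight `w i + 1`, the derivation `D` is given by `D y_i = θ_i`
(of weight `w i`), `D g_j = a_j g_(j-1)`. The complex, the cone of `D` and its matrix in a fixed weight.
(Weighted version of `LibPK60/Defs.lean`, where all weights are `1` and `θ_i = x_i`.)
-/

open scoped Classical
open MvPolynomial

set_option linter.unusedSectionVars false

namespace Pool.Agent.LibTC1.KW

open Pool.Agent.LibPK60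

variable {κ : Type} [Field κ] {n M : ℕ}

/-- the derivation with `D y_i = θ_i` -/
noncomputable def dv (θ : Fin n → MvPolynomial (Fin n) κ) (f : MvPolynomial (Fin n) κ) :
    MvPolynomial (Fin n) κ :=
  ∑ i, θ i * pderiv i f

/-- The derivation `D` of chains: `dv θ` on the coefficients, and `e_j ↦ a_j e_(j-1)`. -/
noncomputable def DW (θ : Fin n → MvPolynomial (Fin n) κ) (a : Fin M → ℕ) (f : Ch κ n M) :
    Ch κ n M :=
  fun J => dv θ (f J) + ∑ i : Fin M, ∑ j : Fin M,
    if i.val + 1 = j.val ∧ i ∈ J ∧ j ∉ J then (a j : MvPolynomial (Fin n) κ) *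
      f (insert j (J.erase i)) else 0

/-- the weight of a monomial -/
def wm (w : Fin n → ℕ) (α : Fin n →₀ ℕ) : ℕ := ∑ i, (w i + 1) * α i

/-- the chain is homogeneous of degree `d`, where `e_j` has degree `δ_j` -/
def GrW (w : Fin n → ℕ) (δ : Fin M → ℕ) (d : ℕ) (f : Ch κ n M) : Prop :=
  ∀ J α, coeff α (f J) ≠ 0 → wm w α + ∑ j ∈ J, δ j = d

/-- The polynomials `θ_i` have the weights `w i` (one less than `y_i`). -/
def ThW (w : Fin n → ℕ) (θ : Fin n → MvPolynomial (Fin n) κ) : Prop :=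
  ∀ i α, coeff α (θ i) ≠ 0 → wm w α = w i

/-- The data: polynomials `g_j` of weight `δ_j` with `D g_j = a_j g_(j-1)`. -/
structure SysW (g : Fin M → MvPolynomial (Fin n) κ) (w : Fin n → ℕ) (δ : Fin M → ℕ)
    (θ : Fin n → MvPolynomial (Fin n) κ) (a : Fin M → ℕ) : Prop where
  pos : ∀ j, 0 < δ j
  hom : ∀ j α, coeff α (g j) ≠ 0 → wm w α = δ j
  th : ThW w θ
  dx0 : ∀ j : Fin M, j.val = 0 → dv θ (g j) = 0
  dx1 : ∀ i j : Fin M, i.val + 1 = j.val → dv θ (g j) = (a j : MvPolynomial (Fin n) κ) * g i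
  deg : ∀ i j : Fin M, i.val + 1 = j.val → a j ≠ 0 → δ j = δ i + 1

/-- the differential of the cone of `D` -/
noncomputable def cdW (g : Fin M → MvPolynomial (Fin n) κ) (θ : Fin n → MvPolynomial (Fin n) κ)
    (a : Fin M → ℕ) (F : Bool → Ch κ n M) : Bool → Ch κ n M :=
  fun b => if b = true then DW θ a (F false) - kd g (F true) else kd g (F false)

/-- degree of the elements of the cone -/
def CGrW (w : Fin n → ℕ) (δ : Fin M → ℕ) (d : ℕ) (F : Bool → Ch κ n M) : Prop :=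
  ∀ b J α, coeff α (F b J) ≠ 0 → wm w α + ∑ j ∈ J, δ j + (if b = true then 1 else 0) = d

/-- the monomial basis of the cone in degree `d` -/
def IxW {n : ℕ} (w : Fin n → ℕ) {M : ℕ} (δ : Fin M → ℕ) (d : ℕ) : Type :=
  {t : Bool × Finset (Fin M) × (Fin n →₀ ℕ) //
    wm w t.2.2 + ∑ j ∈ t.2.1, δ j + (if t.1 = true then 1 else 0) = d}

theorem le_wm (w : Fin n → ℕ) (α : Fin n →₀ ℕ) (i : Fin n) : α i ≤ wm w α := by
  have h1 : (w i + 1) * α i ≤ wm w α :=
    Finset.single_le_sum (f := fun i => (w i + 1) * α i) (fun _ _ => Nat.zero_le _)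
      (Finset.mem_univ i)
  exact le_trans (Nat.le_mul_of_pos_left _ (Nat.succ_pos _)) h1

instance ixW_finite {n M : ℕ} (w : Fin n → ℕ) (δ : Fin M → ℕ) (d : ℕ) : Finite (IxW w δ d) := by
  have hb : ∀ (t : IxW w δ d) (i : Fin n), t.1.2.2 i < d + 1 := by
    intro t i
    have h1 := t.2
    have h2 := le_wm w t.1.2.2 i
    omega
  refine Finite.of_injective (β := Bool × Finset (Fin M) × (Fin n → Fin (d + 1)))
    (fun t => (t.1.1, t.1.2.1, fun i => ⟨t.1.2.2 i, hb t i⟩)) ?_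
  intro t t' h
  simp only [Prod.mk.injEq] at h
  obtain ⟨h1, h2, h3⟩ := h
  refine Subtype.ext (Prod.ext h1 (Prod.ext h2 (Finsupp.ext fun i => ?_)))
  have := congrFun h3 i
  simpa using congrArg Fin.val this

noncomputable instance ixW_fintype {n M : ℕ} (w : Fin n → ℕ) (δ : Fin M → ℕ) (d : ℕ) :
    Fintype (IxW w δ d) :=
  Fintype.ofFinite _

/-- the parity of a basis element -/
def parW {n M : ℕ} {w : Fin n → ℕ} {δ : Fin M → ℕ} {d : ℕ} (t : IxW w δ d) : Bool :=
  decide ((t.1.2.1.card + (if t.1.1 = true then 1 else 0)) % 2 = 1)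

/-- the basis elements -/
noncomputable def basW (κ : Type) [Field κ] {n M : ℕ} {w : Fin n → ℕ} {δ : Fin M → ℕ} {d : ℕ}
    (t : IxW w δ d) : Bool → Ch κ n M :=
  fun b J => if b = t.1.1 ∧ J = t.1.2.1 then monomial t.1.2.2 1 else 0

/-- the matrix of the differential of the cone in degree `d` -/
noncomputable def CMW (w : Fin n → ℕ) (δ : Fin M → ℕ) (d : ℕ)
    (g : Fin M → MvPolynomial (Fin n) κ) (θ : Fin n → MvPolynomial (Fin n) κ) (a : Fin M → ℕ) :
    Matrix (IxW w δ d) (IxW w δ d) κ :=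
  fun s t => coeff s.1.2.2 (cdW g θ a (basW κ t) s.1.1 s.1.2.1)

/-- the scalars for the monomial basis -/
noncomputable def pwW {K : Type} [Field K] {n M : ℕ} {w : Fin n → ℕ} {δ : Fin M → ℕ} {d : ℕ}
    (μ : Fin n → K) (ρ : Fin M → K) (t : IxW w δ d) : K :=
  ((∏ i, μ i ^ t.1.2.2 i) * ∏ j ∈ t.1.2.1, ρ j)⁻¹

end Pool.Agent.LibTC1.KW
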