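import Pool.Agent.LibTC1.K0
import Pool.Agent.LibPK60.K1

/-!
The derivation commutes with the Koszul differential (weighted version of LibPK60/D1).
-/

open scoped Classical
open MvPolynomial

set_option linter.unusedSectionVars false

namespace Pool.Agent.LibTC1.KW

open Pool.Agent.LibPK60

variable {κ : Type} [Field κ] {n M : ℕ}

private theorem sg_insert (j k : Fin M) (J : Finset (Fin M)) (hk : k ∉ J) :
    sg j (insert k J) = if k < j then - sg j J else sg j J := by
  unfold sg
  rw [Finset.filter_insert]
  split_ifs with h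
  · rw [Finset.card_insert_of_notMem (fun hm => hk (Finset.mem_filter.1 hm).1), pow_succ, mul_neg_one]
  · rfl

private theorem sg_erase (j k : Fin M) (J : Finset (Fin M)) (hk : k ∈ J) :
    sg j (J.erase k) = if k < j then - sg j J else sg j J := by
  have h := sg_insert j k (J.erase k) (Finset.notMem_erase k J)
  rw [Finset.insert_erase hk] at h
  rw [h]
  split_ifs with h1
  · rw [neg_neg]
  · rfl

private theorem sg_sq (j : Fin M) (J : Finset (Fin M)) : sg j J * sg j J = 1 := by
  unfold sg
  rw [← mul_pow, neg_one_mul, neg_neg, one_pow]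

section gen
variable {Q : Type} [AddCommGroup Q]

/-- contraction -/
private noncomputable def io (j : Fin M) (f : Finset (Fin M) → Q) : Finset (Fin M) → Q :=
  fun J => if j ∈ J then 0 else sg j J • f (insert j J)

private theorem io_anti (j k : Fin M) (f : Finset (Fin M) → Q) (J : Finset (Fin M)) :
    io k (io j f) J = - io j (io k f) J := by
  simp only [io]
  by_cases hk : k ∈ J
  · have h1 : k ∈ insert j J := Finset.mem_insert_of_mem hk
    by_cases hj : j ∈ J
    · rw [if_pos hk, if_pos hj, neg_zero]
    · rw [if_pos hk, if_neg hj, if_pos h1, smul_zero, neg_zero]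
  · by_cases hj : j ∈ J
    · have h1 : j ∈ insert k J := Finset.mem_insert_of_mem hj
      rw [if_neg hk, if_pos hj, if_pos h1, smul_zero, neg_zero]
    · rw [if_neg hk, if_neg hj]
      by_cases hjk : j = k
      · subst hjk
        rw [if_pos (Finset.mem_insert_self j J), smul_zero, neg_zero]
      · have h1 : j ∉ insert k J := by
          rw [Finset.mem_insert, not_or]
          exact ⟨hjk, hj⟩
        have h2 : k ∉ insert j J := by
          rw [Finset.mem_insert, not_or]
          exact ⟨fun h => hjk h.symm, hk⟩
        rw [if_neg h1, if_neg h2, Finset.insert_comm j k J, smul_smul, smul_smul, ← neg_smul]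
        congr 1
        rw [sg_insert j k J hk, sg_insert k j J hj]
        rcases lt_trichotomy j k with h | h | h
        · rw [if_pos h, if_neg (not_lt.2 h.le)]
          ring
        · exact absurd h hjk
        · rw [if_pos h, if_neg (not_lt.2 h.le)]
          ring

private theorem io_kh (i k : Fin M) (f : Finset (Fin M) → Q) (J : Finset (Fin M)) :
    io k (kh i f) J = - kh i (io k f) J + if k = i then f J else 0 := by
  by_cases hki : k = i
  · subst hki
    rw [if_pos rfl]
    simp only [io, kh]
    by_cases hk : k ∈ J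
    · rw [if_pos hk, if_pos hk, if_neg (Finset.notMem_erase k J), Finset.insert_erase hk, smul_smul, sg_sq,
        one_smul, neg_add_cancel]
    · rw [if_neg hk, if_neg hk, if_pos (Finset.mem_insert_self k J), Finset.erase_insert hk, smul_smul, sg_sq,
        one_smul, neg_zero, zero_add]
  · rw [if_neg hki, add_zero]
    simp only [io, kh]
    by_cases hk : k ∈ J
    · have h1 : k ∈ J.erase i := Finset.mem_erase.2 ⟨hki, hk⟩
      rw [if_pos hk, if_pos h1, smul_zero]
      split_ifs <;> rw [neg_zero]
    · have h1 : k ∉ J.erase i := fun h => hk (Finset.mem_of_mem_erase h)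
      rw [if_neg hk, if_neg h1]
      by_cases hi : i ∈ J
      · rw [if_pos hi, if_pos (Finset.mem_insert_of_mem hi), Finset.erase_insert_of_ne hki, smul_smul, smul_smul,
          ← neg_smul]
        congr 1
        rw [sg_insert i k (J.erase i) h1, sg_erase k i J hi]
        rcases lt_trichotomy i k with h | h | h
        · rw [if_pos h, if_neg (not_lt.2 h.le)]
          ring
        · exact absurd h.symm hki
        · rw [if_pos h, if_neg (not_lt.2 h.le)]
          ring
      · have h2 : i ∉ insert k J := by
          rw [Finset.mem_insert, not_or]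
          exact ⟨fun h => hki h.symm, hi⟩
        rw [if_neg hi, if_neg h2, smul_zero, neg_zero]

end gen

/-- the derivative as an additive map -/
private noncomputable def dvH (x : Fin n → MvPolynomial (Fin n) κ) : MvPolynomial (Fin n) κ →+ MvPolynomial (Fin n) κ where
  toFun := dv x
  map_zero' := by simp [dv]
  map_add' f g := by simp [dv, mul_add, Finset.sum_add_distrib]

private theorem dv_sum (x : Fin n → MvPolynomial (Fin n) κ) (h : Fin M → MvPolynomial (Fin n) κ) :
    dv x (∑ k, h k) = ∑ k, dv x (h k) := map_sum (dvH x) h _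

private theorem dv_zsmul (x : Fin n → MvPolynomial (Fin n) κ) (c : ℤ) (h : MvPolynomial (Fin n) κ) :
    dv x (c • h) = c • dv x h := map_zsmul (dvH x) c h

private theorem dv_mul (x : Fin n → MvPolynomial (Fin n) κ) (f g : MvPolynomial (Fin n) κ) :
    dv x (f * g) = dv x f * g + f * dv x g := by
  simp only [dv]
  rw [Finset.sum_mul, Finset.mul_sum, ← Finset.sum_add_distrib]
  refine Finset.sum_congr rfl fun i _ => ?_
  rw [Derivation.leibniz, smul_eq_mul, smul_eq_mul]
  ring

private theorem io_dx (x : Fin n → MvPolynomial (Fin n) κ) (k : Fin M) (f : Ch κ n M) (J : Finset (Fin M)) :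
    io k (fun J => dv x (f J)) J = dv x (io k f J) := by
  simp only [io]
  split_ifs with h
  · exact (map_zero (dvH x)).symm
  · rw [dv_zsmul]

/-- linear operators on chains -/
private theorem io_lin (k : Fin M) (c : Fin M → MvPolynomial (Fin n) κ) (h : Fin M → Ch κ n M)
    (J : Finset (Fin M)) : io k (fun J => ∑ i, c i * h i J) J = ∑ i, c i * io k (h i) J := by
  simp only [io]
  split_ifs with hk
  · simp
  · rw [Finset.smul_sum]
    refine Finset.sum_congr rfl fun i _ => ?_
    rw [mul_smul_comm]

private theorem kh_lin (k : Fin M) (c : Fin M → MvPolynomial (Fin n) κ) (h : Fin M → Ch κ n M)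
    (J : Finset (Fin M)) : kh k (fun J => ∑ i, c i * h i J) J = ∑ i, c i * kh k (h i) J := by
  simp only [kh]
  split_ifs with hk
  · rw [Finset.smul_sum]
    refine Finset.sum_congr rfl fun i _ => ?_
    rw [mul_smul_comm]
  · simp

private theorem io_add (k : Fin M) (f g : Ch κ n M) (J : Finset (Fin M)) :
    io k (fun J => f J + g J) J = io k f J + io k g J := by
  simp only [io]
  split_ifs with hk
  · simp
  · rw [smul_add]

private theorem io_sum2 (k : Fin M) (c : Fin M → Fin M → MvPolynomial (Fin n) κ) (h : Fin M → Fin M → Ch κ n M)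
    (J : Finset (Fin M)) : io k (fun J => ∑ i, ∑ j, c i j * h i j J) J = ∑ i, ∑ j, c i j * io k (h i j) J := by
  simp only [io]
  split_ifs with hk
  · simp
  · rw [Finset.smul_sum]
    refine Finset.sum_congr rfl fun i _ => ?_
    rw [Finset.smul_sum]
    refine Finset.sum_congr rfl fun j _ => ?_
    rw [mul_smul_comm]

private theorem kd_io (g : Fin M → MvPolynomial (Fin n) κ) (f : Ch κ n M) (J : Finset (Fin M)) :
    kd g f J = ∑ k, g k * io k f J := by
  simp only [kd, io]
  rw [← Finset.sum_subset (Finset.subset_univ Jᶜ)]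
  · refine Finset.sum_congr rfl fun j hj => ?_
    rw [if_neg (Finset.mem_compl.1 hj), smul_eq_mul, mul_smul_comm]
  · intro j _ hj
    rw [Finset.mem_compl, not_not] at hj
    rw [if_pos hj, mul_zero]

/-- the coefficients of the exterior part -/
private noncomputable def WW (κ : Type) [Field κ] (n : ℕ) {M : ℕ} (a : Fin M → ℕ) (i j : Fin M) :
    MvPolynomial (Fin n) κ := if i.val + 1 = j.val then (a j : MvPolynomial (Fin n) κ) else 0

private theorem DW_io (x : Fin n → MvPolynomial (Fin n) κ) (a : Fin M → ℕ) (f : Ch κ n M) (J : Finset (Fin M)) :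
    DW x a f J = dv x (f J) + ∑ i, ∑ j, WW κ n a i j * kh i (io j f) J := by
  simp only [DW, kh, io, WW]
  congr 1
  refine Finset.sum_congr rfl fun i _ => Finset.sum_congr rfl fun j _ => ?_
  by_cases hij : i.val + 1 = j.val
  · rw [if_pos hij]
    by_cases hi : i ∈ J
    · rw [if_pos hi]
      have hne : j ≠ i := by
        intro h
        rw [h] at hij
        omega
      by_cases hj : j ∈ J
      · have h1 : j ∈ J.erase i := Finset.mem_erase.2 ⟨hne, hj⟩
        rw [if_pos h1, smul_zero, mul_zero, if_neg (fun h => h.2.2 hj)]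
      · have h1 : j ∉ J.erase i := fun h => hj (Finset.mem_of_mem_erase h)
        rw [if_neg h1, if_pos ⟨hij, hi, hj⟩, smul_smul]
        have h2 : sg i (J.erase i) * sg j (J.erase i) = 1 := by
          have h3 : sg j (J.erase i) = sg i (J.erase i) := by
            unfold sg
            congr 2
            refine Finset.filter_congr fun k hk => ?_
            have h4 : k ≠ i := (Finset.mem_erase.1 hk).1
            have h5 : k.val ≠ i.val := fun h => h4 (Fin.ext h)
            rw [Fin.lt_def, Fin.lt_def]
            omega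
          rw [h3, sg_sq]
        rw [h2, one_smul]
    · rw [if_neg hi, mul_zero, if_neg (fun h => hi h.2.1)]
  · rw [if_neg hij, zero_mul, if_neg (fun h => hij h.1)]

private theorem dv_g (g : Fin M → MvPolynomial (Fin n) κ) (w : Fin n → ℕ) (δ : Fin M → ℕ) (x : Fin n → MvPolynomial (Fin n) κ)
    (a : Fin M → ℕ) (hs : SysW g w δ x a) (j : Fin M) : dv x (g j) = ∑ i, g i * WW κ n a i j := by
  simp only [WW]
  by_cases hj : j.val = 0
  · rw [hs.dx0 j hj]
    refine (Finset.sum_eq_zero fun i _ => ?_).symm
    rw [if_neg (by omega), mul_zero]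
  · have hlt : j.val - 1 < M := by
      have := j.isLt
      omega
    have hi : (⟨j.val - 1, hlt⟩ : Fin M).val + 1 = j.val := by
      show j.val - 1 + 1 = j.val
      omega
    rw [hs.dx1 ⟨j.val - 1, hlt⟩ j hi, Finset.sum_eq_single (⟨j.val - 1, hlt⟩ : Fin M)]
    · rw [if_pos hi, mul_comm]
    · intro b _ hb
      rw [if_neg, mul_zero]
      intro h
      apply hb
      apply Fin.ext
      show b.val = j.val - 1
      omega
    · intro h
      exact absurd (Finset.mem_univ _) h

private theorem kh_congr (i : Fin M) (f g : Ch κ n M) (h : ∀ J, f J = g J) (J : Finset (Fin M)) :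
    kh i f J = kh i g J := by
  rw [funext h]

private theorem io_DD (x : Fin n → MvPolynomial (Fin n) κ) (a : Fin M → ℕ) (f : Ch κ n M) (k : Fin M) (J : Finset (Fin M)) :
    io k (DW x a f) J = dv x (io k f J) +
      ∑ i, ∑ j, WW κ n a i j * (kh i (io j (io k f)) J + if k = i then io j f J else 0) := by
  have h1 : DW x a f = fun J => dv x (f J) + ∑ i, ∑ j, WW κ n a i j * kh i (io j f) J :=
    funext fun J => DW_io x a f J
  rw [h1, io_add k (fun J => dv x (f J)) (fun J => ∑ i, ∑ j, WW κ n a i j * kh i (io j f) J), io_dx,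
    io_sum2 k (fun i j => WW κ n a i j) (fun i j => kh i (io j f))]
  congr 1
  refine Finset.sum_congr rfl fun i _ => Finset.sum_congr rfl fun j _ => ?_
  rw [io_kh]
  congr 2
  have h2 : io k (io j f) = fun J => (-1 : ℤ) • io j (io k f) J := by
    funext J
    rw [io_anti, neg_one_smul]
  have h3 : kh i (fun J => (-1 : ℤ) • io j (io k f) J) J = - kh i (io j (io k f)) J := by
    simp only [kh]
    split_ifs with hi
    · rw [neg_one_smul, smul_neg]
    · rw [neg_zero]
  rw [h2, h3, neg_neg]

private theorem DW_kd' (g : Fin M → MvPolynomial (Fin n) κ) (x : Fin n → MvPolynomial (Fin n) κ) (a : Fin M → ℕ) (f : Ch κ n M)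
    (J : Finset (Fin M)) :
    DW x a (kd g f) J = dv x (∑ k, g k * io k f J) +
      ∑ i, ∑ j, WW κ n a i j * ∑ k, g k * kh i (io j (io k f)) J := by
  rw [DW_io]
  have h1 : kd g f = fun J => ∑ k, g k * io k f J := funext fun J => kd_io g f J
  rw [h1]
  congr 1
  refine Finset.sum_congr rfl fun i _ => Finset.sum_congr rfl fun j _ => ?_
  congr 1
  have h2 : io j (fun J => ∑ k, g k * io k f J) = fun J => ∑ k, g k * io j (io k f) J :=
    funext fun J => io_lin j g (fun k => io k f) J
  rw [h2, kh_lin i g (fun k => io j (io k f))]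

theorem DW_kd (g : Fin M → MvPolynomial (Fin n) κ) (w : Fin n → ℕ) (δ : Fin M → ℕ) (x : Fin n → MvPolynomial (Fin n) κ)
    (a : Fin M → ℕ) (hs : SysW g w δ x a) (f : Ch κ n M) :
    DW x a (kd g f) = kd g (DW x a f) := by
  funext J
  rw [DW_kd', kd_io g (DW x a f) J, dv_sum]
  have hL : ∀ k, g k * io k (DW x a f) J = g k * dv x (io k f J) +
      (∑ i, ∑ j, WW κ n a i j * (g k * kh i (io j (io k f)) J) +
        ∑ j, g k * WW κ n a k j * io j f J) := by
    intro k
    rw [io_DD, mul_add]
    congr 1
    rw [Finset.mul_sum]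
    have h1 : ∑ j, g k * WW κ n a k j * io j f J =
        ∑ i, ∑ j, if k = i then g k * WW κ n a i j * io j f J else 0 := by
      symm
      rw [Finset.sum_eq_single (f := fun i => ∑ j, if k = i then g k * WW κ n a i j * io j f J else 0) k]
      · exact Finset.sum_congr rfl fun j _ => if_pos rfl
      · intro b _ hb
        exact Finset.sum_eq_zero fun j _ => if_neg (fun h : k = b => hb h.symm)
      · intro h
        exact absurd (Finset.mem_univ _) h
    rw [h1, ← Finset.sum_add_distrib]
    refine Finset.sum_congr rfl fun i _ => ?_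
    rw [Finset.mul_sum, ← Finset.sum_add_distrib]
    refine Finset.sum_congr rfl fun j _ => ?_
    split_ifs with h
    · ring
    · ring
  rw [Finset.sum_congr rfl fun k _ => hL k, Finset.sum_add_distrib, Finset.sum_add_distrib]
  have hR : ∑ k, dv x (g k * io k f J) = ∑ k, g k * dv x (io k f J) +
      ∑ k, ∑ j, g k * WW κ n a k j * io j f J := by
    rw [Finset.sum_comm (f := fun k j => g k * WW κ n a k j * io j f J), ← Finset.sum_add_distrib]
    refine Finset.sum_congr rfl fun j _ => ?_
    rw [dv_mul, dv_g g w δ x a hs j, Finset.sum_mul, add_comm]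
  have hM : ∑ i, ∑ j, WW κ n a i j * ∑ k, g k * kh i (io j (io k f)) J =
      ∑ k, ∑ i, ∑ j, WW κ n a i j * (g k * kh i (io j (io k f)) J) := by
    rw [Finset.sum_comm (s := Finset.univ) (t := Finset.univ)
      (f := fun k i => ∑ j, WW κ n a i j * (g k * kh i (io j (io k f)) J))]
    refine Finset.sum_congr rfl fun i _ => ?_
    rw [Finset.sum_comm]
    refine Finset.sum_congr rfl fun j _ => ?_
    rw [Finset.mul_sum]
  rw [hR, hM]
  ring

end Pool.Agent.LibTC1.KW
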