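import Pool.Agent.LibTC1.K0

/-!
The derivation is locally nilpotent (weighted version of LibPK60/D2).
-/

open scoped Classical
open MvPolynomial

set_option linter.unusedSectionVars false

namespace Pool.Agent.LibTC1.KW

open Pool.Agent.LibPK60

variable {κ : Type} [Field κ] {n M : ℕ}

private theorem dv_add' (x : Fin n → MvPolynomial (Fin n) κ) (f f' : MvPolynomial (Fin n) κ) :
    dv x (f + f') = dv x f + dv x f' := by
  unfold dv
  rw [← Finset.sum_add_distrib]
  refine Finset.sum_congr rfl fun i _ => ?_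
  rw [map_add, mul_add]

private theorem dv_mul' (x : Fin n → MvPolynomial (Fin n) κ) (h f : MvPolynomial (Fin n) κ) :
    dv x (h * f) = dv x h * f + h * dv x f := by
  unfold dv
  rw [Finset.sum_mul, Finset.mul_sum, ← Finset.sum_add_distrib]
  refine Finset.sum_congr rfl fun i _ => ?_
  rw [pderiv_mul]
  ring

/-- the weight of a monomial of a chain -/
private def wt (w : Fin n → ℕ) (J : Finset (Fin M)) (α : Fin n →₀ ℕ) : ℕ := wm w α + ∑ j ∈ J, j.val

theorem wm_add (w : Fin n → ℕ) (α β : Fin n →₀ ℕ) : wm w (α + β) = wm w α + wm w β := by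
  unfold wm
  rw [← Finset.sum_add_distrib]
  refine Finset.sum_congr rfl fun i _ => ?_
  rw [Finsupp.add_apply]
  ring

theorem wm_single (w : Fin n → ℕ) (i : Fin n) (r : ℕ) :
    wm w (Finsupp.single i r) = (w i + 1) * r := by
  unfold wm
  rw [Finset.sum_eq_single i]
  · rw [Finsupp.single_eq_same]
  · intro b _ hb
    rw [Finsupp.single_eq_of_ne hb, mul_zero]
  · intro hi
    exact absurd (Finset.mem_univ i) hi

theorem coeff_pderiv_ne (w : Fin n → ℕ) (i : Fin n) (g : MvPolynomial (Fin n) κ)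
    (α : Fin n →₀ ℕ) (h : coeff α (pderiv i g) ≠ 0) :
    ∃ m : Fin n →₀ ℕ, coeff m g ≠ 0 ∧ wm w m = wm w α + (w i + 1) := by
  rw [g.as_sum, map_sum, coeff_sum] at h
  obtain ⟨m, hm, hne⟩ := Finset.exists_ne_zero_of_sum_ne_zero h
  rw [pderiv_monomial, coeff_monomial] at hne
  by_cases he : m - Finsupp.single i 1 = α
  · rw [if_pos he] at hne
    have hmi : m i ≠ 0 := by
      intro h0
      apply hne
      rw [h0]
      simp
    refine ⟨m, mem_support_iff.mp hm, ?_⟩
    have hadd : m = α + Finsupp.single i 1 := by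
      rw [← he]
      refine (tsub_add_cancel_of_le ?_).symm
      rw [Finsupp.single_le_iff]
      omega
    rw [hadd, wm_add, wm_single, mul_one]
  · rw [if_neg he] at hne
    exact absurd rfl hne

theorem coeff_dv_ne (w : Fin n → ℕ) (x : Fin n → MvPolynomial (Fin n) κ) (hx : ThW w x)
    (g : MvPolynomial (Fin n) κ) (α : Fin n →₀ ℕ) (h : coeff α (dv x g) ≠ 0) :
    ∃ m : Fin n →₀ ℕ, coeff m g ≠ 0 ∧ wm w m = wm w α + 1 := by
  unfold dv at h
  rw [coeff_sum] at h
  obtain ⟨i, _, hne⟩ := Finset.exists_ne_zero_of_sum_ne_zero h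
  rw [coeff_mul] at hne
  obtain ⟨p, hp, hne⟩ := Finset.exists_ne_zero_of_sum_ne_zero hne
  have h1 := hx i p.1 (left_ne_zero_of_mul hne)
  obtain ⟨m, hm, hw⟩ := coeff_pderiv_ne w i g p.2 (right_ne_zero_of_mul hne)
  refine ⟨m, hm, ?_⟩
  rw [hw, ← Finset.HasAntidiagonal.mem_antidiagonal.1 hp, wm_add, h1]
  ring

private theorem DW_wt (w : Fin n → ℕ) (x : Fin n → MvPolynomial (Fin n) κ) (hx : ThW w x)
    (a : Fin M → ℕ) (f : Ch κ n M) (u : ℕ)
    (hf : ∀ J α, coeff α (f J) ≠ 0 → wt w J α < u + 1) :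
    ∀ J α, coeff α (DW x a f J) ≠ 0 → wt w J α < u := by
  intro J α h
  unfold DW at h
  rw [coeff_add] at h
  by_cases h1 : coeff α (dv x (f J)) = 0
  · rw [h1, zero_add, coeff_sum] at h
    obtain ⟨i, _, hi⟩ := Finset.exists_ne_zero_of_sum_ne_zero h
    rw [coeff_sum] at hi
    obtain ⟨j, _, hj⟩ := Finset.exists_ne_zero_of_sum_ne_zero hi
    by_cases hc : i.val + 1 = j.val ∧ i ∈ J ∧ j ∉ J
    · rw [if_pos hc] at hj
      obtain ⟨hij, hiJ, hjJ⟩ := hc
      have e1 : ((a j : ℕ) : MvPolynomial (Fin n) κ) = C ((a j : ℕ) : κ) := by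
        rw [map_natCast]
      rw [e1, coeff_C_mul] at hj
      have h2 := hf _ _ (right_ne_zero_of_mul hj)
      unfold wt at h2 ⊢
      have hjE : j ∉ J.erase i := fun hh => hjJ (Finset.mem_of_mem_erase hh)
      rw [Finset.sum_insert hjE] at h2
      have h3 := Finset.add_sum_erase J (fun t : Fin M => t.val) hiJ
      omega
    · rw [if_neg hc] at hj
      exact absurd (coeff_zero α) hj
  · obtain ⟨m, hm, hs⟩ := coeff_dv_ne w x hx (f J) α h1
    have h2 := hf J m hm
    unfold wt at h2 ⊢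
    omega

private theorem DW_iter_zero (w : Fin n → ℕ) (x : Fin n → MvPolynomial (Fin n) κ) (hx : ThW w x)
    (a : Fin M → ℕ) (u : ℕ) :
    ∀ f : Ch κ n M, (∀ J α, coeff α (f J) ≠ 0 → wt w J α < u) → (DW x a)^[u] f = 0 := by
  induction u with
  | zero =>
    intro f hf
    rw [Function.iterate_zero, id_eq]
    funext J
    refine MvPolynomial.ext _ _ fun α => ?_
    by_contra hne
    have : coeff α (f J) ≠ 0 := by
      intro h0
      apply hne
      rw [h0]
      simp
    exact absurd (hf J α this) (Nat.not_lt_zero _)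
  | succ u ih =>
    intro f hf
    rw [Function.iterate_succ_apply]
    exact ih _ (DW_wt w x hx a f u hf)

theorem DW_add (x : Fin n → MvPolynomial (Fin n) κ) (a : Fin M → ℕ) (f f' : Ch κ n M) :
    DW x a (f + f') = DW x a f + DW x a f' := by
  funext J
  have e : DW x a (f + f') J = dv x ((f + f') J) + ∑ i : Fin M, ∑ j : Fin M,
    if i.val + 1 = j.val ∧ i ∈ J ∧ j ∉ J then (a j : MvPolynomial (Fin n) κ) *
      (f + f') (insert j (J.erase i)) else 0 := rfl
  have e1 : DW x a f J = dv x (f J) + ∑ i : Fin M, ∑ j : Fin M,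
    if i.val + 1 = j.val ∧ i ∈ J ∧ j ∉ J then (a j : MvPolynomial (Fin n) κ) *
      f (insert j (J.erase i)) else 0 := rfl
  have e2 : DW x a f' J = dv x (f' J) + ∑ i : Fin M, ∑ j : Fin M,
    if i.val + 1 = j.val ∧ i ∈ J ∧ j ∉ J then (a j : MvPolynomial (Fin n) κ) *
      f' (insert j (J.erase i)) else 0 := rfl
  rw [Pi.add_apply, e, e1, e2, Pi.add_apply, dv_add']
  have hs : (∑ i : Fin M, ∑ j : Fin M,
      if i.val + 1 = j.val ∧ i ∈ J ∧ j ∉ J then (a j : MvPolynomial (Fin n) κ) *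
        (f + f') (insert j (J.erase i)) else 0) =
      (∑ i : Fin M, ∑ j : Fin M,
        if i.val + 1 = j.val ∧ i ∈ J ∧ j ∉ J then (a j : MvPolynomial (Fin n) κ) *
          f (insert j (J.erase i)) else 0) +
      ∑ i : Fin M, ∑ j : Fin M,
        if i.val + 1 = j.val ∧ i ∈ J ∧ j ∉ J then (a j : MvPolynomial (Fin n) κ) *
          f' (insert j (J.erase i)) else 0 := by
    rw [← Finset.sum_add_distrib]
    refine Finset.sum_congr rfl fun i _ => ?_
    rw [← Finset.sum_add_distrib]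
    refine Finset.sum_congr rfl fun j _ => ?_
    by_cases hc : i.val + 1 = j.val ∧ i ∈ J ∧ j ∉ J
    · rw [if_pos hc, if_pos hc, if_pos hc, Pi.add_apply, mul_add]
    · rw [if_neg hc, if_neg hc, if_neg hc, add_zero]
  rw [hs]
  ring

theorem DW_mul (x : Fin n → MvPolynomial (Fin n) κ) (a : Fin M → ℕ) (h : MvPolynomial (Fin n) κ) (f : Ch κ n M) :
    DW x a (fun J => h * f J) = fun J => dv x h * f J + h * DW x a f J := by
  funext J
  have e : DW x a (fun J => h * f J) J = dv x (h * f J) + ∑ i : Fin M, ∑ j : Fin M,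
    if i.val + 1 = j.val ∧ i ∈ J ∧ j ∉ J then (a j : MvPolynomial (Fin n) κ) *
      (h * f (insert j (J.erase i))) else 0 := rfl
  have e1 : DW x a f J = dv x (f J) + ∑ i : Fin M, ∑ j : Fin M,
    if i.val + 1 = j.val ∧ i ∈ J ∧ j ∉ J then (a j : MvPolynomial (Fin n) κ) *
      f (insert j (J.erase i)) else 0 := rfl
  rw [e]
  show _ = dv x h * f J + h * DW x a f J
  rw [e1, dv_mul']
  have hs : (∑ i : Fin M, ∑ j : Fin M,
      if i.val + 1 = j.val ∧ i ∈ J ∧ j ∉ J then (a j : MvPolynomial (Fin n) κ) *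
        (h * f (insert j (J.erase i))) else 0) =
      h * ∑ i : Fin M, ∑ j : Fin M,
        if i.val + 1 = j.val ∧ i ∈ J ∧ j ∉ J then (a j : MvPolynomial (Fin n) κ) *
          f (insert j (J.erase i)) else 0 := by
    rw [Finset.mul_sum]
    refine Finset.sum_congr rfl fun i _ => ?_
    rw [Finset.mul_sum]
    refine Finset.sum_congr rfl fun j _ => ?_
    by_cases hc : i.val + 1 = j.val ∧ i ∈ J ∧ j ∉ J
    · rw [if_pos hc, if_pos hc]
      ring
    · rw [if_neg hc, if_neg hc, mul_zero]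
  rw [hs]
  ring

theorem dv_pow (x : Fin n → MvPolynomial (Fin n) κ) (h : MvPolynomial (Fin n) κ) (hh : dv x h = 1) (r : ℕ) :
    dv x (h ^ r) = (r : MvPolynomial (Fin n) κ) * h ^ (r - 1) := by
  induction r with
  | zero =>
    rw [pow_zero, Nat.cast_zero, zero_mul]
    unfold dv
    refine Finset.sum_eq_zero fun i _ => ?_
    rw [pderiv_one, mul_zero]
  | succ r ih =>
    rw [pow_succ, dv_mul', ih, hh, Nat.add_sub_cancel]
    rcases r with _ | r
    · simp
    · rw [Nat.add_sub_cancel]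
      push_cast
      ring

theorem DW_nilp (w : Fin n → ℕ) (x : Fin n → MvPolynomial (Fin n) κ) (hx : ThW w x)
    (a : Fin M → ℕ) (f : Ch κ n M) : ∃ u : ℕ, ∀ r, u ≤ r → (DW x a)^[r] f = 0 := by
  refine ⟨(Finset.univ.sup fun J => (f J).support.sup fun α => wt w J α) + 1, fun r hr => ?_⟩
  refine DW_iter_zero w x hx a r f fun J α h => ?_
  refine lt_of_lt_of_le (Nat.lt_succ_of_le ?_) hr
  refine le_trans ?_ (Finset.le_sup (f := fun J => (f J).support.sup fun α => wt w J α)
    (Finset.mem_univ J))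
  exact Finset.le_sup (f := fun α => wt w J α) (mem_support_iff.mpr h)

end Pool.Agent.LibTC1.KW
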