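import Pool.Agent.LibTC1.KC
import Pool.Agent.LibTC1.KD

/-!
Exactness of the cone in positive degrees (weighted version of LibPK60/D5).
-/

open scoped Classical
open MvPolynomial

set_option linter.unusedSectionVars false

namespace Pool.Agent.LibTC1.KW

open Pool.Agent.LibPK60

variable {κ : Type} [Field κ] {n M : ℕ}

private theorem d5_gr_kd (g : Fin M → MvPolynomial (Fin n) κ) (w : Fin n → ℕ) (δ : Fin M → ℕ)
    (x : Fin n → MvPolynomial (Fin n) κ) (a : Fin M → ℕ) (hs : SysW g w δ x a) (d : ℕ) (f : Ch κ n M)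
    (hf : GrW w δ d f) : GrW w δ d (kd g f) := by
  intro J α hα
  have h1 : ∃ j ∈ Jᶜ, coeff α (sg j J • (g j • f (insert j J))) ≠ 0 := by
    by_contra hne
    push Not at hne
    apply hα
    unfold kd
    rw [MvPolynomial.coeff_sum]
    exact Finset.sum_eq_zero hne
  obtain ⟨j, hj, h2⟩ := h1
  have hj' : j ∉ J := by simpa using hj
  have h3 : coeff α (g j * f (insert j J)) ≠ 0 := by
    intro h0
    apply h2
    rw [MvPolynomial.coeff_smul, smul_eq_mul, h0, smul_zero]
  rw [MvPolynomial.coeff_mul] at h3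
  obtain ⟨⟨β, γ⟩, hβγ, h4⟩ := Finset.exists_ne_zero_of_sum_ne_zero h3
  rw [Finset.HasAntidiagonal.mem_antidiagonal] at hβγ
  simp only at hβγ h4
  have h5 : coeff β (g j) ≠ 0 := left_ne_zero_of_mul h4
  have h6 : coeff γ (f (insert j J)) ≠ 0 := right_ne_zero_of_mul h4
  have h9 : wm w β = δ j := hs.hom j β h5
  have h8 := hf _ _ h6
  rw [Finset.sum_insert hj'] at h8
  have h10 : wm w α = wm w β + wm w γ := by
    rw [← hβγ, wm_add]
  omega

theorem cone_exactW [CharZero κ] (g : Fin M → MvPolynomial (Fin n) κ) (w : Fin n → ℕ) (δ : Fin M → ℕ)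
    (x : Fin n → MvPolynomial (Fin n) κ) (a : Fin M → ℕ) (hs : SysW g w δ x a) (h : MvPolynomial (Fin n) κ)
    (hh : dv x h = 1) (d : ℕ)
    (hdec : ∀ f : Ch κ n M, kd g f = 0 → GrW w δ d f →
      ∃ u v : Ch κ n M, f = kd g u + fun J => h * v J)
    (F : Bool → Ch κ n M) (hF : CGrW w δ d F) (hc : cdW g x a F = 0) :
    ∃ F' : Bool → Ch κ n M, CGrW w δ d F' ∧ cdW g x a F' = F := by
  have hA : kd g (F false) = 0 := by
    have := congrFun hc false
    simpa [cdW] using this
  have hB : DW x a (F false) = kd g (F true) := by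
    have := congrFun hc true
    simp only [cdW, if_true, Pi.zero_apply] at this
    exact sub_eq_zero.mp this
  have gA : GrW w δ d (F false) := by
    intro J α hα
    have := hF false J α hα
    simpa using this
  have gB : ∀ J α, coeff α (F true J) ≠ 0 → wm w α + ∑ j ∈ J, δ j + 1 = d := by
    intro J α hα
    have := hF true J α hα
    simpa using this
  obtain ⟨b0, hb0⟩ := exists_antiW w x hs.th a h hh (F true)
  obtain ⟨b, gb, -, hb2⟩ := exists_compW g w δ x a hs d b0
  have hb : DW x a b = F true := by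
    rw [hb2 (by rw [hb0]; exact gB), hb0]
  have hkb : GrW w δ d (kd g b) := d5_gr_kd g w δ x a hs d b gb
  obtain ⟨A1, hA1⟩ : ∃ A1, A1 = F false - kd g b := ⟨_, rfl⟩
  have e1 : A1 + kd g b = F false := by rw [hA1]; abel
  have hDA1 : DW x a A1 = 0 := by
    have h1 := DW_add x a A1 (kd g b)
    rw [e1, DW_kd g w δ x a hs, hb, hB] at h1
    exact (left_eq_add.mp (by rw [add_comm]; exact h1) : DW x a A1 = 0)
  have hkA1 : kd g A1 = 0 := by
    have h1 := kd_add g A1 (kd g b)
    rw [e1, kd_kd, hA, add_zero] at h1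
    exact h1.symm
  have gA1 : GrW w δ d A1 := by
    intro J α hα
    by_cases h1 : coeff α (F false J) = 0
    · refine hkb J α fun h2 => hα ?_
      rw [hA1, Pi.sub_apply, MvPolynomial.coeff_sub, h1, h2, sub_zero]
    · exact gA J α h1
  obtain ⟨u, v, huv⟩ := hdec A1 hkA1 gA1
  obtain ⟨π, π1, π2, π3, π4, π5⟩ := exists_projW g w δ x a hs h hh
  have h1 : kd g (π u) = A1 := by
    rw [← π5]
    have h2 := π3 A1 hDA1
    rw [huv, π1, π4, add_zero] at h2
    rw [h2, ← huv]
  have h2 : kd g (b + π u) = F false := by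
    rw [kd_add, h1, add_comm, e1]
  have h3 : DW x a (b + π u) = F true := by
    rw [DW_add, hb, π2, add_zero]
  obtain ⟨A', gA', hA'1, hA'2⟩ := exists_compW g w δ x a hs d (b + π u)
  rw [h2] at hA'1
  rw [h3] at hA'2
  refine ⟨fun c => if c = true then 0 else A', ?_, ?_⟩
  · intro c J α hα
    cases c
    · simp only [Bool.false_eq_true, if_false] at hα ⊢
      exact gA' J α hα
    · simp at hα
  · funext c
    cases c
    · simp only [cdW, Bool.false_eq_true, if_false]
      exact hA'1 gA
    · have h4 : kd g (0 : Ch κ n M) = 0 := by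
        funext J
        simp [kd]
      simp only [cdW, if_true, Bool.false_eq_true, if_false]
      rw [h4, hA'2 gB, sub_zero]

end Pool.Agent.LibTC1.KW
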