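import Pool.Agent.LibTC1.KA
import Pool.Agent.LibTC1.KB

/-!
The cone of D: the square of the differential, degrees, linearity (weighted version of LibPK60/M1).
-/

open scoped Classical
open MvPolynomial

set_option linter.unusedSectionVars false

namespace Pool.Agent.LibTC1.KW

open Pool.Agent.LibPK60

variable {κ : Type} [Field κ] {n M : ℕ}

private theorem exists_coeff_sum {I : Type} (A : Finset I) (p : I → MvPolynomial (Fin n) κ)
    (α : Fin n →₀ ℕ) (h : coeff α (∑ t ∈ A, p t) ≠ 0) : ∃ t ∈ A, coeff α (p t) ≠ 0 := by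
  by_contra hc
  push Not at hc
  apply h
  rw [coeff_sum]
  exact Finset.sum_eq_zero hc

private theorem coeff_zs (z : ℤ) (p : MvPolynomial (Fin n) κ) (α : Fin n →₀ ℕ)
    (h : coeff α (z • p) ≠ 0) : coeff α p ≠ 0 := by
  intro h0
  apply h
  have h1 : coeff α (z • p) = z • coeff α p := map_zsmul (coeffAddMonoidHom α) z p
  rw [h1, h0, smul_zero]

private theorem kd_gr' (g : Fin M → MvPolynomial (Fin n) κ) (w : Fin n → ℕ) (δ : Fin M → ℕ)
    (hg : ∀ j α, coeff α (g j) ≠ 0 → wm w α = δ j) (d e : ℕ) (f : Ch κ n M)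
    (hf : ∀ J α, coeff α (f J) ≠ 0 → wm w α + ∑ j ∈ J, δ j + e = d) :
    ∀ J α, coeff α (kd g f J) ≠ 0 → wm w α + ∑ j ∈ J, δ j + e = d := by
  intro J α h
  obtain ⟨j, hj, h1⟩ := exists_coeff_sum _ _ α h
  rw [Finset.mem_compl] at hj
  have h2 := coeff_zs _ _ _ h1
  rw [smul_eq_mul, coeff_mul] at h2
  obtain ⟨⟨α₁, α₂⟩, hα, h3⟩ := Finset.exists_ne_zero_of_sum_ne_zero h2
  rw [Finset.HasAntidiagonal.mem_antidiagonal] at hα
  simp only at hα h3
  have h4 : coeff α₁ (g j) ≠ 0 := left_ne_zero_of_mul h3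
  have h5 : coeff α₂ (f (insert j J)) ≠ 0 := right_ne_zero_of_mul h3
  have h6 := hf _ _ h5
  rw [Finset.sum_insert hj] at h6
  have h7 : wm w α₁ = δ j := hg j α₁ h4
  have h9 : wm w α = wm w α₁ + wm w α₂ := by
    rw [← hα, wm_add]
  omega

private theorem DW_gr' (g : Fin M → MvPolynomial (Fin n) κ) (w : Fin n → ℕ) (δ : Fin M → ℕ) (x : Fin n → MvPolynomial (Fin n) κ)
    (a : Fin M → ℕ) (hs : SysW g w δ x a) (d : ℕ) (f : Ch κ n M)
    (hf : ∀ J α, coeff α (f J) ≠ 0 → wm w α + ∑ j ∈ J, δ j = d) :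
    ∀ J α, coeff α (DW x a f J) ≠ 0 → wm w α + ∑ j ∈ J, δ j + 1 = d := by
  intro J α h
  unfold DW at h
  rw [coeff_add] at h
  by_cases h1 : coeff α (dv x (f J)) = 0
  · rw [h1, zero_add] at h
    obtain ⟨i, _, h2⟩ := exists_coeff_sum _ _ α h
    obtain ⟨j, _, h3⟩ := exists_coeff_sum _ _ α h2
    split_ifs at h3 with hc
    · obtain ⟨hij, hi, hj⟩ := hc
      have hcast : ((a j : ℕ) : MvPolynomial (Fin n) κ) = C ((a j : ℕ) : κ) := by simp
      rw [hcast, coeff_C_mul] at h3
      have h4 := right_ne_zero_of_mul h3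
      have h5 : a j ≠ 0 := by
        intro h6
        apply h3
        rw [h6]
        simp
      have h6 := hf _ _ h4
      have hj' : j ∉ J.erase i := fun hh => hj (Finset.mem_of_mem_erase hh)
      rw [Finset.sum_insert hj', hs.deg i j hij h5] at h6
      have h7 := Finset.add_sum_erase J δ hi
      omega
    · exact absurd (coeff_zero α) h3
  · obtain ⟨m, h2, h3⟩ := coeff_dv_ne w x hs.th (f J) α h1
    have h4 := hf _ _ h2
    omega

private theorem kd_lin (g : Fin M → MvPolynomial (Fin n) κ) {I : Type} (A : Finset I) (φ : I → κ)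
    (f : I → Ch κ n M) : kd g (fun J => ∑ t ∈ A, C (φ t) * f t J) =
      fun J => ∑ t ∈ A, C (φ t) * kd g (f t) J := by
  funext J
  simp only [kd, Finset.smul_sum, Finset.mul_sum]
  rw [Finset.sum_comm]
  refine Finset.sum_congr rfl fun t _ => Finset.sum_congr rfl fun j _ => ?_
  simp only [zsmul_eq_mul, smul_eq_mul]
  ring

private theorem dv_lin (x : Fin n → MvPolynomial (Fin n) κ) {I : Type} (A : Finset I) (φ : I → κ)
    (p : I → MvPolynomial (Fin n) κ) : dv x (∑ t ∈ A, C (φ t) * p t) =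
      ∑ t ∈ A, C (φ t) * dv x (p t) := by
  simp only [dv, map_sum, pderiv_C_mul, Finset.mul_sum]
  rw [Finset.sum_comm]
  refine Finset.sum_congr rfl fun t _ => Finset.sum_congr rfl fun i _ => ?_
  ring

private theorem DW_lin (x : Fin n → MvPolynomial (Fin n) κ) (a : Fin M → ℕ) {I : Type} (A : Finset I) (φ : I → κ)
    (f : I → Ch κ n M) : DW x a (fun J => ∑ t ∈ A, C (φ t) * f t J) =
      fun J => ∑ t ∈ A, C (φ t) * DW x a (f t) J := by
  funext J
  simp only [DW, dv_lin, mul_add, Finset.sum_add_distrib]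
  congr 1
  have h1 : ∀ t ∈ A, C (φ t) * (∑ i : Fin M, ∑ j : Fin M,
      if i.val + 1 = j.val ∧ i ∈ J ∧ j ∉ J then (a j : MvPolynomial (Fin n) κ) *
        f t (insert j (J.erase i)) else 0) = ∑ i : Fin M, ∑ j : Fin M,
      if i.val + 1 = j.val ∧ i ∈ J ∧ j ∉ J then C (φ t) * ((a j : MvPolynomial (Fin n) κ) *
        f t (insert j (J.erase i))) else 0 := by
    intro t _
    simp only [Finset.mul_sum, mul_ite, mul_zero]
  rw [Finset.sum_congr rfl h1]
  symm
  rw [Finset.sum_comm]
  refine Finset.sum_congr rfl fun i _ => ?_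
  rw [Finset.sum_comm]
  refine Finset.sum_congr rfl fun j _ => ?_
  split_ifs with hc
  · rw [Finset.mul_sum]
    refine Finset.sum_congr rfl fun t _ => ?_
    ring
  · simp

theorem cdW_cdW (g : Fin M → MvPolynomial (Fin n) κ) (w : Fin n → ℕ) (δ : Fin M → ℕ) (x : Fin n → MvPolynomial (Fin n) κ)
    (a : Fin M → ℕ) (hs : SysW g w δ x a) (F : Bool → Ch κ n M) :
    cdW g x a (cdW g x a F) = 0 := by
  funext b
  cases b
  · change kd g (kd g (F false)) = 0
    exact kd_kd g (F false)
  · change DW x a (kd g (F false)) - kd g (DW x a (F false) - kd g (F true)) = 0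
    rw [DW_kd g w δ x a hs, kd_sub, kd_kd, sub_zero, sub_self]

theorem cdW_gr (g : Fin M → MvPolynomial (Fin n) κ) (w : Fin n → ℕ) (δ : Fin M → ℕ) (x : Fin n → MvPolynomial (Fin n) κ)
    (a : Fin M → ℕ) (hs : SysW g w δ x a) (d : ℕ) (F : Bool → Ch κ n M) (hF : CGrW w δ d F) :
    CGrW w δ d (cdW g x a F) := by
  intro b J α h
  cases b
  · change coeff α (kd g (F false) J) ≠ 0 at h
    have h1 := kd_gr' g w δ hs.hom d 0 (F false) (fun J' α' h' => by
      have h2 := hF false J' α' h'
      simpa using h2) J α h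
    simpa using h1
  · change coeff α (DW x a (F false) J - kd g (F true) J) ≠ 0 at h
    rw [coeff_sub] at h
    have key : wm w α + ∑ j ∈ J, δ j + 1 = d := by
      by_cases h1 : coeff α (DW x a (F false) J) = 0
      · rw [h1, zero_sub, neg_ne_zero] at h
        exact kd_gr' g w δ hs.hom d 1 (F true) (fun J' α' h' => by
          have h2 := hF true J' α' h'
          simpa using h2) J α h
      · exact DW_gr' g w δ x a hs d (F false) (fun J' α' h' => by
          have h2 := hF false J' α' h'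
          simpa using h2) J α h1
    simpa using key

/-- the differential of the cone is linear -/
theorem cdW_lin (g : Fin M → MvPolynomial (Fin n) κ) (x : Fin n → MvPolynomial (Fin n) κ) (a : Fin M → ℕ) {I : Type}
    (A : Finset I) (φ : I → κ) (F : I → Bool → Ch κ n M) :
    cdW g x a (fun b J => ∑ t ∈ A, C (φ t) * F t b J) =
      fun b J => ∑ t ∈ A, C (φ t) * cdW g x a (F t) b J := by
  funext b
  cases b
  · change kd g (fun J => ∑ t ∈ A, C (φ t) * F t false J) =
      fun J => ∑ t ∈ A, C (φ t) * kd g (F t false) J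
    exact kd_lin g A φ fun t => F t false
  · change DW x a (fun J => ∑ t ∈ A, C (φ t) * F t false J) -
        kd g (fun J => ∑ t ∈ A, C (φ t) * F t true J) =
      fun J => ∑ t ∈ A, C (φ t) * (DW x a (F t false) J - kd g (F t true) J)
    rw [DW_lin x a A φ fun t => F t false, kd_lin g A φ fun t => F t true]
    funext J
    simp only [Pi.sub_apply, mul_sub, Finset.sum_sub_distrib]

end Pool.Agent.LibTC1.KW
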