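import Pool.Agent.LibPK60.DefsG
import Pool.Agent.LibTC1.KF

/-!
The matrix of the differential of the cone (weighted version of LibPK60/M2).
-/

open scoped Classical
open MvPolynomial

set_option linter.unusedSectionVars false

namespace Pool.Agent.LibTC1.KW

open Pool.Agent.LibPK60

variable {κ : Type} [Field κ] {n M : ℕ}

private noncomputable def ch {w : Fin n → ℕ} {δ : Fin M → ℕ} {d : ℕ} (φ : IxW w δ d → κ) : Bool → Ch κ n M :=
  fun b J => ∑ t, C (φ t) * basW κ t b J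

private noncomputable def rd (w : Fin n → ℕ) (δ : Fin M → ℕ) (d : ℕ) (F : Bool → Ch κ n M) : IxW w δ d → κ :=
  fun t => coeff t.1.2.2 (F t.1.1 t.1.2.1)

private theorem bas_zero {w : Fin n → ℕ} {δ : Fin M → ℕ} {d : ℕ} (t : IxW w δ d) {b : Bool}
    {J : Finset (Fin M)} (h : ¬ (b = t.1.1 ∧ J = t.1.2.1)) : basW κ t b J = 0 := if_neg h

private theorem coeff_bas {w : Fin n → ℕ} {δ : Fin M → ℕ} {d : ℕ} (t : IxW w δ d) (b : Bool)
    (J : Finset (Fin M)) (α : Fin n →₀ ℕ) :
    coeff α (basW κ t b J) = if t.1 = (b, J, α) then 1 else 0 := by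
  by_cases h : b = t.1.1 ∧ J = t.1.2.1
  · have h1 : basW κ t b J = monomial t.1.2.2 1 := if_pos h
    rw [h1, coeff_monomial]
    by_cases h2 : t.1.2.2 = α
    · have h3 : t.1 = (b, J, α) := Prod.ext h.1.symm (Prod.ext h.2.symm h2)
      rw [if_pos h2, if_pos h3]
    · have h3 : ¬ t.1 = (b, J, α) := fun h4 => h2 (by rw [h4])
      rw [if_neg h2, if_neg h3]
  · have h3 : ¬ t.1 = (b, J, α) := fun h4 => h ⟨by rw [h4], by rw [h4]⟩
    rw [bas_zero t h, coeff_zero, if_neg h3]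

private theorem coeff_ch {w : Fin n → ℕ} {δ : Fin M → ℕ} {d : ℕ} (φ : IxW w δ d → κ) (b : Bool)
    (J : Finset (Fin M)) (α : Fin n →₀ ℕ) :
    coeff α (ch φ b J) = ∑ t : IxW w δ d, φ t * (if t.1 = (b, J, α) then 1 else 0) := by
  unfold ch
  rw [coeff_sum]
  refine Finset.sum_congr rfl fun t _ => ?_
  rw [coeff_C_mul, coeff_bas]

private theorem rd_ch {w : Fin n → ℕ} {δ : Fin M → ℕ} {d : ℕ} (φ : IxW w δ d → κ) : rd w δ d (ch φ) = φ := by
  funext s
  show coeff s.1.2.2 (ch φ s.1.1 s.1.2.1) = φ s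
  rw [coeff_ch, Finset.sum_eq_single s]
  · rw [if_pos rfl, mul_one]
  · intro t _ hts
    rw [if_neg (fun h => hts (Subtype.ext h)), mul_zero]
  · intro h
    exact absurd (Finset.mem_univ s) h

private theorem ch_gr {w : Fin n → ℕ} {δ : Fin M → ℕ} {d : ℕ} (φ : IxW w δ d → κ) : CGrW w δ d (ch φ) := by
  intro b J α h
  rw [coeff_ch] at h
  obtain ⟨t, -, ht⟩ := Finset.exists_ne_zero_of_sum_ne_zero h
  have h1 : t.1 = (b, J, α) := by
    by_contra h2
    rw [if_neg h2, mul_zero] at ht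
    exact ht rfl
  have h2 := t.2
  rw [h1] at h2
  exact h2

private theorem ch_rd {w : Fin n → ℕ} {δ : Fin M → ℕ} {d : ℕ} {F : Bool → Ch κ n M} (hF : CGrW w δ d F) :
    ch (rd w δ d F) = F := by
  funext b J
  ext α
  by_cases h : coeff α (F b J) = 0
  · rw [h, coeff_ch]
    refine Finset.sum_eq_zero fun t _ => ?_
    by_cases h1 : t.1 = (b, J, α)
    · have h2 : rd w δ d F t = coeff α (F b J) := by
        show coeff t.1.2.2 (F t.1.1 t.1.2.1) = _
        rw [h1]
      rw [h2, h, zero_mul]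
    · rw [if_neg h1, mul_zero]
  · have h0 := hF b J α h
    have h1 := congrFun (rd_ch (rd w δ d F)) ⟨(b, J, α), h0⟩
    exact h1

private theorem rd_cd_ch (g : Fin M → MvPolynomial (Fin n) κ) (w : Fin n → ℕ) (δ : Fin M → ℕ) (x : Fin n → MvPolynomial (Fin n) κ)
    (a : Fin M → ℕ) (d : ℕ) (φ : IxW w δ d → κ) :
    rd w δ d (cdW g x a (ch φ)) = (CMW w δ d g x a).mulVec φ := by
  funext s
  show coeff s.1.2.2 (cdW g x a (ch φ) s.1.1 s.1.2.1) = ∑ t, CMW w δ d g x a s t * φ t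
  have h := cdW_lin g x a Finset.univ φ (fun t : IxW w δ d => basW κ t)
  have h1 : cdW g x a (ch φ) = fun b J => ∑ t, C (φ t) * cdW g x a (basW κ t) b J := h
  rw [h1, coeff_sum]
  refine Finset.sum_congr rfl fun t _ => ?_
  rw [coeff_C_mul, mul_comm]
  rfl

private theorem cdW_ch (g : Fin M → MvPolynomial (Fin n) κ) (w : Fin n → ℕ) (δ : Fin M → ℕ) (x : Fin n → MvPolynomial (Fin n) κ)
    (a : Fin M → ℕ) (hs : SysW g w δ x a) (d : ℕ) (φ : IxW w δ d → κ) :
    cdW g x a (ch φ) = ch ((CMW w δ d g x a).mulVec φ) := by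
  rw [← rd_cd_ch, ch_rd (cdW_gr g w δ x a hs d _ (ch_gr φ))]

private theorem ch_zero {w : Fin n → ℕ} {δ : Fin M → ℕ} {d : ℕ} : ch (0 : IxW w δ d → κ) = 0 := by
  funext b J
  show ∑ t : IxW w δ d, C ((0 : IxW w δ d → κ) t) * basW κ t b J = 0
  refine Finset.sum_eq_zero fun t _ => ?_
  rw [Pi.zero_apply, C_0, zero_mul]

private theorem kd_zero_of (g : Fin M → MvPolynomial (Fin n) κ) (f : Ch κ n M)
    (J : Finset (Fin M)) (h : ∀ j, j ∉ J → f (insert j J) = 0) : kd g f J = 0 := by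
  unfold kd
  refine Finset.sum_eq_zero fun j hj => ?_
  rw [h j (Finset.mem_compl.1 hj), smul_zero, smul_zero]

private theorem DW_zero_of (x : Fin n → MvPolynomial (Fin n) κ) (a : Fin M → ℕ) (f : Ch κ n M)
    (J : Finset (Fin M)) (h0 : f J = 0)
    (h : ∀ i j, i ∈ J → j ∉ J → f (insert j (J.erase i)) = 0) : DW x a f J = 0 := by
  unfold DW
  rw [h0]
  have h1 : dv x (0 : MvPolynomial (Fin n) κ) = 0 := by
    unfold dv
    refine Finset.sum_eq_zero fun i _ => ?_
    rw [map_zero, mul_zero]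
  rw [h1, zero_add]
  refine Finset.sum_eq_zero fun i _ => Finset.sum_eq_zero fun j _ => ?_
  split_ifs with h2
  · rw [h i j h2.2.1 h2.2.2, mul_zero]
  · rfl

theorem CMW_odd (g : Fin M → MvPolynomial (Fin n) κ) (w : Fin n → ℕ) (δ : Fin M → ℕ) (x : Fin n → MvPolynomial (Fin n) κ)
    (a : Fin M → ℕ) (d : ℕ) : IsOdd parW (CMW w δ d g x a) := by
  intro s t hst
  obtain ⟨⟨bs, Js, αs⟩, hs⟩ := s
  obtain ⟨⟨bt, Jt, αt⟩, ht⟩ := t
  have hpar : (Js.card + (if bs = true then 1 else 0)) % 2 = 1 ↔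
      (Jt.card + (if bt = true then 1 else 0)) % 2 = 1 := decide_eq_decide.1 hst
  show coeff αs (cdW g x a (basW κ (⟨(bt, Jt, αt), ht⟩ : IxW w δ d)) bs Js) = 0
  set t : IxW w δ d := ⟨(bt, Jt, αt), ht⟩ with htdef
  have hkd : bs = bt → kd g (basW κ t bt) Js = 0 := by
    intro hb
    refine kd_zero_of g _ _ fun j hj => bas_zero t ?_
    rintro ⟨-, h2⟩
    have h3 : insert j Js = Jt := h2
    have h4 : Jt.card = Js.card + 1 := by
      rw [← h3]
      exact Finset.card_insert_of_notMem hj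
    subst hb
    rw [h4] at hpar
    omega
  have hkd0 : ∀ b, b ≠ bt → kd g (basW κ t b) Js = 0 := fun b hb =>
    kd_zero_of g _ _ fun j _ => bas_zero t fun h => hb h.1
  have hDD0 : ∀ b, b ≠ bt → DW x a (basW κ t b) Js = 0 := fun b hb =>
    DW_zero_of x a _ _ (bas_zero t fun h => hb h.1) fun _ _ _ _ => bas_zero t fun h => hb h.1
  cases bs with
  | false =>
    show coeff αs (kd g (basW κ t false) Js) = 0
    cases bt with
    | false => rw [hkd rfl, coeff_zero]
    | true => rw [hkd0 false (by decide), coeff_zero]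
  | true =>
    show coeff αs (DW x a (basW κ t false) Js - kd g (basW κ t true) Js) = 0
    cases bt with
    | true => rw [hkd rfl, hDD0 false (by decide), sub_zero, coeff_zero]
    | false =>
      have h1 : DW x a (basW κ t false) Js = 0 := by
        refine DW_zero_of x a _ _ (bas_zero t ?_) fun i j hi hj => bas_zero t ?_
        · rintro ⟨-, h2⟩
          have h3 : Js = Jt := h2
          subst h3
          simp only [if_true, Bool.false_eq_true, if_false] at hpar
          omega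
        · rintro ⟨-, h2⟩
          have h3 : insert j (Js.erase i) = Jt := h2
          have h4 : Jt.card = Js.card := by
            rw [← h3, Finset.card_insert_of_notMem (fun h => hj (Finset.mem_of_mem_erase h)),
              Finset.card_erase_add_one hi]
          rw [h4] at hpar
          simp only [if_true, Bool.false_eq_true, if_false] at hpar
          omega
      rw [h1, hkd0 true (by decide), sub_zero, coeff_zero]

theorem CMW_sq (g : Fin M → MvPolynomial (Fin n) κ) (w : Fin n → ℕ) (δ : Fin M → ℕ) (x : Fin n → MvPolynomial (Fin n) κ)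
    (a : Fin M → ℕ) (hs : SysW g w δ x a) (d : ℕ) : CMW w δ d g x a * CMW w δ d g x a = 0 := by
  have h : ∀ φ : IxW w δ d → κ, (CMW w δ d g x a * CMW w δ d g x a).mulVec φ = 0 := by
    intro φ
    rw [← Matrix.mulVec_mulVec, ← rd_cd_ch, ← cdW_ch g w δ x a hs, cdW_cdW g w δ x a hs]
    rfl
  ext s t
  have h1 := congrFun (h (Pi.single t 1)) s
  rw [Matrix.mulVec_single_one] at h1
  exact h1

theorem CMW_ker (g : Fin M → MvPolynomial (Fin n) κ) (w : Fin n → ℕ) (δ : Fin M → ℕ) (x : Fin n → MvPolynomial (Fin n) κ)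
    (a : Fin M → ℕ) (hs : SysW g w δ x a) (d : ℕ)
    (hex : ∀ F : Bool → Ch κ n M, CGrW w δ d F → cdW g x a F = 0 →
      ∃ F' : Bool → Ch κ n M, CGrW w δ d F' ∧ cdW g x a F' = F)
    (φ : IxW w δ d → κ) (hφ : (CMW w δ d g x a).mulVec φ = 0) :
    ∃ ψ, (CMW w δ d g x a).mulVec ψ = φ := by
  have h1 : cdW g x a (ch φ) = 0 := by
    rw [cdW_ch g w δ x a hs, hφ, ch_zero]
  obtain ⟨F', hF', hF⟩ := hex (ch φ) (ch_gr φ) h1
  refine ⟨rd w δ d F', ?_⟩
  rw [← rd_cd_ch, ch_rd hF', hF, rd_ch]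

end Pool.Agent.LibTC1.KW
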