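import Pool.Agent.LibTC1.K0
import Pool.Agent.LibPK60.DefsV

/-!
Valuations of the entries (weighted version of LibPK60/M5).
-/

open scoped Classical
open MvPolynomial

set_option linter.unusedSectionVars false

namespace Pool.Agent.LibTC1.KW

open Pool.Agent.LibPK60

open Pool.Agent.LibBH2 Pool.Agent.LibQC8

variable {k K : Type} [Field k] [Field K] [Algebra k K] {n M : ℕ}

private def Val (v : Place k K) (P : MvPolynomial (Fin n) K) (P₀ : MvPolynomial (Fin n) k) :
    Prop := ∀ α, v.Zer (coeff α P - algebraMap k K (coeff α P₀))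

private theorem Val.zero (v : Place k K) : Val (n := n) v 0 0 := by
  intro α
  rw [coeff_zero, coeff_zero, map_zero, sub_zero]
  exact v.zer_zero

private theorem Val.add {v : Place k K} {P Q : MvPolynomial (Fin n) K}
    {P₀ Q₀ : MvPolynomial (Fin n) k} (h : Val v P P₀) (h' : Val v Q Q₀) :
    Val v (P + Q) (P₀ + Q₀) := by
  intro α
  rw [coeff_add, coeff_add]
  exact Place.val_add (h α) (h' α)

private theorem Val.neg {v : Place k K} {P : MvPolynomial (Fin n) K}
    {P₀ : MvPolynomial (Fin n) k} (h : Val v P P₀) : Val v (-P) (-P₀) := by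
  intro α
  rw [coeff_neg, coeff_neg]
  exact Place.val_neg (h α)

private theorem Val.sub {v : Place k K} {P Q : MvPolynomial (Fin n) K}
    {P₀ Q₀ : MvPolynomial (Fin n) k} (h : Val v P P₀) (h' : Val v Q Q₀) :
    Val v (P - Q) (P₀ - Q₀) := by
  intro α
  rw [coeff_sub, coeff_sub]
  exact Place.val_sub (h α) (h' α)

private theorem Val.sum {v : Place k K} {ι : Type} (s : Finset ι)
    (P : ι → MvPolynomial (Fin n) K) (P₀ : ι → MvPolynomial (Fin n) k)
    (h : ∀ i ∈ s, Val v (P i) (P₀ i)) : Val v (∑ i ∈ s, P i) (∑ i ∈ s, P₀ i) := by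
  induction s using Finset.induction_on with
  | empty =>
    rw [Finset.sum_empty, Finset.sum_empty]
    exact Val.zero v
  | insert a s ha ih =>
    rw [Finset.sum_insert ha, Finset.sum_insert ha]
    exact (h a (Finset.mem_insert_self _ _)).add
      (ih fun i hi => h i (Finset.mem_insert_of_mem hi))

private theorem val_fsum {v : Place k K} {ι : Type} (s : Finset ι) (f : ι → K) (f₀ : ι → k)
    (h : ∀ i ∈ s, v.Zer (f i - algebraMap k K (f₀ i))) :
    v.Zer (∑ i ∈ s, f i - algebraMap k K (∑ i ∈ s, f₀ i)) := by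
  induction s using Finset.induction_on with
  | empty =>
    rw [Finset.sum_empty, Finset.sum_empty, map_zero, sub_zero]
    exact v.zer_zero
  | insert a s ha ih =>
    rw [Finset.sum_insert ha, Finset.sum_insert ha]
    exact Place.val_add (h a (Finset.mem_insert_self _ _))
      (ih fun i hi => h i (Finset.mem_insert_of_mem hi))

private theorem Val.mul {v : Place k K} {P Q : MvPolynomial (Fin n) K}
    {P₀ Q₀ : MvPolynomial (Fin n) k} (h : Val v P P₀) (h' : Val v Q Q₀) :
    Val v (P * Q) (P₀ * Q₀) := by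
  intro α
  rw [coeff_mul, coeff_mul]
  exact val_fsum _ _ _ fun x _ => Place.val_mul (h _) (h' _)

private theorem Val.monomial {v : Place k K} (α : Fin n →₀ ℕ) {r : K} {r₀ : k}
    (h : v.Zer (r - algebraMap k K r₀)) :
    Val v (MvPolynomial.monomial α r) (MvPolynomial.monomial α r₀) := by
  intro β
  rw [coeff_monomial, coeff_monomial]
  split_ifs
  · exact h
  · rw [map_zero, sub_zero]
    exact v.zer_zero

private theorem Val.C {v : Place k K} {r : K} {r₀ : k} (h : v.Zer (r - algebraMap k K r₀)) :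
    Val (n := n) v (MvPolynomial.C r) (MvPolynomial.C r₀) :=
  Val.monomial 0 h

private theorem zer_natCast (v : Place k K) (m : ℕ) :
    v.Zer ((m : K) - algebraMap k K (m : k)) := by
  rw [map_natCast, sub_self]
  exact v.zer_zero

private theorem Val.natCast (v : Place k K) (m : ℕ) :
    Val (n := n) v (m : MvPolynomial (Fin n) K) (m : MvPolynomial (Fin n) k) := by
  have h1 : (m : MvPolynomial (Fin n) K) = MvPolynomial.C (m : K) := (map_natCast _ m).symm
  have h2 : (m : MvPolynomial (Fin n) k) = MvPolynomial.C (m : k) := (map_natCast _ m).symm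
  rw [h1, h2]
  exact Val.C (zer_natCast v m)

private theorem Val.sgn {v : Place k K} {P : MvPolynomial (Fin n) K}
    {P₀ : MvPolynomial (Fin n) k} (h : Val v P P₀) (j : Fin M) (J : Finset (Fin M)) :
    Val v (sg j J • P) (sg j J • P₀) := by
  unfold sg
  rcases neg_one_pow_eq_or ℤ ((J.filter fun i => i < j).card) with h1 | h1
  · rw [h1, one_smul, one_smul]
    exact h
  · rw [h1, neg_one_smul, neg_one_smul]
    exact h.neg

private theorem Val.pderiv {v : Place k K} {P : MvPolynomial (Fin n) K}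
    {P₀ : MvPolynomial (Fin n) k} (h : Val v P P₀) (i : Fin n) :
    Val v (MvPolynomial.pderiv i P) (MvPolynomial.pderiv i P₀) := by
  intro α
  rw [coeff_pderiv, coeff_pderiv]
  refine Place.val_mul (h _) ?_
  have h1 := zer_natCast v (α i + 1)
  rw [Nat.cast_add, Nat.cast_add, Nat.cast_one, Nat.cast_one] at h1
  exact h1

private theorem Val.dv {v : Place k K} {P : MvPolynomial (Fin n) K}
    {P₀ : MvPolynomial (Fin n) k} (h : Val v P P₀) {x : Fin n → MvPolynomial (Fin n) K}
    {x₀ : Fin n → MvPolynomial (Fin n) k} (hx : ∀ i, Val v (x i) (x₀ i)) :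
    Val v (KW.dv x P) (KW.dv x₀ P₀) := by
  unfold KW.dv
  exact Val.sum _ _ _ fun i _ => (hx i).mul (h.pderiv i)

private theorem Val.kd {v : Place k K} {g : Fin M → MvPolynomial (Fin n) K}
    {g₀ : Fin M → MvPolynomial (Fin n) k} (hg : ∀ j, Val v (g j) (g₀ j))
    {f : Ch K n M} {f₀ : Ch k n M} (hf : ∀ J, Val v (f J) (f₀ J)) (J : Finset (Fin M)) :
    Val v (LibPK60.kd g f J) (LibPK60.kd g₀ f₀ J) := by
  unfold LibPK60.kd
  refine Val.sum _ _ _ fun j _ => ?_
  rw [smul_eq_mul, smul_eq_mul]
  exact ((hg j).mul (hf _)).sgn j J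

private theorem Val.DW {v : Place k K} {x : Fin n → MvPolynomial (Fin n) K}
    {x₀ : Fin n → MvPolynomial (Fin n) k} (hx : ∀ i, Val v (x i) (x₀ i)) (a : Fin M → ℕ)
    {f : Ch K n M} {f₀ : Ch k n M} (hf : ∀ J, Val v (f J) (f₀ J)) (J : Finset (Fin M)) :
    Val v (KW.DW x a f J) (KW.DW x₀ a f₀ J) := by
  unfold KW.DW
  refine ((hf J).dv hx).add (Val.sum _ _ _ fun i _ => Val.sum _ _ _ fun j _ => ?_)
  split_ifs
  · exact (Val.natCast v (a j)).mul (hf _)
  · exact Val.zero v

private theorem Val.basW (v : Place k K) {w : Fin n → ℕ} {δ : Fin M → ℕ} {d : ℕ} (t : IxW w δ d) (b : Bool)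
    (J : Finset (Fin M)) : Val v (KW.basW K t b J) (KW.basW k t b J) := by
  unfold KW.basW
  split_ifs
  · refine Val.monomial _ ?_
    rw [map_one, sub_self]
    exact v.zer_zero
  · exact Val.zero v

theorem CMW_val (v : Place k K) (w : Fin n → ℕ) (δ : Fin M → ℕ) (d : ℕ)
    (g : Fin M → MvPolynomial (Fin n) K) (g₀ : Fin M → MvPolynomial (Fin n) k)
    (x : Fin n → MvPolynomial (Fin n) K) (x₀ : Fin n → MvPolynomial (Fin n) k) (a : Fin M → ℕ)
    (hg : ∀ j α, v.Zer (coeff α (g j) - algebraMap k K (coeff α (g₀ j))))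
    (hx : ∀ i α, v.Zer (coeff α (x i) - algebraMap k K (coeff α (x₀ i)))) (s t : IxW w δ d) :
    v.Zer (CMW w δ d g x a s t - algebraMap k K (CMW w δ d g₀ x₀ a s t)) := by
  have hgV : ∀ j, Val v (g j) (g₀ j) := fun j α => hg j α
  have hxV : ∀ j, Val v (x j) (x₀ j) := fun j α => hx j α
  have key : ∀ (b : Bool) (J : Finset (Fin M)),
      Val v (cdW g x a (basW K t) b J) (cdW g₀ x₀ a (basW k t) b J) := by
    intro b J
    cases b with
    | true =>
      have h1 : cdW g x a (basW K t) true J =
          DW x a (basW K t false) J - kd g (basW K t true) J := rfl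
      have h2 : cdW g₀ x₀ a (basW k t) true J =
          DW x₀ a (basW k t false) J - kd g₀ (basW k t true) J := rfl
      rw [h1, h2]
      exact (Val.DW hxV a (fun J => Val.basW v t false J) J).sub
        (Val.kd hgV (fun J => Val.basW v t true J) J)
    | false =>
      have h1 : cdW g x a (basW K t) false J = kd g (basW K t false) J := rfl
      have h2 : cdW g₀ x₀ a (basW k t) false J = kd g₀ (basW k t false) J := rfl
      rw [h1, h2]
      exact Val.kd hgV (fun J => Val.basW v t false J) J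
  exact key s.1.1 s.1.2.1 s.1.2.2

end Pool.Agent.LibTC1.KW
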