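import Pool.Agent.LibTC1.K0

/-!
[TC1 KO] the total weight: generating functions of the monomials of given weight.
-/

open scoped Classical
open MvPolynomial

set_option linter.unusedSectionVars false

namespace Pool.Agent.LibTC1.KW

open Pool.Agent.LibPK60

/-! ### monomials of given weight -/

private noncomputable def KO_mon {n : ℕ} (w : Fin n → ℕ) (m : ℕ) : Finset (Fin n →₀ ℕ) :=
  (Finset.Iic (Finsupp.equivFunOnFinite.symm fun _ : Fin n => m)).filter fun α => wm w α = m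

private theorem KO_mem {n : ℕ} {w : Fin n → ℕ} {m : ℕ} {α : Fin n →₀ ℕ} :
    α ∈ KO_mon w m ↔ wm w α = m := by
  unfold KO_mon
  rw [Finset.mem_filter, Finset.mem_Iic]
  constructor
  · exact fun h => h.2
  · intro h
    refine ⟨fun i => ?_, h⟩
    have h1 := le_wm w α i
    rw [h] at h1
    exact h1

private theorem KO_wm_single {n : ℕ} (w : Fin n → ℕ) (α : Fin n →₀ ℕ) (t : Fin n) :
    wm w (α + Finsupp.single t 1) = wm w α + (w t + 1) := by
  unfold wm
  have h1 : ∀ i, (w i + 1) * (α + Finsupp.single t 1 : Fin n →₀ ℕ) i =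
      (w i + 1) * α i + (w i + 1) * (Finsupp.single t 1 : Fin n →₀ ℕ) i :=
    fun i => by rw [Finsupp.add_apply, mul_add]
  rw [Finset.sum_congr rfl fun i _ => h1 i, Finset.sum_add_distrib]
  congr 1
  rw [Finset.sum_eq_single t]
  · rw [Finsupp.single_eq_same, mul_one]
  · intro b _ hb
    rw [Finsupp.single_eq_of_ne hb, mul_zero]
  · intro h
    exact absurd (Finset.mem_univ t) h

private theorem KO_wm_ge {n : ℕ} (w : Fin n → ℕ) (α : Fin n →₀ ℕ) (t : Fin n) (h : α t ≠ 0) :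
    w t + 1 ≤ wm w α := by
  have h1 : (w t + 1) * α t ≤ wm w α :=
    Finset.single_le_sum (f := fun i => (w i + 1) * α i) (fun _ _ => Nat.zero_le _)
      (Finset.mem_univ t)
  exact le_trans (Nat.le_mul_of_pos_right _ (Nat.pos_of_ne_zero h)) h1

private noncomputable def KO_S {n : ℕ} (w : Fin n → ℕ) (φ : (Fin n →₀ ℕ) → ℚ) : PowerSeries ℚ :=
  PowerSeries.mk fun m => ∑ α ∈ KO_mon w m, φ α

private theorem KO_coeff {n : ℕ} (w : Fin n → ℕ) (φ : (Fin n →₀ ℕ) → ℚ) (m : ℕ) :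
    PowerSeries.coeff m (KO_S w φ) = ∑ α ∈ KO_mon w m, φ α := PowerSeries.coeff_mk _ _

private theorem KO_cancel {n : ℕ} {α : Fin n →₀ ℕ} {t : Fin n} (h : α t ≠ 0) :
    α - Finsupp.single t 1 + Finsupp.single t 1 = α :=
  tsub_add_cancel_of_le (Finsupp.single_le_iff.2 (Nat.one_le_iff_ne_zero.2 h))

private theorem KO_shift {n : ℕ} (w : Fin n → ℕ) (t : Fin n) (φ : (Fin n →₀ ℕ) → ℚ) :
    PowerSeries.X ^ (w t + 1) * KO_S w φ =
      KO_S w fun α => if α t = 0 then 0 else φ (α - Finsupp.single t 1) := by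
  ext m
  rw [PowerSeries.coeff_X_pow_mul', KO_coeff, KO_coeff]
  by_cases h : w t + 1 ≤ m
  · rw [if_pos h]
    have h1 : ∑ α ∈ KO_mon w m, (if α t = 0 then 0 else φ (α - Finsupp.single t 1)) =
        ∑ α ∈ (KO_mon w m).filter (fun α => ¬ α t = 0), φ (α - Finsupp.single t 1) := by
      rw [Finset.sum_filter]
      refine Finset.sum_congr rfl fun α _ => ?_
      by_cases h2 : α t = 0
      · rw [if_pos h2, if_neg (not_not.2 h2)]
      · rw [if_neg h2, if_pos h2]
    rw [h1]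
    refine Finset.sum_bij' (fun β _ => β + Finsupp.single t 1) (fun α _ => α - Finsupp.single t 1)
      ?_ ?_ ?_ ?_ ?_
    · intro β hβ
      rw [KO_mem] at hβ
      rw [Finset.mem_filter, KO_mem, KO_wm_single, hβ]
      refine ⟨by omega, ?_⟩
      rw [Finsupp.add_apply, Finsupp.single_eq_same]
      omega
    · intro α hα
      rw [Finset.mem_filter, KO_mem] at hα
      rw [KO_mem]
      have h2 := KO_wm_single w (α - Finsupp.single t 1) t
      rw [KO_cancel hα.2, hα.1] at h2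
      omega
    · intro β _
      exact add_tsub_cancel_right _ _
    · intro α hα
      rw [Finset.mem_filter] at hα
      exact KO_cancel hα.2
    · intro β _
      rw [add_tsub_cancel_right]
  · rw [if_neg h]
    symm
    refine Finset.sum_eq_zero fun α hα => ?_
    rw [KO_mem] at hα
    rw [if_pos]
    by_contra h2
    exact h (hα ▸ KO_wm_ge w α t h2)

private theorem KO_step {n : ℕ} (w : Fin n → ℕ) (t : Fin n) (φ : (Fin n →₀ ℕ) → ℚ) :
    KO_S w φ * (1 - PowerSeries.X ^ (w t + 1)) =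
      KO_S w fun α => φ α - if α t = 0 then 0 else φ (α - Finsupp.single t 1) := by
  rw [mul_sub, mul_one, mul_comm, KO_shift]
  ext m
  rw [map_sub, KO_coeff, KO_coeff, KO_coeff, Finset.sum_sub_distrib]

private theorem KO_prod {n : ℕ} (w : Fin n → ℕ) (Q : Finset (Fin n)) :
    KO_S w (fun _ => 1) * ∏ t ∈ Q, (1 - PowerSeries.X ^ (w t + 1)) =
      KO_S w fun α => if ∀ s ∈ Q, α s = 0 then 1 else 0 := by
  induction Q using Finset.induction_on with
  | empty =>
    rw [Finset.prod_empty, mul_one]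
    congr 1
    funext α
    rw [if_pos]
    intro s hs
    exact absurd hs (Finset.notMem_empty s)
  | insert t Q ht ih =>
    rw [Finset.prod_insert ht, mul_comm (1 - PowerSeries.X ^ (w t + 1) : PowerSeries ℚ),
      ← mul_assoc, ih, KO_step]
    congr 1
    funext α
    by_cases h1 : α t = 0
    · rw [if_pos h1, sub_zero]
      by_cases h2 : ∀ s ∈ Q, α s = 0
      · rw [if_pos h2, if_pos]
        intro s hs
        rcases Finset.mem_insert.1 hs with rfl | hs
        · exact h1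
        · exact h2 s hs
      · rw [if_neg h2, if_neg]
        exact fun h3 => h2 fun s hs => h3 s (Finset.mem_insert_of_mem hs)
    · have h5 : ¬ ∀ s ∈ insert t Q, α s = 0 := fun h3 => h1 (h3 t (Finset.mem_insert_self t Q))
      rw [if_neg h1, if_neg h5]
      have h4 : (∀ s ∈ Q, (α - Finsupp.single t 1 : Fin n →₀ ℕ) s = 0) ↔ ∀ s ∈ Q, α s = 0 := by
        refine forall₂_congr fun s hs => ?_
        have hst : s ≠ t := fun h => ht (h ▸ hs)
        rw [Finsupp.tsub_apply, Finsupp.single_eq_of_ne hst, Nat.sub_zero]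
      rw [if_congr h4 rfl rfl, sub_self]

private theorem KO_one {n : ℕ} (w : Fin n → ℕ) :
    KO_S w (fun _ => 1) * ∏ t, (1 - PowerSeries.X ^ (w t + 1)) = 1 := by
  rw [KO_prod]
  ext m
  rw [KO_coeff, PowerSeries.coeff_one]
  have h0 : ∀ α : Fin n →₀ ℕ, (∀ s ∈ Finset.univ, α s = 0) ↔ α = 0 := by
    intro α
    constructor
    · exact fun h => Finsupp.ext fun s => h s (Finset.mem_univ s)
    · rintro rfl s _
      rfl
  have hw0 : wm w (0 : Fin n →₀ ℕ) = 0 := by
    unfold wm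
    exact Finset.sum_eq_zero fun i _ => by rw [Finsupp.coe_zero, Pi.zero_apply, mul_zero]
  simp only [h0]
  rw [Finset.sum_ite_eq']
  by_cases hm : m = 0
  · rw [if_pos hm, if_pos]
    rw [KO_mem, hw0, hm]
  · rw [if_neg hm, if_neg]
    rw [KO_mem, hw0]
    exact fun h => hm h.symm

private theorem KO_lin {n : ℕ} (w : Fin n → ℕ) (t : Fin n) :
    KO_S w (fun α => (α t : ℚ)) * (1 - PowerSeries.X ^ (w t + 1)) =
      PowerSeries.X ^ (w t + 1) * KO_S w (fun _ => 1) := by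
  rw [KO_step, KO_shift]
  congr 1
  funext α
  by_cases h1 : α t = 0
  · rw [if_pos h1, if_pos h1, h1, Nat.cast_zero, sub_zero]
  · rw [if_neg h1, if_neg h1, Finsupp.tsub_apply, Finsupp.single_eq_same,
      Nat.cast_sub (Nat.one_le_iff_ne_zero.2 h1)]
    push_cast
    ring

/-! ### the sum over the basis -/

private theorem KO_sum_ix {n M : ℕ} (w : Fin n → ℕ) (δ : Fin M → ℕ) (m : ℕ)
    (F : Bool → Finset (Fin M) → (Fin n →₀ ℕ) → ℚ) :
    ∑ t : IxW w δ m, F t.1.1 t.1.2.1 t.1.2.2 =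
      ∑ J : Finset (Fin M), ∑ b : Bool, PowerSeries.coeff m
        (PowerSeries.X ^ (∑ j ∈ J, δ j + (if b = true then 1 else 0)) * KO_S w (F b J)) := by
  have h1 : ∀ (J : Finset (Fin M)) (b : Bool), PowerSeries.coeff m
      (PowerSeries.X ^ (∑ j ∈ J, δ j + (if b = true then 1 else 0)) * KO_S w (F b J)) =
      ∑ α ∈ (if ∑ j ∈ J, δ j + (if b = true then 1 else 0) ≤ m then
        KO_mon w (m - (∑ j ∈ J, δ j + (if b = true then 1 else 0))) else ∅), F b J α := by
    intro J b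
    rw [PowerSeries.coeff_X_pow_mul', KO_coeff]
    by_cases h : ∑ j ∈ J, δ j + (if b = true then 1 else 0) ≤ m
    · rw [if_pos h, if_pos h]
    · rw [if_neg h, if_neg h, Finset.sum_empty]
  have hmem : ∀ (J : Finset (Fin M)) (b : Bool) (α : Fin n →₀ ℕ),
      α ∈ (if ∑ j ∈ J, δ j + (if b = true then 1 else 0) ≤ m then
        KO_mon w (m - (∑ j ∈ J, δ j + (if b = true then 1 else 0))) else ∅) ↔
      wm w α + ∑ j ∈ J, δ j + (if b = true then 1 else 0) = m := by
    intro J b α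
    by_cases h : ∑ j ∈ J, δ j + (if b = true then 1 else 0) ≤ m
    · rw [if_pos h, KO_mem]
      omega
    · rw [if_neg h]
      constructor
      · exact fun h2 => absurd h2 (Finset.notMem_empty α)
      · intro h2
        exfalso
        omega
  simp only [h1]
  rw [Finset.sum_sigma', Finset.sum_sigma']
  refine Finset.sum_bij (fun t _ => ⟨⟨t.1.2.1, t.1.1⟩, t.1.2.2⟩) ?_ ?_ ?_ ?_
  · intro t _
    rw [Finset.mem_sigma]
    refine ⟨Finset.mem_sigma.2 ⟨Finset.mem_univ _, Finset.mem_univ _⟩, ?_⟩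
    exact (hmem _ _ _).2 t.2
  · intro t _ t' _ h
    simp only [Sigma.mk.injEq, heq_eq_eq] at h
    exact Subtype.ext (Prod.ext h.1.2 (Prod.ext h.1.1 h.2))
  · intro x hx
    rw [Finset.mem_sigma] at hx
    exact ⟨⟨(x.1.2, x.1.1, x.2), (hmem _ _ _).1 hx.2⟩, Finset.mem_univ _, rfl⟩
  · intro t _
    rfl

private theorem KO_sign {n M : ℕ} {w : Fin n → ℕ} {δ : Fin M → ℕ} {d : ℕ} (t : IxW w δ d) :
    (if parW t = true then (-1 : ℤ) else 1) =
      (-1) ^ (t.1.2.1.card + (if t.1.1 = true then 1 else 0)) := by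
  unfold parW
  by_cases h : (t.1.2.1.card + (if t.1.1 = true then 1 else 0)) % 2 = 1
  · rw [if_pos (by simpa using h), Odd.neg_one_pow (Nat.odd_iff.2 h)]
  · rw [if_neg (by simpa using h), Even.neg_one_pow (Nat.even_iff.2 (by omega))]

private theorem KO_gen {n M : ℕ} (w : Fin n → ℕ) (δ : Fin M → ℕ) (lam : Fin n → ℤ) (L : ℤ) :
    (PowerSeries.mk fun m => ((∑ t : IxW w δ m, (if parW t = true then -1 else 1) *
      (-(∑ i, (t.1.2.2 i : ℤ) * lam i) - ∑ _j ∈ t.1.2.1, L) : ℤ) : ℚ)) =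
    (1 - PowerSeries.X) * ∑ J : Finset (Fin M),
      (PowerSeries.C ((-1 : ℚ) ^ J.card) * PowerSeries.X ^ (∑ j ∈ J, δ j)) *
        (-(∑ i, PowerSeries.C (lam i : ℚ) * KO_S w (fun α => (α i : ℚ))) -
          PowerSeries.C ((J.card : ℚ) * (L : ℚ)) * KO_S w (fun _ => 1)) := by
  ext m
  rw [PowerSeries.coeff_mk]
  let F : Bool → Finset (Fin M) → (Fin n →₀ ℕ) → ℚ := fun b J α =>
    (-1 : ℚ) ^ (J.card + (if b = true then 1 else 0)) *
      (-(∑ i, (α i : ℚ) * (lam i : ℚ)) - (J.card : ℚ) * (L : ℚ))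
  have h1 : ((∑ t : IxW w δ m, (if parW t = true then -1 else 1) *
      (-(∑ i, (t.1.2.2 i : ℤ) * lam i) - ∑ _j ∈ t.1.2.1, L) : ℤ) : ℚ) =
      ∑ t : IxW w δ m, F t.1.1 t.1.2.1 t.1.2.2 := by
    rw [Int.cast_sum]
    refine Finset.sum_congr rfl fun t _ => ?_
    rw [KO_sign t, Finset.sum_const, nsmul_eq_mul]
    push_cast
    rfl
  rw [h1, KO_sum_ix w δ m F, Finset.mul_sum, map_sum]
  refine Finset.sum_congr rfl fun J _ => ?_
  rw [Fintype.sum_bool, ← map_add]
  congr 1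
  have h2 : ∀ c : ℚ, KO_S w (fun α => c *
      (-(∑ i, (α i : ℚ) * (lam i : ℚ)) - (J.card : ℚ) * (L : ℚ))) =
      PowerSeries.C c * (-(∑ i, PowerSeries.C (lam i : ℚ) * KO_S w (fun α => (α i : ℚ))) -
          PowerSeries.C ((J.card : ℚ) * (L : ℚ)) * KO_S w (fun _ => 1)) := by
    intro c
    ext l
    rw [KO_coeff, PowerSeries.coeff_C_mul, map_sub, map_neg, map_sum, PowerSeries.coeff_C_mul,
      KO_coeff, ← Finset.mul_sum, Finset.sum_sub_distrib, Finset.sum_neg_distrib, Finset.sum_comm]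
    congr 3
    · refine Finset.sum_congr rfl fun i _ => ?_
      rw [PowerSeries.coeff_C_mul, KO_coeff, Finset.mul_sum]
      exact Finset.sum_congr rfl fun _ _ => mul_comm _ _
    · rw [Finset.mul_sum]
      exact Finset.sum_congr rfl fun _ _ => (mul_one _).symm
  have h3 : ∀ b : Bool, KO_S w (F b J) = PowerSeries.C ((-1 : ℚ) ^ (J.card +
      (if b = true then 1 else 0))) *
      (-(∑ i, PowerSeries.C (lam i : ℚ) * KO_S w (fun α => (α i : ℚ))) -
          PowerSeries.C ((J.card : ℚ) * (L : ℚ)) * KO_S w (fun _ => 1)) := fun b => h2 _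
  rw [h3, h3]
  simp only [if_true, Bool.false_eq_true, if_false, add_zero]
  rw [pow_succ (-1 : ℚ), map_mul, map_neg, map_one, pow_succ (PowerSeries.X : PowerSeries ℚ)]
  ring

/-! ### sums over subsets -/

private theorem KO_subsets {R ι : Type} [DecidableEq ι] [CommRing R] (s : Finset ι) (y : ι → R) :
    ∑ J ∈ s.powerset, (-1 : R) ^ J.card * ∏ j ∈ J, y j = ∏ j ∈ s, (1 - y j) := by
  induction s using Finset.induction_on with
  | empty => simp
  | insert a s ha ih =>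
    rw [Finset.sum_powerset_insert ha, ih, Finset.prod_insert ha]
    have h1 : ∑ J ∈ s.powerset, (-1 : R) ^ (insert a J).card * ∏ j ∈ insert a J, y j =
        -y a * ∑ J ∈ s.powerset, (-1 : R) ^ J.card * ∏ j ∈ J, y j := by
      rw [Finset.mul_sum]
      refine Finset.sum_congr rfl fun J hJ => ?_
      have haJ : a ∉ J := fun h => ha (Finset.mem_powerset.1 hJ h)
      rw [Finset.card_insert_of_notMem haJ, Finset.prod_insert haJ, pow_succ]
      ring
    rw [h1, ih]
    ring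

private theorem KO_subsets_card {R ι : Type} [DecidableEq ι] [CommRing R] (s : Finset ι) (y : ι → R) :
    ∑ J ∈ s.powerset, (-1 : R) ^ J.card * (J.card : R) * ∏ j ∈ J, y j =
      -∑ j ∈ s, y j * ∏ i ∈ s.erase j, (1 - y i) := by
  induction s using Finset.induction_on with
  | empty => simp
  | insert a s ha ih =>
    rw [Finset.sum_powerset_insert ha, ih, Finset.sum_insert ha, Finset.erase_insert ha]
    have h1 : ∑ J ∈ s.powerset, (-1 : R) ^ (insert a J).card * ((insert a J).card : R) *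
        ∏ j ∈ insert a J, y j =
        -y a * (∑ J ∈ s.powerset, (-1 : R) ^ J.card * (J.card : R) * ∏ j ∈ J, y j +
          ∑ J ∈ s.powerset, (-1 : R) ^ J.card * ∏ j ∈ J, y j) := by
      rw [← Finset.sum_add_distrib, Finset.mul_sum]
      refine Finset.sum_congr rfl fun J hJ => ?_
      have haJ : a ∉ J := fun h => ha (Finset.mem_powerset.1 hJ h)
      rw [Finset.card_insert_of_notMem haJ, Finset.prod_insert haJ, pow_succ]
      push_cast
      ring
    have h2 : ∑ j ∈ s, y j * ∏ i ∈ (insert a s).erase j, (1 - y i) =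
        (1 - y a) * ∑ j ∈ s, y j * ∏ i ∈ s.erase j, (1 - y i) := by
      rw [Finset.mul_sum]
      refine Finset.sum_congr rfl fun j hj => ?_
      have hja : a ≠ j := fun h => ha (h ▸ hj)
      rw [Finset.erase_insert_of_ne hja,
        Finset.prod_insert (fun h => ha (Finset.mem_of_mem_erase h))]
      ring
    rw [h1, ih, KO_subsets, h2]
    ring

/-! ### the identity in power series -/

private theorem KO_series {n M : ℕ} (w : Fin n → ℕ) (δ : Fin M → ℕ) (lam : Fin n → ℤ) (L : ℤ) :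
    (PowerSeries.mk fun m => ((∑ t : IxW w δ m, (if parW t = true then -1 else 1) *
      (-(∑ i, (t.1.2.2 i : ℤ) * lam i) - ∑ _j ∈ t.1.2.1, L) : ℤ) : ℚ)) *
        (∏ t, (1 - PowerSeries.X ^ (w t + 1))) ^ 2 =
    (1 - PowerSeries.X) * (-((∏ j, (1 - PowerSeries.X ^ δ j)) *
      ∑ t, PowerSeries.C (lam t : ℚ) * (PowerSeries.X ^ (w t + 1) *
        ∏ s ∈ Finset.univ.erase t, (1 - PowerSeries.X ^ (w s + 1)))) +
      PowerSeries.C (L : ℚ) * (∑ j, PowerSeries.X ^ δ j *
        ∏ i ∈ Finset.univ.erase j, (1 - PowerSeries.X ^ δ i)) *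
          ∏ t, (1 - PowerSeries.X ^ (w t + 1))) := by
  rw [KO_gen]
  have hP := KO_one w
  set P : PowerSeries ℚ := ∏ t, (1 - PowerSeries.X ^ (w t + 1)) with hPdef
  set S1 : PowerSeries ℚ := KO_S w (fun _ => 1) with hS1
  have hSt : ∀ t, KO_S w (fun α => (α t : ℚ)) * P ^ 2 = PowerSeries.X ^ (w t + 1) *
        ∏ s ∈ Finset.univ.erase t, (1 - PowerSeries.X ^ (w s + 1)) := by
    intro t
    have h1 : P = (1 - PowerSeries.X ^ (w t + 1)) *
        ∏ s ∈ Finset.univ.erase t, (1 - PowerSeries.X ^ (w s + 1)) :=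
      (Finset.mul_prod_erase Finset.univ (fun t => (1 - PowerSeries.X ^ (w t + 1) :
        PowerSeries ℚ)) (Finset.mem_univ t)).symm
    have h2 := KO_lin w t
    calc KO_S w (fun α => (α t : ℚ)) * P ^ 2 = KO_S w (fun α => (α t : ℚ)) * P * P := by ring
      _ = KO_S w (fun α => (α t : ℚ)) * ((1 - PowerSeries.X ^ (w t + 1)) *
        ∏ s ∈ Finset.univ.erase t, (1 - PowerSeries.X ^ (w s + 1))) * P := by rw [← h1]
      _ = (KO_S w (fun α => (α t : ℚ)) * (1 - PowerSeries.X ^ (w t + 1))) *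
        (∏ s ∈ Finset.univ.erase t, (1 - PowerSeries.X ^ (w s + 1))) * P := by ring
      _ = (PowerSeries.X ^ (w t + 1) * S1) *
        (∏ s ∈ Finset.univ.erase t, (1 - PowerSeries.X ^ (w s + 1))) * P := by rw [h2]
      _ = PowerSeries.X ^ (w t + 1) *
        (∏ s ∈ Finset.univ.erase t, (1 - PowerSeries.X ^ (w s + 1))) * (S1 * P) := by ring
      _ = _ := by rw [hP, mul_one]
  have hB : ∑ J : Finset (Fin M), (PowerSeries.C ((-1 : ℚ) ^ J.card) *
      PowerSeries.X ^ (∑ j ∈ J, δ j)) = ∏ j, (1 - PowerSeries.X ^ δ j : PowerSeries ℚ) := by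
    have h1 := KO_subsets (Finset.univ : Finset (Fin M)) (fun j => (PowerSeries.X ^ δ j : PowerSeries ℚ))
    rw [Finset.powerset_univ] at h1
    rw [← h1]
    refine Finset.sum_congr rfl fun J _ => ?_
    rw [Finset.prod_pow_eq_pow_sum, map_pow, map_neg, map_one]
  have hR : ∑ J : Finset (Fin M), (PowerSeries.C ((-1 : ℚ) ^ J.card) *
      PowerSeries.X ^ (∑ j ∈ J, δ j)) * PowerSeries.C ((J.card : ℚ) * (L : ℚ)) =
      -(PowerSeries.C (L : ℚ) * ∑ j, PowerSeries.X ^ δ j *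
        ∏ i ∈ Finset.univ.erase j, (1 - PowerSeries.X ^ δ i : PowerSeries ℚ)) := by
    have h1 := KO_subsets_card (Finset.univ : Finset (Fin M))
      (fun j => (PowerSeries.X ^ δ j : PowerSeries ℚ))
    rw [Finset.powerset_univ] at h1
    rw [← mul_neg, ← h1, Finset.mul_sum]
    refine Finset.sum_congr rfl fun J _ => ?_
    rw [Finset.prod_pow_eq_pow_sum, map_pow, map_neg, map_one, map_mul, map_natCast]
    ring
  have hsum : ∑ J : Finset (Fin M),
      (PowerSeries.C ((-1 : ℚ) ^ J.card) * PowerSeries.X ^ (∑ j ∈ J, δ j)) *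
        (-(∑ i, PowerSeries.C (lam i : ℚ) * KO_S w (fun α => (α i : ℚ))) -
          PowerSeries.C ((J.card : ℚ) * (L : ℚ)) * S1) =
      -((∏ j, (1 - PowerSeries.X ^ δ j : PowerSeries ℚ)) *
        ∑ i, PowerSeries.C (lam i : ℚ) * KO_S w (fun α => (α i : ℚ))) +
      (PowerSeries.C (L : ℚ) * ∑ j, PowerSeries.X ^ δ j *
        ∏ i ∈ Finset.univ.erase j, (1 - PowerSeries.X ^ δ i : PowerSeries ℚ)) * S1 := by
    have h5 : ∀ J : Finset (Fin M),
      (PowerSeries.C ((-1 : ℚ) ^ J.card) * PowerSeries.X ^ (∑ j ∈ J, δ j)) *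
        (-(∑ i, PowerSeries.C (lam i : ℚ) * KO_S w (fun α => (α i : ℚ))) -
          PowerSeries.C ((J.card : ℚ) * (L : ℚ)) * S1) =
      (PowerSeries.C ((-1 : ℚ) ^ J.card) * PowerSeries.X ^ (∑ j ∈ J, δ j)) *
        (-(∑ i, PowerSeries.C (lam i : ℚ) * KO_S w (fun α => (α i : ℚ)))) -
      (PowerSeries.C ((-1 : ℚ) ^ J.card) * PowerSeries.X ^ (∑ j ∈ J, δ j)) *
          PowerSeries.C ((J.card : ℚ) * (L : ℚ)) * S1 := fun J => by ring
    rw [Finset.sum_congr rfl fun J _ => h5 J, Finset.sum_sub_distrib, ← Finset.sum_mul,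
      ← Finset.sum_mul, hB, hR]
    ring
  rw [hsum, mul_assoc]
  congr 1
  rw [add_mul, neg_mul, mul_assoc, Finset.sum_mul]
  have h3 : ∑ i, PowerSeries.C (lam i : ℚ) * KO_S w (fun α => (α i : ℚ)) * P ^ 2 =
      ∑ t, PowerSeries.C (lam t : ℚ) * (PowerSeries.X ^ (w t + 1) *
        ∏ s ∈ Finset.univ.erase t, (1 - PowerSeries.X ^ (w s + 1))) :=
    Finset.sum_congr rfl fun t _ => by rw [mul_assoc, hSt]
  rw [h3, show ∀ Y : PowerSeries ℚ, Y * S1 * P ^ 2 = Y * P * (S1 * P) from fun Y => by ring, hP,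
    mul_one]

/-! ### the identity of polynomials -/

private theorem KO_poly {n M : ℕ} (w : Fin n → ℕ) (δ : Fin M → ℕ) (lam : Fin n → ℤ) (L : ℤ)
    (m0 : ℕ) (h : ∀ m, m0 ≤ m → ∑ t : IxW w δ m, (if parW t = true then -1 else 1) *
      (-(∑ i, (t.1.2.2 i : ℤ) * lam i) - ∑ _j ∈ t.1.2.1, L) = 0) :
    ∃ T : Polynomial ℚ, T * (∏ t, (1 - Polynomial.X ^ (w t + 1))) ^ 2 =
    (1 - Polynomial.X) * (-((∏ j, (1 - Polynomial.X ^ δ j)) *
      ∑ t, Polynomial.C (lam t : ℚ) * (Polynomial.X ^ (w t + 1) *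
        ∏ s ∈ Finset.univ.erase t, (1 - Polynomial.X ^ (w s + 1)))) +
      Polynomial.C (L : ℚ) * (∑ j, Polynomial.X ^ δ j *
        ∏ i ∈ Finset.univ.erase j, (1 - Polynomial.X ^ δ i)) *
          ∏ t, (1 - Polynomial.X ^ (w t + 1))) := by
  set T₀ : PowerSeries ℚ := PowerSeries.mk fun m => ((∑ t : IxW w δ m,
    (if parW t = true then -1 else 1) *
      (-(∑ i, (t.1.2.2 i : ℤ) * lam i) - ∑ _j ∈ t.1.2.1, L) : ℤ) : ℚ) with hT₀
  refine ⟨PowerSeries.trunc m0 T₀, ?_⟩
  have hT : ((PowerSeries.trunc m0 T₀ : Polynomial ℚ) : PowerSeries ℚ) = T₀ := by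
    ext m
    rw [Polynomial.coeff_coe, PowerSeries.coeff_trunc]
    by_cases hm : m < m0
    · rw [if_pos hm]
    · rw [if_neg hm, hT₀, PowerSeries.coeff_mk, h m (not_lt.1 hm), Int.cast_zero]
  have hser := KO_series w δ lam L
  rw [← hT₀, ← hT] at hser
  have hinj : Function.Injective (Polynomial.coeToPowerSeries.ringHom (R := ℚ)) :=
    Polynomial.coe_injective ℚ
  apply hinj
  have φX : Polynomial.coeToPowerSeries.ringHom (R := ℚ) Polynomial.X = PowerSeries.X :=
    Polynomial.coe_X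
  have φC : ∀ a : ℚ, Polynomial.coeToPowerSeries.ringHom (R := ℚ) (Polynomial.C a) =
    PowerSeries.C a := fun a => Polynomial.coe_C a
  have φT : Polynomial.coeToPowerSeries.ringHom (R := ℚ) (PowerSeries.trunc m0 T₀) =
    ((PowerSeries.trunc m0 T₀ : Polynomial ℚ) : PowerSeries ℚ) := rfl
  simp only [map_mul, map_pow, map_prod, map_sub, map_one, map_add, map_neg, map_sum, φX, φC, φT]
  exact hser

theorem order_w {M : ℕ} (w : Fin (M + 1) → ℕ) (δ : Fin M → ℕ) (hδ : ∀ j, 0 < δ j)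
    (lam : Fin (M + 1) → ℤ) (L : ℤ) (m0 : ℕ)
    (h : ∀ m, m0 ≤ m → ∑ t : IxW w δ m, (if parW t = true then -1 else 1) *
      (-(∑ i, (t.1.2.2 i : ℤ) * lam i) - ∑ _j ∈ t.1.2.1, L) = 0) :
    ∑ i, (lam i : ℚ) / ((w i : ℚ) + 1) = (L : ℚ) * ∑ j, 1 / (δ j : ℚ) := by
  obtain ⟨T, hT⟩ := KO_poly w δ lam L m0 h
  have hgeo : ∀ l : ℕ, (1 - Polynomial.X ^ l : Polynomial ℚ) =
      (1 - Polynomial.X) * ∑ i ∈ Finset.range l, Polynomial.X ^ i := fun l =>
    (mul_neg_geom_sum _ _).symm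
  set g : ℕ → Polynomial ℚ := fun l => ∑ i ∈ Finset.range l, Polynomial.X ^ i with hg
  have hg1 : ∀ l : ℕ, (g l).eval 1 = (l : ℚ) := by
    intro l
    rw [hg]
    simp only [Polynomial.eval_finsetSum, Polynomial.eval_pow, Polynomial.eval_X, one_pow,
      Finset.sum_const, Finset.card_range, nsmul_eq_mul, mul_one]
  simp only [hgeo, Finset.prod_mul_distrib, Finset.prod_const, Finset.card_univ,
    Fintype.card_fin, Finset.card_erase_of_mem (Finset.mem_univ _)] at hT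
  set u : Polynomial ℚ := 1 - Polynomial.X with hu
  have hu0 : u ≠ 0 := by
    intro h0
    have h1 := congrArg (Polynomial.eval 0) h0
    rw [hu] at h1
    simp at h1
  have hR : u * ∑ j : Fin M, Polynomial.X ^ δ j * (u ^ (M - 1) *
      ∏ i ∈ Finset.univ.erase j, g (δ i)) =
      u ^ M * ∑ j : Fin M, Polynomial.X ^ δ j * ∏ i ∈ Finset.univ.erase j, g (δ i) := by
    rw [Finset.mul_sum, Finset.mul_sum]
    refine Finset.sum_congr rfl fun j _ => ?_
    have hM : u ^ M = u * u ^ (M - 1) := by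
      rw [← pow_succ', Nat.sub_add_cancel (Nat.succ_le_of_lt j.pos)]
    rw [hM]
    ring
  have hL : ∑ t : Fin (M + 1), Polynomial.C (lam t : ℚ) * (Polynomial.X ^ (w t + 1) *
      (u ^ (M + 1 - 1) * ∏ s ∈ Finset.univ.erase t, g (w s + 1))) =
      u ^ M * ∑ t : Fin (M + 1), Polynomial.C (lam t : ℚ) * (Polynomial.X ^ (w t + 1) *
        ∏ s ∈ Finset.univ.erase t, g (w s + 1)) := by
    rw [Finset.mul_sum]
    refine Finset.sum_congr rfl fun t _ => ?_
    rw [Nat.add_sub_cancel]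
    ring
  have hT1 : T * (u ^ (M + 1) * ∏ t, g (w t + 1)) ^ 2 = u * (-((u ^ M * ∏ j, g (δ j)) *
      ∑ t : Fin (M + 1), Polynomial.C (lam t : ℚ) * (Polynomial.X ^ (w t + 1) *
      (u ^ (M + 1 - 1) * ∏ s ∈ Finset.univ.erase t, g (w s + 1)))) +
      (Polynomial.C (L : ℚ) * ∑ j : Fin M, Polynomial.X ^ δ j * (u ^ (M - 1) *
      ∏ i ∈ Finset.univ.erase j, g (δ i))) * (u ^ (M + 1) * ∏ t, g (w t + 1))) := hT
  rw [hL] at hT1
  clear hL hT
  set PA : Polynomial ℚ := ∏ t, g (w t + 1) with hPA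
  set PB : Polynomial ℚ := ∏ j, g (δ j) with hPB
  set Λ : Polynomial ℚ := ∑ t : Fin (M + 1), Polynomial.C (lam t : ℚ) *
    (Polynomial.X ^ (w t + 1) * ∏ s ∈ Finset.univ.erase t, g (w s + 1)) with hΛ
  set R' : Polynomial ℚ := ∑ j : Fin M, Polynomial.X ^ δ j *
    ∏ i ∈ Finset.univ.erase j, g (δ i) with hR'
  set R : Polynomial ℚ := ∑ j : Fin M, Polynomial.X ^ δ j * (u ^ (M - 1) *
      ∏ i ∈ Finset.univ.erase j, g (δ i)) with hRdef
  have hT2 : u ^ (2 * M + 1) * (T * u * PA ^ 2) =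
      u ^ (2 * M + 1) * (-(PB * Λ) + Polynomial.C (L : ℚ) * R' * PA) := by
    calc u ^ (2 * M + 1) * (T * u * PA ^ 2) = T * (u ^ (M + 1) * PA) ^ 2 := by ring
      _ = u * (-((u ^ M * PB) * (u ^ M * Λ)) + (Polynomial.C (L : ℚ) * R) *
        (u ^ (M + 1) * PA)) := hT1
      _ = u ^ (2 * M + 1) * (-(PB * Λ)) + Polynomial.C (L : ℚ) * (u * R) * (u ^ (M + 1) * PA) := by
        ring
      _ = u ^ (2 * M + 1) * (-(PB * Λ) + Polynomial.C (L : ℚ) * R' * PA) := by
        rw [hR]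
        ring
  have hT3 := mul_left_cancel₀ (pow_ne_zero _ hu0) hT2
  have hT4 := congrArg (Polynomial.eval 1) hT3
  have eu : Polynomial.eval 1 u = 0 := by
    rw [hu, Polynomial.eval_sub, Polynomial.eval_one, Polynomial.eval_X, sub_self]
  have ePA : Polynomial.eval 1 PA = ∏ t, ((w t : ℚ) + 1) := by
    rw [hPA, Polynomial.eval_prod]
    refine Finset.prod_congr rfl fun t _ => ?_
    rw [hg1]
    push_cast
    rfl
  have ePB : Polynomial.eval 1 PB = ∏ j, (δ j : ℚ) := by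
    rw [hPB, Polynomial.eval_prod]
    exact Finset.prod_congr rfl fun t _ => hg1 _
  have hwpos : ∀ t, ((w t : ℚ) + 1) ≠ 0 := fun t => by positivity
  have hδpos : ∀ j, (δ j : ℚ) ≠ 0 := fun j => by
    have := hδ j
    positivity
  have eΛ : Polynomial.eval 1 Λ = (∏ t, ((w t : ℚ) + 1)) * ∑ t, (lam t : ℚ) / ((w t : ℚ) + 1) := by
    rw [hΛ, Polynomial.eval_finsetSum, Finset.mul_sum]
    refine Finset.sum_congr rfl fun t _ => ?_
    rw [Polynomial.eval_mul, Polynomial.eval_C, Polynomial.eval_mul, Polynomial.eval_pow,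
      Polynomial.eval_X, one_pow, one_mul, Polynomial.eval_prod,
      ← Finset.mul_prod_erase Finset.univ (fun t => (w t : ℚ) + 1) (Finset.mem_univ t)]
    have h1 : ∏ s ∈ Finset.univ.erase t, Polynomial.eval 1 (g (w s + 1)) =
        ∏ s ∈ Finset.univ.erase t, ((w s : ℚ) + 1) := by
      refine Finset.prod_congr rfl fun s _ => ?_
      rw [hg1]
      push_cast
      rfl
    rw [h1]
    have := hwpos t
    field_simp
  have eR : Polynomial.eval 1 R' = (∏ j, (δ j : ℚ)) * ∑ j, 1 / (δ j : ℚ) := by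
    rw [hR', Polynomial.eval_finsetSum, Finset.mul_sum]
    refine Finset.sum_congr rfl fun j _ => ?_
    rw [Polynomial.eval_mul, Polynomial.eval_pow, Polynomial.eval_X, one_pow, one_mul,
      Polynomial.eval_prod, ← Finset.mul_prod_erase Finset.univ (fun j => (δ j : ℚ))
        (Finset.mem_univ j), Finset.prod_congr rfl fun i _ => hg1 (δ i)]
    have := hδpos j
    field_simp
  rw [Polynomial.eval_mul, Polynomial.eval_mul, eu, mul_zero, zero_mul, Polynomial.eval_add,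
    Polynomial.eval_neg, Polynomial.eval_mul, Polynomial.eval_mul, Polynomial.eval_mul,
    Polynomial.eval_C, ePA, ePB, eΛ, eR] at hT4
  have hA0 : (∏ t, ((w t : ℚ) + 1)) ≠ 0 := Finset.prod_ne_zero_iff.2 fun t _ => hwpos t
  have hB0 : (∏ j, (δ j : ℚ)) ≠ 0 := Finset.prod_ne_zero_iff.2 fun j _ => hδpos j
  have hT5 : ((∏ t, ((w t : ℚ) + 1)) * ∏ j, (δ j : ℚ)) * (∑ i, (lam i : ℚ) / ((w i : ℚ) + 1)) =
      ((∏ t, ((w t : ℚ) + 1)) * ∏ j, (δ j : ℚ)) * ((L : ℚ) * ∑ j, 1 / (δ j : ℚ)) := by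
    linear_combination hT4
  exact mul_left_cancel₀ (mul_ne_zero hA0 hB0) hT5

end Pool.Agent.LibTC1.KW
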