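import Pool.Agent.LibTC1.KS2
import Pool.Agent.LibTC1.KS3
import Pool.Agent.LibTC1.KS4
import Pool.Agent.LibTC1.KO
import Pool.Agent.LibTC1.KE
import Pool.Agent.LibTC1.KG
import Pool.Agent.LibTC1.KH
import Pool.Agent.LibTC1.KI
import Pool.Agent.LibTC1.KJ
import Pool.Agent.LibTC1.KK
import Pool.Agent.LibPK60.Tor
import Pool.Agent.LibPK60.M3

/-!
Assembly of (T2): a curve with nonzero weight meets the locus with nontrivial solutions.
-/

open scoped Classical
open MvPolynomial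

set_option linter.unusedSectionVars false

namespace Pool.Agent.LibTC1.KW

open Pool.Agent.LibPK60 Pool.Agent.LibBH2 Pool.Agent.LibQC8

variable {ι : Type} [Fintype ι] {r : ℕ} {k : Type} [Field k] {P : Tor ι r}
  {K : Type} [Field K] [Algebra k K]

theorem exists_i0 {R : Type} [Zero R] (a : ι → ℤ) (ha : a ∈ Rel P) (h0 : ∀ i, 0 ≤ a i) (hne : a ≠ 0)
    (z : ι → R) (hz : zs z ∈ P.C) : ∃ i, 0 < a i ∧ z i ≠ 0 := by
  by_contra hc
  push Not at hc
  have h1 : sp (fun i => (a i).toNat) ∈ P.C := by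
    refine P.down _ hz _ fun i hi => ?_
    unfold sp at hi
    unfold zs
    rw [Finset.mem_filter] at hi ⊢
    refine ⟨Finset.mem_univ _, hc i ?_⟩
    have h1 : (a i).toNat ≠ 0 := hi.2
    omega
  have h2 : sp (fun _ : ι => 0) ∈ P.C := by
    refine P.down _ hz _ fun i hi => ?_
    unfold sp at hi
    rw [Finset.mem_filter] at hi
    exact absurd rfl hi.2
  have h3 := P.uniq _ _ h1 h2 (fun j => by
    have h4 : ∑ i, a i * P.v i j = 0 := ha j
    simp only [Nat.cast_zero, zero_mul, Finset.sum_const_zero]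
    rw [← h4]
    exact Finset.sum_congr rfl fun i _ => by rw [Int.toNat_of_nonneg (h0 i)])
  apply hne
  funext i
  have h4 := congrFun h3 i
  have h5 := h0 i
  simp only [Pi.zero_apply] at h4 ⊢
  omega

private theorem ord_prod' (v : Place k K) {I : Type} (A : Finset I) (f : I → K)
    (hf : ∀ i, f i ≠ 0) : v.ord (∏ i ∈ A, f i) = ∑ i ∈ A, v.ord (f i) := by
  induction A using Finset.induction_on with
  | empty => simp
  | insert a A ha ih =>
    rw [Finset.prod_insert ha, Finset.sum_insert ha, v.ord_mul _ _ (hf a)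
      (Finset.prod_ne_zero_iff.2 fun t _ => hf t), ih]

theorem ord_pwW {n M : ℕ} {w : Fin n → ℕ} {δ : Fin M → ℕ} {d : ℕ} (v : Place k K)
    (μ : Fin n → K) (ρ : Fin M → K) (hμ : ∀ i, μ i ≠ 0) (hρ : ∀ j, ρ j ≠ 0) (t : IxW w δ d) :
    v.ord (pwW μ ρ t) =
      -(∑ i, (t.1.2.2 i : ℤ) * v.ord (μ i)) - ∑ j ∈ t.1.2.1, v.ord (ρ j) := by
  have h1 : (∏ i, μ i ^ t.1.2.2 i) ≠ 0 :=
    Finset.prod_ne_zero_iff.2 fun i _ => pow_ne_zero _ (hμ i)
  have h2 : (∏ j ∈ t.1.2.1, ρ j) ≠ 0 := Finset.prod_ne_zero_iff.2 fun j _ => hρ j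
  unfold pwW
  rw [Place.ord_inv, v.ord_mul _ _ h1 h2, ord_prod' v _ _ (fun i => pow_ne_zero _ (hμ i)),
    ord_prod' v _ _ hρ]
  simp only [Place.ord_pow]
  ring

theorem good_at [IsAlgClosed k] [CharZero k] (X : Hyp k P) (a : ι → ℤ) (ha : a ∈ Rel P)
    (h0 : ∀ i, 0 ≤ a i) (hne : a ≠ 0) {M : ℕ} (ε : Fin (M + 1) ≃ Un a)
    (hM : (dk a).toNat = M + 1) (v : Place k K) (u : Pt X K) (p : Pt X k) (l : ι → K)
    (h : Sp v u p l) (hp : ¬ ∃ f, Sol X a p.z f) (d : ℕ) (hd : ∑ j, ds M j + 1 ≤ d) :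
    Good v parW (CMW (wt ε) (ds M) d (gs X ε M u.z) (th ε u.z) (as M))
      (pwW (mu ε l) (rh M l)) := by
  obtain ⟨i₀, hai, hi₀⟩ := exists_i0 a ha h0 hne p.z p.cone
  have hpos : 0 < (a i₀).toNat := by omega
  set m₀ : Fin (a i₀).toNat := ⟨0, hpos⟩ with hm₀
  set i₁ : Fin (M + 1) := ε.symm ⟨i₀, m₀⟩ with hi₁
  have hεi : ε i₁ = ⟨i₀, m₀⟩ := by rw [hi₁, Equiv.apply_symm_apply]
  have hs₀ : SysW (gs X ε M p.z) (wt ε) (ds M) (th ε p.z) (as M) :=
    sys_gs X a ha h0 ε M hM p.z p.hF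
  have hc : (((a i₀).toNat : k) * p.z i₀) ≠ 0 :=
    mul_ne_zero (Nat.cast_ne_zero.2 hpos.ne') hi₀
  set c : k := (a i₀).toNat * p.z i₀ with hcdef
  have hth : th ε p.z i₁ = C c := by
    unfold th
    have e1 : (ε i₁).2.val = 0 := by rw [hεi]
    have e2 : (ε i₁).1 = i₀ := by rw [hεi]
    rw [if_pos e1, e1, e2, Nat.sub_zero, hcdef, C_mul, map_natCast]
  have hwt : wt ε i₁ = 0 := by
    unfold wt
    rw [hεi]
  let h₀ : MvPolynomial (Fin (M + 1)) k := C c⁻¹ * MvPolynomial.X i₁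
  have hh₀ : dv (th ε p.z) h₀ = 1 := by
    unfold dv
    rw [Finset.sum_eq_single i₁]
    · change th ε p.z i₁ * pderiv i₁ (C c⁻¹ * MvPolynomial.X i₁) = 1
      rw [pderiv_C_mul, pderiv_X_self, mul_one, hth, ← C_mul, mul_inv_cancel₀ hc, C_1]
    · intro b _ hb
      change th ε p.z b * pderiv b (C c⁻¹ * MvPolynomial.X i₁) = 0
      rw [pderiv_C_mul, pderiv_X_of_ne (Ne.symm hb), mul_zero, mul_zero]
    · intro hb
      exact absurd (Finset.mem_univ _) hb
  have hh₀' : ∀ α, coeff α h₀ ≠ 0 → wm (wt ε) α = 1 := by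
    intro α hα
    change coeff α (C c⁻¹ * MvPolynomial.X i₁) ≠ 0 at hα
    rw [coeff_C_mul, coeff_X] at hα
    have e1 : Finsupp.single i₁ 1 = α := by
      by_contra hcon
      rw [if_neg hcon, mul_zero] at hα
      exact hα rfl
    rw [← e1, wm_single, hwt]
  -- no common zero
  have hz : ∀ y : Fin (M + 1) → k, (∀ j, eval y ((Fin.cons h₀ (gs X ε M p.z) :
      Fin (M + 1) → MvPolynomial (Fin (M + 1)) k) j) = 0) → y = 0 := by
    intro y hy
    have h1 := hy 0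
    rw [Fin.cons_zero] at h1
    change eval y (C c⁻¹ * MvPolynomial.X i₁) = 0 at h1
    rw [map_mul, eval_C, eval_X, mul_eq_zero] at h1
    have h2 : y i₁ = 0 := by
      rcases h1 with h1 | h1
      · exact absurd h1 (inv_ne_zero hc)
      · exact h1
    refine gs_zero X a ha h0 ε M hM p.z p.hF hp i₀ m₀ rfl hi₀ y ?_ h2
    intro j
    have h3 := hy j.succ
    rwa [Fin.cons_succ] at h3
  have hacy := acy_forms _ hz
  have htop : ∀ f : MvPolynomial (Fin (M + 1)) k, (∀ α, coeff α f ≠ 0 → wm (wt ε) α = d) →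
      f ∈ Ideal.span (Set.range (Fin.cons h₀ (gs X ε M p.z) :
        Fin (M + 1) → MvPolynomial (Fin (M + 1)) k)) := by
    intro f hf
    refine top_memW (wt ε) _ (Fin.cons 1 (ds M) : Fin (M + 1) → ℕ) ?_ hz d ?_ f hf
    · intro j
      refine Fin.cases ?_ (fun q => ?_) j
      · rw [Fin.cons_zero, Fin.cons_zero]
        exact hh₀'
      · rw [Fin.cons_succ, Fin.cons_succ]
        exact hs₀.hom q
    · rw [Fin.sum_univ_succ, Fin.cons_zero]
      simp only [Fin.cons_succ]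
      omega
  have hdec := ker_decompW (wt ε) (gs X ε M p.z) h₀ (ds M) d hacy htop
  have hex := cone_exactW (gs X ε M p.z) (wt ε) (ds M) (th ε p.z) (as M) hs₀ h₀ hh₀ d hdec
  have hodd : IsOdd parW (CMW (wt ε) (ds M) d (gs X ε M p.z) (th ε p.z) (as M)) :=
    CMW_odd _ _ _ _ _ _
  obtain ⟨H, hH, hH2⟩ := exists_homotopy parW (CMW (wt ε) (ds M) d (gs X ε M p.z) (th ε p.z) (as M))
    hodd (CMW_sq _ _ _ _ _ hs₀ d) (CMW_ker _ _ _ _ _ hs₀ d hex)
  have hln := h.tor.1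
  have hmu : ∀ i, mu ε l i ≠ 0 := fun i => hln _
  have hrh : ∀ j, rh M l j ≠ 0 := fun _ => Finset.prod_ne_zero_iff.2 fun i _ => hln i
  refine ⟨?_, CMW (wt ε) (ds M) d (gs X ε M p.z) (th ε p.z) (as M), H, hodd, hH, hH2, ?_⟩
  · intro t
    unfold pwW
    refine inv_ne_zero (mul_ne_zero ?_ ?_)
    · exact Finset.prod_ne_zero_iff.2 fun i _ => pow_ne_zero _ (hmu i)
    · exact Finset.prod_ne_zero_iff.2 fun i _ => hrh i
  · intro s t
    rw [CMW_scale (wt ε) (ds M) d (gs X ε M u.z) (gs X ε M (fun i => l i * u.z i))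
      (th ε u.z) (th ε (fun i => l i * u.z i)) (as M) (mu ε l) (rh M l) hmu hrh
      (fun q α => gs_scale X ε M u.z l h.tor q α) (fun i α => th_scale ε u.z l hln i α)
      (fun _ _ _ _ => rfl) s t]
    exact CMW_val v (wt ε) (ds M) d _ _ _ _ (as M)
      (fun q α => gs_val X ε M v _ _ h.val q α) (fun i α => th_val ε v _ _ h.val i α) s t

/-- harmonic numbers -/
private theorem sum_harm (a : ι → ℤ) {n : ℕ} (ε : Fin n ≃ Un a) (D : ι → ℤ) :
    ∑ t, (D (ε t).1 : ℚ) / ((wt ε t : ℚ) + 1) = ∑ i, harmonic (a i).toNat * (D i : ℚ) := by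
  have h1 : ∑ t, (D (ε t).1 : ℚ) / ((wt ε t : ℚ) + 1) =
      ∑ s : Un a, (D s.1 : ℚ) / ((s.2.val : ℚ) + 1) :=
    Fintype.sum_equiv ε _ _ fun t => rfl
  rw [h1, Fintype.sum_sigma]
  refine Finset.sum_congr rfl fun i _ => ?_
  unfold harmonic
  rw [Finset.sum_mul, Finset.sum_range]
  refine Finset.sum_congr rfl fun m _ => ?_
  push_cast
  rw [div_eq_mul_inv, mul_comm]

theorem main [IsAlgClosed k] [CharZero k] (X : Hyp k P) (a : ι → ℤ) (ha : a ∈ Rel P)
    (h0 : ∀ i, 0 ≤ a i) (hne : a ≠ 0)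
    (hK : IsFunctionField k K) (u : Pt X K) (D : ι → ℤ) (hD : HasDeg u D)
    (hn : ∑ i, (harmonic (dk a - 1).toNat - harmonic (a i).toNat) * (D i : ℚ) ≠ 0) :
    ∃ (v : Place k K) (p : Pt X k) (l : ι → K), Sp v u p l ∧ ∃ f, Sol X a p.z f := by
  by_contra hcon
  push Not at hcon
  obtain ⟨A, p, l, hsp, hA, hDe⟩ := hD
  have hno : ∀ v, ¬ ∃ f, Sol X a (p v).z f := by
    rintro v ⟨f, hf⟩
    exact hcon v (p v) (l v) (hsp v) f hf
  obtain ⟨v₀⟩ : Nonempty (Place k K) := by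
    by_contra hemp
    rw [not_nonempty_iff] at hemp
    have hA0 : A = ∅ := Finset.eq_empty_of_isEmpty A
    apply hn
    refine Finset.sum_eq_zero fun i _ => ?_
    rw [hDe, hA0, Finset.sum_empty, Int.cast_zero, mul_zero]
  -- the numbers
  have hdk : dk a = ((∑ i, (a i).toNat : ℕ) : ℤ) := by
    unfold dk
    push_cast
    exact Finset.sum_congr rfl fun i _ => (Int.toNat_of_nonneg (h0 i)).symm
  have hdk1 : 0 < (dk a).toNat := by
    obtain ⟨i, hi⟩ := Function.ne_iff.1 hne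
    have h1 : (a i).toNat ≤ ∑ i, (a i).toNat :=
      Finset.single_le_sum (f := fun i => (a i).toNat) (fun _ _ => Nat.zero_le _) (Finset.mem_univ i)
    have h2 := h0 i
    simp only [Pi.zero_apply] at hi
    omega
  obtain ⟨M, hM⟩ : ∃ M, (dk a).toNat = M + 1 := ⟨(dk a).toNat - 1, by omega⟩
  have hcard : Fintype.card (Un a) = M + 1 := by
    rw [Fintype.card_sigma]
    simp only [Fintype.card_fin]
    omega
  let ε : Fin (M + 1) ≃ Un a := (Fintype.equivFinOfCardEq hcard).symm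
  have hsu : SysW (gs X ε M u.z) (wt ε) (ds M) (th ε u.z) (as M) :=
    sys_gs X a ha h0 ε M hM u.z u.hF
  -- the sum over the places
  have key : ∀ m, ∑ j, ds M j + 1 ≤ m →
      ∑ t : IxW (wt ε) (ds M) m, (if parW t = true then -1 else 1) *
        (-(∑ i, (t.1.2.2 i : ℤ) * D (ε i).1) - ∑ _j ∈ t.1.2.1, ∑ i, D i) = 0 := by
    intro m hm
    obtain ⟨a', ha', hord⟩ := tor hK parW (CMW (wt ε) (ds M) m (gs X ε M u.z) (th ε u.z) (as M))
      (CMW_odd _ _ _ _ _ _) (CMW_sq _ _ _ _ _ hsu m) (by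
        exact ⟨v₀, _, good_at X a ha h0 hne ε hM v₀ u (p v₀) (l v₀) (hsp v₀) (hno v₀) m hm⟩)
    have h1 : ∀ v : Place k K, v.ord a' = ∑ t : IxW (wt ε) (ds M) m, (if parW t = true then -1 else 1) *
        (-(∑ i, (t.1.2.2 i : ℤ) * v.ord (l v (ε i).1)) - ∑ _j ∈ t.1.2.1, ∑ i, v.ord (l v i)) := by
      intro v
      rw [hord v _ (good_at X a ha h0 hne ε hM v u (p v) (l v) (hsp v) (hno v) m hm)]
      refine Finset.sum_congr rfl fun t _ => ?_
      have hln := (hsp v).tor.1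
      have hmu : ∀ i, mu ε (l v) i ≠ 0 := fun i => hln _
      have hrh : ∀ j, rh M (l v) j ≠ 0 := fun _ => Finset.prod_ne_zero_iff.2 fun i _ => hln i
      rw [ord_pwW v (mu ε (l v)) (rh M (l v)) hmu hrh t]
      have h2 : ∀ j, v.ord (rh M (l v) j) = ∑ i, v.ord (l v i) := fun _ =>
        ord_prod' v _ _ hln
      simp only [h2]
      rfl
    obtain ⟨hfin, hsum⟩ := Pool.Agent.LibEnd77.Val8.sum_formula hK a'
    have h3 : ∑ v ∈ A, v.ord a' = 0 := by
      rw [← hsum]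
      refine (finsum_eq_sum_of_support_subset _ ?_).symm
      intro v hv
      by_contra hvA
      apply hv
      show v.ord a' = 0
      rw [h1]
      refine Finset.sum_eq_zero fun t _ => ?_
      have h4 := hA v hvA
      simp only [h4, mul_zero, Finset.sum_const_zero, neg_zero, sub_zero]
    rw [← h3]
    simp only [h1]
    rw [Finset.sum_comm]
    refine Finset.sum_congr rfl fun t _ => ?_
    rw [← Finset.mul_sum]
    congr 1
    rw [Finset.sum_sub_distrib, Finset.sum_neg_distrib]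
    congr 1
    · congr 1
      rw [Finset.sum_comm]
      refine Finset.sum_congr rfl fun i _ => ?_
      rw [hDe, Finset.mul_sum]
    · rw [Finset.sum_comm (s := A)]
      refine Finset.sum_congr rfl fun j _ => ?_
      rw [Finset.sum_comm (s := A)]
      exact Finset.sum_congr rfl fun i _ => hDe i
  have h5 := order_w (wt ε) (ds M) hsu.pos (fun i => D (ε i).1) (∑ i, D i) (∑ j, ds M j + 1) key
  rw [sum_harm a ε D] at h5
  apply hn
  have h6 : (dk a - 1).toNat = M := by omega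
  have h7 : ∑ j : Fin M, 1 / (ds M j : ℚ) = harmonic M := by
    unfold harmonic ds
    rw [Finset.sum_range]
    refine Finset.sum_congr rfl fun j _ => ?_
    rw [one_div]
  rw [h6]
  simp only [sub_mul, Finset.sum_sub_distrib]
  rw [h5, h7, ← Finset.mul_sum]
  push_cast
  ring

end Pool.Agent.LibTC1.KW
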