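import Pool.Agent.LibTC1.SDefs
import Pool.Agent.LibTC1.K0

/-!
The weighted system attached to quasi-maps of class `a` through `x`: the unknowns are the coefficients `y_(i, m + 1)` of
`t ^ (m + 1)` in `f_i`, `m < a i`, numbered by `ε`; the equations say that the coefficients of `t, ..., t ^ M` of `F ∘ f`
vanish, where `∑ i, a i = M + 1`.
-/

open scoped Classical
open MvPolynomial

set_option linter.unusedSectionVars false

namespace Pool.Agent.LibTC1.KW

open Pool.Agent.LibPK60 Pool.Agent.LibBH2 Pool.Agent.LibQC8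

variable {ι : Type} [Fintype ι] {r : ℕ} {k : Type} [Field k] {P : Tor ι r} {n : ℕ}
  {K : Type} [Field K] [Algebra k K]

/-- the unknown coefficients: `(i, m)` is the coefficient of `t ^ (m + 1)` in `f_i`, `m < a i` -/
abbrev Un (a : ι → ℤ) : Type := Σ i : ι, Fin (a i).toNat

/-- the weight of an unknown, minus one -/
def wt {a : ι → ℤ} (ε : Fin n ≃ Un a) (t : Fin n) : ℕ := (ε t).2.val

/-- the generic quasi-map through `x` -/
noncomputable def gen {a : ι → ℤ} (ε : Fin n ≃ Un a) (x : ι → K) (i : ι) :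
    Polynomial (MvPolynomial (Fin n) K) :=
  Polynomial.C (C (x i)) + ∑ m : Fin (a i).toNat,
    Polynomial.C (X (ε.symm ⟨i, m⟩)) * Polynomial.X ^ (m.val + 1)

/-- the coefficient of `t ^ l` of `F ∘ f` -/
noncomputable def kap (X : Hyp k P) {a : ι → ℤ} (ε : Fin n ≃ Un a) (x : ι → K) (l : ℕ) :
    MvPolynomial (Fin n) K :=
  (cmp X (gen ε x)).coeff l

/-- the polynomials `θ`: `D y_(i, m + 1) = (a i - m) y_(i, m)`, `y_(i, 0) = x i` -/
noncomputable def th {a : ι → ℤ} (ε : Fin n ≃ Un a) (x : ι → K) (t : Fin n) :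
    MvPolynomial (Fin n) K :=
  (((a (ε t).1).toNat - (ε t).2.val : ℕ) : MvPolynomial (Fin n) K) *
    if (ε t).2.val = 0 then C (x (ε t).1)
    else X (ε.symm ⟨(ε t).1, ⟨(ε t).2.val - 1, lt_of_le_of_lt (Nat.sub_le _ _) (ε t).2.isLt⟩⟩)

/-- the equations -/
noncomputable def gs (X : Hyp k P) {a : ι → ℤ} (ε : Fin n ≃ Un a) (M : ℕ) (x : ι → K) :
    Fin M → MvPolynomial (Fin n) K :=
  fun j => kap X ε x (j.val + 1)

/-- their weights -/
def ds (M : ℕ) : Fin M → ℕ := fun j => j.val + 1

/-- the coefficients in `D g_j = a_j g_(j-1)` -/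
def as (M : ℕ) : Fin M → ℕ := fun j => M + 1 - j.val

/-- the weights of the unknowns for the torus -/
def mu {a : ι → ℤ} (ε : Fin n ≃ Un a) (l : ι → K) : Fin n → K := fun t => l (ε t).1

/-- the weight of the equations for the torus -/
def rh (M : ℕ) (l : ι → K) : Fin M → K := fun _ => ∏ i, l i

end Pool.Agent.LibTC1.KW
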