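import Pool.Agent.LibTC1.KS0
import Pool.Agent.LibTC1.KB

/-!
[TC1 KS1] the system: derivation and weights of the coefficients of `F ∘ f`.
-/

open scoped Classical
open MvPolynomial

set_option linter.unusedSectionVars false

namespace Pool.Agent.LibTC1.KW

open Pool.Agent.LibPK60 Pool.Agent.LibBH2 Pool.Agent.LibQC8

variable {ι : Type} [Fintype ι] {r : ℕ} {k : Type} [Field k] {P : Tor ι r} {n : ℕ}
  {K : Type} [Field K] [Algebra k K]

theorem sum_exp (X : Hyp k P) (a : ι → ℤ) (ha : a ∈ Rel P) (h0 : ∀ i, 0 ≤ a i) (e : ι →₀ ℕ)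
    (he : e ∈ X.F.support) : ∑ i, e i * (a i).toNat = (dk a).toNat := by
  obtain ⟨m, hm⟩ := X.mon e he
  have hrel : ∀ j, ∑ i, a i * P.v i j = 0 := ha
  have h1 : ((∑ i, e i * (a i).toNat : ℕ) : ℤ) = dk a := by
    push_cast
    have h2 : ∀ i, (e i : ℤ) * ((a i).toNat : ℤ) = ∑ j, m j * (a i * P.v i j) + a i := by
      intro i
      rw [Int.toNat_of_nonneg (h0 i), hm i, add_mul, one_mul, Finset.sum_mul]
      congr 1
      exact Finset.sum_congr rfl fun j _ => by ring
    rw [Finset.sum_congr rfl fun i _ => h2 i, Finset.sum_add_distrib, Finset.sum_comm]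
    have h3 : ∑ j, ∑ i, m j * (a i * P.v i j) = 0 :=
      Finset.sum_eq_zero fun j _ => by rw [← Finset.mul_sum, hrel j, mul_zero]
    rw [h3, zero_add]
    rfl
  rw [← h1, Int.toNat_natCast]

/-! ### the coefficients of the generic quasi-map -/

private theorem KS1_coeff_zero {a : ι → ℤ} (ε : Fin n ≃ Un a) (x : ι → K) (i : ι) :
    (gen ε x i).coeff 0 = C (x i) := by
  unfold gen
  rw [Polynomial.coeff_add, Polynomial.coeff_C_zero, Polynomial.finsetSum_coeff]
  rw [Finset.sum_eq_zero, add_zero]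
  intro m _
  rw [Polynomial.coeff_C_mul_X_pow, if_neg]
  omega

private theorem KS1_coeff_lt {a : ι → ℤ} (ε : Fin n ≃ Un a) (x : ι → K) (i : ι) {l : ℕ}
    (h : l < (a i).toNat) : (gen ε x i).coeff (l + 1) = X (ε.symm ⟨i, ⟨l, h⟩⟩) := by
  unfold gen
  rw [Polynomial.coeff_add, Polynomial.coeff_C_succ, zero_add, Polynomial.finsetSum_coeff,
    Finset.sum_eq_single (⟨l, h⟩ : Fin (a i).toNat)]
  · rw [Polynomial.coeff_C_mul_X_pow, if_pos rfl]
  · intro m _ hm
    rw [Polynomial.coeff_C_mul_X_pow, if_neg]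
    intro h2
    exact hm (Fin.ext (by simpa using h2.symm))
  · intro h2
    exact absurd (Finset.mem_univ _) h2

private theorem KS1_coeff_ge {a : ι → ℤ} (ε : Fin n ≃ Un a) (x : ι → K) (i : ι) {l : ℕ}
    (h : (a i).toNat ≤ l) : (gen ε x i).coeff (l + 1) = 0 := by
  unfold gen
  rw [Polynomial.coeff_add, Polynomial.coeff_C_succ, zero_add, Polynomial.finsetSum_coeff,
    Finset.sum_eq_zero]
  intro m _
  rw [Polynomial.coeff_C_mul_X_pow, if_neg]
  have := m.isLt
  omega

private theorem KS1_alg (c : k) : algebraMap k (Polynomial (MvPolynomial (Fin n) K)) c =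
    Polynomial.C (C (algebraMap k K c)) := by
  rfl

private theorem KS1_cmp (X : Hyp k P) {a : ι → ℤ} (ε : Fin n ≃ Un a) (x : ι → K) :
    cmp X (gen ε x) = ∑ e ∈ X.F.support,
      algebraMap k (Polynomial (MvPolynomial (Fin n) K)) (coeff e X.F) *
        ∏ i, gen ε x i ^ e i := by
  unfold cmp
  rw [aeval_def, eval₂_eq']

theorem kap_zero (X : Hyp k P) {a : ι → ℤ} (ε : Fin n ≃ Un a) (x : ι → K) :
    kap X ε x 0 = C (aeval x X.F) := by
  unfold kap
  rw [KS1_cmp, Polynomial.finsetSum_coeff, aeval_def, eval₂_eq', map_sum]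
  refine Finset.sum_congr rfl fun e _ => ?_
  rw [KS1_alg, Polynomial.coeff_C_mul, map_mul, Polynomial.coeff_zero_eq_eval_zero,
    Polynomial.eval_prod, map_prod]
  congr 1
  refine Finset.prod_congr rfl fun i _ => ?_
  rw [Polynomial.eval_pow, ← Polynomial.coeff_zero_eq_eval_zero, KS1_coeff_zero, map_pow]

/-! ### weights -/

private def KS1_W (w : Fin n → ℕ) (p : Polynomial (MvPolynomial (Fin n) K)) : Prop :=
  ∀ l α, coeff α (p.coeff l) ≠ 0 → wm w α = l

private theorem KS1_W_zero (w : Fin n → ℕ) :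
    KS1_W w (0 : Polynomial (MvPolynomial (Fin n) K)) := by
  intro l α h
  rw [Polynomial.coeff_zero, coeff_zero] at h
  exact absurd rfl h

private theorem KS1_W_add {w : Fin n → ℕ} {p q : Polynomial (MvPolynomial (Fin n) K)}
    (hp : KS1_W w p) (hq : KS1_W w q) : KS1_W w (p + q) := by
  intro l α h
  rw [Polynomial.coeff_add, coeff_add] at h
  by_cases h1 : coeff α (p.coeff l) = 0
  · rw [h1, zero_add] at h
    exact hq l α h
  · exact hp l α h1

private theorem KS1_W_mul {w : Fin n → ℕ} {p q : Polynomial (MvPolynomial (Fin n) K)}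
    (hp : KS1_W w p) (hq : KS1_W w q) : KS1_W w (p * q) := by
  intro l α h
  rw [Polynomial.coeff_mul, coeff_sum] at h
  obtain ⟨u, hu, hne⟩ := Finset.exists_ne_zero_of_sum_ne_zero h
  rw [coeff_mul] at hne
  obtain ⟨s, hs, hne⟩ := Finset.exists_ne_zero_of_sum_ne_zero hne
  have h1 := hp u.1 s.1 (left_ne_zero_of_mul hne)
  have h2 := hq u.2 s.2 (right_ne_zero_of_mul hne)
  rw [← Finset.HasAntidiagonal.mem_antidiagonal.1 hs, wm_add, h1, h2]
  exact Finset.HasAntidiagonal.mem_antidiagonal.1 hu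

private theorem KS1_W_C (w : Fin n → ℕ) (c : K) :
    KS1_W w (Polynomial.C (C c) : Polynomial (MvPolynomial (Fin n) K)) := by
  intro l α h
  rcases l with _ | l
  · rw [Polynomial.coeff_C_zero, coeff_C] at h
    by_cases h1 : 0 = α
    · rw [← h1]
      unfold wm
      exact Finset.sum_eq_zero fun i _ => by rw [Finsupp.coe_zero, Pi.zero_apply, mul_zero]
    · rw [if_neg h1] at h
      exact absurd rfl h
  · rw [Polynomial.coeff_C_succ, coeff_zero] at h
    exact absurd rfl h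

private theorem KS1_W_one (w : Fin n → ℕ) :
    KS1_W w (1 : Polynomial (MvPolynomial (Fin n) K)) := by
  have h := KS1_W_C (K := K) w 1
  rwa [C_1, Polynomial.C_1] at h

private theorem KS1_W_pow {w : Fin n → ℕ} {p : Polynomial (MvPolynomial (Fin n) K)}
    (hp : KS1_W w p) (m : ℕ) : KS1_W w (p ^ m) := by
  induction m with
  | zero => rw [pow_zero]; exact KS1_W_one w
  | succ m ih => rw [pow_succ]; exact KS1_W_mul ih hp

private theorem KS1_W_gen {a : ι → ℤ} (ε : Fin n ≃ Un a) (x : ι → K) (i : ι) :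
    KS1_W (wt ε) (gen ε x i) := by
  intro l α h
  rcases l with _ | l
  · rw [KS1_coeff_zero] at h
    have h1 := KS1_W_C (K := K) (wt ε) (x i) 0 α
    rw [Polynomial.coeff_C_zero] at h1
    exact h1 h
  · by_cases hl : l < (a i).toNat
    · rw [KS1_coeff_lt ε x i hl, coeff_X] at h
      by_cases h1 : Finsupp.single (ε.symm ⟨i, ⟨l, hl⟩⟩) 1 = α
      · rw [← h1, wm_single, mul_one]
        unfold wt
        rw [Equiv.apply_symm_apply]
      · rw [if_neg h1] at h
        exact absurd rfl h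
    · rw [KS1_coeff_ge ε x i (not_lt.1 hl), coeff_zero] at h
      exact absurd rfl h

private theorem KS1_W_cmp (X : Hyp k P) {a : ι → ℤ} (ε : Fin n ≃ Un a) (x : ι → K) :
    KS1_W (wt ε) (cmp X (gen ε x)) := by
  rw [KS1_cmp]
  refine Finset.sum_induction _ (KS1_W (wt ε)) (fun _ _ => KS1_W_add) (KS1_W_zero _) fun e _ => ?_
  rw [KS1_alg]
  refine KS1_W_mul (KS1_W_C _ _) ?_
  exact Finset.prod_induction _ (KS1_W (wt ε)) (fun _ _ => KS1_W_mul) (KS1_W_one _)
    fun i _ => KS1_W_pow (KS1_W_gen ε x i) _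

private theorem KS1_th {a : ι → ℤ} (ε : Fin n ≃ Un a) (x : ι → K) : ThW (wt ε) (th ε x) := by
  intro t α h
  unfold th at h
  have e1 : (((a (ε t).1).toNat - (ε t).2.val : ℕ) : MvPolynomial (Fin n) K) =
      C (((a (ε t).1).toNat - (ε t).2.val : ℕ) : K) := by
    rw [map_natCast]
  rw [e1, coeff_C_mul] at h
  have h2 := right_ne_zero_of_mul h
  by_cases h0 : (ε t).2.val = 0
  · rw [if_pos h0] at h2
    have h3 := KS1_W_C (K := K) (wt ε) (x (ε t).1) 0 α
    rw [Polynomial.coeff_C_zero] at h3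
    rw [h3 h2]
    exact h0.symm
  · rw [if_neg h0, coeff_X] at h2
    by_cases h3 : Finsupp.single (ε.symm ⟨(ε t).1, ⟨(ε t).2.val - 1,
        lt_of_le_of_lt (Nat.sub_le _ _) (ε t).2.isLt⟩⟩) 1 = α
    · rw [← h3, wm_single, mul_one]
      unfold wt
      rw [Equiv.apply_symm_apply]
      change (ε t).2.val - 1 + 1 = (ε t).2.val
      omega
    · rw [if_neg h3] at h2
      exact absurd rfl h2

/-! ### the derivation -/

private theorem KS1_dv_add (θ : Fin n → MvPolynomial (Fin n) K) (f f' : MvPolynomial (Fin n) K) :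
    dv θ (f + f') = dv θ f + dv θ f' := by
  unfold dv
  rw [← Finset.sum_add_distrib]
  refine Finset.sum_congr rfl fun i _ => ?_
  rw [map_add, mul_add]

private theorem KS1_dv_mul (θ : Fin n → MvPolynomial (Fin n) K) (h f : MvPolynomial (Fin n) K) :
    dv θ (h * f) = dv θ h * f + h * dv θ f := by
  unfold dv
  rw [Finset.sum_mul, Finset.mul_sum, ← Finset.sum_add_distrib]
  refine Finset.sum_congr rfl fun i _ => ?_
  rw [pderiv_mul]
  ring

private theorem KS1_dv_C (θ : Fin n → MvPolynomial (Fin n) K) (c : K) : dv θ (C c) = 0 := by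
  unfold dv
  exact Finset.sum_eq_zero fun i _ => by rw [pderiv_C, mul_zero]

private theorem KS1_dv_zero (θ : Fin n → MvPolynomial (Fin n) K) : dv θ 0 = 0 := by
  have h := KS1_dv_C θ 0
  rwa [C_0] at h

private theorem KS1_dv_X (θ : Fin n → MvPolynomial (Fin n) K) (t : Fin n) :
    dv θ (X t) = θ t := by
  unfold dv
  rw [Finset.sum_eq_single t]
  · rw [pderiv_X_self, mul_one]
  · intro b _ hb
    rw [pderiv_X_of_ne hb.symm, mul_zero]
  · intro h
    exact absurd (Finset.mem_univ t) h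

private theorem KS1_dv_sum (θ : Fin n → MvPolynomial (Fin n) K) {β : Type} (s : Finset β)
    (f : β → MvPolynomial (Fin n) K) : dv θ (∑ b ∈ s, f b) = ∑ b ∈ s, dv θ (f b) := by
  induction s using Finset.induction_on with
  | empty => rw [Finset.sum_empty, Finset.sum_empty]; exact KS1_dv_zero θ
  | insert b s hb ih => rw [Finset.sum_insert hb, Finset.sum_insert hb, KS1_dv_add, ih]

private structure KS1_E (θ : Fin n → MvPolynomial (Fin n) K) (c : ℕ)
    (p : Polynomial (MvPolynomial (Fin n) K)) : Prop where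
  z : dv θ (p.coeff 0) = 0
  s : ∀ l : ℕ, dv θ (p.coeff (l + 1)) =
    ((c : MvPolynomial (Fin n) K) - (l : MvPolynomial (Fin n) K)) * p.coeff l

private theorem KS1_E_zero (θ : Fin n → MvPolynomial (Fin n) K) (c : ℕ) : KS1_E θ c 0 :=
  ⟨by rw [Polynomial.coeff_zero]; exact KS1_dv_zero θ,
    fun l => by rw [Polynomial.coeff_zero, Polynomial.coeff_zero, mul_zero]; exact KS1_dv_zero θ⟩

private theorem KS1_E_add {θ : Fin n → MvPolynomial (Fin n) K} {c : ℕ}
    {p q : Polynomial (MvPolynomial (Fin n) K)} (hp : KS1_E θ c p) (hq : KS1_E θ c q) :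
    KS1_E θ c (p + q) :=
  ⟨by rw [Polynomial.coeff_add, KS1_dv_add, hp.z, hq.z, add_zero],
    fun l => by rw [Polynomial.coeff_add, Polynomial.coeff_add, KS1_dv_add, hp.s, hq.s, mul_add]⟩

private theorem KS1_E_C (θ : Fin n → MvPolynomial (Fin n) K) (c : K) :
    KS1_E θ 0 (Polynomial.C (C c)) := by
  refine ⟨by rw [Polynomial.coeff_C_zero]; exact KS1_dv_C θ c, fun l => ?_⟩
  rw [Polynomial.coeff_C_succ, KS1_dv_zero]
  rcases l with _ | l
  · rw [Nat.cast_zero, sub_zero, zero_mul]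
  · rw [Polynomial.coeff_C_succ, mul_zero]

private theorem KS1_E_mul {θ : Fin n → MvPolynomial (Fin n) K} {c c' : ℕ}
    {p q : Polynomial (MvPolynomial (Fin n) K)} (hp : KS1_E θ c p) (hq : KS1_E θ c' q) :
    KS1_E θ (c + c') (p * q) := by
  refine ⟨by rw [Polynomial.mul_coeff_zero, KS1_dv_mul, hp.z, hq.z, zero_mul, mul_zero, add_zero],
    fun l => ?_⟩
  rw [Polynomial.coeff_mul, KS1_dv_sum]
  have h1 : ∑ u ∈ Finset.HasAntidiagonal.antidiagonal (l + 1), dv θ (p.coeff u.1 * q.coeff u.2) =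
      ∑ u ∈ Finset.HasAntidiagonal.antidiagonal (l + 1), dv θ (p.coeff u.1) * q.coeff u.2 +
        ∑ u ∈ Finset.HasAntidiagonal.antidiagonal (l + 1), p.coeff u.1 * dv θ (q.coeff u.2) := by
    rw [← Finset.sum_add_distrib]
    exact Finset.sum_congr rfl fun u _ => KS1_dv_mul θ _ _
  rw [h1, Finset.Nat.sum_antidiagonal_succ, Finset.Nat.sum_antidiagonal_succ', hp.z, hq.z,
    zero_mul, mul_zero, zero_add, zero_add, Polynomial.coeff_mul, Finset.mul_sum,
    ← Finset.sum_add_distrib]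
  refine Finset.sum_congr rfl fun u hu => ?_
  rw [hp.s, hq.s, ← Finset.HasAntidiagonal.mem_antidiagonal.1 hu]
  push_cast
  ring

private theorem KS1_E_one (θ : Fin n → MvPolynomial (Fin n) K) : KS1_E θ 0 1 := by
  have h := KS1_E_C θ (1 : K)
  rwa [C_1, Polynomial.C_1] at h

private theorem KS1_E_pow {θ : Fin n → MvPolynomial (Fin n) K} {c : ℕ}
    {p : Polynomial (MvPolynomial (Fin n) K)} (hp : KS1_E θ c p) (m : ℕ) :
    KS1_E θ (m * c) (p ^ m) := by
  induction m with
  | zero => rw [pow_zero, zero_mul]; exact KS1_E_one θ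
  | succ m ih => rw [pow_succ, add_mul, one_mul]; exact KS1_E_mul ih hp

private theorem KS1_E_prod {θ : Fin n → MvPolynomial (Fin n) K} (s : Finset ι) (c : ι → ℕ)
    (p : ι → Polynomial (MvPolynomial (Fin n) K)) (hp : ∀ i, KS1_E θ (c i) (p i)) :
    KS1_E θ (∑ i ∈ s, c i) (∏ i ∈ s, p i) := by
  induction s using Finset.induction_on with
  | empty => rw [Finset.sum_empty, Finset.prod_empty]; exact KS1_E_one θ
  | insert b s hb ih => rw [Finset.sum_insert hb, Finset.prod_insert hb]; exact KS1_E_mul (hp b) ih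

private noncomputable def KS1_tv {a : ι → ℤ} (ε : Fin n ≃ Un a) (x : ι → K) (v : Un a) :
    MvPolynomial (Fin n) K :=
  (((a v.1).toNat - v.2.val : ℕ) : MvPolynomial (Fin n) K) *
      if v.2.val = 0 then C (x v.1)
      else X (ε.symm ⟨v.1, ⟨v.2.val - 1, lt_of_le_of_lt (Nat.sub_le _ _) v.2.isLt⟩⟩)

private theorem KS1_th_eq {a : ι → ℤ} (ε : Fin n ≃ Un a) (x : ι → K) (t : Fin n) :
    th ε x t = KS1_tv ε x (ε t) := rfl

private theorem KS1_E_gen {a : ι → ℤ} (ε : Fin n ≃ Un a) (x : ι → K) (i : ι) :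
    KS1_E (th ε x) (a i).toNat (gen ε x i) := by
  refine ⟨by rw [KS1_coeff_zero]; exact KS1_dv_C _ _, fun l => ?_⟩
  by_cases hl : l < (a i).toNat
  · rw [KS1_coeff_lt ε x i hl, KS1_dv_X, KS1_th_eq, Equiv.apply_symm_apply]
    change (((a i).toNat - l : ℕ) : MvPolynomial (Fin n) K) * (if l = 0 then C (x i)
      else X (ε.symm ⟨i, ⟨l - 1, lt_of_le_of_lt (Nat.sub_le _ _) hl⟩⟩)) = _
    rw [Nat.cast_sub hl.le]
    congr 1
    rcases l with _ | l
    · rw [if_pos rfl, KS1_coeff_zero]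
    · rw [if_neg (Nat.succ_ne_zero l), KS1_coeff_lt ε x i (Nat.lt_of_succ_lt hl)]
      rfl
  · rw [KS1_coeff_ge ε x i (not_lt.1 hl), KS1_dv_zero]
    rcases (not_lt.1 hl).eq_or_lt with h1 | h1
    · rw [h1, sub_self, zero_mul]
    · obtain ⟨l', rfl⟩ : ∃ l', l = l' + 1 := ⟨l - 1, by omega⟩
      rw [KS1_coeff_ge ε x i (by omega), mul_zero]

private theorem KS1_E_cmp (X : Hyp k P) (a : ι → ℤ) (ha : a ∈ Rel P) (h0 : ∀ i, 0 ≤ a i)
    (ε : Fin n ≃ Un a) (x : ι → K) : KS1_E (th ε x) (dk a).toNat (cmp X (gen ε x)) := by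
  rw [KS1_cmp]
  refine Finset.sum_induction _ (KS1_E (th ε x) (dk a).toNat) (fun _ _ => KS1_E_add)
    (KS1_E_zero _ _) fun e he => ?_
  rw [KS1_alg, ← sum_exp X a ha h0 e he, ← zero_add (∑ i, e i * (a i).toNat)]
  exact KS1_E_mul (KS1_E_C _ _) (KS1_E_prod _ _ _ fun i => KS1_E_pow (KS1_E_gen ε x i) _)

theorem sys_gs (X : Hyp k P) (a : ι → ℤ) (ha : a ∈ Rel P) (h0 : ∀ i, 0 ≤ a i)
    (ε : Fin n ≃ Un a) (M : ℕ) (hM : (dk a).toNat = M + 1) (x : ι → K) (hx : aeval x X.F = 0) :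
    SysW (gs X ε M x) (wt ε) (ds M) (th ε x) (as M) := by
  have hE := KS1_E_cmp X a ha h0 ε x
  rw [hM] at hE
  have hW := KS1_W_cmp X ε x
  refine ⟨fun j => Nat.succ_pos _, fun j α h => hW _ _ h, KS1_th ε x, ?_, ?_, ?_⟩
  · intro j hj
    change dv (th ε x) ((cmp X (gen ε x)).coeff (j.val + 1)) = 0
    have h1 : (cmp X (gen ε x)).coeff 0 = 0 := by
      have h2 := kap_zero X ε x
      unfold kap at h2
      rw [h2, hx, C_0]
    rw [hE.s, hj, h1, mul_zero]
  · intro i j hij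
    change dv (th ε x) ((cmp X (gen ε x)).coeff (j.val + 1)) =
      ((M + 1 - j.val : ℕ) : MvPolynomial (Fin n) K) * (cmp X (gen ε x)).coeff (i.val + 1)
    rw [hE.s, hij, Nat.cast_sub (by have := j.isLt; omega)]
  · intro i j hij _
    change j.val + 1 = i.val + 1 + 1
    rw [hij]

end Pool.Agent.LibTC1.KW
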