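import Pool.Agent.LibTC1.Defs

/-!
# Solutions: quasi-maps of total contact
-/

open scoped Classical
open MvPolynomial

namespace Pool.Agent.LibTC1

open Pool.Agent.LibBH2 Pool.Agent.LibQC8

variable {ι : Type} [Fintype ι] {r : ℕ} {k : Type} [Field k] {P : Tor ι r}

/-- `F ∘ f` is a constant times `s ^ (dk a)` -/
def IsTot (X : Hyp k P) (a : ι → ℤ) (f : ι → Polynomial k) : Prop :=
  ∃ c : k, cmp X f = Polynomial.C c * Polynomial.X ^ (dk a).toNat

/-- `f` is the constant quasi-map with one base point -/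
def Triv (a : ι → ℤ) (f : ι → Polynomial k) : Prop :=
  ∃ μ : k, ∀ i, f i = Polynomial.C ((f i).coeff 0) *
    (1 + Polynomial.C μ * Polynomial.X) ^ (a i).toNat

/-- a quasi-map of class `a` through `x`, of total contact with `X` at `x`, nontrivial -/
structure Sol (X : Hyp k P) (a : ι → ℤ) (x : ι → k) (f : ι → Polynomial k) : Prop where
  q : IsQ P a f
  at0 : ∀ i, (f i).coeff 0 = x i
  tot : IsTot X a f
  ntriv : ¬ Triv a f

end Pool.Agent.LibTC1
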