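import Pool.Agent.LibTC1.W7

/-!
[TC1 W] (SHORT) A set of at least four rays with sum zero, all proper subsets cones: `HW` holds.

`const_curve` (W7) gives `o` and the curve, which serves for every class `a`; `hw_pos` (W2).
-/

open scoped Classical
open MvPolynomial

set_option linter.unusedSectionVars false

namespace Pool.Agent.LibTC1

open Pool.Agent.LibBH2 Pool.Agent.LibQC8

variable {ι : Type} [Fintype ι] {r : ℕ} {k : Type} [Field k] {P : Tor ι r}

theorem exists_HW [IsAlgClosed k] [CharZero k] (X : Hyp k P) (S : Finset ι) (h4 : 4 ≤ S.card)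
    (hS : ∀ j, ∑ i ∈ S, P.v i j = 0) (hT : ∀ T ⊂ S, T ∈ P.C) : ∃ o : CH X, HW X o := by
  obtain ⟨o, K, i1, i2, u, δ, hK, ho, hδ, hD⟩ := const_curve X h4 hS hT
  refine ⟨o, fun a ha h0 hne => ⟨K, i1, i2, u, fun i => if i ∈ S then δ else 0, hK, ho, hD, ?_⟩⟩
  exact (hw_pos ha h0 hne (by omega) hδ).ne'

end Pool.Agent.LibTC1
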