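import Pool.Agent.LibTC1.WDefs
import Pool.Agent.LibTC1.C4
import Pool.Agent.LibTC1.P8
import Pool.Agent.LibTC1.C3

/-!
[TC1 W0] (MEDIUM) The projective space of `S`: basic facts.

iS_rel, dk_iS: unfold. ext_cone: `zs (ext S x)` is a proper subset of `S`. ln_isQ: degrees. vl_ln: unfold `vl`, `iS`.
ln_isMap: `ext_cone` and `vl_ln`: `x + s y` has a nonzero coordinate in `S` (`Ind` with `α = 1`, `β = s`), `y` too (`α = 0`, `β = 1`).
ln_of_isQ: a quasi-map `f` of class `iS S` is `ln S x y` with `x i = (f i).coeff 0`, `y i = (f i).coeff 1`, if `(f i).coeff 0 = 1` outside of `S` (degree `≤ 0` there,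
`≤ 1` on `S`). ext_scale: for `c ≠ 0`: `aeval_scale` with `l i = c ^ iS S i` (`isT_rel`), `∏ l i = c ^ card S`. For `c = 0`: both sides are polynomial functions of
`c ∈ K` (`K` is infinite, an extension of the alg. closed field `k`): the polynomial `p(c) = aeval (fun i => if i ∈ S then C (x i) * X else 1) F` and
`C (aeval (ext S x) F) * X ^ card S` agree at all `c ≠ 0`, so they are equal, evaluate at `0`.
ln_scale: two polynomials over the infinite field `K`; compare the values (`cmp_eval`, `vl_ln`) at all `s` with `c + β s ≠ 0`: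
`ext S (c x + s (α y + β x)) = ext S ((c + β s) (x + s' y))`, `s' = s α / (c + β s)`; by `ext_scale` the value is `(c + β s) ^ m * κ * s' ^ m = κ (α s) ^ m`.
-/

open scoped Classical
open MvPolynomial

set_option linter.unusedSectionVars false

namespace Pool.Agent.LibTC1

open Pool.Agent.LibBH2 Pool.Agent.LibQC8

variable {ι : Type} [Fintype ι] {r : ℕ} {k : Type} [Field k] [IsAlgClosed k] {P : Tor ι r}
  {K : Type} [Field K] [Algebra k K]

theorem iS_rel {S : Finset ι} (hS : ∀ j, ∑ i ∈ S, P.v i j = 0) : iS S ∈ Rel P := by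
  intro j
  rw [← hS j]
  simp [iS, Finset.sum_ite_mem]

theorem dk_iS (S : Finset ι) : dk (iS S) = S.card := by
  simp [dk, iS, Finset.sum_ite_mem]

theorem ext_cone {S : Finset ι} (hT : ∀ T ⊂ S, T ∈ P.C) {x : ι → K} (hx : ∃ i ∈ S, x i ≠ 0) :
    zs (ext S x) ∈ P.C := by
  apply hT
  rw [Finset.ssubset_iff_subset_ne]
  obtain ⟨i, hi, hxi⟩ := hx
  refine ⟨fun j hj => ?_, fun he => ?_⟩
  · unfold zs ext at hj
    rw [Finset.mem_filter] at hj
    by_contra hjS
    rw [if_neg hjS] at hj
    exact one_ne_zero hj.2
  · rw [← he] at hi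
    unfold zs ext at hi
    rw [Finset.mem_filter] at hi
    have h2 := hi.2
    by_cases hiS : i ∈ S
    · rw [if_pos hiS] at h2
      exact hxi h2
    · rw [if_neg hiS] at h2
      exact one_ne_zero h2

theorem ln_isQ {S : Finset ι} (hS : ∀ j, ∑ i ∈ S, P.v i j = 0) (x y : ι → K) :
    IsQ P (iS S) (ln S x y) := by
  refine ⟨iS_rel hS, fun i hi => ?_, fun i => ?_⟩
  · exfalso
    unfold iS at hi
    split_ifs at hi <;> omega
  · unfold ln iS
    by_cases hi : i ∈ S
    · rw [if_pos hi, if_pos hi, add_comm]
      exact Polynomial.natDegree_linear_le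
    · rw [if_neg hi, if_neg hi]
      simp

theorem vl_ln_some (S : Finset ι) (x y : ι → K) (s : K) :
    vl (iS S) (ln S x y) (some s) = ext S (fun i => x i + s * y i) := by
  funext i
  have h : vl (iS S) (ln S x y) (some s) i = (ln S x y i).eval s := rfl
  rw [h]
  unfold ln ext
  by_cases hi : i ∈ S
  · rw [if_pos hi, if_pos hi, Polynomial.eval_add, Polynomial.eval_mul, Polynomial.eval_C,
      Polynomial.eval_C, Polynomial.eval_X]
    ring
  · rw [if_neg hi, if_neg hi, Polynomial.eval_one]

theorem vl_ln_none (S : Finset ι) (x y : ι → K) :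
    vl (iS S) (ln S x y) none = ext S y := by
  funext i
  have h : vl (iS S) (ln S x y) none i =
    if iS S i < 0 then 0 else (ln S x y i).coeff (iS S i).toNat := rfl
  rw [h]
  unfold ln ext iS
  by_cases hi : i ∈ S
  · simp [hi, Polynomial.coeff_C]
  · simp [hi]

theorem ln_isMap {S : Finset ι} (hS : ∀ j, ∑ i ∈ S, P.v i j = 0) (hT : ∀ T ⊂ S, T ∈ P.C)
    {x y : ι → k} (h : Ind S x y) : IsMap P (iS S) (ln S x y) := by
  refine ⟨ln_isQ hS x y, fun ζ => ?_⟩
  cases ζ with
  | none =>
    rw [vl_ln_none]
    apply ext_cone hT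
    by_contra hcon
    push Not at hcon
    have h1 := h 0 1 (fun i hi => by rw [hcon i hi]; simp)
    exact one_ne_zero h1.2
  | some s =>
    rw [vl_ln_some]
    apply ext_cone hT
    by_contra hcon
    push Not at hcon
    have h1 := h 1 s (fun i hi => by rw [one_mul]; exact hcon i hi)
    exact one_ne_zero h1.1

theorem ln_of_isQ {S : Finset ι} {f : ι → Polynomial K} (hf : IsQ P (iS S) f)
    (h1 : ∀ i, i ∉ S → (f i).coeff 0 = 1) :
    f = ln S (fun i => (f i).coeff 0) (fun i => (f i).coeff 1) := by
  funext i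
  have hd := hf.deg i
  unfold ln
  unfold iS at hd
  by_cases hi : i ∈ S
  · rw [if_pos hi] at hd ⊢
    have h2 := Polynomial.eq_X_add_C_of_natDegree_le_one hd
    rw [add_comm] at h2
    exact h2
  · rw [if_neg hi] at hd ⊢
    have h2 := Polynomial.eq_C_of_natDegree_le_zero hd
    rw [h2, h1 i hi, Polynomial.C_1]

theorem ext_scale (X : Hyp k P) {S : Finset ι} (hS : ∀ j, ∑ i ∈ S, P.v i j = 0)
    (hne : S.Nonempty) (c : K) (x : ι → K) :
    aeval (ext S (fun i => c * x i)) X.F = c ^ S.card * aeval (ext S x) X.F := by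
  -- for `c ≠ 0`
  have hne0 : ∀ c : K, c ≠ 0 →
      aeval (ext S (fun i => c * x i)) X.F = c ^ S.card * aeval (ext S x) X.F := by
    intro c hc
    have hl : IsT P (fun i => c ^ iS S i) := isT_rel (iS_rel hS) hc
    have h1 := aeval_scale X hl (ext S x)
    have h2 : (fun i => c ^ iS S i * ext S x i) = ext S (fun i => c * x i) := by
      funext i
      unfold iS ext
      by_cases hi : i ∈ S
      · simp [hi]
      · simp [hi]
    have h3 : (∏ i, c ^ iS S i) = c ^ S.card := by
      have h4 : ∀ i, c ^ iS S i = if i ∈ S then c else 1 := fun i => by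
        unfold iS
        by_cases hi : i ∈ S
        · simp [hi]
        · simp [hi]
      rw [Finset.prod_congr rfl fun i _ => h4 i, Finset.prod_ite_mem, Finset.univ_inter,
        Finset.prod_const]
    rw [h2, h3] at h1
    exact h1
  by_cases hc : c = 0
  · subst hc
    have : Infinite k := IsAlgClosed.instInfinite
    have : Infinite K := Infinite.of_injective _ (algebraMap k K).injective
    -- the polynomial
    set p : Polynomial K := cmp X (ln S (fun _ => (0 : K)) x) with hp
    have hev : ∀ c : K, p.eval c = aeval (ext S (fun i => c * x i)) X.F := fun c => by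
      rw [hp, cmp_eval X (iS S), vl_ln_some]
      simp only [zero_add]
    obtain ⟨A, hA⟩ : ∃ A : K, A = aeval (ext S x) X.F := ⟨_, rfl⟩
    rw [← hA] at hne0 ⊢
    have hq : p = Polynomial.C A * Polynomial.X ^ S.card := by
      have h5 : (p - Polynomial.C A * Polynomial.X ^ S.card) *
          Polynomial.X = 0 := by
        apply Polynomial.funext
        intro c
        by_cases hc : c = 0
        · simp [hc]
        · rw [Polynomial.eval_mul, Polynomial.eval_sub, hev c, hne0 c hc]
          simp
          left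
          ring
      have h6 := (mul_eq_zero.1 h5).resolve_right Polynomial.X_ne_zero
      exact sub_eq_zero.1 h6
    rw [← hev 0, hq]
    simp [Finset.card_ne_zero.2 hne]
  · exact hne0 c hc

theorem ln_scale (X : Hyp k P) {S : Finset ι} (hS : ∀ j, ∑ i ∈ S, P.v i j = 0)
    (hne : S.Nonempty) {x y : ι → K} {κ : K}
    (h : cmp X (ln S x y) = Polynomial.C κ * Polynomial.X ^ S.card) (c α β : K) (hc : c ≠ 0) :
    cmp X (ln S (fun i => c * x i) (fun i => α * y i + β * x i)) =
      Polynomial.C (κ * α ^ S.card) * Polynomial.X ^ S.card := by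
  have : Infinite k := IsAlgClosed.instInfinite
  have : Infinite K := Infinite.of_injective _ (algebraMap k K).injective
  have hev : ∀ s : K, aeval (ext S (fun i => x i + s * y i)) X.F = κ * s ^ S.card := fun s => by
    have h1 := cmp_eval X (iS S) (ln S x y) s
    rw [vl_ln_some, h] at h1
    rw [← h1]
    simp
  set q : Polynomial K := Polynomial.C c + Polynomial.C β * Polynomial.X with hq
  have hq0 : q ≠ 0 := by
    intro h0
    have h1 : q.coeff 0 = 0 := by rw [h0]; simp
    rw [hq] at h1
    simp at h1
    exact hc h1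
  have h5 : (cmp X (ln S (fun i => c * x i) (fun i => α * y i + β * x i)) -
      Polynomial.C (κ * α ^ S.card) * Polynomial.X ^ S.card) * q = 0 := by
    apply Polynomial.funext
    intro s
    rw [Polynomial.eval_mul, Polynomial.eval_sub, cmp_eval X (iS S), vl_ln_some]
    have hqs : q.eval s = c + β * s := by rw [hq]; simp
    rw [hqs]
    by_cases h0 : c + β * s = 0
    · rw [h0]; simp
    · have h6 : (fun i => c * x i + s * (α * y i + β * x i)) =
          fun i => (c + β * s) * (x i + (s * α / (c + β * s)) * y i) := by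
        funext i
        have h9 : (c + β * s) * (s * α / (c + β * s)) = s * α := mul_div_cancel₀ _ h0
        have h10 : (c + β * s) * (x i + (s * α / (c + β * s)) * y i) =
            (c + β * s) * x i + s * α * y i := by
          rw [mul_add, ← mul_assoc, h9]
        rw [h10]
        ring
      rw [h6, ext_scale X hS hne (c + β * s) (fun i => x i + (s * α / (c + β * s)) * y i), hev]
      have h7 : (c + β * s) ^ S.card * (κ * (s * α / (c + β * s)) ^ S.card) =
          κ * α ^ S.card * s ^ S.card := by
        have h8 : (c + β * s) ^ S.card ≠ 0 := pow_ne_zero _ h0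
        rw [div_pow, mul_pow, mul_left_comm, mul_div_cancel₀ _ h8]
        ring
      rw [h7]
      simp
  have h6 := (mul_eq_zero.1 h5).resolve_right hq0
  exact sub_eq_zero.1 h6

end Pool.Agent.LibTC1
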