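import Pool.Agent.LibTC1.W0
import Pool.Agent.LibTC1.P5
import Pool.Agent.LibTC1.P9
import Pool.Agent.LibPC60.B1

/-!
[TC1 W1] (MEDIUM) The curve of a nonconstant point of the projective space of `S`: degrees.
-/

open scoped Classical
open MvPolynomial

set_option linter.unusedSectionVars false

namespace Pool.Agent.LibTC1

open Pool.Agent.LibBH2 Pool.Agent.LibQC8

variable {ι : Type} [Fintype ι] {r : ℕ} {k : Type} [Field k] [IsAlgClosed k] {P : Tor ι r}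
  {K : Type} [Field K] [Algebra k K]

theorem prim (hK : IsFunctionField k K) (v : Place k K) {S : Finset ι} {x : ι → K}
    (hx : ∃ i ∈ S, x i ≠ 0) : ∃ (i₀ : ι) (x₀ : ι → k), i₀ ∈ S ∧ x i₀ ≠ 0 ∧ x₀ i₀ = 1 ∧
      ∀ i ∈ S, v.Zer ((x i₀)⁻¹ * x i - algebraMap k K (x₀ i)) := by
  obtain ⟨i₁, hi₁, hx₁⟩ := hx
  obtain ⟨i₀, x₀, h0, h1, h2⟩ := Pool.Agent.LibPC60.exists_prim hK (ι := {i // i ∈ S}) v
    (fun i => x i.1) ⟨⟨i₁, hi₁⟩, hx₁⟩
  refine ⟨i₀.1, fun i => if h : i ∈ S then x₀ ⟨i, h⟩ else 0, i₀.2, h0, ?_, fun i hi => ?_⟩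
  · show (if h : i₀.1 ∈ S then x₀ ⟨i₀.1, h⟩ else 0) = 1
    rw [dif_pos i₀.2]
    exact h1
  · show v.Zer ((x i₀.1)⁻¹ * x i - algebraMap k K (if h : i ∈ S then x₀ ⟨i, h⟩ else 0))
    rw [dif_pos hi]
    exact h2 ⟨i, hi⟩

theorem sp_ext (X : Hyp k P) {S : Finset ι} (hS : ∀ j, ∑ i ∈ S, P.v i j = 0)
    (hT : ∀ T ⊂ S, T ∈ P.C) (v : Place k K) {x : ι → K} {u : Pt X K} (hu : u.z = ext S x)
    {c : K} (hc : c ≠ 0) {x₀ : ι → k} (hx₀ : ∃ i ∈ S, x₀ i ≠ 0)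
    (h : ∀ i ∈ S, v.Zer (c * x i - algebraMap k K (x₀ i))) :
    ∃ p : Pt X k, p.z = ext S x₀ ∧ Sp v u p (fun i => c ^ iS S i) ∧
      pt p = pz X (ext S x₀) := by
  refine sp_of_val X v u (ext_cone (K := k) hT hx₀) (isT_rel (iS_rel hS) hc) fun i => ?_
  rw [hu]
  by_cases hi : i ∈ S
  · simp only [ext, iS, if_pos hi, zpow_one]
    exact h i hi
  · simp only [ext, iS, if_neg hi, zpow_zero, one_mul, map_one, sub_self]
    exact v.zer_zero

theorem hasDeg_ext (X : Hyp k P) (hK : IsFunctionField k K) {S : Finset ι}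
    (hS : ∀ j, ∑ i ∈ S, P.v i j = 0) (hT : ∀ T ⊂ S, T ∈ P.C) {x : ι → K} {u : Pt X K}
    (hu : u.z = ext S x) (hNC : NC k S x) :
    ∃ δ : ℤ, 0 < δ ∧ HasDeg u (fun i => if i ∈ S then δ else 0) := by
  -- a nonzero coordinate
  have hx : ∃ i ∈ S, x i ≠ 0 := by
    by_contra hcon
    push Not at hcon
    exact hNC ⟨fun _ => 0, 0, fun i hi => by rw [hcon i hi, zero_mul]⟩
  obtain ⟨i₁, hi₁, hx₁⟩ := hx
  -- a nonconstant quotient
  have hx2 : ∃ i ∈ S, ∀ c : k, x i ≠ x i₁ * algebraMap k K c := by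
    by_contra hcon
    push Not at hcon
    choose! c hc using hcon
    exact hNC ⟨c, x i₁, fun i hi => hc i hi⟩
  obtain ⟨i₂, hi₂, hx₂⟩ := hx2
  have hx20 : x i₂ ≠ 0 := by
    intro h0
    exact hx₂ 0 (by rw [h0, map_zero, mul_zero])
  -- the scalings
  choose i₀ x₀ h0S h0x h01 h0v using fun v : Place k K => prim hK v ⟨i₁, hi₁, hx₁⟩
  have hc0 : ∀ v : Place k K, (x (i₀ v))⁻¹ ≠ 0 := fun v => inv_ne_zero (h0x v)
  choose p hpz hSp hpt using fun v : Place k K => sp_ext X hS hT v hu (hc0 v)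
    ⟨i₀ v, h0S v, by rw [h01 v]; exact one_ne_zero⟩ (h0v v)
  have hord : ∀ (v : Place k K) (i : ι), v.ord ((x (i₀ v))⁻¹ ^ iS S i) =
      iS S i * v.ord (x (i₀ v))⁻¹ := fun v i => v.ord_zpow _ _
  have hfin : {v : Place k K | v.ord (x (i₀ v))⁻¹ ≠ 0}.Finite := by
    refine (finite_ord X hK u p (fun v i => (x (i₀ v))⁻¹ ^ iS S i) hSp i₁).subset fun v hv => ?_
    show v.ord ((x (i₀ v))⁻¹ ^ iS S i₁) ≠ 0
    rw [hord v i₁, iS, if_pos hi₁, one_mul]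
    exact hv
  -- positivity at all places
  have hreg : ∀ (v : Place k K) (i : ι), i ∈ S → x i ≠ 0 →
      0 ≤ v.ord (x (i₀ v))⁻¹ + v.ord (x i) := by
    intro v i hi hxi
    have h1 := Place.reg_of_val (h0v v i hi)
    have h2 := h1.resolve_left (mul_ne_zero (hc0 v) hxi)
    rwa [v.ord_mul _ _ (hc0 v) hxi] at h2
  -- a place with strict inequality
  have htr : Transcendental k (x i₂ * (x i₁)⁻¹) := by
    intro ha
    obtain ⟨c, hc⟩ := Pool.Agent.LibEnd77.Val8.alg_const ha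
    refine hx₂ c ?_
    rw [hc]
    field_simp
  obtain ⟨v₀, hv₀⟩ := Pool.Agent.LibEnd77.Val8.exists_pole hK htr
  have hv₁ : 0 < v₀.ord (x (i₀ v₀))⁻¹ + v₀.ord (x i₁) := by
    have h1 := hreg v₀ i₂ hi₂ hx20
    rw [v₀.ord_mul _ _ hx20 (inv_ne_zero hx₁), v₀.ord_inv] at hv₀
    linarith
  obtain ⟨hf1, hf2⟩ := Pool.Agent.LibEnd77.Val8.sum_formula hK (x i₁)
  have hs1 : ∑ v ∈ hfin.toFinset ∪ hf1.toFinset, v.ord (x i₁) = 0 := by
    refine Eq.trans (Eq.symm ?_) hf2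
    apply finsum_eq_sum_of_support_subset
    intro v hv
    rw [Finset.coe_union]
    exact Or.inr (hf1.mem_toFinset.2 hv)
  have hs2 : ∑ v ∈ hfin.toFinset, v.ord (x (i₀ v))⁻¹ =
      ∑ v ∈ hfin.toFinset ∪ hf1.toFinset, v.ord (x (i₀ v))⁻¹ := by
    refine Finset.sum_subset Finset.subset_union_left fun v _ hv => ?_
    by_contra hne
    exact hv (hfin.mem_toFinset.2 hne)
  have hs3 : 0 < ∑ v ∈ hfin.toFinset ∪ hf1.toFinset,
      (v.ord (x (i₀ v))⁻¹ + v.ord (x i₁)) := by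
    refine Finset.sum_pos' (fun v _ => hreg v i₁ hi₁ hx₁) ⟨v₀, ?_, hv₁⟩
    rw [Finset.mem_union, hfin.mem_toFinset, hf1.mem_toFinset]
    by_contra hcon
    push Not at hcon
    have e1 : v₀.ord (x (i₀ v₀))⁻¹ = 0 := by
      by_contra hne
      exact hcon.1 hne
    have e2 : v₀.ord (x i₁) = 0 := by
      by_contra hne
      exact hcon.2 hne
    rw [e1, e2] at hv₁
    exact lt_irrefl _ hv₁
  rw [Finset.sum_add_distrib, hs1, add_zero, ← hs2] at hs3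
  refine ⟨_, hs3, hfin.toFinset, p, fun v i => (x (i₀ v))⁻¹ ^ iS S i, hSp, fun v hv i => ?_,
    fun i => ?_⟩
  · have h1 : v.ord (x (i₀ v))⁻¹ = 0 := by
      by_contra hne
      exact hv (hfin.mem_toFinset.2 hne)
    show v.ord ((x (i₀ v))⁻¹ ^ iS S i) = 0
    rw [hord, h1, mul_zero]
  · show (if i ∈ S then ∑ v ∈ hfin.toFinset, v.ord (x (i₀ v))⁻¹ else 0) =
      ∑ v ∈ hfin.toFinset, v.ord ((x (i₀ v))⁻¹ ^ iS S i)
    simp only [hord]
    rw [← Finset.mul_sum, iS]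
    split_ifs
    · rw [one_mul]
    · rw [zero_mul]

end Pool.Agent.LibTC1
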