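import Pool.Agent.LibTC1.WDefs
import Pool.Agent.LibTC1.P1

/-!
[TC1 W2] (SHORT/MEDIUM) The number of `HW` is positive.

v_ne: `v i = 0` would give two reduced expressions `0` and `Pi.single i 1` of `0` (`P.uniq`, `P.single`). For `a ≥ 0`, `a ≠ 0` in `Rel P`, `d = dk a = ∑ a i`: `a i ≤ d - 1` for
all `i`: otherwise `a i = d > 0` and the others are zero, `d • v i = 0`, so `v i = 0` (integers). `harmonic` is strictly monotone, so every term is `≥ 0`, and `= 0` only if
`a i = d - 1`. If all three or more terms vanish: `d ≥ 3 (d - 1)`, so `d ≤ 1`, `d = 1`, `a i ≤ 0` for all `i`: contradiction to `d = 1`.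
(The case `d = 0` is impossible as `a ≠ 0`, `a ≥ 0`.)
-/

open scoped Classical
open MvPolynomial

set_option linter.unusedSectionVars false

namespace Pool.Agent.LibTC1

open Pool.Agent.LibBH2 Pool.Agent.LibQC8

variable {ι : Type} [Fintype ι] {r : ℕ} {P : Tor ι r}

private theorem W2_har : StrictMono harmonic := by
  apply strictMono_nat_of_lt_succ
  intro n
  rw [harmonic_succ]
  have h : (0 : ℚ) < ((n + 1 : ℕ) : ℚ)⁻¹ := by
    apply inv_pos.2
    exact_mod_cast Nat.succ_pos n
  linarith

private theorem W2_le {a : ι → ℤ} (h0 : ∀ i, 0 ≤ a i) (i : ι) : a i ≤ dk a := by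
  unfold dk
  exact Finset.single_le_sum (fun j _ => h0 j) (Finset.mem_univ i)

private theorem W2_pos {a : ι → ℤ} (h0 : ∀ i, 0 ≤ a i) (hne : a ≠ 0) : 1 ≤ dk a := by
  obtain ⟨i, hi⟩ := Function.ne_iff.1 hne
  have h1 : 0 < a i := lt_of_le_of_ne (h0 i) (fun h => hi h.symm)
  have := W2_le h0 i
  omega

theorem v_ne (P : Tor ι r) (i : ι) : ∃ j, P.v i j ≠ 0 := by
  by_contra hno
  have hv : ∀ j, P.v i j = 0 := by
    intro j
    by_contra hj
    exact hno ⟨j, hj⟩
  have h1 : sp (0 : ι → ℕ) ∈ P.C := by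
    have e : sp (0 : ι → ℕ) = ∅ := by
      unfold sp
      rw [Finset.filter_eq_empty_iff]
      intro x _ hx
      exact hx rfl
    rw [e]
    exact P.down {i} (P.single i) ∅ (Finset.empty_subset _)
  have h2 : sp (Pi.single i 1 : ι → ℕ) ∈ P.C := by
    have e : sp (Pi.single i 1 : ι → ℕ) = {i} := by
      ext x
      unfold sp
      rw [Finset.mem_filter, Finset.mem_singleton]
      constructor
      · rintro ⟨_, hx⟩
        by_contra hxi
        exact hx (Pi.single_eq_of_ne hxi 1)
      · intro hx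
        refine ⟨Finset.mem_univ _, ?_⟩
        rw [hx, Pi.single_eq_same]
        exact one_ne_zero
    rw [e]
    exact P.single i
  have h3 := P.uniq 0 (Pi.single i 1) h1 h2 (by
    intro j
    rw [Finset.sum_eq_zero, Finset.sum_eq_zero]
    · intro l _
      by_cases hl : l = i
      · rw [hl, hv j, mul_zero]
      · rw [Pi.single_eq_of_ne hl, Nat.cast_zero, zero_mul]
    · intro l _
      rw [Pi.zero_apply, Nat.cast_zero, zero_mul])
  have h4 := congrFun h3 i
  rw [Pi.single_eq_same, Pi.zero_apply] at h4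
  exact absurd h4 (by norm_num)

theorem hw_pos {a : ι → ℤ} (ha : a ∈ Rel P) (h0 : ∀ i, 0 ≤ a i) (hne : a ≠ 0) {S : Finset ι}
    (h3 : 3 ≤ S.card) {δ : ℤ} (hδ : 0 < δ) :
    0 < ∑ i, (harmonic (dk a - 1).toNat - harmonic (a i).toNat) *
      (((if i ∈ S then δ else 0 : ℤ)) : ℚ) := by
  have hd1 := W2_pos h0 hne
  have hlt : ∀ i, a i ≤ dk a - 1 := by
    intro i
    by_contra hcon
    have hle := W2_le h0 i
    have heq : a i = dk a := by omega
    have hz : ∀ l, l ≠ i → a l = 0 := by
      have hs : a i + ∑ l ∈ Finset.univ.erase i, a l = dk a := by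
        unfold dk
        exact Finset.add_sum_erase _ _ (Finset.mem_univ i)
      have hs0 : ∑ l ∈ Finset.univ.erase i, a l = 0 := by omega
      intro l hl
      exact (Finset.sum_eq_zero_iff_of_nonneg (fun x _ => h0 x)).1 hs0 l
        (Finset.mem_erase.2 ⟨hl, Finset.mem_univ l⟩)
    obtain ⟨j, hj⟩ := v_ne P i
    have hr : ∑ l, a l * P.v l j = 0 := ha j
    rw [Finset.sum_eq_single i (fun l _ hl => by rw [hz l hl, zero_mul])
      (fun h => absurd (Finset.mem_univ i) h)] at hr
    rcases mul_eq_zero.1 hr with h | h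
    · omega
    · exact hj h
  have hterm : ∀ i, 0 ≤ (harmonic (dk a - 1).toNat - harmonic (a i).toNat) *
      (((if i ∈ S then δ else 0 : ℤ)) : ℚ) := by
    intro i
    apply mul_nonneg
    · have h1 : (a i).toNat ≤ (dk a - 1).toNat := Int.toNat_le_toNat (hlt i)
      have h2 := W2_har.monotone h1
      linarith
    · split_ifs
      · exact_mod_cast hδ.le
      · norm_num
  have hex : ∃ i ∈ S, a i < dk a - 1 := by
    by_contra hno
    have hge : ∀ i ∈ S, dk a - 1 ≤ a i := by
      intro i hi
      by_contra hc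
      exact hno ⟨i, hi, by omega⟩
    have h1 : (S.card : ℤ) * (dk a - 1) ≤ dk a := by
      have h2 : S.card • (dk a - 1) ≤ ∑ i ∈ S, a i := Finset.card_nsmul_le_sum _ _ _ hge
      have h3' : ∑ i ∈ S, a i ≤ dk a := by
        unfold dk
        exact Finset.sum_le_sum_of_subset_of_nonneg (Finset.subset_univ S) (fun i _ _ => h0 i)
      rw [nsmul_eq_mul] at h2
      exact le_trans h2 h3'
    have h4 : (3 : ℤ) * (dk a - 1) ≤ (S.card : ℤ) * (dk a - 1) := by
      apply mul_le_mul_of_nonneg_right
      · exact_mod_cast h3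
      · omega
    have h5 : dk a = 1 := by omega
    have h6 : dk a ≤ 0 := by
      have h7 : ∀ i, a i ≤ 0 := by
        intro i
        have := hlt i
        omega
      unfold dk
      exact Finset.sum_nonpos (fun i _ => h7 i)
    omega
  obtain ⟨i, hiS, hi⟩ := hex
  apply Finset.sum_pos' (fun l _ => hterm l)
  refine ⟨i, Finset.mem_univ i, ?_⟩
  rw [if_pos hiS]
  apply mul_pos
  · have h1 : (a i).toNat < (dk a - 1).toNat := by
      have := h0 i
      omega
    have h2 := W2_har h1
    linarith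
  · exact_mod_cast hδ

end Pool.Agent.LibTC1
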