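import Pool.Agent.LibTC1.W0
import Pool.Agent.LibTC1.E1
import Pool.Agent.LibPC60.C17
import Pool.Agent.LibPN22.C3

/-!
[TC1 W3] (MEDIUM) A point of `X` in a plane, over a function field, not proportional to a vector over `k`.

Let `K₀ = RatFunc k`, `s = RatFunc.X`, `L = AlgebraicClosure K₀` (alg. closed, a `k`-algebra). Unknowns `w : Fin 4 → L`, `x i = w n` if `i = e n`, `0` for the other `i ∈ S`. Three
equations without constant term in the four unknowns: `∑ n, τ ^ n * w n`, `∑ n, s ^ n * w n`, and `F(ext S x)` (`= 0` for `w = 0` by `ext_scale` with `c = 0`, `S` nonempty; as an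
`MvPolynomial (Fin 4) L`: `aeval (fun i => if i ∈ S then (if ∃ n, i = e n then X n else 0) else 1) F`). `common_zero` (E1, over `L`) gives `w ≠ 0`. It is not proportional to a vector
over `k`: if `w n = t * c n`, then `t ≠ 0` and `∑ c n s ^ n = 0`, so `c = 0` (`s` is transcendental over `k`: a polynomial of degree `≤ 3`), `w = 0`. `Pool.Agent.LibPN22.exists_sub` (`x : ι → L`) gives
the function field `K` and `x' : ι → K` with image `x` under `φ : K →ₐ[k] L` (injective): all properties pull back.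
-/

open scoped Classical
open MvPolynomial

set_option linter.unusedSectionVars false

namespace Pool.Agent.LibTC1

open Pool.Agent.LibBH2 Pool.Agent.LibQC8

variable {ι : Type} [Fintype ι] {r : ℕ} {k : Type} [Field k] [IsAlgClosed k] {P : Tor ι r}
  {K : Type} [Field K] [Algebra k K]

private noncomputable def W3_ex {R : Type} [Zero R] (e : Fin 4 → ι) (y : Fin 4 → R) (i : ι) : R :=
  if h : ∃ n, i = e n then y h.choose else 0

private theorem W3_ex_e {R : Type} [Zero R] {e : Fin 4 → ι} (he : Function.Injective e)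
    (y : Fin 4 → R) (n : Fin 4) : W3_ex e y (e n) = y n := by
  have h : ∃ m, e n = e m := ⟨n, rfl⟩
  unfold W3_ex
  rw [dif_pos h]
  congr 1
  exact (he h.choose_spec).symm

private theorem W3_ex_not {R : Type} [Zero R] {e : Fin 4 → ι} {y : Fin 4 → R} {i : ι}
    (h : ∀ n, i ≠ e n) : W3_ex e y i = 0 := by
  unfold W3_ex
  rw [dif_neg]
  rintro ⟨n, hn⟩
  exact h n hn

private theorem W3_ex_map {R R' : Type} [CommRing R] [CommRing R'] (φ : R →+* R')
    (e : Fin 4 → ι) (y : Fin 4 → R) (i : ι) :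
    φ (W3_ex e y i) = W3_ex e (fun n => φ (y n)) i := by
  unfold W3_ex
  by_cases h : ∃ n, i = e n
  · rw [dif_pos h, dif_pos h]
  · rw [dif_neg h, dif_neg h, map_zero]

private theorem W3_ext_map {R R' : Type} [CommRing R] [CommRing R'] (φ : R →+* R')
    (S : Finset ι) (x : ι → R) (i : ι) : φ (ext S x i) = ext S (fun i => φ (x i)) i := by
  unfold ext
  by_cases h : i ∈ S
  · rw [if_pos h, if_pos h]
  · rw [if_neg h, if_neg h, map_one]

private theorem W3_eval (X : Hyp k P) (S : Finset ι) (e : Fin 4 → ι) {L : Type} [Field L]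
    [Algebra k L] (z : Fin 4 → L) :
    (aeval z : MvPolynomial (Fin 4) L →ₐ[L] L)
      (aeval (ext S (W3_ex e (fun n => (MvPolynomial.X n : MvPolynomial (Fin 4) L)))) X.F) =
      aeval (ext S (W3_ex e z)) X.F := by
  have h1 := MvPolynomial.comp_aeval_apply
    (f := ext S (W3_ex e (fun n => (MvPolynomial.X n : MvPolynomial (Fin 4) L))))
    ((aeval z : MvPolynomial (Fin 4) L →ₐ[L] L).restrictScalars k) X.F
  rw [AlgHom.restrictScalars_apply] at h1
  rw [h1]
  congr 1
  congr 1
  funext i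
  rw [AlgHom.restrictScalars_apply]
  have h2 := W3_ext_map ((aeval z : MvPolynomial (Fin 4) L →ₐ[L] L) : MvPolynomial (Fin 4) L →+* L)
    S (W3_ex e (fun n => (MvPolynomial.X n : MvPolynomial (Fin 4) L))) i
  have h3 : (fun i => ((aeval z : MvPolynomial (Fin 4) L →ₐ[L] L) : MvPolynomial (Fin 4) L →+* L)
      (W3_ex e (fun n => (MvPolynomial.X n : MvPolynomial (Fin 4) L)) i)) = W3_ex e z := by
    funext j
    rw [W3_ex_map]
    congr 1
    funext n
    show (aeval z : MvPolynomial (Fin 4) L →ₐ[L] L) (MvPolynomial.X n) = z n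
    rw [aeval_X]
  rw [h3] at h2
  exact h2

private theorem W3_y (X : Hyp k P) {S : Finset ι} (hS : ∀ j, ∑ i ∈ S, P.v i j = 0)
    (e : Fin 4 → ι) (he : Function.Injective e) (heS : ∀ n, e n ∈ S) (τ : k)
    {L : Type} [Field L] [IsAlgClosed L] [Algebra k L] (s : L) (hs : Transcendental k s) :
    ∃ x : ι → L, NC k S x ∧ (∀ i ∈ S, (∀ n, i ≠ e n) → x i = 0) ∧
      ∑ n : Fin 4, algebraMap k L τ ^ (n : ℕ) * x (e n) = 0 ∧ aeval (ext S x) X.F = 0 := by
  have hne : S.Nonempty := ⟨e 0, heS 0⟩
  let F : Fin 3 → MvPolynomial (Fin 4) L :=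
    ![∑ n : Fin 4, MvPolynomial.C (algebraMap k L τ ^ (n : ℕ)) * MvPolynomial.X n,
      ∑ n : Fin 4, MvPolynomial.C (s ^ (n : ℕ)) * MvPolynomial.X n,
      aeval (ext S (W3_ex e (fun n => (MvPolynomial.X n : MvPolynomial (Fin 4) L)))) X.F]
  have hF0 : F 0 = ∑ n : Fin 4, MvPolynomial.C (algebraMap k L τ ^ (n : ℕ)) * MvPolynomial.X n :=
    rfl
  have hF1 : F 1 = ∑ n : Fin 4, MvPolynomial.C (s ^ (n : ℕ)) * MvPolynomial.X n := rfl
  have hF2 : F 2 =
      aeval (ext S (W3_ex e (fun n => (MvPolynomial.X n : MvPolynomial (Fin 4) L)))) X.F := rfl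
  have hlin : ∀ a : Fin 4 → L, constantCoeff
      (∑ n : Fin 4, MvPolynomial.C (a n) * MvPolynomial.X n : MvPolynomial (Fin 4) L) = 0 := by
    intro a
    rw [map_sum]
    refine Finset.sum_eq_zero fun n _ => ?_
    rw [map_mul, constantCoeff_X, mul_zero]
  have hlin' : ∀ (a y : Fin 4 → L), MvPolynomial.eval y
      (∑ n : Fin 4, MvPolynomial.C (a n) * MvPolynomial.X n : MvPolynomial (Fin 4) L) =
      ∑ n, a n * y n := by
    intro a y
    rw [map_sum]
    refine Finset.sum_congr rfl fun n _ => ?_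
    rw [map_mul, MvPolynomial.eval_C, MvPolynomial.eval_X]
  have h0 : ∀ j, constantCoeff (F j) = 0 := by
    intro j
    fin_cases j
    · exact (congrArg _ hF0).trans (hlin _)
    · exact (congrArg _ hF1).trans (hlin _)
    · show constantCoeff (F 2) = 0
      have h1 := W3_eval X S e (fun _ : Fin 4 => (0 : L))
      rw [← hF2, aeval_zero'] at h1
      have h2 : (algebraMap L L) (constantCoeff (F 2)) = constantCoeff (F 2) := rfl
      rw [h2] at h1
      rw [h1]
      have h3 := ext_scale (K := L) X hS hne (0 : L) (fun _ => (0 : L))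
      rw [zero_pow (Finset.card_ne_zero.2 hne)] at h3
      have h4 : ext S (fun _ : ι => (0 : L) * 0) = ext S (W3_ex e (fun _ : Fin 4 => (0 : L))) := by
        congr 1
        funext i
        unfold W3_ex
        rw [mul_zero]
        split_ifs <;> rfl
      rw [← h4]
      exact h3.trans (zero_mul _)
  obtain ⟨y, hy, hy'⟩ := common_zero 3 F h0 (by simp)
  have hy0 : ∑ n : Fin 4, algebraMap k L τ ^ (n : ℕ) * y n = 0 := by
    have h1 := hy' 0
    rw [hF0, hlin'] at h1
    exact h1
  have hy1 : ∑ n : Fin 4, s ^ (n : ℕ) * y n = 0 := by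
    have h1 := hy' 1
    rw [hF1, hlin'] at h1
    exact h1
  have hy2 : aeval (ext S (W3_ex e y)) X.F = 0 := by
    have h1 := hy' 2
    rw [hF2] at h1
    rw [← W3_eval X S e y]
    exact h1
  refine ⟨W3_ex e y, ?_, fun i _ h => W3_ex_not h, ?_, hy2⟩
  · rintro ⟨c, t, hct⟩
    have h1 : ∀ n, y n = t * algebraMap k L (c (e n)) := by
      intro n
      rw [← W3_ex_e he y n]
      exact hct (e n) (heS n)
    by_cases ht : t = 0
    · apply hy
      funext n
      rw [h1 n, ht, zero_mul]
      rfl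
    · have h2 : ∑ n : Fin 4, algebraMap k L (c (e n)) * s ^ (n : ℕ) = 0 := by
        have h3 : t * ∑ n : Fin 4, algebraMap k L (c (e n)) * s ^ (n : ℕ) = 0 := by
          rw [Finset.mul_sum, ← hy1]
          refine Finset.sum_congr rfl fun n _ => ?_
          rw [h1 n]
          ring
        exact (mul_eq_zero.1 h3).resolve_left ht
      have h4 : Polynomial.aeval s
          (∑ n : Fin 4, Polynomial.C (c (e n)) * Polynomial.X ^ (n : ℕ) : Polynomial k) = 0 := by
        rw [map_sum, ← h2]
        refine Finset.sum_congr rfl fun n _ => ?_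
        rw [map_mul, Polynomial.aeval_C, map_pow, Polynomial.aeval_X]
      have h5 : (∑ n : Fin 4, Polynomial.C (c (e n)) * Polynomial.X ^ (n : ℕ) : Polynomial k) = 0 := by
        by_contra h6
        exact hs ⟨_, h6, h4⟩
      have h6 : ∀ n, c (e n) = 0 := by
        intro n
        have h7 := congrArg (fun p => Polynomial.coeff p (n : ℕ)) h5
        simp only [Polynomial.finsetSum_coeff, Polynomial.coeff_C_mul_X_pow,
          Polynomial.coeff_zero] at h7
        rw [Finset.sum_eq_single n] at h7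
        · rw [if_pos rfl] at h7
          exact h7
        · intro m _ hm
          rw [if_neg]
          intro h8
          exact hm (Fin.ext h8.symm)
        · intro h8
          exact absurd (Finset.mem_univ _) h8
      apply hy
      funext n
      rw [h1 n, h6 n, map_zero, mul_zero]
      rfl
  · rw [← hy0]
    refine Finset.sum_congr rfl fun n _ => ?_
    rw [W3_ex_e he]

private theorem W3_gen (X : Hyp k P) {S : Finset ι} (hS : ∀ j, ∑ i ∈ S, P.v i j = 0)
    (e : Fin 4 → ι) (he : Function.Injective e) (heS : ∀ n, e n ∈ S) (τ : k)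
    {K₀ : Type} [Field K₀] [Algebra k K₀] (hK : IsFunctionField k K₀) (t₀ : K₀)
    (ht₀ : Transcendental k t₀) :
    ∃ (K : Type) (_ : Field K) (_ : Algebra k K) (x : ι → K), IsFunctionField k K ∧
      NC k S x ∧ (∀ i ∈ S, (∀ n, i ≠ e n) → x i = 0) ∧
      ∑ n : Fin 4, algebraMap k K τ ^ (n : ℕ) * x (e n) = 0 ∧ aeval (ext S x) X.F = 0 := by
  have hs : Transcendental k (algebraMap K₀ (AlgebraicClosure K₀) t₀) := by
    have h1 := (transcendental_algebraMap_iff (R := k)
      (FaithfulSMul.algebraMap_injective K₀ (AlgebraicClosure K₀)) (a := t₀)).2 ht₀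
    exact h1
  obtain ⟨x, hNC, hx0, hx1, hx2⟩ := W3_y X hS e he heS τ _ hs
  obtain ⟨M, hM1, hM2, i₀, φ, x', hff, hi₀, hx'⟩ := Pool.Agent.LibPN22.exists_sub hK x
  have hinj : Function.Injective φ := φ.toRingHom.injective
  refine ⟨M, hM1, hM2, x', hff, ?_, ?_, ?_, ?_⟩
  · rintro ⟨c, t, hct⟩
    apply hNC
    refine ⟨c, φ t, fun i hi => ?_⟩
    rw [← hx' i, hct i hi, map_mul, AlgHom.commutes]
  · intro i hi h
    apply hinj
    rw [hx' i, map_zero]
    exact hx0 i hi h
  · apply hinj
    rw [map_zero, map_sum, ← hx1]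
    refine Finset.sum_congr rfl fun n _ => ?_
    rw [map_mul, map_pow, AlgHom.commutes, hx']
  · apply hinj
    rw [map_zero, MvPolynomial.comp_aeval_apply, ← hx2]
    congr 1
    congr 1
    funext i
    have h1 := W3_ext_map (φ : M →+* AlgebraicClosure K₀) S x' i
    have h2 : (fun i => (φ : M →+* AlgebraicClosure K₀) (x' i)) = x := by
      funext j
      exact hx' j
    rw [h2] at h1
    exact h1

theorem exists_plane_point (X : Hyp k P) {S : Finset ι} (hS : ∀ j, ∑ i ∈ S, P.v i j = 0)
    (e : Fin 4 → ι) (he : Function.Injective e) (heS : ∀ n, e n ∈ S) (τ : k) :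
    ∃ (K : Type) (_ : Field K) (_ : Algebra k K) (x : ι → K), IsFunctionField k K ∧
      NC k S x ∧ (∀ i ∈ S, (∀ n, i ≠ e n) → x i = 0) ∧
      ∑ n : Fin 4, algebraMap k K τ ^ (n : ℕ) * x (e n) = 0 ∧ aeval (ext S x) X.F = 0 := by
  obtain ⟨h1, h2⟩ := Pool.Agent.LibPC60.ratFunc_ff (k := k)
  exact W3_gen X hS e he heS τ h1 _ h2

end Pool.Agent.LibTC1
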