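import Pool.Agent.LibTC1.W1
import Pool.Agent.LibTC1.W2
import Pool.Agent.LibTC1.W3
import Pool.Agent.LibTC1.T2
import Pool.Agent.LibTC1.P4
import Pool.Agent.LibTC1.C5

/-!
[TC1 W4] (MEDIUM) A point of `X` in the plane with a line of total contact.

`exists_plane_point` gives `K`, `x`; `u = ⟨ext S x, ext_cone, _⟩`, `hasDeg_ext` gives `δ`. `sol_curve` (T2) for the class `iS S` (`hw_pos` with `a = iS S`) gives a place `v`, `p`, `l` with `Sp v u p l`
and `f` with `Sol X (iS S) p.z f`. `prim`, `sp_ext` give `x₀` and the point `p'` with `p'.z = ext S x₀`; `val_unique'` (for `u.z`): `ext S x₀ i = c i * p.z i` with `IsT P c`.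
`f' i = C (c i) * f i` : `IsQ P (iS S) f'`, value `ext S x₀` at `0`, so `f' = ln S x₀ y` with `y i = (f' i).coeff 1` (`ln_of_isQ`; on `S` `(f' i).coeff 0 = x₀ i`). `cmp_scale` (C5): (`cmp X f' =
C (∏ c i) * cmp X f`, C5; or by values): `cmp X f' = C κ * X ^ card S`. `Ind S x₀ y`: `α x₀ + β y = 0` on `S`; `β = 0` gives `α = 0` (`x₀ ≠ 0`); `β ≠ 0` gives `y = μ x₀` on `S`, then
`f i = C ((f i).coeff 0) * (1 + C μ * X) ^ (iS S i).toNat` for all `i`: `Triv`, contradiction. The plane: `∑ τ ^ n x₀ (e n)` is the value of `c * ∑ τ ^ n x (e n) = 0`.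
-/

open scoped Classical
open MvPolynomial

set_option linter.unusedSectionVars false

namespace Pool.Agent.LibTC1

open Pool.Agent.LibBH2 Pool.Agent.LibQC8

variable {ι : Type} [Fintype ι] {r : ℕ} {k : Type} [Field k] [IsAlgClosed k] {P : Tor ι r}
  {K : Type} [Field K] [Algebra k K]

private theorem W4_sum (v : Place k K) (s : Finset (Fin 4)) (a : Fin 4 → K) (b : Fin 4 → k)
    (h : ∀ n ∈ s, v.Zer (a n - algebraMap k K (b n))) :
    v.Zer (∑ n ∈ s, a n - algebraMap k K (∑ n ∈ s, b n)) := by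
  induction s using Finset.induction_on with
  | empty => simpa using Place.zer_zero v
  | insert n s hn ih =>
    rw [Finset.sum_insert hn, Finset.sum_insert hn]
    exact Place.val_add (h n (Finset.mem_insert_self _ _))
      (ih fun m hm => h m (Finset.mem_insert_of_mem hm))

theorem exists_sol_plane [CharZero k] (X : Hyp k P) {S : Finset ι}
    (hS : ∀ j, ∑ i ∈ S, P.v i j = 0) (hT : ∀ T ⊂ S, T ∈ P.C) (e : Fin 4 → ι)
    (he : Function.Injective e) (heS : ∀ n, e n ∈ S) (τ : k) :
    ∃ (x y : ι → k) (κ : k), (∃ i ∈ S, x i ≠ 0) ∧ Ind S x y ∧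
      (∀ i ∈ S, (∀ n, i ≠ e n) → x i = 0) ∧ ∑ n : Fin 4, τ ^ (n : ℕ) * x (e n) = 0 ∧
      cmp X (ln S x y) = Polynomial.C κ * Polynomial.X ^ S.card := by
  obtain ⟨K, _, _, x, hK, hNC, hx0, hx1, hF⟩ := exists_plane_point X hS e he heS τ
  have hex : ∃ i ∈ S, x i ≠ 0 := by
    by_contra hcon
    apply hNC
    refine ⟨fun _ => 0, 0, fun i hi => ?_⟩
    rw [zero_mul]
    by_contra h
    exact hcon ⟨i, hi, h⟩
  have hcard : 4 ≤ S.card := by
    have h1 : (Finset.univ.image e).card = 4 := by
      rw [Finset.card_image_of_injective _ he]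
      simp
    rw [← h1]
    apply Finset.card_le_card
    intro i hi
    obtain ⟨n, -, rfl⟩ := Finset.mem_image.1 hi
    exact heS n
  let u : Pt X K := ⟨ext S x, ext_cone hT hex, hF⟩
  have hu : u.z = ext S x := rfl
  obtain ⟨δ, hδ, hD⟩ := hasDeg_ext X hK hS hT hu hNC
  have hrel : iS S ∈ Rel P := iS_rel hS
  have hpos : ∀ i, 0 ≤ iS S i := fun i => by
    unfold iS
    split_ifs <;> norm_num
  have hne : iS S ≠ 0 := by
    intro h
    have h1 := congrFun h (e 0)
    unfold iS at h1
    rw [if_pos (heS 0)] at h1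
    simp at h1
  obtain ⟨v, p, l, hSp, f, hSol⟩ := sol_curve X (iS S) hrel hpos hne hK u _ hD
    (ne_of_gt (hw_pos hrel hpos hne (by omega : 3 ≤ S.card) hδ))
  obtain ⟨i₀, x₀, hi₀, hxi₀, hx₀1, hval⟩ := prim hK v hex
  have hx₀ : ∃ i ∈ S, x₀ i ≠ 0 := ⟨i₀, hi₀, by rw [hx₀1]; exact one_ne_zero⟩
  obtain ⟨p', hp', hSp', -⟩ := sp_ext X hS hT v hu (inv_ne_zero hxi₀) hx₀ hval
  obtain ⟨-, c, hc, hcz⟩ := val_unique' hK v u.z p.cone p'.cone hSp.tor hSp'.tor hSp.val hSp'.val
  rw [hp'] at hcz
  have hc0 : ∀ i, c i ≠ 0 := hc.1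
  set f' : ι → Polynomial k := fun i => Polynomial.C (c i) * f i with hf'
  have hQ : IsQ P (iS S) f' := by
    refine ⟨hrel, fun i hi => ?_, fun i => ?_⟩
    · exact absurd hi (not_lt.2 (hpos i))
    · exact (Polynomial.natDegree_C_mul_le _ _).trans (hSol.q.deg i)
  have hco : ∀ i, (f' i).coeff 0 = ext S x₀ i := fun i => by
    rw [hf']
    simp only
    rw [Polynomial.coeff_C_mul, hSol.at0, hcz]
  have h1 : ∀ i, i ∉ S → (f' i).coeff 0 = 1 := fun i hi => by
    rw [hco i]
    unfold ext
    rw [if_neg hi]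
  have h2 := ln_of_isQ (K := k) (P := P) hQ h1
  have h3 : f' = ln S x₀ (fun i => (f' i).coeff 1) := by
    refine h2.trans ?_
    funext i
    unfold ln
    split_ifs with hi
    · show Polynomial.C ((f' i).coeff 0) + _ = _
      rw [hco i]
      unfold ext
      rw [if_pos hi]
    · rfl
  obtain ⟨c0, hc0'⟩ := hSol.tot
  refine ⟨x₀, fun i => (f' i).coeff 1, (∏ i, c i) * c0, hx₀, ?_, ?_, ?_, ?_⟩
  · -- independence
    intro α β hαβ
    by_cases hβ : β = 0
    · refine ⟨?_, hβ⟩
      have h4 := hαβ i₀ hi₀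
      rw [hβ, zero_mul, add_zero, hx₀1, mul_one] at h4
      exact h4
    · exfalso
      apply hSol.ntriv
      refine ⟨-α / β, fun i => ?_⟩
      have h5 : f i = Polynomial.C (c i)⁻¹ * f' i := by
        rw [hf']
        simp only
        rw [← mul_assoc, ← Polynomial.C_mul, inv_mul_cancel₀ (hc0 i), Polynomial.C_1, one_mul]
      have h6 : f' i = Polynomial.C (ext S x₀ i) *
          (1 + Polynomial.C (-α / β) * Polynomial.X) ^ (iS S i).toNat := by
        by_cases hi : i ∈ S
        · have h7 := hαβ i hi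
          have h8 : (f' i).coeff 1 = -α / β * x₀ i := by
            field_simp
            linear_combination h7
          have h9 : f' i = Polynomial.C (x₀ i) + Polynomial.C ((f' i).coeff 1) * Polynomial.X := by
            conv_lhs => rw [h3]
            unfold ln
            rw [if_pos hi]
          have h10 : (iS S i).toNat = 1 := by
            unfold iS
            rw [if_pos hi]
            rfl
          rw [h9, h8, h10, pow_one]
          unfold ext
          rw [if_pos hi, Polynomial.C_mul]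
          ring
        · have h9 : f' i = 1 := by
            conv_lhs => rw [h3]
            unfold ln
            rw [if_neg hi]
          have h10 : (iS S i).toNat = 0 := by
            unfold iS
            rw [if_neg hi]
            rfl
          rw [h9, h10, pow_zero, mul_one]
          unfold ext
          rw [if_neg hi, Polynomial.C_1]
      have h11 : (f i).coeff 0 = (c i)⁻¹ * ext S x₀ i := by
        rw [h5, Polynomial.coeff_C_mul, hco i]
      rw [h11, h5, h6, Polynomial.C_mul]
      ring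
  · intro i hi hn
    have h4 := hval i hi
    rw [hx0 i hi hn, mul_zero, zero_sub] at h4
    have h5 := Place.Zer.neg h4
    rw [neg_neg] at h5
    exact (Place.zer_const_iff v (x₀ i)).1 h5
  · have h4 : ∀ n : Fin 4, v.Zer (algebraMap k K τ ^ (n : ℕ) * ((x i₀)⁻¹ * x (e n)) -
        algebraMap k K (τ ^ (n : ℕ) * x₀ (e n))) := fun n =>
      Place.val_mul (Place.val_pow (Place.val_const (v := v) τ) (n : ℕ)) (hval (e n) (heS n))
    have h5 := W4_sum v Finset.univ _ _ (fun n _ => h4 n)
    have h6 : ∑ n : Fin 4, algebraMap k K τ ^ (n : ℕ) * ((x i₀)⁻¹ * x (e n)) = 0 := by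
      have h7 : ∑ n : Fin 4, algebraMap k K τ ^ (n : ℕ) * ((x i₀)⁻¹ * x (e n)) =
          (x i₀)⁻¹ * ∑ n : Fin 4, algebraMap k K τ ^ (n : ℕ) * x (e n) := by
        rw [Finset.mul_sum]
        exact Finset.sum_congr rfl fun n _ => by ring
      rw [h7, hx1, mul_zero]
    rw [h6, zero_sub] at h5
    have h7 := Place.Zer.neg h5
    rw [neg_neg] at h7
    exact (Place.zer_const_iff v _).1 h7
  · rw [← h3]
    have h4 := cmp_scale (K := k) X hc f
    rw [hf', h4, hc0', dk_iS, Int.toNat_natCast, Polynomial.C_mul, mul_assoc]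

end Pool.Agent.LibTC1
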