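import Pool.Agent.LibTC1.W4

/-!
[TC1 W5] (MEDIUM) A nonconstant family of lines of total contact.

`k₁ = AlgebraicClosure (RatFunc k)` (alg. closed, characteristic zero, a `k`-algebra), `τ = algebraMap RatFunc.X` transcendental over `k`. `X₁ : Hyp k₁ P`, `F₁ = X.F.map (algebraMap k k₁)` (nonzero; its support is
contained in the support of `F`). `exists_sol_plane` (W4) for `X₁`, `e` from `4 ≤ card S` gives `x, y, κ` over `k₁`. `Pool.Agent.LibPN22.exists_sub` for the family `Sum.elim x y` (index `ι ⊕ ι`) and `κ` (`ι ⊕ ι ⊕ Unit`)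
gives a function field `K` over `k` with elements `x', y', κ'`. `cmp X (ln S x' y')` maps to `cmp X₁ (ln S x y)` (`cmp_map`; `aeval` over `k` and over `k₁`: `MvPolynomial.aeval_map_algebraMap`/`eval₂` computations).
`Ind` pulls back along the injective `φ`. `NC k S x'`: if `x' i = t * c i` on `S` (`t ≠ 0`), then `∑ τ ^ n * c (e n) = 0`, so `c (e n) = 0` for all `n` (`τ` transcendental), and `c i = 0` for the other `i ∈ S`, so
`x' = 0` on `S`.
-/

open scoped Classical
open MvPolynomial

set_option linter.unusedSectionVars false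

namespace Pool.Agent.LibTC1

open Pool.Agent.LibBH2 Pool.Agent.LibQC8

variable {ι : Type} [Fintype ι] {r : ℕ} {k : Type} [Field k] [IsAlgClosed k] {P : Tor ι r}
  {K : Type} [Field K] [Algebra k K]

/-- `1, τ, τ ^ 2, τ ^ 3` are linearly independent over `k` -/
private theorem W5_trans {k L : Type} [Field k] [Field L] [Algebra k L] {τ : L}
    (hτ : Transcendental k τ) (c : Fin 4 → k)
    (h : ∑ n : Fin 4, τ ^ (n : ℕ) * algebraMap k L (c n) = 0) : ∀ n, c n = 0 := by
  have h1 : (∑ n : Fin 4, Polynomial.C (c n) * Polynomial.X ^ (n : ℕ) : Polynomial k) = 0 := by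
    by_contra hne
    apply hτ
    refine ⟨_, hne, ?_⟩
    rw [map_sum, ← h]
    refine Finset.sum_congr rfl fun n _ => ?_
    rw [map_mul, Polynomial.aeval_C, map_pow, Polynomial.aeval_X, mul_comm]
  intro n
  have h2 := congrArg (fun p : Polynomial k => p.coeff (n : ℕ)) h1
  simp only [Polynomial.finsetSum_coeff, Polynomial.coeff_C_mul_X_pow, Polynomial.coeff_zero] at h2
  rw [Finset.sum_eq_single n] at h2
  · simpa using h2
  · intro m _ hm
    rw [if_neg]
    intro he
    exact hm (Fin.ext he.symm)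
  · intro hn
    exact absurd (Finset.mem_univ n) hn

private theorem W5_hyp {L : Type} [Field L] [Algebra k L] (X : Hyp k P) :
    ∃ X₁ : Hyp L P, X₁.F = X.F.map (algebraMap k L) := by
  refine ⟨⟨X.F.map (algebraMap k L), ?_, ?_⟩, rfl⟩
  · intro h0
    apply X.ne
    apply MvPolynomial.map_injective (algebraMap k L) (algebraMap k L).injective
    rw [h0, map_zero]
  · intro e he
    exact X.mon e (MvPolynomial.support_map_subset _ _ he)

theorem exists_line_ff [CharZero k] (X : Hyp k P) {S : Finset ι} (h4 : 4 ≤ S.card)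
    (hS : ∀ j, ∑ i ∈ S, P.v i j = 0) (hT : ∀ T ⊂ S, T ∈ P.C) :
    ∃ (K : Type) (_ : Field K) (_ : Algebra k K) (x y : ι → K) (κ : K),
      IsFunctionField k K ∧ NC k S x ∧ Ind S x y ∧
      cmp X (ln S x y) = Polynomial.C κ * Polynomial.X ^ S.card := by
  have hff := Pool.Agent.LibPC60.ratFunc_ff (k := k)
  obtain ⟨X₁, hX₁⟩ := W5_hyp (L := AlgebraicClosure (RatFunc k)) X
  have hτ : Transcendental k (algebraMap (RatFunc k) (AlgebraicClosure (RatFunc k)) RatFunc.X) :=
    (transcendental_algebraMap_iff (algebraMap (RatFunc k) _).injective).2 hff.2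
  generalize algebraMap (RatFunc k) (AlgebraicClosure (RatFunc k)) RatFunc.X = τ at hτ
  have hch : CharZero (AlgebraicClosure (RatFunc k)) :=
    charZero_of_injective_algebraMap (algebraMap k (AlgebraicClosure (RatFunc k))).injective
  obtain ⟨T, hTS, hTc⟩ := Finset.exists_subset_card_eq h4
  obtain ⟨e, he, heS⟩ : ∃ e : Fin 4 → ι, Function.Injective e ∧ ∀ n, e n ∈ S := by
    refine ⟨fun n => ((T.equivFinOfCardEq hTc).symm n : ι), ?_, ?_⟩
    · intro a b hab
      exact (T.equivFinOfCardEq hTc).symm.injective (Subtype.ext hab)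
    · intro n
      exact hTS ((T.equivFinOfCardEq hTc).symm n).2
  obtain ⟨x, y, κ, ⟨i₀, hi₀, hx₀⟩, hInd, hz, hsum, hcmp⟩ :=
    exists_sol_plane X₁ hS hT e he heS τ
  obtain ⟨K, _, _, _, φ, z', hK, -, hz'⟩ := Pool.Agent.LibPN22.exists_sub hff.1
    (Sum.elim x (Sum.elim y (fun _ : Unit => κ)))
  have hx' : ∀ i, φ (z' (Sum.inl i)) = x i := fun i => hz' (Sum.inl i)
  have hy' : ∀ i, φ (z' (Sum.inr (Sum.inl i))) = y i := fun i => hz' (Sum.inr (Sum.inl i))
  have hκ' : φ (z' (Sum.inr (Sum.inr ()))) = κ := hz' (Sum.inr (Sum.inr ()))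
  have hφ : Function.Injective (φ : K →+* AlgebraicClosure (RatFunc k)) :=
    (φ : K →+* AlgebraicClosure (RatFunc k)).injective
  refine ⟨K, inferInstance, inferInstance, fun i => z' (Sum.inl i),
    fun i => z' (Sum.inr (Sum.inl i)), z' (Sum.inr (Sum.inr ())), hK, ?_, ?_, ?_⟩
  · rintro ⟨c, t, hc⟩
    have h1 : ∀ i ∈ S, x i = φ t * algebraMap k (AlgebraicClosure (RatFunc k)) (c i) := by
      intro i hi
      have h0 : z' (Sum.inl i) = t * algebraMap k K (c i) := hc i hi
      rw [← hx' i, h0, map_mul, AlgHom.commutes]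
    have ht : φ t ≠ 0 := by
      intro h0
      apply hx₀
      rw [h1 i₀ hi₀, h0, zero_mul]
    have h2 : ∑ n : Fin 4, τ ^ (n : ℕ) *
        algebraMap k (AlgebraicClosure (RatFunc k)) (c (e n)) = 0 := by
      have h3 : φ t * ∑ n : Fin 4, τ ^ (n : ℕ) *
          algebraMap k (AlgebraicClosure (RatFunc k)) (c (e n)) = 0 := by
        rw [← hsum, Finset.mul_sum]
        refine Finset.sum_congr rfl fun n _ => ?_
        rw [h1 (e n) (heS n)]
        ring
      exact (mul_eq_zero.1 h3).resolve_left ht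
    have h4 := W5_trans hτ (fun n => c (e n)) h2
    apply hx₀
    by_cases hn : ∀ n, i₀ ≠ e n
    · exact hz i₀ hi₀ hn
    · push Not at hn
      obtain ⟨n, rfl⟩ := hn
      rw [h1 _ hi₀, h4 n, map_zero, mul_zero]
  · intro α β hαβ
    obtain ⟨g1, g2⟩ := hInd (φ α) (φ β) fun i hi => by
      have h1 := congrArg φ (hαβ i hi)
      rw [map_add, map_mul, map_mul, map_zero] at h1
      rw [← hx' i, ← hy' i]
      exact h1
    exact ⟨hφ (g1.trans (map_zero φ).symm), hφ (g2.trans (map_zero φ).symm)⟩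
  · apply Polynomial.map_injective _ hφ
    rw [cmp_map, Polynomial.map_mul, Polynomial.map_C, Polynomial.map_pow, Polynomial.map_X]
    have h1 : (fun i => (ln S (fun i => z' (Sum.inl i)) (fun i => z' (Sum.inr (Sum.inl i)))
        i).map (φ : K →+* AlgebraicClosure (RatFunc k))) = ln S x y := by
      funext i
      unfold ln
      split_ifs with hi
      · rw [Polynomial.map_add, Polynomial.map_mul, Polynomial.map_C, Polynomial.map_C,
          Polynomial.map_X]
        have e1 : (φ : K →+* AlgebraicClosure (RatFunc k)) (z' (Sum.inl i)) = x i := hx' i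
        have e2 : (φ : K →+* AlgebraicClosure (RatFunc k)) (z' (Sum.inr (Sum.inl i))) = y i :=
          hy' i
        rw [e1, e2]
      · rw [Polynomial.map_one]
    have h2 : cmp X₁ (ln S x y) = cmp X (ln S x y) := by
      unfold cmp
      rw [hX₁]
      exact MvPolynomial.aeval_map_algebraMap _ _ _
    have e3 : (φ : K →+* AlgebraicClosure (RatFunc k)) (z' (Sum.inr (Sum.inr ()))) = κ := hκ'
    rw [h1, ← h2, hcmp, e3]

end Pool.Agent.LibTC1
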