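import Pool.Agent.LibTC1.W1

/-!
[TC1 W6] (MEDIUM) Limits of lines of total contact.

`prim` for `x` (`Ind` implies `x ≠ 0` on `S`): `i₀`, `x₀`, `x₀ i₀ = 1`, `c = (x i₀)⁻¹`. `y' = y - (y i₀ / x i₀) x` vanishes at `i₀` and is nonzero on `S` (`Ind`). `prim` for `y'`: `i₁`, `y₀`, `y₀ i₁ = 1`; `y₀ i₀ = 0` (value of `0`). So
`Ind S x₀ y₀` (look at `i₀`, then at `i₁`). The line `ln S (c x) (α y + β x)` with `α = (y' i₁)⁻¹`, `β = - α (y i₀ / x i₀)` has coefficients with values `ln S x₀ y₀` (`CV`), and by `ln_scale` (W0) its `cmp` is `C (κ α ^ m) * X ^ m`; by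
`cv_cmp` all coefficients of `cmp X (ln S x₀ y₀)` except the one of degree `m = card S` vanish.
-/

open scoped Classical
open MvPolynomial

set_option linter.unusedSectionVars false

namespace Pool.Agent.LibTC1

open Pool.Agent.LibBH2 Pool.Agent.LibQC8

variable {ι : Type} [Fintype ι] {r : ℕ} {k : Type} [Field k] [IsAlgClosed k] {P : Tor ι r}
  {K : Type} [Field K] [Algebra k K]

private theorem cv_ln (v : Place k K) {S : Finset ι} {x y : ι → K} {x₀ y₀ : ι → k}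
    (hx : ∀ i ∈ S, v.Zer (x i - algebraMap k K (x₀ i)))
    (hy : ∀ i ∈ S, v.Zer (y i - algebraMap k K (y₀ i))) (i : ι) :
    CV v (ln S x y i) (ln S x₀ y₀ i) := by
  unfold ln
  by_cases hi : i ∈ S
  · rw [if_pos hi, if_pos hi]
    exact (cv_C (hx i hi)).add ((cv_C (hy i hi)).mul cv_X)
  · rw [if_neg hi, if_neg hi]
    have h := cv_map v (1 : Polynomial k)
    rwa [Polynomial.map_one] at h

theorem limit_line (X : Hyp k P) (hK : IsFunctionField k K) {S : Finset ι}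
    (hS : ∀ j, ∑ i ∈ S, P.v i j = 0) (hne : S.Nonempty) (v : Place k K) {x y : ι → K} {κ : K}
    (hi : Ind S x y) (h : cmp X (ln S x y) = Polynomial.C κ * Polynomial.X ^ S.card) :
    ∃ (c : K) (x₀ y₀ : ι → k) (κ₀ : k), c ≠ 0 ∧ (∃ i ∈ S, x₀ i ≠ 0) ∧
      (∀ i ∈ S, v.Zer (c * x i - algebraMap k K (x₀ i))) ∧ Ind S x₀ y₀ ∧
      cmp X (ln S x₀ y₀) = Polynomial.C κ₀ * Polynomial.X ^ S.card := by
  have hx : ∃ i ∈ S, x i ≠ 0 := by
    by_contra hc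
    push Not at hc
    have h1 := hi 1 0 (fun i hiS => by rw [hc i hiS]; ring)
    exact one_ne_zero h1.1
  obtain ⟨i₀, x₀, hi₀, hxi₀, hx₀, hval⟩ := prim (k := k) hK v hx
  have hy : ∃ i ∈ S, y i - (y i₀ / x i₀) * x i ≠ 0 := by
    by_contra hc
    push Not at hc
    have h1 := hi (-(y i₀ / x i₀)) 1 (fun i hiS => by
      have h2 := hc i hiS
      linear_combination h2)
    exact one_ne_zero h1.2
  obtain ⟨i₁, y₀, hi₁, hyi₁, hy₀, hvaly⟩ := prim (k := k) hK v hy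
  have hy0 : y₀ i₀ = 0 := by
    have h1 := hvaly i₀ hi₀
    have h2 : y i₀ - (y i₀ / x i₀) * x i₀ = 0 := by
      rw [div_mul_cancel₀ _ hxi₀, sub_self]
    rw [h2, mul_zero, zero_sub] at h1
    have h3 := h1.neg
    rw [neg_neg] at h3
    exact (v.zer_const_iff _).mp h3
  have hind : Ind S x₀ y₀ := by
    intro α β hab
    have h1 := hab i₀ hi₀
    rw [hx₀, hy0, mul_one, mul_zero, add_zero] at h1
    have h2 := hab i₁ hi₁
    rw [h1, hy₀, zero_mul, zero_add, mul_one] at h2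
    exact ⟨h1, h2⟩
  have hcomp := ln_scale X hS hne h (x i₀)⁻¹ (y i₁ - (y i₀ / x i₀) * x i₁)⁻¹
    (-((y i₁ - (y i₀ / x i₀) * x i₁)⁻¹ * (y i₀ / x i₀))) (inv_ne_zero hxi₀)
  have hcv := cv_cmp X v (cv_ln v (x := fun i => (x i₀)⁻¹ * x i)
    (y := fun i => (y i₁ - (y i₀ / x i₀) * x i₁)⁻¹ * y i +
      (-((y i₁ - (y i₀ / x i₀) * x i₁)⁻¹ * (y i₀ / x i₀))) * x i)
    (x₀ := x₀) (y₀ := y₀) hval (fun i hiS => by
      have h1 := hvaly i hiS
      have h2 : (y i₁ - (y i₀ / x i₀) * x i₁)⁻¹ * y i +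
          (-((y i₁ - (y i₀ / x i₀) * x i₁)⁻¹ * (y i₀ / x i₀))) * x i =
          (y i₁ - (y i₀ / x i₀) * x i₁)⁻¹ * (y i - (y i₀ / x i₀) * x i) := by ring
      show v.Zer ((y i₁ - (y i₀ / x i₀) * x i₁)⁻¹ * y i +
          (-((y i₁ - (y i₀ / x i₀) * x i₁)⁻¹ * (y i₀ / x i₀))) * x i - algebraMap k K (y₀ i))
      rw [h2]
      exact h1))
  rw [hcomp] at hcv
  refine ⟨(x i₀)⁻¹, x₀, y₀, (cmp X (ln S x₀ y₀)).coeff S.card, inv_ne_zero hxi₀,
    ⟨i₀, hi₀, by rw [hx₀]; exact one_ne_zero⟩, hval, hind, ?_⟩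
  ext j
  rw [Polynomial.coeff_C_mul_X_pow]
  by_cases hj : j = S.card
  · rw [if_pos hj, hj]
  · rw [if_neg hj]
    have h1 := hcv j
    rw [Polynomial.coeff_C_mul_X_pow, if_neg hj, zero_sub] at h1
    have h3 := h1.neg
    rw [neg_neg] at h3
    exact (v.zer_const_iff _).mp h3

end Pool.Agent.LibTC1
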