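import Pool.Agent.LibTC1.W5
import Pool.Agent.LibTC1.W6
import Pool.Agent.LibTC1.D4m
import Pool.Agent.LibTC1.C18

/-!
[TC1 W7] (SHORT/MEDIUM) The curve of points with a line of total contact is a constant cycle curve.

line_class: `f = ln S x₀ y₀` is a map (`ln_isMap`) with `IsTot X (iS S) f` (`dk_iS`), value `ext S x₀` at `0`; the point `⟨ext S x₀, ext_cone, _⟩` of `X` (`cmp_eval` at `0`, `card S > 0`); `fcyc_tot` (D4m), `pz_eq`; the hypothesis on `φ`.
const_curve: `K, x, y` from `exists_line_ff`; `u` with `u.z = ext S x` (equation: `cmp_eval` at `0`); `o = (card S)⁻¹ • φ (iS S)`; `IsConst u o`: for `Sp v u p l`: `limit_line`, `sp_ext` gives `pt p' = pz X (ext S x₀)`, `sp_unique` (P4)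
`pt p = pt p'`, `line_class`. Degrees: `hasDeg_ext`.
-/

open scoped Classical
open MvPolynomial

set_option linter.unusedSectionVars false

namespace Pool.Agent.LibTC1

open Pool.Agent.LibBH2 Pool.Agent.LibQC8

variable {ι : Type} [Fintype ι] {r : ℕ} {k : Type} [Field k] [IsAlgClosed k] {P : Tor ι r}
  {K : Type} [Field K] [Algebra k K]

private theorem W7_ne {S : Finset ι} {R : Type} [CommRing R] [Nontrivial R] {x y : ι → R} (h : Ind S x y) :
    ∃ i ∈ S, x i ≠ 0 := by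
  by_contra hcon
  push Not at hcon
  have h1 := (h 1 0 fun i hi => by rw [hcon i hi, mul_zero, zero_mul, add_zero]).1
  exact one_ne_zero h1

private theorem W7_zero {L : Type} [Field L] [Algebra k L] (X : Hyp k P) {S : Finset ι} (hne : S.Nonempty)
    {x y : ι → L} {κ : L} (h : cmp X (ln S x y) = Polynomial.C κ * Polynomial.X ^ S.card) :
    aeval (ext S x) X.F = 0 := by
  have h1 := cmp_eval X (iS S) (ln S x y) 0
  rw [vl_ln_some, h, Polynomial.eval_mul, Polynomial.eval_C, Polynomial.eval_pow, Polynomial.eval_X,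
    zero_pow hne.card_ne_zero, mul_zero] at h1
  have h2 : (fun i => x i + 0 * y i) = x := by
    funext i
    rw [zero_mul, add_zero]
  rw [h2] at h1
  exact h1.symm

theorem line_class (X : Hyp k P) (φ : Rel P →+ CH X)
    (hφ : ∀ a f (h : IsMap P a f), φ ⟨a, h.rel⟩ = cl (fcyc X a f)) {S : Finset ι}
    (hS : ∀ j, ∑ i ∈ S, P.v i j = 0) (hT : ∀ T ⊂ S, T ∈ P.C) (hne : S.Nonempty) {x₀ y₀ : ι → k}
    {κ₀ : k} (hi : Ind S x₀ y₀)
    (h : cmp X (ln S x₀ y₀) = Polynomial.C κ₀ * Polynomial.X ^ S.card) :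
    φ ⟨iS S, iS_rel hS⟩ = (S.card : ℚ) • cl (pz X (ext S x₀)) := by
  have hm : IsMap P (iS S) (ln S x₀ y₀) := ln_isMap hS hT hi
  have hdk : dk (iS S) = (S.card : ℤ) := dk_iS S
  have ht : IsTot X (iS S) (ln S x₀ y₀) := ⟨κ₀, by rw [h, hdk, Int.toNat_natCast]⟩
  have hcone : zs (ext S x₀) ∈ P.C := ext_cone hT (W7_ne hi)
  have hF : aeval (ext S x₀) X.F = 0 := W7_zero X hne h
  have h1 := fcyc_tot X hm ⟨ext S x₀, hcone, hF⟩ (fun i => by
    show (ln S x₀ y₀ i).coeff 0 = ext S x₀ i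
    unfold ln ext
    by_cases hiS : i ∈ S
    · rw [if_pos hiS, if_pos hiS]
      simp
    · rw [if_neg hiS, if_neg hiS]
      simp) ht
  have h2 := hφ (iS S) (ln S x₀ y₀) hm
  rw [h1, hdk, Int.cast_natCast, ← pz_eq X hcone hF] at h2
  exact h2

theorem const_curve [CharZero k] (X : Hyp k P) {S : Finset ι} (h4 : 4 ≤ S.card)
    (hS : ∀ j, ∑ i ∈ S, P.v i j = 0) (hT : ∀ T ⊂ S, T ∈ P.C) :
    ∃ (o : CH X) (K : Type) (_ : Field K) (_ : Algebra k K) (u : Pt X K) (δ : ℤ),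
      IsFunctionField k K ∧ IsConst u o ∧ 0 < δ ∧
      HasDeg u (fun i => if i ∈ S then δ else 0) := by
  obtain ⟨K, i1, i2, x, y, κ, hK, hNC, hI, hc⟩ := exists_line_ff X h4 hS hT
  obtain ⟨φ, hφ⟩ := exists_phi X
  have hcard : 0 < S.card := by omega
  have hne : S.Nonempty := Finset.card_pos.1 hcard
  obtain ⟨u, hu⟩ : ∃ u : Pt X K, u.z = ext S x :=
    ⟨⟨ext S x, ext_cone hT (W7_ne hI), W7_zero X hne hc⟩, rfl⟩
  obtain ⟨δ, hδ, hdeg⟩ := hasDeg_ext X hK hS hT hu hNC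
  refine ⟨(S.card : ℚ)⁻¹ • φ ⟨iS S, iS_rel hS⟩, K, i1, i2, u, δ, hK, ?_, hδ, hdeg⟩
  intro v p l hsp
  obtain ⟨c, x₀, y₀, κ₀, hc0, hx₀, hval, hI₀, hc₀⟩ := limit_line X hK hS hne v hI hc
  obtain ⟨p', _, hp', hpt⟩ := sp_ext X hS hT v hu hc0 hx₀ hval
  rw [(sp_unique X hK v u hsp hp').1, hpt, line_class X φ hφ hS hT hne hI₀ hc₀, smul_smul,
    inv_mul_cancel₀ (by exact_mod_cast hcard.ne'), one_smul]

end Pool.Agent.LibTC1
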