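import Pool.Agent.LibTC1.CDefs

/-!
# The projective space of a set of rays with sum zero; lines in it
-/

open scoped Classical
open MvPolynomial

set_option linter.unusedSectionVars false

namespace Pool.Agent.LibTC1

open Pool.Agent.LibBH2 Pool.Agent.LibQC8

variable {ι : Type} [Fintype ι] {r : ℕ}

/-- the class of the lines -/
noncomputable def iS (S : Finset ι) (i : ι) : ℤ := if i ∈ S then 1 else 0

/-- the coordinates `x` on `S`, one elsewhere -/
noncomputable def ext (S : Finset ι) {R : Type} [One R] (x : ι → R) (i : ι) : R :=
  if i ∈ S then x i else 1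

/-- the line through `x` in the direction `y`, in the coordinates of `S` -/
noncomputable def ln (S : Finset ι) {R : Type} [CommRing R] (x y : ι → R) (i : ι) :
    Polynomial R :=
  if i ∈ S then Polynomial.C (x i) + Polynomial.C (y i) * Polynomial.X else 1

/-- `x` and `y` are linearly independent (coordinates in `S`) -/
def Ind (S : Finset ι) {R : Type} [CommRing R] (x y : ι → R) : Prop :=
  ∀ α β : R, (∀ i ∈ S, α * x i + β * y i = 0) → α = 0 ∧ β = 0

/-- `x` (coordinates in `S`) is not proportional to a vector with entries in `k` -/
def NC (k : Type) [Field k] {K : Type} [Field K] [Algebra k K] (S : Finset ι) (x : ι → K) :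
    Prop :=
  ¬ ∃ (c : ι → k) (t : K), ∀ i ∈ S, x i = t * algebraMap k K (c i)

end Pool.Agent.LibTC1
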